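import Pool.Agent.Lib.MP_2a1a00_nt.C.V3

/-! A decomposition of d3 on a dyadic block, and the sums with two small variables. -/

namespace Pool.Agent.Lib.MP_2a1a00_nt

open Complex MeasureTheory Set

/-- The indicator function of a finite set of positive numbers. -/
def bl1I (A : Finset ℕ) (h : 0 ∉ A) : ArithmeticFunction ℕ :=
  ⟨fun n => if n ∈ A then 1 else 0, if_neg h⟩

/-- The indicator function of the numbers above Q. -/
def bl1L (Q : ℕ) : ArithmeticFunction ℕ := ⟨fun n => if Q < n then 1 else 0, if_neg Q.not_lt_zero⟩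

theorem bl1_key {A : Finset ℕ} (h : 0 ∉ A) (g : ArithmeticFunction ℕ) (M N : ℕ) (G : ℕ → ℂ) :
    ∑ n ∈ Finset.Ioc M N, ((bl1I A h * g) n : ℂ) * G n =
      ∑ a ∈ A, ∑ k ∈ Finset.Ioc (M / a) (N / a), (g k : ℂ) * G (a * k) := by
  have h1 : ∀ n, ((bl1I A h * g) n : ℂ) * G n =
      ∑ x ∈ n.divisorsAntidiagonal with x.1 ∈ A, (g x.2 : ℂ) * G (x.1 * x.2) := fun n => by
    rw [ArithmeticFunction.mul_apply, Nat.cast_sum, Finset.sum_mul, Finset.sum_filter]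
    refine Finset.sum_congr rfl fun x hx => ?_
    rw [(Nat.mem_divisorsAntidiagonal.1 hx).1]
    simp [bl1I]
  simp only [h1]
  rw [Finset.sum_sigma', Finset.sum_sigma']
  refine Finset.sum_nbij' (fun p => ⟨p.2.1, p.2.2⟩) (fun p => ⟨p.1 * p.2, (p.1, p.2)⟩) ?_ ?_ ?_
    (fun _ _ => rfl) fun _ _ => rfl
  · rintro ⟨n, a, k⟩ hp
    simp only [Finset.mem_sigma, Finset.mem_filter, Nat.mem_divisorsAntidiagonal,
      Finset.mem_Ioc] at hp ⊢
    obtain ⟨⟨h2, h3⟩, ⟨rfl, -⟩, h4⟩ := hp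
    have h5 : 0 < a := Nat.pos_of_ne_zero fun e => h (e ▸ h4)
    exact ⟨h4, (Nat.div_lt_iff_lt_mul h5).2 (mul_comm a k ▸ h2),
      (Nat.le_div_iff_mul_le h5).2 (mul_comm a k ▸ h3)⟩
  · rintro ⟨a, k⟩ hp
    simp only [Finset.mem_sigma, Finset.mem_filter, Nat.mem_divisorsAntidiagonal,
      Finset.mem_Ioc] at hp ⊢
    obtain ⟨h4, h2, h3⟩ := hp
    have h5 : 0 < a := Nat.pos_of_ne_zero fun e => h (e ▸ h4)
    rw [Nat.div_lt_iff_lt_mul h5, mul_comm] at h2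
    rw [Nat.le_div_iff_mul_le h5, mul_comm] at h3
    exact ⟨⟨h2, h3⟩, ⟨trivial, h2.ne_bot⟩, h4⟩
  · rintro ⟨n, a, k⟩ hp
    simp only [Finset.mem_sigma, Finset.mem_filter, Nat.mem_divisorsAntidiagonal] at hp
    obtain ⟨-, ⟨rfl, -⟩, -⟩ := hp
    rfl

theorem bl1_le {f g : ArithmeticFunction ℕ} (hf : ∀ n, f n ≤ 1) (hg : ∀ n, g n ≤ 1) (k : ℕ) :
    (f * g) k ≤ k.divisors.card := by
  rw [ArithmeticFunction.mul_apply, Nat.sum_divisorsAntidiagonal fun a b => f a * g b]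
  exact (Finset.sum_le_card_nsmul _ _ 1 fun _ _ => mul_le_one' (hf _) (hg _)).trans_eq (mul_one _)

theorem bl1_zero {M n : ℕ} (hn : n ≤ 2 * M) (g : ArithmeticFunction ℕ) :
    (bl1L (Nat.sqrt (2 * M)) * bl1L (Nat.sqrt (2 * M)) * g) n = 0 := by
  rw [ArithmeticFunction.mul_apply]
  refine Finset.sum_eq_zero fun x hx => mul_eq_zero_of_left ?_ _
  rw [ArithmeticFunction.mul_apply]
  refine Finset.sum_eq_zero fun y hy => not_not.1 fun h => ?_
  have h1 : Nat.sqrt (2 * M) < y.1 := not_not.1 fun e => left_ne_zero_of_mul h (if_neg e)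
  have h2 : Nat.sqrt (2 * M) < y.2 := not_not.1 fun e => right_ne_zero_of_mul h (if_neg e)
  have h3 := Nat.mul_le_mul (Nat.succ_le_of_lt h1) (Nat.succ_le_of_lt h2)
  have h4 := Nat.lt_succ_sqrt (2 * M)
  have h5 := Nat.divisor_le (Nat.fst_mem_divisors_of_mem_antidiagonal hx)
  rw [(Nat.mem_divisorsAntidiagonal.1 hy).1] at h3
  omega

theorem bl1_pw {x c : ℝ} (hx : 0 ≤ x) (n m : ℕ) (h : n * c = m) : (x ^ n) ^ c = x ^ m := by
  rw [← Real.rpow_natCast, ← Real.rpow_mul hx, h, Real.rpow_natCast]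

theorem bl1_root {x : ℝ} (hx : 1 ≤ x) {n : ℕ} (hn : n ≠ 0) : ∃ t : ℝ, 1 ≤ t ∧ x = t ^ n :=
  ⟨x ^ (n : ℝ)⁻¹, Real.one_le_rpow hx (by positivity),
    (Real.rpow_inv_natCast_pow (by linarith) hn).symm⟩

/- Let Q = Nat.sqrt (2 M) and let s, m, l : ArithmeticFunction ℝ be the indicators of 1 ≤ n < H,
H ≤ n ≤ Q, Q < n, so ζ = s + m + l (H ≤ Q).  Then ζ ^ 3 = m * β + (s + l) ^ 3 with
β = ζ ^ 2 + ζ * (s + l) + (s + l) ^ 2, and at n ∈ (M, 2 M] the functions s ^ 3 and l ^ 2 * g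
vanish.  A first lemma: ∑ n ∈ Ioc M N, (f * g) n * G n = ∑ a ∈ Icc 1 N, f a * ∑ k ∈ Ioc (M / a) (N / a),
g k * G (a * k). -/
theorem bl_dec {H M N : ℕ} (hH : 1 ≤ H) (h3 : H ^ 3 ≤ M) (hN : N ≤ 2 * M) :
    ∃ β : ℕ → ℝ, (∀ k, |β k| ≤ 3 * dv k) ∧ ∀ g : ℕ → ℂ,
      ∑ n ∈ Finset.Ioc M N, (d3 n : ℂ) * g n =
        ∑ a ∈ Finset.Icc H (Nat.sqrt (2 * M)), ∑ k ∈ Finset.Ioc (M / a) (N / a),
          (β k : ℂ) * g (a * k) +
        3 * ∑ a ∈ Finset.Ico 1 H, ∑ b ∈ Finset.Ico 1 H,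
          ∑ l ∈ Finset.Ioc (max (M / (a * b)) (Nat.sqrt (2 * M))) (N / (a * b)), g (a * b * l) := by
  have hQ : H ≤ Nat.sqrt (2 * M) := Nat.le_sqrt.2 (by
    have : H * H * 1 ≤ H * H * H := Nat.mul_le_mul_left _ hH
    rw [pow_succ, sq] at h3
    omega)
  have hs : 0 ∉ Finset.Ico 1 H := by simp
  have hm : 0 ∉ Finset.Icc H (Nat.sqrt (2 * M)) := fun h => by
    have := (Finset.mem_Icc.1 h).1
    omega
  have hz := fun n (hn : n ≤ N) => bl1_zero (hn.trans hN)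
  generalize Nat.sqrt (2 * M) = Q at *
  have h1 : ∀ n, (bl1I _ hs + bl1L Q) n ≤ 1 := fun n => by
    simp only [ArithmeticFunction.add_apply, bl1I, bl1L, ArithmeticFunction.coe_mk, Finset.mem_Ico]
    split_ifs <;> omega
  have h2 : ∀ n, ArithmeticFunction.zeta n ≤ 1 := fun n => by
    rw [ArithmeticFunction.zeta_apply]
    split_ifs <;> omega
  have h4 : ArithmeticFunction.zeta = bl1I _ hs + bl1I _ hm + bl1L Q := by
    ext n
    simp only [ArithmeticFunction.add_apply, bl1I, bl1L, ArithmeticFunction.coe_mk, Finset.mem_Ico,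
      Finset.mem_Icc, ArithmeticFunction.zeta_apply]
    split_ifs <;> omega
  obtain ⟨β, hβ⟩ : ∃ β, β = ArithmeticFunction.zeta * ArithmeticFunction.zeta +
    ArithmeticFunction.zeta * (bl1I _ hs + bl1L Q) + (bl1I _ hs + bl1L Q) * (bl1I _ hs + bl1L Q) :=
    ⟨_, rfl⟩
  have h5 : ArithmeticFunction.zeta ^ 3 = bl1I _ hm * β + bl1I _ hs * (bl1I _ hs * bl1I _ hs) +
      3 • (bl1I _ hs * (bl1I _ hs * bl1L Q)) + bl1L Q * bl1L Q * (3 • bl1I _ hs + bl1L Q) := by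
    rw [hβ, h4]
    simp only [nsmul_eq_mul]
    push_cast
    ring
  refine ⟨fun k => β k, fun k => ?_, fun g => ?_⟩
  · have h6 := add_le_add (add_le_add (bl1_le h2 h2 k) (bl1_le h2 h1 k)) (bl1_le h1 h1 k)
    rw [← ArithmeticFunction.add_apply, ← ArithmeticFunction.add_apply, ← hβ] at h6
    rw [Nat.abs_cast, dv]
    exact_mod_cast h6.trans_eq (by ring)
  have h6 : ∑ n ∈ Finset.Ioc M N, ((bl1I _ hs * (bl1I _ hs * bl1I _ hs)) n : ℂ) * g n = 0 := by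
    simp only [bl1_key hs]
    refine Finset.sum_eq_zero fun a ha => Finset.sum_eq_zero fun b hb =>
      Finset.sum_eq_zero fun j hj => mul_eq_zero_of_left (Nat.cast_eq_zero.2 (if_neg fun h => ?_)) _
    rw [Finset.mem_Ico] at ha hb h
    have h7 := (Nat.div_lt_iff_lt_mul ha.1).1 ((Nat.div_lt_iff_lt_mul hb.1).1
      (Finset.mem_Ioc.1 hj).1)
    have h8 := Nat.mul_le_mul (Nat.mul_le_mul h.2.le hb.2.le) ha.2.le
    rw [pow_succ, sq] at h3
    omega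
  have h7 : ∑ n ∈ Finset.Ioc M N, ((bl1I _ hs * (bl1I _ hs * bl1L Q)) n : ℂ) * g n =
      ∑ a ∈ Finset.Ico 1 H, ∑ b ∈ Finset.Ico 1 H,
        ∑ l ∈ Finset.Ioc (max (M / (a * b)) Q) (N / (a * b)), g (a * b * l) := by
    simp only [bl1_key hs, Nat.div_div_eq_div_mul, mul_assoc]
    refine Finset.sum_congr rfl fun a _ => Finset.sum_congr rfl fun b _ => ?_
    simp only [bl1L, ArithmeticFunction.coe_mk, Nat.cast_ite, Nat.cast_one, Nat.cast_zero, ite_mul,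
      one_mul, zero_mul, ← Finset.sum_filter]
    refine Finset.sum_congr (Finset.ext fun j => ?_) fun _ _ => rfl
    simp only [Finset.mem_filter, Finset.mem_Ioc, max_lt_iff, and_right_comm]
  simp only [ofReal_natCast]
  rw [← bl1_key hm, ← h7, ← add_zero (Finset.sum _ fun n => ((bl1I _ hm * β) n : ℂ) * g n), ← h6,
    Finset.mul_sum, ← Finset.sum_add_distrib, ← Finset.sum_add_distrib]
  refine Finset.sum_congr rfl fun n hn => ?_
  rw [d3, h5, ArithmeticFunction.add_apply, hz n (Finset.mem_Ioc.1 hn).2]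
  simp only [three_nsmul, ArithmeticFunction.add_apply]
  push_cast
  ring

/- e3_mul, vd3 with K = M / (a b) ≥ 1 and u * (a b) ^ (1 / 3): the inner sum is at most
C (√|u| * M ^ (1 / 6) + M ^ (5 / 6) / √|u|) ≤ C' M ^ (7 / 12), and H ^ 2 ≤ M ^ (1 / 3). -/
theorem bl_one : ∃ C : ℝ, 0 < C ∧ ∀ (H M N Q : ℕ) (u : ℝ), 1 ≤ M → H ^ 6 ≤ M → N ≤ 2 * M →
    √(M : ℝ) ≤ |u| → |u| ≤ 40 * (M : ℝ) ^ (5 / 6 : ℝ) →
    ‖∑ a ∈ Finset.Ico 1 H, ∑ b ∈ Finset.Ico 1 H,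
      ∑ l ∈ Finset.Ioc (max (M / (a * b)) Q) (N / (a * b)), e3 u (a * b * l)‖ ≤
      C * (M : ℝ) ^ (11 / 12 : ℝ) := by
  obtain ⟨C, hC, h⟩ := vd3
  refine ⟨C * 8, by positivity, fun H M N Q u hM hH hN h1 h2 => ?_⟩
  obtain ⟨t, ht, e⟩ := bl1_root (x := M) (by exact_mod_cast hM) (n := 12) (by norm_num)
  have t0 : 0 < t := by linarith
  have h3 : (H : ℝ) ^ 2 ≤ t ^ 4 := (pow_le_pow_iff_left₀ (by positivity) (by positivity)
    three_ne_zero).1 (by rw [← pow_mul, ← pow_mul, ← e]; exact_mod_cast hH)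
  rw [e, Real.sqrt_eq_rpow, bl1_pw t0.le 12 6 (by norm_num)] at h1
  rw [e, bl1_pw t0.le 12 10 (by norm_num)] at h2
  have h4 : t ^ 3 ≤ √|u| := Real.le_sqrt_of_sq_le (by rwa [← pow_mul])
  have h5 : √|u| ≤ 7 * t ^ 5 := Real.sqrt_le_iff.2 ⟨by positivity, h2.trans (by
    rw [mul_pow, ← pow_mul]
    gcongr
    norm_num)⟩
  have u0 : u ≠ 0 := abs_pos.1 (lt_of_lt_of_le (by positivity) h1)
  have h6 : ∀ a ∈ Finset.Ico 1 H, ∀ b ∈ Finset.Ico 1 H,
      ‖∑ l ∈ Finset.Ioc (max (M / (a * b)) Q) (N / (a * b)), e3 u (a * b * l)‖ ≤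
        C * 8 * t ^ 7 := fun a ha b hb => by
    rw [Finset.mem_Ico] at ha hb
    have d1 : 1 ≤ a * b := Nat.mul_pos ha.1 hb.1
    have d2 : a * b ≤ M := (Nat.mul_le_mul ha.2.le hb.2.le).trans (le_trans (by
      rw [← sq]
      exact Nat.pow_le_pow_right (by omega) (by norm_num)) hH)
    generalize a * b = d at d1 d2 ⊢
    have d0 : (0 : ℝ) < d := by exact_mod_cast d1
    have k1 : (1 : ℝ) ≤ M / d := (one_le_div d0).2 (by exact_mod_cast d2)
    have k2 : (M : ℝ) / d ≤ (max (M / d) Q + 1 : ℕ) := by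
      rw [div_le_iff₀ d0]
      exact_mod_cast ((Nat.div_lt_iff_lt_mul d1).1 (Nat.lt_succ_of_le (le_max_left _ Q))).le
    have k3 : ((N / d + 1 : ℕ) : ℝ) ≤ 8 * (M / d) := by
      have k4 : ((N / d : ℕ) : ℝ) ≤ 2 * M / d :=
        Nat.cast_div_le.trans (div_le_div_of_nonneg_right (by exact_mod_cast hN) d0.le)
      rw [mul_div_assoc] at k4
      push_cast
      linarith
    have k4 := h (u * (d : ℝ) ^ (1 / 3 : ℝ)) _ _ _ (by positivity) (by positivity) k2 k3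
    simp only [← e3_mul] at k4
    rw [Finset.Ico_add_one_add_one_eq_Ioc] at k4
    refine k4.trans ?_
    obtain ⟨r, hr, e'⟩ := bl1_root (x := d) (by exact_mod_cast d1) (n := 6) (by norm_num)
    have r0 : 0 < r := by linarith
    rw [e, e', show t ^ 12 / r ^ 6 = (t ^ 2 / r) ^ 6 by rw [div_pow, ← pow_mul],
      bl1_pw r0.le 6 2 (by norm_num), bl1_pw (by positivity) 6 1 (by norm_num),
      bl1_pw (by positivity) 6 5 (by norm_num), abs_mul, abs_sq, Real.sqrt_mul (abs_nonneg _),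
      Real.sqrt_sq r0.le, mul_assoc C]
    refine mul_le_mul_of_nonneg_left ?_ hC.le
    have k5 : √|u| * r * (t ^ 2 / r) ^ 1 ≤ 7 * t ^ 7 := by
      rw [pow_one, mul_assoc, mul_div_cancel₀ _ r0.ne']
      exact (mul_le_mul_of_nonneg_right h5 (by positivity)).trans_eq (by ring)
    have k6 : (t ^ 2 / r) ^ 5 / (√|u| * r) ≤ (t ^ 2 / 1) ^ 5 / (t ^ 3 * 1) := by gcongr
    rw [show (t ^ 2 / 1) ^ 5 / (t ^ 3 * 1) = t ^ 7 by field_simp] at k6
    linarith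
  have h7 : ((Finset.Ico 1 H).card : ℝ) ≤ H := by exact_mod_cast by simp
  refine (norm_sum_le _ _).trans ((Finset.sum_le_card_nsmul _ _ _ fun a ha =>
    (norm_sum_le _ _).trans (Finset.sum_le_card_nsmul _ _ _ (h6 a ha))).trans ?_)
  rw [e, bl1_pw t0.le 12 11 (by norm_num), nsmul_eq_mul, nsmul_eq_mul, ← mul_assoc]
  exact (mul_le_mul_of_nonneg_right ((mul_self_le_mul_self (Nat.cast_nonneg _) h7).trans
    ((sq _).symm.trans_le h3)) (by positivity)).trans_eq (by ring)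

end Pool.Agent.Lib.MP_2a1a00_nt
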