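import Pool.Agent.Lib.MP_2a1a00_nt.C.V3
import Pool.Agent.Lib.MP_2a1a00_nt.V.H4

/-! The bilinear sum over a short range of the first variable. -/

namespace Pool.Agent.Lib.MP_2a1a00_nt

open Complex MeasureTheory Set

theorem bl2_gram (S T : Finset ℕ) (J : ℕ → Finset ℕ) (hJ : ∀ a ∈ S, J a ⊆ T) (β : ℕ → ℂ)
    (f : ℕ → ℕ → ℂ) {K : ℝ} (hK : ∀ k ∈ T, ‖β k‖ ≤ K) :
    ‖∑ a ∈ S, ∑ k ∈ J a, β k * f a k‖ ^ 2 ≤ K ^ 2 * T.card *
      ∑ a ∈ S, ∑ a' ∈ S, ‖∑ k ∈ J a ∩ J a', f a k * (starRingEnd ℂ) (f a' k)‖ := by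
  have h1 : ∑ a ∈ S, ∑ k ∈ J a, β k * f a k =
      ∑ k ∈ T, β k * ∑ a ∈ S, if k ∈ J a then f a k else 0 := by
    simp only [Finset.mul_sum, mul_ite, mul_zero]
    rw [Finset.sum_comm]
    exact Finset.sum_congr rfl fun a ha => by
      rw [Finset.sum_ite_mem, Finset.inter_eq_right.2 (hJ a ha)]
  have h2 : ((∑ k ∈ T, ‖∑ a ∈ S, if k ∈ J a then f a k else 0‖ ^ 2 : ℝ) : ℂ) =
      ∑ a ∈ S, ∑ a' ∈ S, ∑ k ∈ J a ∩ J a', f a k * (starRingEnd ℂ) (f a' k) := by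
    simp only [ofReal_sum, ofReal_pow, ← Complex.mul_conj', map_sum, Finset.sum_mul_sum]
    rw [Finset.sum_comm]
    refine Finset.sum_congr rfl fun a ha => ?_
    rw [Finset.sum_comm]
    refine Finset.sum_congr rfl fun a' _ => ?_
    rw [← Finset.inter_eq_right.2 (Finset.inter_subset_left.trans (hJ a ha) : J a ∩ J a' ⊆ T),
      ← Finset.sum_ite_mem]
    refine Finset.sum_congr rfl fun k _ => ?_
    by_cases e : k ∈ J a <;> by_cases e' : k ∈ J a' <;> simp [e, e']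
  have h3 : ∑ k ∈ T, ‖∑ a ∈ S, if k ∈ J a then f a k else 0‖ ^ 2 ≤
      ∑ a ∈ S, ∑ a' ∈ S, ‖∑ k ∈ J a ∩ J a', f a k * (starRingEnd ℂ) (f a' k)‖ := by
    refine (le_abs_self _).trans ?_
    rw [← Real.norm_eq_abs, ← Complex.norm_real, h2]
    exact (norm_sum_le _ _).trans (Finset.sum_le_sum fun _ _ => norm_sum_le _ _)
  have h4 : ‖∑ a ∈ S, ∑ k ∈ J a, β k * f a k‖ ≤
      |K| * ∑ k ∈ T, ‖∑ a ∈ S, if k ∈ J a then f a k else 0‖ := by
    rw [h1, Finset.mul_sum]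
    exact (norm_sum_le _ _).trans (Finset.sum_le_sum fun k hk => (norm_mul_le _ _).trans
      (mul_le_mul_of_nonneg_right ((hK k hk).trans (le_abs_self K)) (norm_nonneg _)))
  refine (pow_le_pow_left₀ (norm_nonneg _) h4 2).trans ?_
  rw [mul_pow, sq_abs, mul_assoc]
  exact mul_le_mul_of_nonneg_left (sq_sum_le_card_mul_sum_sq.trans
    (mul_le_mul_of_nonneg_left h3 (Nat.cast_nonneg _))) (sq_nonneg K)

theorem bl2_conj (u : ℝ) (a a' k : ℕ) : e3 u (a * k) * (starRingEnd ℂ) (e3 u (a' * k)) =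
    e3 (u * ((a : ℝ) ^ (1 / 3 : ℝ) - (a' : ℝ) ^ (1 / 3 : ℝ))) k := by
  rw [e3_mul, e3_mul, e3, e3, e3, ← exp_conj, map_mul, conj_I, conj_ofReal, ← exp_add]
  congr 1
  push_cast
  ring

theorem bl2_num {m α κ w : ℝ} (hm : 1 ≤ m) (hα : 0 < α) (hκ : 0 ≤ κ) (hw : 0 ≤ w)
    (h1 : 2 * α ^ 3 * κ ^ 6 = m ^ 24) (h2 : α ^ 3 ≤ 2 * m ^ 12)
    (h3 : m ^ 12 ≤ 16 * (w * α) ^ 2) (h4 : (w * α) ^ 2 ≤ 16 * m ^ 24) :
    w * κ + κ ^ 5 / w ≤ 12 * m ^ 22 / α ^ 3 := by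
  have m0 : 0 < m := by linarith
  have a1 : w * α ≤ 4 * m ^ 12 := (abs_le_of_sq_le_sq' (by linarith) (by positivity)).2
  have a2 : m ^ 6 ≤ 4 * (w * α) := (abs_le_of_sq_le_sq' (by linarith) (by positivity)).2
  have w0 : 0 < w := pos_of_mul_pos_left (by linarith [pow_pos m0 6]) hα.le
  have a3 : (α ^ 3) ^ 3 ≤ (2 * m ^ 12) ^ 3 := pow_le_pow_left₀ (by positivity) h2 3
  have a4 : κ * α ^ 2 ≤ 2 * m ^ 10 := le_of_pow_le_pow_left₀ (n := 6) (by norm_num)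
    (by positivity) (by
      have : (κ * α ^ 2) ^ 6 = m ^ 24 * (α ^ 3) ^ 3 / 2 := by rw [← h1]; ring
      rw [this]
      nlinarith [mul_le_mul_of_nonneg_left a3 (pow_pos m0 24).le, pow_pos m0 60])
  have a5 : κ ^ 5 * α ^ 4 ≤ m ^ 26 := le_of_pow_le_pow_left₀ (n := 6) (by norm_num)
    (by positivity) (by
      have : (κ ^ 5 * α ^ 4) ^ 6 = (m ^ 24) ^ 5 * (α ^ 3) ^ 3 / 32 := by rw [← h1]; ring
      rw [this]
      nlinarith [mul_le_mul_of_nonneg_left a3 (pow_pos m0 120).le, pow_pos m0 156])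
  have a6 : m ^ 26 ≤ m ^ 28 := pow_le_pow_right₀ hm (by norm_num)
  rw [le_div_iff₀ (by positivity), add_mul]
  have b1 : w * κ * α ^ 3 ≤ 8 * m ^ 22 := by
    have := mul_le_mul a1 a4 (by positivity) (by positivity)
    linarith
  have b2 : κ ^ 5 / w * α ^ 3 ≤ 4 * m ^ 22 := by
    rw [div_mul_eq_mul_div, div_le_iff₀ w0]
    refine le_of_mul_le_mul_right ?_ hα
    have := mul_le_mul_of_nonneg_left a2 (pow_pos m0 22).le
    linarith
  linarith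

theorem bl2_gap {α x y h : ℝ} (hα : 0 < α) (hx : α ≤ x) (hx' : x ≤ 2 * α) (hy : α ≤ y)
    (hy' : y ≤ 2 * α) (h1 : 1 ≤ |x ^ 3 - y ^ 3|) (h2 : |x ^ 3 - y ^ 3| ≤ h) :
    1 ≤ 16 * (|x - y| * α ^ 2) ∧ 3 * (|x - y| * α ^ 2) ≤ h := by
  have e : |x ^ 3 - y ^ 3| = |x - y| * (x ^ 2 + x * y + y ^ 2) := by
    rw [← abs_of_nonneg (by nlinarith : 0 ≤ x ^ 2 + x * y + y ^ 2), ← abs_mul]
    congr 1
    ring
  have a1 := mul_le_mul_of_nonneg_left (by nlinarith : x ^ 2 + x * y + y ^ 2 ≤ 16 * α ^ 2)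
    (abs_nonneg (x - y))
  have a2 := mul_le_mul_of_nonneg_left (by nlinarith : 3 * α ^ 2 ≤ x ^ 2 + x * y + y ^ 2)
    (abs_nonneg (x - y))
  exact ⟨by linarith, by linarith⟩

theorem bl2_root {x : ℝ} (hx : 0 ≤ x) (n : ℕ) [NeZero n] : (x ^ (1 / n : ℝ)) ^ n = x := by
  rw [one_div, Real.rpow_inv_natCast_pow hx (NeZero.ne n)]

/- Put K = M / A (real, ≥ √(M / 2)).  All k lie in Icc 1 (2 M / A).  Cauchy-Schwarz in k:
the square is at most K₀² * 2 K * ∑ k, ‖∑ a ∈ S, if k ∈ Ioc (M / a) (N / a) then e3 u (a k) else 0‖²,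
and the last sum is ∑ a, ∑ a', ∑ k ∈ Ioc (max ..) (min ..), e3 (u (a ^ (1/3) - a' ^ (1/3))) k
(compare vhz_gram).  Diagonal: ≤ H * 2 K ≤ 4 H² K M ^ (-1 / 6).  Otherwise vd3 with K / 2 and
|u| (2 A) ^ (-2 / 3) / 3 ≤ |u'| ≤ |u| H A ^ (-2 / 3) (h4_gap for the lower bound) gives
C (M ^ (2 / 3) / √A + K ^ (5 / 6) A ^ (1 / 3) / M ^ (1 / 4)) ≤ C' K M ^ (-1 / 12) as A ^ 2 ≤ 2 M. -/
theorem bl_two : ∃ C : ℝ, 0 < C ∧ ∀ (β : ℕ → ℂ) (S : Finset ℕ) (A H M N : ℕ) (u K₀ : ℝ), 1 ≤ H →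
    H ≤ A → H ^ 6 ≤ M → M ≤ 64 * H ^ 6 → A ^ 2 ≤ 2 * M → N ≤ 2 * M → S ⊆ Finset.Ico A (A + H) →
    (∀ k ≤ 2 * M, ‖β k‖ ≤ K₀) → √(M : ℝ) ≤ |u| → |u| ≤ 40 * (M : ℝ) ^ (5 / 6 : ℝ) →
    ‖∑ a ∈ S, ∑ k ∈ Finset.Ioc (M / a) (N / a), β k * e3 u (a * k)‖ ≤
      C * K₀ * ((H : ℝ) / A) * (M : ℝ) ^ (23 / 24 : ℝ) := by
  obtain ⟨C, C0, hC⟩ := vd3
  refine ⟨8 + 24 * C, by positivity, fun β S A H M N u K₀ h1 h2 h3 h4 h5 h6 hS hβ u1 u2 => ?_⟩
  have M1 : 1 ≤ M := (Nat.one_le_pow _ _ h1).trans h3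
  have A1 : 1 ≤ A := h1.trans h2
  have A0 : (0 : ℝ) < A := by exact_mod_cast A1
  have H0 : (0 : ℝ) ≤ H := H.cast_nonneg
  have K0 := (norm_nonneg _).trans (hβ 0 (Nat.zero_le _))
  have pw : ∀ n : ℕ, (M : ℝ) ^ (n / 24 : ℝ) = ((M : ℝ) ^ (1 / 24 : ℝ)) ^ n := fun n => by
    rw [← Real.rpow_natCast, ← Real.rpow_mul M.cast_nonneg]
    congr 1
    ring
  have m1 : 1 ≤ (M : ℝ) ^ (1 / 24 : ℝ) := Real.one_le_rpow (by exact_mod_cast M1) (by norm_num)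
  have p12 := pw 12
  have p20 := pw 20
  have p23 := pw 23
  have p24 := pw 24
  rw [Real.sqrt_eq_rpow] at u1
  norm_num only [Nat.cast_ofNat, Real.rpow_one] at p12 p20 p23 p24
  rw [p12] at u1
  rw [p20] at u2
  rw [p23]
  generalize (M : ℝ) ^ (1 / 24 : ℝ) = m at *
  have m0 : 0 < m := by linarith
  have H1 : (H : ℝ) ≤ m ^ 4 := le_of_pow_le_pow_left₀ (n := 6) (by norm_num) (by positivity)
    (by rw [← pow_mul, ← p24]; exact_mod_cast h3)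
  have H2 : m ^ 4 ≤ 2 * H := le_of_pow_le_pow_left₀ (n := 6) (by norm_num) (by positivity)
    (by rw [← pow_mul, ← p24, mul_pow]; exact_mod_cast h4)
  have A2 : (A : ℝ) ^ 2 ≤ 2 * m ^ 24 := by rw [← p24]; exact_mod_cast h5
  have A3 : (A : ℝ) ≤ 2 * m ^ 12 := le_of_pow_le_pow_left₀ (n := 2) (by norm_num) (by positivity)
    (by nlinarith [pow_pos m0 24])
  have hd : ∀ a ∈ S, N / a ≤ 2 * M / A := fun a ha =>
    Nat.div_le_div h6 (Finset.mem_Ico.1 (hS ha)).1 (by omega)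
  have hd' : ((2 * M / A : ℕ) : ℝ) ≤ 2 * m ^ 24 / A := by
    rw [← p24]
    exact_mod_cast (Nat.cast_div_le : ((2 * M / A : ℕ) : ℝ) ≤ _)
  have hc : (S.card : ℝ) ≤ H := by simpa using (Nat.cast_le (α := ℝ)).2 (Finset.card_le_card hS)
  have al := bl2_root A0.le 3
  have key : ∀ a ∈ S, ∀ a' ∈ S, ‖∑ k ∈ Finset.Ioc (M / a) (N / a) ∩ Finset.Ioc (M / a') (N / a'),
      e3 u (a * k) * (starRingEnd ℂ) (e3 u (a' * k))‖ ≤
      (if a = a' then 2 * m ^ 24 / A else 0) + C * (12 * m ^ 22 / A) := fun a ha a' ha' => by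
    simp only [bl2_conj]
    split_ifs with e
    · refine (norm_sum_le _ _).trans (le_add_of_le_of_nonneg ?_ (by positivity))
      simp only [norm_e3, Finset.sum_const, nsmul_eq_mul, mul_one, ← e, Finset.inter_self,
        Nat.card_Ioc]
      exact (Nat.cast_le.2 ((Nat.sub_le _ _).trans (hd a ha))).trans hd'
    have rt : ∀ b ∈ S, (A : ℝ) ^ (1 / 3 : ℝ) ≤ (b : ℝ) ^ (1 / 3 : ℝ) ∧
        (b : ℝ) ^ (1 / 3 : ℝ) ≤ 2 * (A : ℝ) ^ (1 / 3 : ℝ) ∧ ((b : ℝ) ^ (1 / 3 : ℝ)) ^ 3 = b ∧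
        (A : ℝ) ≤ b ∧ (b : ℝ) ≤ A + H := fun b hb => by
      have b1 : (A : ℝ) ≤ b := by exact_mod_cast (Finset.mem_Ico.1 (hS hb)).1
      have b2 : (b : ℝ) ≤ A + H := by exact_mod_cast (Finset.mem_Ico.1 (hS hb)).2.le
      have b3 : (H : ℝ) ≤ A := by exact_mod_cast h2
      have b4 := bl2_root (Nat.cast_nonneg (α := ℝ) b) 3
      refine ⟨Real.rpow_le_rpow A0.le b1 (by norm_num), le_of_pow_le_pow_left₀ (n := 3)
        (by norm_num) (by positivity) ?_, b4, b1, b2⟩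
      rw [mul_pow]
      push_cast at b4 al
      linarith
    obtain ⟨r1, r2, r3, r4, r5⟩ := rt a ha
    obtain ⟨s1, s2, s3, s4, s5⟩ := rt a' ha'
    obtain ⟨g1, g2⟩ := bl2_gap (Real.rpow_pos_of_pos A0 _) r1 r2 s1 s2 (h := H)
      (by rw [r3, s3]; exact_mod_cast Int.one_le_abs (sub_ne_zero.2 (Nat.cast_injective.ne e)))
      (by rw [r3, s3, abs_le]; constructor <;> linarith)
    have b3 : (H : ℝ) ≤ A := by exact_mod_cast h2
    have a0 : 0 < a := by have := (Finset.mem_Ico.1 (hS ha)).1; omega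
    have a0' : (0 : ℝ) < a := by exact_mod_cast a0
    have w2 := Real.sq_sqrt (abs_nonneg (u * ((a : ℝ) ^ (1 / 3 : ℝ) - (a' : ℝ) ^ (1 / 3 : ℝ))))
    have k6 := bl2_root (by positivity : 0 ≤ m ^ 24 / (2 * A)) 6
    push_cast at al k6
    rw [Finset.Ioc_inter_Ioc, ← Finset.Ico_add_one_add_one_eq_Ioc, zero_add]
    refine (hC _ (m ^ 24 / (2 * A)) _ _ (mul_ne_zero (abs_pos.1 (by linarith [pow_pos m0 12]))
      fun e' => by rw [e'] at g1; norm_num at g1) (by positivity) ?_ ?_).trans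
      (mul_le_mul_of_nonneg_left ?_ C0.le)
    · have c1 : (M : ℝ) < (M / a + 1 : ℕ) * a := by
        exact_mod_cast (Nat.lt_div_mul_add a0).trans_eq (by ring)
      have c2 : ((M / a + 1 : ℕ) : ℝ) ≤ (max (M / a) (M / a') + 1 : ℕ) :=
        Nat.cast_le.2 (Nat.succ_le_succ (le_max_left _ _))
      refine le_trans ?_ c2
      rw [div_le_iff₀ (by positivity), ← p24]
      exact c1.le.trans (mul_le_mul_of_nonneg_left (by linarith) (by positivity))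
    · have c1 : ((min (N / a) (N / a') : ℕ) : ℝ) ≤ 2 * m ^ 24 / A :=
        (Nat.cast_le.2 ((min_le_left _ _).trans (hd a ha))).trans hd'
      have c2 : 1 ≤ 2 * m ^ 24 / A := by
        rw [le_div_iff₀ A0]
        nlinarith [(by exact_mod_cast A1 : (1 : ℝ) ≤ A)]
      have c3 : 8 * (m ^ 24 / (2 * A)) = 2 * m ^ 24 / A + 2 * m ^ 24 / A := by field_simp; ring
      rw [Nat.cast_add_one, c3]
      exact add_le_add c1 c2
    · rw [show (5 / 6 : ℝ) = 1 / 6 * (5 : ℕ) by norm_num, Real.rpow_mul (by positivity),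
        Real.rpow_natCast]
      refine (bl2_num m1 (Real.rpow_pos_of_pos A0 (1 / 3)) (by positivity) (Real.sqrt_nonneg _)
        (by rw [al, k6]; field_simp) (al.trans_le A3) ?_ ?_).trans_eq (by rw [al])
      · rw [mul_pow, w2, abs_mul]
        nlinarith [mul_le_mul u1 g1 zero_le_one (abs_nonneg u)]
      · rw [mul_pow, w2, abs_mul]
        have := mul_le_mul u2 (g2.trans H1) (by positivity) (by positivity)
        nlinarith [pow_pos m0 24]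
  have g := bl2_gram S (Finset.Ioc 0 (2 * M / A)) (fun a => Finset.Ioc (M / a) (N / a))
    (fun a ha => Finset.Ioc_subset_Ioc (Nat.zero_le _) (hd a ha)) β (fun a k => e3 u (a * k))
    fun k hk => hβ k ((Finset.mem_Ioc.1 hk).2.trans (Nat.div_le_self _ _))
  have t : ∑ a ∈ S, ∑ a' ∈ S, ((if a = a' then 2 * m ^ 24 / A else 0) + C * (12 * m ^ 22 / A)) ≤
      (4 + 12 * C) * H ^ 2 * m ^ 22 / A := by
    rw [Finset.sum_congr rfl fun a ha => by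
      rw [Finset.sum_add_distrib, Finset.sum_ite_eq, if_pos ha, Finset.sum_const, nsmul_eq_mul],
      Finset.sum_const, nsmul_eq_mul]
    have c1 : m ^ 24 ≤ 2 * H * m ^ 22 := by
      have := mul_le_mul H2 (pow_le_pow_right₀ m1 (by norm_num : 20 ≤ 22)) (by positivity)
        (by positivity)
      linarith
    calc _ ≤ H * (2 * (2 * H * m ^ 22) / A + H * (C * (12 * m ^ 22 / A))) := by gcongr
      _ = _ := by ring
  rw [Nat.card_Ioc, Nat.sub_zero] at g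
  refine le_of_pow_le_pow_left₀ (n := 2) (by norm_num) (by positivity) (g.trans ?_)
  calc _ ≤ K₀ ^ 2 * (2 * m ^ 24 / A) * ((4 + 12 * C) * H ^ 2 * m ^ 22 / A) := by
        gcongr
        exact (Finset.sum_le_sum fun a ha => Finset.sum_le_sum fun a' ha' => key a ha a' ha').trans t
    _ = (8 + 24 * C) * (K₀ * (H / A) * m ^ 23) ^ 2 := by ring
    _ ≤ (8 + 24 * C) ^ 2 * (K₀ * (H / A) * m ^ 23) ^ 2 := by
        gcongr
        nlinarith
    _ = _ := by ring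

end Pool.Agent.Lib.MP_2a1a00_nt
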