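import Pool.Agent.Lib.MP_2a1a00_nt.C.V3
import Pool.Agent.Lib.MP_2a1a00_nt.V.Wc
import Pool.Agent.Lib.MP_2a1a00_nt.V.H4

/-! The fourth moment of a dyadic block of the Voronoi series. -/

namespace Pool.Agent.Lib.MP_2a1a00_nt

open Complex MeasureTheory Set

theorem l4_ker {s : ℝ} (hs : 0 < s) (θ : ℝ) : ∃ k : ℝ, 0 ≤ k ∧ ∀ x : ℝ,
    tri s (fun t => exp (I * (θ * t : ℝ))) x = exp (I * (θ * x : ℝ)) * k := by
  by_cases h : θ = 0
  · refine ⟨s, hs.le, fun x => ?_⟩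
    simp only [tri, h, zero_mul, ofReal_zero, mul_zero, exp_zero, mul_one, one_mul]
    rw [intervalIntegral.integral_ofReal, tri_mass hs]
  · refine ⟨(2 - 2 * Real.cos (θ * s)) / (s * θ ^ 2),
      div_nonneg (by linarith [Real.cos_le_one (θ * s)]) (by positivity), fun x => ?_⟩
    rw [tri_exp hs h, ofReal_div, ofReal_sub, ofReal_mul 2, ofReal_cos, ofReal_ofNat, two_cos,
      ← mul_div_assoc, mul_sub (exp _), mul_add (exp _), ← exp_add, ← exp_add]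
    congr 1
    push_cast
    ring_nf

theorem l4_exp {ι : Type} (S : Finset ι) (γ : ι → ℂ) (θ : ι → ℝ) (s x : ℝ) :
    ((∫ v in -s..s, (1 - |v| / s) * ‖∑ i ∈ S, γ i * exp (I * (θ i * (x + v) : ℝ))‖ ^ 2 : ℝ) : ℂ) =
      ∑ p ∈ S ×ˢ S, γ p.1 * (starRingEnd ℂ) (γ p.2) *
        tri s (fun t => exp (I * ((θ p.1 - θ p.2) * t : ℝ))) x := by
  rw [← tri_sum _ _ _ fun _ _ => by fun_prop, ← intervalIntegral.integral_ofReal, tri]
  refine intervalIntegral.integral_congr fun v _ => ?_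
  rw [ofReal_mul, ← normSq_eq_norm_sq, ← mul_conj, map_sum, Finset.sum_mul_sum, Finset.sum_product]
  congr 1
  refine Finset.sum_congr rfl fun i _ => Finset.sum_congr rfl fun j _ => ?_
  rw [map_mul, ← exp_conj, map_mul, conj_I, conj_ofReal, mul_mul_mul_comm, ← exp_add]
  push_cast
  ring_nf

/- Expand the square.  tri s (exp (i θ t)) x = exp (i θ x) * k θ with k θ = (2 - 2 cos (θ s)) / (s θ²)
(tri_exp) and k 0 = s (tri_mass), so k ≥ 0; the left side is at most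
∑ ω i * ω j * k (θ i - θ j), which is the right side. -/
theorem l4_maj {ι : Type} (S : Finset ι) (γ : ι → ℂ) (ω θ : ι → ℝ) (h : ∀ i ∈ S, ‖γ i‖ ≤ ω i)
    {s : ℝ} (hs : 0 < s) (x : ℝ) :
    ∫ v in -s..s, (1 - |v| / s) * ‖∑ i ∈ S, γ i * exp (I * (θ i * (x + v) : ℝ))‖ ^ 2 ≤
      ∫ v in -s..s, (1 - |v| / s) * ‖∑ i ∈ S, (ω i : ℂ) * exp (I * (θ i * v : ℝ))‖ ^ 2 := by
  choose k k0 hk using l4_ker hs
  have h1 := l4_exp S γ θ s x
  have h2 := l4_exp S (fun i => (ω i : ℂ)) θ s 0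
  simp only [hk, zero_add, mul_zero, ofReal_zero, exp_zero, one_mul, conj_ofReal, ← ofReal_mul,
    ← ofReal_sum, ofReal_inj] at h1 h2
  rw [h2]
  refine (le_abs_self _).trans ?_
  rw [← Real.norm_eq_abs, ← norm_real, h1]
  refine (norm_sum_le _ _).trans (Finset.sum_le_sum fun p hp => ?_)
  obtain ⟨a, b⟩ := Finset.mem_product.1 hp
  rw [norm_mul, norm_mul, norm_mul, norm_ei, one_mul, RCLike.norm_conj, norm_real,
    Real.norm_of_nonneg (k0 _)]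
  exact mul_le_mul_of_nonneg_right (mul_le_mul (h _ a) (h _ b) (norm_nonneg _)
    ((norm_nonneg _).trans (h _ a))) (k0 _)

theorem l4_pt {C κ k v S : ℝ} (hκ : κ ≠ 0) (hk : 0 < k) (hv : |v| ≤ k ^ 6) (h0 : 0 ≤ S)
    (h1 : S ≤ k ^ 6) (h2 : v ≠ 0 → S ≤ C * (√|κ * v| * k + k ^ 5 / √|κ * v|)) :
    S ^ 4 ≤ (8 * C ^ 4 * (κ ^ 2 + 2 / κ ^ 2) + 2) * (k ^ 16 + k ^ 24 / (1 + (k ^ 2 * v) ^ 2)) := by
  have p1 : 0 ≤ k ^ 24 / (1 + (k ^ 2 * v) ^ 2) := by positivity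
  have p2 : 0 ≤ k ^ 16 := by positivity
  rcases le_total ((k ^ 2 * v) ^ 2) 1 with h | h
  · have h3 : k ^ 24 / 2 ≤ k ^ 24 / (1 + (k ^ 2 * v) ^ 2) :=
      div_le_div_of_nonneg_left (by positivity) (by positivity) (by linarith)
    have h4 := pow_le_pow_left₀ h0 h1 4
    have h5 : 0 ≤ 8 * C ^ 4 * (κ ^ 2 + 2 / κ ^ 2) * (k ^ 16 + k ^ 24 / (1 + (k ^ 2 * v) ^ 2)) := by
      positivity
    linarith
  have v0 : v ≠ 0 := fun e => by norm_num [e] at h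
  have s0 : 0 < √|κ * v| := Real.sqrt_pos.2 (abs_pos.2 (mul_ne_zero hκ v0))
  have s4 : √|κ * v| ^ 4 = κ ^ 2 * v ^ 2 := by
    rw [show 4 = 2 * 2 from rfl, pow_mul, Real.sq_sqrt (abs_nonneg _), sq_abs, mul_pow]
  have h3 := pow_le_pow_left₀ h0 (h2 v0) 4
  have h4 := add_pow_le (mul_pos s0 hk).le (div_pos (pow_pos hk 5) s0).le 4
  have h5 : v ^ 2 ≤ (k ^ 6) ^ 2 := sq_le_sq' (abs_le.1 hv).1 (abs_le.1 hv).2
  have h6 : (k ^ 5) ^ 4 / (κ ^ 2 * v ^ 2) ≤ 2 / κ ^ 2 * (k ^ 24 / (1 + (k ^ 2 * v) ^ 2)) := by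
    rw [div_mul_div_comm, div_le_div_iff₀ (by positivity) (by positivity)]
    linarith [mul_le_mul_of_nonneg_left h (show 0 ≤ k ^ 20 * κ ^ 2 by positivity)]
  have h7 := mul_le_mul_of_nonneg_left h5 (show 0 ≤ κ ^ 2 * k ^ 4 by positivity)
  rw [mul_pow, div_pow, s4] at h4
  rw [mul_pow] at h3
  have h8 : (√|κ * v| * k + k ^ 5 / √|κ * v|) ^ 4 ≤
      8 * ((κ ^ 2 + 2 / κ ^ 2) * (k ^ 16 + k ^ 24 / (1 + (k ^ 2 * v) ^ 2))) := by
    linarith [mul_nonneg (sq_nonneg κ) p1, mul_nonneg (show 0 ≤ 2 / κ ^ 2 by positivity) p2]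
  linarith [mul_le_mul_of_nonneg_left h8 (show 0 ≤ C ^ 4 by positivity)]

/- For |v| ≤ M the sum is at most M and at most C (M ^ (2 / 3) + M ^ (5 / 6) / √|v|) (vd3 with
K = M), so its fourth power is at most C (M ^ (8 / 3) + M ^ 4 / (1 + (M ^ (1 / 3) v) ^ 2)); the last
function has the primitive M ^ (11 / 3) arctan (M ^ (1 / 3) v). -/
theorem l4_zero {κ : ℝ} (hκ : κ ≠ 0) : ∃ C : ℝ, 0 < C ∧ ∀ M N : ℕ, 1 ≤ M → N ≤ 2 * M →
    ∫ v in -(M : ℝ)..M, ‖∑ n ∈ Finset.Ioc M N, e3 (κ * v) n‖ ^ 4 ≤ C * (M : ℝ) ^ (11 / 3 : ℝ) := by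
  obtain ⟨C, hC, H⟩ := vd3
  refine ⟨(8 * C ^ 4 * (κ ^ 2 + 2 / κ ^ 2) + 2) * 6, by positivity, fun M N hM hN => ?_⟩
  have M1 : (1 : ℝ) ≤ M := by exact_mod_cast hM
  have N1 : (N : ℝ) ≤ 2 * M := by exact_mod_cast hN
  have M0 : (0 : ℝ) < M := by linarith
  have e5 := v3_six M0.le 5
  have e6 := v3_six M0.le 6
  have e22 := v3_six M0.le 22
  have k0 : 0 < (M : ℝ) ^ (1 / 6 : ℝ) := by positivity
  have h1 := fun v hv => H (κ * v) M (M + 1) (N + 1) (mul_ne_zero hκ hv) M0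
    (by push_cast; linarith) (by push_cast; linarith)
  rw [Nat.cast_ofNat] at e5 e6 e22
  rw [div_self (by norm_num), Real.rpow_one] at e6
  rw [Finset.Ico_add_one_add_one_eq_Ioc, e5] at h1
  rw [show (11 / 3 : ℝ) = 22 / 6 by norm_num, e22]
  generalize (M : ℝ) ^ (1 / 6 : ℝ) = k at *
  set D := 8 * C ^ 4 * (κ ^ 2 + 2 / κ ^ 2) + 2
  have h2 : ∀ v, HasDerivAt (fun v => D * (k ^ 16 * v + k ^ 22 * Real.arctan (k ^ 2 * v)))
      (D * (k ^ 16 + k ^ 24 / (1 + (k ^ 2 * v) ^ 2))) v := fun v =>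
    ((((hasDerivAt_id' v).const_mul _).fun_add
      (((hasDerivAt_id' v).const_mul (k ^ 2)).arctan.const_mul _)).const_mul D).congr_deriv (by ring)
  have h3 : Continuous fun v : ℝ => D * (k ^ 16 + k ^ 24 / (1 + (k ^ 2 * v) ^ 2)) := by
    fun_prop (disch := intro; positivity)
  refine (intervalIntegral.integral_mono_on (by linarith) (Continuous.intervalIntegrable
    (by unfold e3; fun_prop) _ _) (h3.intervalIntegrable _ _) fun v hv =>
      l4_pt hκ k0 (e6 ▸ abs_le.2 hv) (norm_nonneg _) ((norm_sum_le _ _).trans ?_) (h1 v)).trans ?_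
  · simp only [norm_e3, Finset.sum_const, Nat.card_Ioc, nsmul_eq_mul, mul_one, ← e6, Nat.cast_le]
    omega
  · rw [intervalIntegral.integral_eq_sub_of_hasDerivAt (fun v _ => h2 v) (h3.intervalIntegrable _ _),
      ← mul_sub, mul_assoc D, e6]
    refine mul_le_mul_of_nonneg_left ?_ (by positivity)
    have h4 := Real.arctan_lt_pi_div_two (k ^ 2 * k ^ 6)
    have h5 := Real.neg_pi_div_two_lt_arctan (k ^ 2 * -k ^ 6)
    nlinarith [Real.pi_le_four, pow_pos k0 22]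

theorem l4_cover {G : ℝ → ℝ} (hG : Continuous G) (h0 : ∀ v, 0 ≤ G v) {l B a b : ℝ} (hl : 0 < l)
    (h : ∀ x, ∫ v in x..x + l, G v ≤ B) (hab : a ≤ b) :
    ∫ v in a..b, G v ≤ ((b - a) / l + 1) * B := by
  have hB : 0 ≤ B :=
    (intervalIntegral.integral_nonneg (by linarith) fun v _ => h0 v).trans (h 0)
  have q0 : 0 ≤ (b - a) / l := div_nonneg (by linarith) hl.le
  have h1 := intervalIntegral.sum_integral_adjacent_intervals (μ := volume) (f := G)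
    (a := fun j : ℕ => a + j * l) (n := ⌈(b - a) / l⌉₊) fun _ _ => hG.intervalIntegrable _ _
  have h2 := (div_le_iff₀ hl).1 (Nat.le_ceil ((b - a) / l))
  simp only [Nat.cast_zero, zero_mul, add_zero] at h1
  refine (intervalIntegral.integral_mono_interval le_rfl hab (by linarith)
    (Filter.Eventually.of_forall h0) (hG.intervalIntegrable _ _)).trans (h1.ge.trans ?_)
  refine (Finset.sum_le_card_nsmul _ _ B fun j _ => ?_).trans ?_
  · rw [Nat.cast_succ, add_one_mul, ← add_assoc]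
    exact h _
  · rw [Finset.card_range, nsmul_eq_mul]
    exact mul_le_mul_of_nonneg_right (Nat.ceil_lt_add_one q0).le hB

theorem l4_sq (S : Finset ℕ) (c : ℕ → ℂ) (κ v : ℝ) : ‖∑ n ∈ S, c n * e3 (κ * v) n‖ ^ 4 =
    ‖∑ p ∈ S ×ˢ S, c p.1 * c p.2 *
      exp (I * (κ * ((p.1 : ℝ) ^ (1 / 3 : ℝ) + (p.2 : ℝ) ^ (1 / 3 : ℝ)) * v : ℝ))‖ ^ 2 := by
  rw [show 4 = 2 * 2 from rfl, pow_mul, ← norm_pow, sq (∑ n ∈ S, _), Finset.sum_mul_sum,
    Finset.sum_product]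
  congr 2
  refine Finset.sum_congr rfl fun i _ => Finset.sum_congr rfl fun j _ => ?_
  rw [mul_mul_mul_comm, e3, e3, ← exp_add]
  push_cast
  ring_nf

theorem l4_loc (S : Finset ℕ) (c : ℕ → ℂ) (κ : ℝ) {K s : ℝ} (hs : 0 < s)
    (hc : ∀ n ∈ S, ‖c n‖ ≤ K) (x : ℝ) :
    ∫ v in x..x + s, ‖∑ n ∈ S, c n * e3 (κ * v) n‖ ^ 4 ≤
      2 * K ^ 4 * ∫ v in -s..s, ‖∑ n ∈ S, e3 (κ * v) n‖ ^ 4 := by
  have h1 := l4_maj (S ×ˢ S) (fun p => c p.1 * c p.2) (fun _ => K * K)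
    (fun p => κ * ((p.1 : ℝ) ^ (1 / 3 : ℝ) + (p.2 : ℝ) ^ (1 / 3 : ℝ))) (fun p hp => by
      obtain ⟨a, b⟩ := Finset.mem_product.1 hp
      rw [norm_mul]
      exact mul_le_mul (hc _ a) (hc _ b) (norm_nonneg _) ((norm_nonneg _).trans (hc _ a)))
    hs (x + s / 2)
  simp only [ofReal_mul K, ← l4_sq S c, ← l4_sq S fun _ => (K : ℂ)] at h1
  simp only [← Finset.mul_sum, norm_mul, mul_pow, norm_real, Real.norm_eq_abs,
    Even.pow_abs (n := 4) (by norm_num)] at h1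
  obtain ⟨G, hG⟩ : ∃ G : ℝ → ℝ, G = fun v => ‖∑ n ∈ S, c n * e3 (κ * v) n‖ ^ 4 := ⟨_, rfl⟩
  obtain ⟨H, hH⟩ : ∃ H : ℝ → ℝ, H = fun v => ‖∑ n ∈ S, e3 (κ * v) n‖ ^ 4 := ⟨_, rfl⟩
  have cG : Continuous G := by
    rw [hG]
    unfold e3
    fun_prop
  have cH : Continuous H := by
    rw [hH]
    unfold e3
    fun_prop
  have G0 : ∀ v, 0 ≤ G v := fun v => by rw [hG]; positivity
  have H0 : ∀ v, 0 ≤ H v := fun v => by rw [hH]; positivity
  simp only [← congrFun hG, ← congrFun hH] at h1 ⊢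
  have w0 : ∀ v ∈ Icc (-s) s, 0 ≤ 1 - |v| / s := fun v hv =>
    sub_nonneg.2 ((div_le_one hs).2 (abs_le.2 hv))
  calc ∫ v in x..x + s, G v = ∫ v in -(s / 2)..s / 2, G (x + s / 2 + v) := by
        rw [intervalIntegral.integral_comp_add_left]
        congr 1 <;> ring
    _ ≤ ∫ v in -(s / 2)..s / 2, 2 * ((1 - |v| / s) * G (x + s / 2 + v)) := by
        refine intervalIntegral.integral_mono_on (by linarith)
          (Continuous.intervalIntegrable (by fun_prop) _ _)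
          (Continuous.intervalIntegrable (by fun_prop) _ _) fun v hv => ?_
        have h2 : |v| / s ≤ 1 / 2 := by
          rw [div_le_iff₀ hs]
          linarith [abs_le.2 hv]
        nlinarith [G0 (x + s / 2 + v)]
    _ ≤ ∫ v in -s..s, 2 * ((1 - |v| / s) * G (x + s / 2 + v)) :=
        intervalIntegral.integral_mono_interval (by linarith) (by linarith) (by linarith)
          ((ae_restrict_iff' measurableSet_Ioc).2 (ae_of_all _ fun v hv =>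
            mul_nonneg zero_le_two (mul_nonneg (w0 v ⟨hv.1.le, hv.2⟩) (G0 _))))
          (Continuous.intervalIntegrable (by fun_prop) _ _)
    _ ≤ 2 * ∫ v in -s..s, K ^ 4 * H v := by
        rw [intervalIntegral.integral_const_mul]
        refine mul_le_mul_of_nonneg_left (h1.trans (intervalIntegral.integral_mono_on (by linarith)
          (Continuous.intervalIntegrable (by fun_prop) _ _)
          (Continuous.intervalIntegrable (by fun_prop) _ _) fun v _ => ?_)) zero_le_two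
        exact mul_le_of_le_one_left (mul_nonneg (by positivity) (H0 v))
          (sub_le_self _ (by positivity))
    _ = _ := by rw [intervalIntegral.integral_const_mul, mul_assoc]

theorem l4_four {T p : ℝ} (hT : 0 ≤ T) (hp : p ≤ 2) : (4 * T) ^ p ≤ 16 * T ^ p := by
  rw [Real.mul_rpow (by norm_num) hT]
  refine mul_le_mul_of_nonneg_right ?_ (by positivity)
  exact (Real.rpow_le_rpow_of_exponent_le (by norm_num) hp).trans (by norm_num)

/- ts_e3, vh4_sub with d = 3 (factor 3 (4 T) ^ (2 / 3), range of length ≤ 2 T ^ (1 / 3)).  Cover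
the range by at most 2 T ^ (1 / 3) / M + 1 intervals of length M; on |v| ≤ M / 2 the triangular
weight with s = M is at least 1 / 2.  Apply l4_maj to the square of the sum (pairs m, n,
ω = K ^ 2), then l4_zero. -/
theorem l4_ts {κ : ℝ} (hκ : κ ≠ 0) : ∃ C : ℝ, 0 < C ∧ ∀ (c : ℕ → ℂ) (M N : ℕ) (K T : ℝ), 1 ≤ T →
    1 ≤ M → N ≤ 2 * M → (∀ n ∈ Finset.Ioc M N, ‖c n‖ ≤ K) →
    wd 4 (ts 3 κ c M N) T ≤
      C * K ^ 4 * (T * (M : ℝ) ^ (8 / 3 : ℝ) + T ^ (2 / 3 : ℝ) * (M : ℝ) ^ (11 / 3 : ℝ)) := by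
  obtain ⟨C, hC, h⟩ := l4_zero hκ
  refine ⟨96 * C, by positivity, fun c M N K T hT hM hN hc => ?_⟩
  have T0 : 0 < T / 2 := by linarith
  have T1 : T / 2 ≤ 4 * T := by linarith
  have T4 : 0 < 4 * T := by linarith
  have M0 : (0 : ℝ) < M := by exact_mod_cast hM
  have h1 := fun x => (l4_loc _ c κ M0 hc x).trans
    (mul_le_mul_of_nonneg_left (h M N hM hN) (by positivity))
  obtain ⟨G, hG⟩ : ∃ G : ℝ → ℝ, G = fun v => ‖∑ n ∈ Finset.Ioc M N, c n * e3 (κ * v) n‖ ^ 4 :=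
    ⟨_, rfl⟩
  have cG : Continuous G := by
    rw [hG]
    unfold e3
    fun_prop
  have G0 : ∀ v, 0 ≤ G v := fun v => by rw [hG]; positivity
  simp only [← congrFun hG] at h1
  have e1 : wd 4 (ts 3 κ c M N) T = ∫ x in T / 2..4 * T, G (x ^ (1 / 3 : ℝ)) := by
    refine intervalIntegral.integral_congr fun x hx => ?_
    rw [uIcc_of_le T1] at hx
    simp only [hG, ts_e3 κ c M N (T0.le.trans hx.1)]
  have h2 := l4_cover cG G0 M0 h1 (Real.rpow_le_rpow T0.le T1 (by norm_num : (0 : ℝ) ≤ 1 / 3))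
  have l1 : (4 * T) ^ (1 / 3 : ℝ) - (T / 2) ^ (1 / 3 : ℝ) ≤ (4 * T) ^ (1 / 3 : ℝ) :=
    sub_le_self _ (by positivity)
  rw [e1]
  refine (vh4_sub (d := 3) (by norm_num) T0 T1 cG G0).trans
    ((mul_le_mul_of_nonneg_left h2 (by positivity)).trans ?_)
  generalize (4 * T) ^ (1 / 3 : ℝ) - (T / 2) ^ (1 / 3 : ℝ) = l at l1
  have h4 : (4 * T) ^ (1 - 1 / 3 : ℝ) * l ≤ 16 * T := by
    refine (mul_le_mul_of_nonneg_left l1 (by positivity)).trans ?_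
    rw [← Real.rpow_add T4, sub_add_cancel, Real.rpow_one]
    linarith
  have h5 := l4_four (T := T) (p := 2 / 3) (by linarith) (by norm_num)
  have e2 : (M : ℝ) ^ (11 / 3 : ℝ) = M ^ (8 / 3 : ℝ) * M := by
    rw [← Real.rpow_add_one M0.ne']
    norm_num
  rw [show (1 - 1 / 3 : ℝ) = 2 / 3 by norm_num] at h4 ⊢
  have h6 := mul_le_mul_of_nonneg_left (add_le_add h4 (mul_le_mul_of_nonneg_right h5 M0.le))
    (by positivity : 0 ≤ 6 * C * K ^ 4 * (M : ℝ) ^ (8 / 3 : ℝ))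
  rw [e2]
  refine le_trans (le_of_eq ?_) (h6.trans (le_of_eq ?_))
  · field_simp
    ring
  · ring

/- H_eq, cf_le (K = C * M ^ (-2 / 3 + ε / 4)), norm_px; compare Sel.H_mv. -/
theorem l4_H (F : Sel) {P : Vo} (h : F.deg = 3) (hP : 0 < P.ka) {ε : ℝ} (hε : 0 < ε) :
    ∃ C : ℝ, 0 < C ∧ ∀ (M N : ℕ) (T : ℝ), 1 ≤ T → 1 ≤ M → N ≤ 2 * M →
    wd 4 (F.H P M N) T ≤ C * (M : ℝ) ^ ε * (T ^ (7 / 3 : ℝ) + T ^ 2 * M) := by
  have e4 : 0 < ε / 4 := by linarith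
  obtain ⟨A, hA, h1⟩ := F.cf_le P e4
  obtain ⟨C, hC, h3⟩ := l4_ts hP.ne'
  obtain ⟨D, hD, h4⟩ := l4_ts (neg_ne_zero.2 hP.ne')
  refine ⟨128 * (‖P.ap‖ ^ 4 * C + ‖P.am‖ ^ 4 * D + 1) * A ^ 4 * 2 ^ ε, by positivity,
    fun M N T hT hM hN => ?_⟩
  have T0 : 0 < T := by linarith
  have T2 : 0 < T / 2 := by linarith
  have T4 : 0 < 4 * T := by linarith
  have M0 : (0 : ℝ) < M := by exact_mod_cast hM
  have hc : ∀ n ∈ Finset.Ioc M N,
      ‖F.cf P n‖ ≤ A * ((M : ℝ) ^ (-(2 / 3) : ℝ) * (2 * M : ℝ) ^ (ε / 4)) := fun n hn => by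
    obtain ⟨a, b⟩ := Finset.mem_Ioc.1 hn
    have n1 : (M : ℝ) ≤ n := by exact_mod_cast a.le
    have n2 : (n : ℝ) ≤ 2 * M := by exact_mod_cast b.trans hN
    refine (h1 n (by omega)).trans (mul_le_mul_of_nonneg_left ?_ hA.le)
    rw [h, al_three, Real.rpow_add (M0.trans_le n1), show (1 / 3 - 1 : ℝ) = -(2 / 3) by norm_num]
    exact mul_le_mul (Real.rpow_le_rpow_of_nonpos M0 n1 (by norm_num))
      (Real.rpow_le_rpow (by positivity) n2 e4.le) (by positivity) (by positivity)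
  have i1 := wd_int 4 (ts_cont 3 P.ka (F.cf P) M N) T2 T4
  have i2 := wd_int 4 (ts_cont 3 (-P.ka) (F.cf P) M N) T2 T4
  have h5 : wd 4 (F.H P M N) T ≤ ∫ x in T / 2..4 * T,
      (128 * T ^ (4 / 3 : ℝ) * ‖P.ap‖ ^ 4 * ‖ts 3 P.ka (F.cf P) M N x‖ ^ 4 +
        128 * T ^ (4 / 3 : ℝ) * ‖P.am‖ ^ 4 * ‖ts 3 (-P.ka) (F.cf P) M N x‖ ^ 4) := by
    refine intervalIntegral.integral_mono_on (by linarith) (wd_int 4 (F.H_cont P M N) T2 T4)
      ((i1.const_mul _).add (i2.const_mul _)) fun x hx => ?_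
    have x0 : 0 < x := T2.trans_le hx.1
    have a1 : (x ^ (1 / 3 : ℝ)) ^ 4 ≤ 16 * T ^ (4 / 3 : ℝ) := by
      rw [← Real.rpow_natCast, ← Real.rpow_mul x0.le, show (1 / 3 * (4 : ℕ) : ℝ) = 4 / 3 by norm_num]
      exact (Real.rpow_le_rpow x0.le hx.2 (by norm_num)).trans (l4_four T0.le (by norm_num))
    rw [F.H_eq P M N x0, norm_mul, norm_px _ x0, Vo.ex_re, mul_pow, h, al_three]
    generalize ts 3 P.ka (F.cf P) M N x = u
    generalize ts 3 (-P.ka) (F.cf P) M N x = v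
    have a2 := (pow_le_pow_left₀ (norm_nonneg _) (norm_add_le (P.ap * u) (P.am * v)) 4).trans
      (add_pow_le (norm_nonneg _) (norm_nonneg _) 4)
    refine (mul_le_mul a1 a2 (by positivity) (by positivity)).trans (le_of_eq ?_)
    rw [norm_mul, norm_mul]
    ring
  rw [intervalIntegral.integral_add (i1.const_mul _) (i2.const_mul _),
    intervalIntegral.integral_const_mul, intervalIntegral.integral_const_mul] at h5
  have h6 := add_le_add (mul_le_mul_of_nonneg_left (h3 _ M N _ T hT hM hN hc)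
    (by positivity : 0 ≤ 128 * T ^ (4 / 3 : ℝ) * ‖P.ap‖ ^ 4))
    (mul_le_mul_of_nonneg_left (h4 _ M N _ T hT hM hN hc)
      (by positivity : 0 ≤ 128 * T ^ (4 / 3 : ℝ) * ‖P.am‖ ^ 4))
  refine h5.trans (h6.trans ?_)
  have b1 : ((2 * M : ℝ) ^ (ε / 4)) ^ 4 = 2 ^ ε * (M : ℝ) ^ ε := by
    rw [← Real.rpow_natCast, ← Real.rpow_mul (by positivity), ← Real.mul_rpow zero_le_two M0.le]
    congr 1
    push_cast
    ring
  have b2 : ((M : ℝ) ^ (-(2 / 3) : ℝ)) ^ 4 * M ^ (8 / 3 : ℝ) = 1 := by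
    rw [← Real.rpow_natCast, ← Real.rpow_mul M0.le, ← Real.rpow_add M0]
    norm_num
  have b3 : (M : ℝ) ^ (11 / 3 : ℝ) = M ^ (8 / 3 : ℝ) * M := by
    rw [← Real.rpow_add_one M0.ne']
    norm_num
  have b4 : T ^ (7 / 3 : ℝ) = T ^ (4 / 3 : ℝ) * T := by
    rw [← Real.rpow_add_one T0.ne']
    norm_num
  have b5 : T ^ 2 = T ^ (4 / 3 : ℝ) * T ^ (2 / 3 : ℝ) := by
    rw [← Real.rpow_add T0]
    norm_num
  have p : 0 ≤ 128 * A ^ 4 * 2 ^ ε * (M : ℝ) ^ ε * (T ^ (7 / 3 : ℝ) + T ^ 2 * M) := by positivity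
  rw [b4, b5] at p ⊢
  rw [mul_pow, mul_pow, b1, b3]
  linear_combination p + 128 * (‖P.ap‖ ^ 4 * C + ‖P.am‖ ^ 4 * D) * A ^ 4 * 2 ^ ε * (M : ℝ) ^ ε *
    (T ^ (4 / 3 : ℝ) * T + T ^ (4 / 3 : ℝ) * T ^ (2 / 3 : ℝ) * M) * b2

end Pool.Agent.Lib.MP_2a1a00_nt
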