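import Pool.Agent.Lib.MP_2a1a00_nt.C.Dg
import Pool.Agent.Lib.MP_2a1a00_nt.V.Tr

/-! The cube of the Voronoi polynomial. -/

namespace Pool.Agent.Lib.MP_2a1a00_nt

open Complex MeasureTheory Set

/- H_eq, ts, zs_d3, px_real: cf P3 n = d3 n * n ^ (-2 / 3). -/
theorem mn_cf {n : ℕ} (hn : 1 ≤ n) :
    (zs 3).cf P3 n = ((d3 n * (n : ℝ) ^ (-(2 / 3) : ℝ) : ℝ) : ℂ) := by
  have h0 : (0 : ℝ) < n := by exact_mod_cast hn
  have e : P3.ex 3 = ((1 / 3 : ℝ) : ℂ) := by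
    rw [Vo.ex, al_three]
    simp [P3]
  rw [Sel.cf, zs_deg3, zs_d3, conj_ofReal, e, px_real _ h0, ← ofReal_natCast, ← ofReal_div,
    ← ofReal_mul, show (-(2 / 3) : ℝ) = 1 / 3 - 1 by norm_num, Real.rpow_sub_one h0.ne']
  congr 1
  ring

theorem mn_H (M N : ℕ) {x : ℝ} (hx : 0 < x) : (zs 3).H P3 M N x =
    px (1 / 3 : ℝ) x * ∑ q ∈ Finset.Ioc M N ×ˢ ({1, -1} : Finset ℝ),
      ((1 / (2 * √3 * Real.pi) * (d3 q.1 * (q.1 : ℝ) ^ (-(2 / 3) : ℝ)) : ℝ) : ℂ) *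
        exp (I * (q.2 * (6 * Real.pi) * (q.1 : ℝ) ^ (1 / 3 : ℝ) * x ^ (1 / 3 : ℝ) : ℝ)) := by
  have e : P3.ex 3 = ((1 / 3 : ℝ) : ℂ) := by
    rw [Vo.ex, al_three]
    simp [P3]
  rw [Sel.H_eq _ _ _ _ hx, zs_deg3, e, Finset.sum_product, ts, ts, Finset.mul_sum, Finset.mul_sum,
    ← Finset.sum_add_distrib]
  congr 1
  refine Finset.sum_congr rfl fun n hn => ?_
  rw [Finset.sum_pair (by norm_num), mn_cf ((Nat.zero_le M).trans_lt (Finset.mem_Ioc.1 hn).1),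
    Real.mul_rpow (Nat.cast_nonneg _) hx.le]
  rw [ofReal_mul (1 / (2 * √3 * Real.pi))]
  simp only [P3, mul_assoc, one_mul, neg_mul]

/- For positive x, y, z the number of signs with ± x ± y ± z = 0. -/
theorem mn_sign {x y z : ℝ} (hx : 0 < x) (hy : 0 < y) (hz : 0 < z) :
    ∑ r ∈ ({1, -1} : Finset ℝ), ∑ s ∈ ({1, -1} : Finset ℝ), ∑ t ∈ ({1, -1} : Finset ℝ),
      (if r * x + s * y + t * z = 0 then (1 : ℝ) else 0) =
      2 * ((if x + y = z then 1 else 0) + (if x + z = y then 1 else 0) +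
        (if y + z = x then 1 else 0)) := by
  have e : (1 : ℝ) ≠ -1 := by norm_num
  have k : ∀ {u : ℝ} {p : Prop} [Decidable p], (u = 0 ↔ p) →
      (if u = 0 then (1 : ℝ) else 0) = if p then 1 else 0 := fun h => if_congr h rfl rfl
  simp only [Finset.sum_pair e]
  rw [if_neg (by linarith : 0 < 1 * x + 1 * y + 1 * z).ne',
    if_neg (by linarith : -1 * x + -1 * y + -1 * z < 0).ne,
    k (u := 1 * x + 1 * y + -1 * z) (p := x + y = z) ⟨fun _ => by linarith, fun _ => by linarith⟩,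
    k (u := 1 * x + -1 * y + 1 * z) (p := x + z = y) ⟨fun _ => by linarith, fun _ => by linarith⟩,
    k (u := 1 * x + -1 * y + -1 * z) (p := y + z = x) ⟨fun _ => by linarith, fun _ => by linarith⟩,
    k (u := -1 * x + 1 * y + 1 * z) (p := y + z = x) ⟨fun _ => by linarith, fun _ => by linarith⟩,
    k (u := -1 * x + 1 * y + -1 * z) (p := x + z = y) ⟨fun _ => by linarith, fun _ => by linarith⟩,
    k (u := -1 * x + -1 * y + 1 * z) (p := x + y = z) ⟨fun _ => by linarith, fun _ => by linarith⟩]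
  ring

theorem mn_pow3 {ι R : Type} [CommRing R] (S : Finset ι) (f : ι → R) :
    (∑ q ∈ S, f q) ^ 3 = ∑ k ∈ S ×ˢ S ×ˢ S, f k.1 * (f k.2.1 * f k.2.2) := by
  simp only [pow_three, Finset.sum_product, ← Finset.mul_sum, ← Finset.sum_mul]

theorem mn_six (J : Finset ℕ) (E : Finset ℝ) (F : ℕ × ℝ → ℕ × ℝ → ℕ × ℝ → ℝ) :
    ∑ k ∈ (J ×ˢ E) ×ˢ (J ×ˢ E) ×ˢ (J ×ˢ E), F k.1 k.2.1 k.2.2 =
      ∑ a ∈ J, ∑ b ∈ J, ∑ c ∈ J, ∑ r ∈ E, ∑ s ∈ E, ∑ t ∈ E, F (a, r) (b, s) (c, t) := by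
  simp only [Finset.sum_product]
  refine Finset.sum_congr rfl fun a _ => Finset.sum_comm.trans
    (Finset.sum_congr rfl fun b _ => Eq.trans ?_ Finset.sum_comm)
  exact Finset.sum_congr rfl fun r _ => Finset.sum_comm

/-- The weights. -/
noncomputable def mnW (n : ℕ) : ℝ := d3 n * (n : ℝ) ^ (-(2 / 3) : ℝ)

/-- The frequency of a triple. -/
noncomputable def mnF (a b c : ℕ × ℝ) : ℝ :=
  a.2 * (a.1 : ℝ) ^ (1 / 3 : ℝ) + b.2 * (b.1 : ℝ) ^ (1 / 3 : ℝ) + c.2 * (c.1 : ℝ) ^ (1 / 3 : ℝ)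

theorem mn_tc (a b c : ℕ) : tc (a, b, c) = mnW a * mnW b * mnW c *
    if (a : ℝ) ^ (1 / 3 : ℝ) + (b : ℝ) ^ (1 / 3 : ℝ) = (c : ℝ) ^ (1 / 3 : ℝ) then 1 else 0 := by
  simp only [tc, mnW]
  split_ifs
  · rw [Real.mul_rpow (by positivity) (by positivity), Real.mul_rpow (by positivity) (by positivity),
      Real.rpow_neg (Nat.cast_nonneg _), Real.rpow_neg (Nat.cast_nonneg _),
      Real.rpow_neg (Nat.cast_nonneg _), div_eq_mul_inv, mul_inv, mul_inv]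
    ring
  · rw [mul_zero]

theorem mn_diag (N : ℕ) : ∑ k ∈ (Finset.Ioc 0 N ×ˢ ({1, -1} : Finset ℝ)) ×ˢ
    (Finset.Ioc 0 N ×ˢ ({1, -1} : Finset ℝ)) ×ˢ (Finset.Ioc 0 N ×ˢ ({1, -1} : Finset ℝ)),
      mnW k.1.1 * mnW k.2.1.1 * mnW k.2.2.1 * (if mnF k.1 k.2.1 k.2.2 = 0 then 1 else 0) =
      6 * DD N := by
  have p : ∀ a ∈ Finset.Ioc 0 N, 0 < (a : ℝ) ^ (1 / 3 : ℝ) := fun a ha =>
    Real.rpow_pos_of_pos (by exact_mod_cast (Finset.mem_Ioc.1 ha).1) _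
  have d : DD N = ∑ a ∈ Finset.Ioc 0 N, ∑ b ∈ Finset.Ioc 0 N, ∑ c ∈ Finset.Ioc 0 N, tc (a, b, c) := by
    simp only [DD, Finset.sum_product]
  have d1 : DD N = ∑ a ∈ Finset.Ioc 0 N, ∑ b ∈ Finset.Ioc 0 N, ∑ c ∈ Finset.Ioc 0 N, tc (a, c, b) :=
    d.trans (Finset.sum_congr rfl fun a _ => Finset.sum_comm)
  have d2 : DD N = ∑ a ∈ Finset.Ioc 0 N, ∑ b ∈ Finset.Ioc 0 N, ∑ c ∈ Finset.Ioc 0 N, tc (b, c, a) :=
    d1.trans Finset.sum_comm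
  rw [mn_six _ _ fun a b c => mnW a.1 * mnW b.1 * mnW c.1 * if mnF a b c = 0 then 1 else 0,
    show 6 * DD N = 2 * (DD N + DD N + DD N) by ring]
  nth_rewrite 1 [d]
  nth_rewrite 1 [d1]
  rw [d2]
  simp only [← Finset.sum_add_distrib, Finset.mul_sum (Finset.Ioc 0 N)]
  refine Finset.sum_congr rfl fun a ha => Finset.sum_congr rfl fun b hb =>
    Finset.sum_congr rfl fun c hc => ?_
  simp only [← Finset.mul_sum]
  refine (congrArg _ (mn_sign (p a ha) (p b hb) (p c hc))).trans ?_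
  rw [mn_tc, mn_tc, mn_tc]
  ring

theorem mn_gap {N : ℕ} {a b c : ℕ × ℝ} (ha : a ∈ Finset.Ioc 0 N ×ˢ ({1, -1} : Finset ℝ))
    (hb : b ∈ Finset.Ioc 0 N ×ˢ ({1, -1} : Finset ℝ))
    (hc : c ∈ Finset.Ioc 0 N ×ˢ ({1, -1} : Finset ℝ)) (h : mnF a b c ≠ 0) :
    1 / (100 * (N : ℝ) ^ 3) ≤ |mnF a b c| := by
  obtain ⟨a, r⟩ := a
  obtain ⟨b, s⟩ := b
  obtain ⟨c, t⟩ := c
  simp only [Finset.mem_product, Finset.mem_insert, Finset.mem_singleton] at ha hb hc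
  have p : ∀ a ∈ Finset.Ioc 0 N, 1 ≤ (a : ℝ) ^ (1 / 3 : ℝ) := fun a ha =>
    Real.one_le_rpow (by exact_mod_cast (Finset.mem_Ioc.1 ha).1) (by norm_num)
  have hN : (1 : ℝ) ≤ N := by
    exact_mod_cast (Finset.mem_Ioc.1 ha.1).1.trans_le (Finset.mem_Ioc.1 ha.1).2
  have h1 : 1 / (100 * (N : ℝ) ^ 3) ≤ 1 :=
    (div_le_one (by positivity)).2 (by linarith [one_le_pow₀ (n := 3) hN])
  have g : ∀ {a b c : ℕ} {u : ℝ}, a ∈ Finset.Ioc 0 N → b ∈ Finset.Ioc 0 N → c ∈ Finset.Ioc 0 N →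
      u ≠ 0 → (u = (a : ℝ) ^ (1 / 3 : ℝ) + (b : ℝ) ^ (1 / 3 : ℝ) - (c : ℝ) ^ (1 / 3 : ℝ) ∨
        -u = (a : ℝ) ^ (1 / 3 : ℝ) + (b : ℝ) ^ (1 / 3 : ℝ) - (c : ℝ) ^ (1 / 3 : ℝ)) →
      1 / (100 * (N : ℝ) ^ 3) ≤ |u| := by
    intro a b c u ha hb hc h0 e
    have := dg_gap ha hb hc fun h => h0 (by rcases e with e | e <;> linarith)
    rcases e with e | e
    · rwa [← e] at this
    · rwa [← e, abs_neg] at this
  have pa := p a ha.1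
  have pb := p b hb.1
  have pc := p c hc.1
  obtain ⟨ha, rfl | rfl⟩ := ha <;> obtain ⟨hb, rfl | rfl⟩ := hb <;> obtain ⟨hc, rfl | rfl⟩ := hc
  · exact h1.trans (le_trans (by simp only [mnF]; linarith) (le_abs_self _))
  · exact g ha hb hc h (.inl (by simp only [mnF]; ring))
  · exact g ha hc hb h (.inl (by simp only [mnF]; ring))
  · exact g hb hc ha h (.inr (by simp only [mnF]; ring))
  · exact g hb hc ha h (.inl (by simp only [mnF]; ring))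
  · exact g ha hc hb h (.inr (by simp only [mnF]; ring))
  · exact g ha hb hc h (.inr (by simp only [mnF]; ring))
  · exact h1.trans (le_trans (by simp only [mnF]; linarith) (neg_le_abs _))

theorem mn_W : ∃ C : ℝ, 1 ≤ C ∧ ∀ n : ℕ, 1 ≤ n → 0 ≤ mnW n ∧ mnW n ≤ C := by
  obtain ⟨C, h1, hC⟩ := d3_le (ε := 2 / 3) (by norm_num)
  refine ⟨C, h1, fun n hn => ⟨mul_nonneg (d3_nonneg n) (by positivity), ?_⟩⟩
  have h0 : (0 : ℝ) < n := by exact_mod_cast hn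
  rw [mnW, Real.rpow_neg h0.le, ← div_eq_mul_inv, div_le_iff₀ (by positivity)]
  exact hC n

theorem mn_term (κ x : ℝ) (a b c : ℕ × ℝ) :
    exp (I * (a.2 * κ * (a.1 : ℝ) ^ (1 / 3 : ℝ) * x : ℝ)) *
      (exp (I * (b.2 * κ * (b.1 : ℝ) ^ (1 / 3 : ℝ) * x : ℝ)) *
        exp (I * (c.2 * κ * (c.1 : ℝ) ^ (1 / 3 : ℝ) * x : ℝ))) =
      exp (I * (κ * mnF a b c * x : ℝ)) := by
  rw [← exp_add, ← exp_add, ← mul_add, ← mul_add, ← ofReal_add, ← ofReal_add, mnF]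
  congr 3
  ring

theorem mn_core (S : Finset (ℕ × ℝ)) (κ θ x : ℝ) (P : ℂ) :
    P * (∑ q ∈ S, ((κ * mnW q.1 : ℝ) : ℂ) *
      exp (I * (q.2 * θ * (q.1 : ℝ) ^ (1 / 3 : ℝ) * x : ℝ))) ^ 3 =
    ((κ ^ 3 * ∑ k ∈ S ×ˢ S ×ˢ S, mnW k.1.1 * mnW k.2.1.1 * mnW k.2.2.1 *
      (if mnF k.1 k.2.1 k.2.2 = 0 then 1 else 0) : ℝ) : ℂ) * P +
    ∑ k ∈ (S ×ˢ S ×ˢ S).filter fun k => ¬mnF k.1 k.2.1 k.2.2 = 0,
      ((κ * mnW k.1.1 : ℝ) : ℂ) * ((κ * mnW k.2.1.1 : ℝ) * (κ * mnW k.2.2.1 : ℝ)) *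
        (P * exp (I * (θ * mnF k.1 k.2.1 k.2.2 * x : ℝ))) := by
  rw [mn_pow3, Finset.mul_sum, Finset.mul_sum, ofReal_sum, Finset.sum_mul, Finset.sum_filter,
    ← Finset.sum_add_distrib]
  refine Finset.sum_congr rfl fun k _ => ?_
  have e := mn_term θ x k.1 k.2.1 k.2.2
  generalize exp (I * (k.1.2 * θ * (k.1.1 : ℝ) ^ (1 / 3 : ℝ) * x : ℝ)) = u at e ⊢
  generalize exp (I * (k.2.1.2 * θ * (k.2.1.1 : ℝ) ^ (1 / 3 : ℝ) * x : ℝ)) = v at e ⊢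
  generalize exp (I * (k.2.2.2 * θ * (k.2.2.1 : ℝ) ^ (1 / 3 : ℝ) * x : ℝ)) = w at e ⊢
  by_cases h : mnF k.1 k.2.1 k.2.2 = 0
  · rw [h, mul_zero, zero_mul, ofReal_zero, mul_zero, exp_zero] at e
    rw [if_pos h, if_neg (not_not.2 h)]
    push_cast
    linear_combination (P * κ ^ 3 * mnW k.1.1 * mnW k.2.1.1 * mnW k.2.2.1) * e
  · rw [if_neg h, if_pos h, ← e]
    push_cast
    ring

/- Expand the cube of mn_H 0 N as a sum over triples, split it by frequency = 0.  The terms with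
frequency zero add up to 6 * (2 √3 π)⁻¹ ^ 3 * DD N (mn_sign, then Finset.sum_comm for the three
symmetric sums).  The others have A = 0, |B| ≥ 6 π / (100 N ^ 3) (dg_gap; all signs equal:
|B| ≥ 6 π).  The mass is at most (2 ∑ d3 n * n ^ (-2 / 3)) ^ 3 ≤ (2 C N) ^ 3 (d3_le). -/
theorem mn_cube : ∃ C : ℝ, 1 ≤ C ∧ ∀ N : ℕ, 1 ≤ N → ∃ O : ℝ → ℂ,
    Trig O 1 (C * (N : ℝ) ^ 3)
      (fun A B => A = 0 ∧ 6 * Real.pi / (3 * (40 * (N : ℝ) ^ 3)) ≤ |B|) ∧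
    ∀ x : ℝ, 0 < x → (zs 3).H P3 0 N x ^ 3 =
      ((1 / (4 * √3 * Real.pi ^ 3) * DD N : ℝ) : ℂ) * px 1 x + O x := by
  obtain ⟨C, h1, hC⟩ := mn_W
  have s3 : (1 : ℝ) ≤ √3 := Real.one_le_sqrt.2 (by norm_num)
  have pi3 := Real.pi_gt_three
  have k0 : 0 < 1 / (2 * √3 * Real.pi) := by positivity
  have k1 : 1 / (2 * √3 * Real.pi) ≤ 1 := (div_le_one (by positivity)).2 (by nlinarith)
  have k2 : 1 / (4 * √3 * Real.pi ^ 3) = (1 / (2 * √3 * Real.pi)) ^ 3 * 6 := by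
    have : √3 ^ 2 = 3 := Real.sq_sqrt (by norm_num)
    field_simp
    linarith
  refine ⟨(2 * C) ^ 3, one_le_pow₀ (by linarith), fun N hN => ?_⟩
  have hS : ∑ q ∈ Finset.Ioc 0 N ×ˢ ({1, -1} : Finset ℝ),
      ‖((1 / (2 * √3 * Real.pi) * mnW q.1 : ℝ) : ℂ)‖ ≤ 2 * C * N := by
    refine (Finset.sum_le_card_nsmul _ _ C fun q hq => ?_).trans (le_of_eq ?_)
    · obtain ⟨a, b⟩ := hC q.1 (Finset.mem_Ioc.1 (Finset.mem_product.1 hq).1).1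
      rw [norm_real, Real.norm_of_nonneg (by positivity)]
      nlinarith
    · rw [Finset.card_product, Nat.card_Ioc, Finset.card_pair (by norm_num), nsmul_eq_mul,
        Nat.sub_zero]
      push_cast
      ring
  have hH : ∀ x : ℝ, 0 < x → (zs 3).H P3 0 N x ^ 3 = px 1 x *
      (∑ q ∈ Finset.Ioc 0 N ×ˢ ({1, -1} : Finset ℝ), ((1 / (2 * √3 * Real.pi) * mnW q.1 : ℝ) : ℂ) *
        exp (I * (q.2 * (6 * Real.pi) * (q.1 : ℝ) ^ (1 / 3 : ℝ) * x ^ (1 / 3 : ℝ) : ℝ))) ^ 3 := by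
    intro x hx
    rw [mn_H 0 N hx, mul_pow, pow_three (px _ _), ← px_add, ← px_add, ← ofReal_add, ← ofReal_add,
      show (1 / 3 + (1 / 3 + 1 / 3) : ℝ) = 1 by norm_num, ofReal_one]
    rfl
  simp only [mn_core, mn_diag] at hH
  rw [k2, mul_assoc _ 6]
  generalize 1 / (2 * √3 * Real.pi) = κ at hS hH ⊢
  refine ⟨_, ⟨(ℕ × ℝ) × (ℕ × ℝ) × ℕ × ℝ, _, fun k => ((κ * mnW k.1.1 : ℝ) : ℂ) *
    ((κ * mnW k.2.1.1 : ℝ) * (κ * mnW k.2.2.1 : ℝ)), fun _ => 0,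
    fun k => 6 * Real.pi * mnF k.1 k.2.1 k.2.2, ?_, fun k hk => ⟨rfl, ?_⟩,
    fun x _ => Finset.sum_congr rfl fun k _ => by rw [zero_mul, zero_add]⟩, hH⟩
  · refine (Finset.sum_le_sum_of_subset_of_nonneg (Finset.filter_subset _ _)
      fun _ _ _ => norm_nonneg _).trans ?_
    simp only [norm_mul]
    rw [← mn_pow3 _ fun q : ℕ × ℝ => ‖((κ * mnW q.1 : ℝ) : ℂ)‖, ← mul_pow]
    exact pow_le_pow_left₀ (Finset.sum_nonneg fun _ _ => norm_nonneg _) hS 3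
  · obtain ⟨a, b⟩ := Finset.mem_filter.1 hk
    obtain ⟨a1, a2⟩ := Finset.mem_product.1 a
    obtain ⟨a2, a3⟩ := Finset.mem_product.1 a2
    have h0 : (0 : ℝ) < N := by exact_mod_cast hN
    rw [abs_mul, abs_of_pos (by positivity : 0 < 6 * Real.pi), div_eq_mul_one_div]
    refine mul_le_mul_of_nonneg_left (le_trans ?_ (mn_gap a1 a2 a3 b)) (by positivity)
    exact one_div_le_one_div_of_le (by positivity) (by linarith [pow_pos h0 3])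

end Pool.Agent.Lib.MP_2a1a00_nt
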