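import Pool.Agent.Lib.MP_2a1a00_nt.C.Bl1
import Pool.Agent.Lib.MP_2a1a00_nt.C.Bl2
import Pool.Agent.Lib.MP_2a1a00_nt.C.Mn
import Pool.Agent.Lib.MP_2a1a00_nt.C.L4

/-! A pointwise bound for the blocks of length near √T, and the product of two moments. -/

namespace Pool.Agent.Lib.MP_2a1a00_nt

open Complex MeasureTheory Set

/- Choose H with H ^ 6 ≤ M < (H + 1) ^ 6 ≤ 64 H ^ 6.  bl_dec, bl_one; sort a ∈ Icc H Q by
j = a / H ∈ Icc 1 Q (Finset.sum_fiberwise_of_maps_to), bl_two with A = j H (an empty fibre is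
trivial; otherwise A ≤ a ≤ Q), K₀ = 3 C (2 M) ^ (ε / 2) (dv_le), harm_le, log_le_rpow. -/
theorem bl_sum {ε : ℝ} (hε : 0 < ε) : ∃ C : ℝ, 0 < C ∧ ∀ (M N : ℕ) (u : ℝ), 1 ≤ M → N ≤ 2 * M →
    √(M : ℝ) ≤ |u| → |u| ≤ 40 * (M : ℝ) ^ (5 / 6 : ℝ) →
    ‖∑ n ∈ Finset.Ioc M N, (d3 n : ℂ) * e3 u n‖ ≤ C * (M : ℝ) ^ (23 / 24 + ε) := by
  obtain ⟨C₁, c1, h1⟩ := bl_one
  obtain ⟨C₂, c2, h2⟩ := bl_two
  obtain ⟨D, hD, h3⟩ := dv_le (half_pos hε)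
  obtain ⟨B, hB, h4⟩ := log_le_rpow (half_pos hε)
  refine ⟨C₂ * (3 * D) * B * 2 ^ ε + 3 * C₁, by positivity, fun M N u hM hN u1 u2 => ?_⟩
  have a1 : Nat.nthRoot 6 M ^ 6 ≤ M := Nat.pow_nthRoot_le (Or.inl (by norm_num))
  have a2 := Nat.lt_pow_nthRoot_add_one (n := 6) (by norm_num) M
  generalize Nat.nthRoot 6 M = H at a1 a2
  have H1 : 1 ≤ H := Nat.pos_of_ne_zero (by rintro rfl; omega)
  have a3 : M ≤ 64 * H ^ 6 := a2.le.trans ((Nat.pow_le_pow_left (by omega : H + 1 ≤ 2 * H) 6).trans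
    (le_of_eq (by ring)))
  obtain ⟨β, b1, b2⟩ := bl_dec H1 ((Nat.pow_le_pow_right H1 (by norm_num)).trans a1) hN
  have q1 := Nat.sqrt_le' (2 * M)
  have q2 : 1 ≤ Nat.sqrt (2 * M) := Nat.le_sqrt.2 (by omega)
  have q3 := Nat.sqrt_le_self (2 * M)
  have k1 := h1 H M N (Nat.sqrt (2 * M)) u hM a1 hN u1 u2
  rw [b2]
  generalize Nat.sqrt (2 * M) = Q at q1 q2 q3 k1
  have M1 : (1 : ℝ) ≤ M := by exact_mod_cast hM
  have M0 : (0 : ℝ) < M := by linarith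
  have k2 : ∀ j ∈ Finset.Icc 1 Q, ‖∑ a ∈ Finset.Icc H Q with a / H = j,
      ∑ k ∈ Finset.Ioc (M / a) (N / a), (β k : ℂ) * e3 u (a * k)‖ ≤
      C₂ * (3 * D * (2 * M : ℝ) ^ (ε / 2)) * (M : ℝ) ^ (23 / 24 : ℝ) * (1 / j) := fun j hj => by
    obtain ⟨j1, -⟩ := Finset.mem_Icc.1 hj
    rcases ((Finset.Icc H Q).filter fun a => a / H = j).eq_empty_or_nonempty with e | ⟨a, ha⟩
    · rw [e, Finset.sum_empty, norm_zero]
      positivity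
    obtain ⟨hb, rfl⟩ := Finset.mem_filter.1 ha
    refine (h2 (fun k => β k) _ (a / H * H) H M N u (3 * D * (2 * M : ℝ) ^ (ε / 2)) H1
      (Nat.le_mul_of_pos_left _ j1) a1 a3 ((Nat.pow_le_pow_left ((Nat.div_mul_le_self a H).trans
        (Finset.mem_Icc.1 hb).2) 2).trans q1) hN (fun x hx => ?_) (fun k hk => ?_) u1 u2).trans
      (le_of_eq ?_)
    · rw [← (Finset.mem_filter.1 hx).2]
      exact Finset.mem_Ico.2 ⟨Nat.div_mul_le_self x H, Nat.lt_div_mul_add H1⟩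
    · rw [norm_real, Real.norm_eq_abs, mul_assoc]
      refine (b1 k).trans (mul_le_mul_of_nonneg_left ((h3 k).trans ?_) (by norm_num))
      have : (k : ℝ) ≤ 2 * M := by exact_mod_cast hk
      gcongr
    · have : (H : ℝ) ≠ 0 := Nat.cast_ne_zero.2 (by omega)
      push_cast
      field_simp
  have k3 : ∑ j ∈ Finset.Icc 1 Q, (1 : ℝ) / j ≤ B * (2 * M : ℝ) ^ (ε / 2) := by
    refine (harm_le Q).trans ((h4 Q (by exact_mod_cast q2)).trans ?_)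
    have : (Q : ℝ) ≤ 2 * M := by exact_mod_cast q3
    gcongr
  have k4 : (2 * M : ℝ) ^ (ε / 2) * (2 * M : ℝ) ^ (ε / 2) * (M : ℝ) ^ (23 / 24 : ℝ) =
      2 ^ ε * (M : ℝ) ^ (23 / 24 + ε) := by
    rw [← Real.rpow_add (by positivity), add_halves, Real.mul_rpow (by norm_num) M0.le,
      Real.rpow_add M0]
    ring
  have k5 : (M : ℝ) ^ (11 / 12 : ℝ) ≤ (M : ℝ) ^ (23 / 24 + ε) :=
    Real.rpow_le_rpow_of_exponent_le M1 (by linarith)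
  rw [← Finset.sum_fiberwise_of_maps_to (t := Finset.Icc 1 Q) (g := fun a => a / H) fun a ha =>
    Finset.mem_Icc.2 ⟨(Nat.le_div_iff_mul_le H1).2 (by simpa using (Finset.mem_Icc.1 ha).1),
      (Nat.div_le_self a H).trans (Finset.mem_Icc.1 ha).2⟩]
  refine (norm_add_le _ _).trans ?_
  rw [norm_mul, Complex.norm_ofNat, add_mul]
  refine add_le_add ((norm_sum_le_of_le _ k2).trans ?_) ?_
  · rw [← Finset.mul_sum]
    refine (mul_le_mul_of_nonneg_left k3 (by positivity)).trans (le_of_eq ?_)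
    linear_combination C₂ * (3 * D) * B * k4
  · rw [mul_assoc]
    exact mul_le_mul_of_nonneg_left (k1.trans (mul_le_mul_of_nonneg_left k5 c1.le)) (by norm_num)

theorem bl3_dif {m x : ℝ} (hm : 0 < m) (h : m ≤ x) :
    |(x + 1) ^ (-(2 / 3) : ℝ) - x ^ (-(2 / 3) : ℝ)| ≤ m ^ (-(2 / 3) : ℝ) / m := by
  have x0 : 0 < x := hm.trans_le h
  have h1 : (x + 1) ^ (-(2 / 3) : ℝ) ≤ x ^ (-(2 / 3) : ℝ) :=
    Real.rpow_le_rpow_of_nonpos x0 (by linarith) (by norm_num)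
  have h2 : x ^ (-(2 / 3) : ℝ) ≤ m ^ (-(2 / 3) : ℝ) :=
    Real.rpow_le_rpow_of_nonpos hm h (by norm_num)
  have h3 : x ^ (-(2 / 3) + 1 : ℝ) ≤ (x + 1) ^ (-(2 / 3) + 1 : ℝ) :=
    Real.rpow_le_rpow x0.le (by linarith) (by norm_num)
  rw [Real.rpow_add_one x0.ne', Real.rpow_add_one (by positivity)] at h3
  rw [abs_sub_comm, abs_of_nonneg (sub_nonneg.2 h1), le_div_iff₀ hm]
  nlinarith

theorem bl3_ts {ε : ℝ} (hε : 0 < ε) : ∃ C : ℝ, 0 < C ∧ ∀ (M N : ℕ) (u : ℝ), 1 ≤ M → N ≤ 2 * M →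
    √(M : ℝ) ≤ |u| → |u| ≤ 40 * (M : ℝ) ^ (5 / 6 : ℝ) →
    ‖∑ n ∈ Finset.Ioc M N, (zs 3).cf P3 n * e3 u n‖ ≤ C * (M : ℝ) ^ (7 / 24 + ε) := by
  obtain ⟨C, hC, h⟩ := bl_sum hε
  refine ⟨2 * C, by positivity, fun M N u hM hN u1 u2 => ?_⟩
  have M0 : (0 : ℝ) < M := by exact_mod_cast hM
  rcases le_or_gt N M with h0 | h0
  · rw [Finset.Ioc_eq_empty_of_le h0, Finset.sum_empty, norm_zero]
    positivity
  have e : ∀ c, Finset.Ico (M + 1) (c + 1) = Finset.Ioc M c := fun c => by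
    ext n
    simp only [Finset.mem_Ico, Finset.mem_Ioc]
    omega
  have h1 := abel (ω := fun n => (((n : ℝ) ^ (-(2 / 3) : ℝ) : ℝ) : ℂ))
    (z := fun n => (d3 n : ℂ) * e3 u n) (a := M + 1) (b := N + 1)
    (B := C * (M : ℝ) ^ (23 / 24 + ε)) (ω₀ := (M : ℝ) ^ (-(2 / 3) : ℝ))
    (ω₁ := (M : ℝ) ^ (-(2 / 3) : ℝ) / M) (by omega) (fun c h1 h2 => by
      obtain ⟨c, rfl⟩ : ∃ d, c = d + 1 := ⟨c - 1, by omega⟩
      rw [e]
      exact h M c u hM (by omega) u1 u2) (fun n h1 _ => by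
      rw [norm_real, Real.norm_of_nonneg (by positivity)]
      exact Real.rpow_le_rpow_of_nonpos M0 (by exact_mod_cast (by omega : M ≤ n)) (by norm_num))
    fun n h1 _ => by
      rw [← ofReal_sub, norm_real, Nat.cast_succ]
      exact bl3_dif M0 (by exact_mod_cast (by omega : M ≤ n))
  rw [e, ← Finset.sum_congr rfl fun n hn => show (zs 3).cf P3 n * e3 u n = _ by
    rw [mn_cf (hM.trans (Finset.mem_Ioc.1 hn).1.le), ofReal_mul]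
    ring] at h1
  refine h1.trans ?_
  have h2 : (((N + 1 : ℕ) : ℝ) - (M + 1 : ℕ)) * ((M : ℝ) ^ (-(2 / 3) : ℝ) / M) ≤
      (M : ℝ) ^ (-(2 / 3) : ℝ) := by
    have : (N : ℝ) ≤ 2 * M := by exact_mod_cast hN
    refine (mul_le_mul_of_nonneg_right (show _ ≤ (M : ℝ) by push_cast; linarith)
      (by positivity)).trans (mul_div_cancel₀ _ M0.ne').le
  refine (mul_le_mul_of_nonneg_right (add_le_add_right h2 _) (by positivity)).trans (le_of_eq ?_)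
  rw [show 7 / 24 + ε = -(2 / 3) + (23 / 24 + ε) by ring, Real.rpow_add M0 (-(2 / 3))]
  ring

theorem bl3_pow {T x a c p d : ℝ} (hT : 1 ≤ T) (h : x ≤ (T ^ c) ^ p) (hd : a + c * p ≤ d) :
    T ^ a * x ≤ T ^ d := by
  have T0 : 0 < T := by linarith
  refine (mul_le_mul_of_nonneg_left h (by positivity)).trans ?_
  rw [← Real.rpow_mul T0.le, ← Real.rpow_add T0]
  exact Real.rpow_le_rpow_of_exponent_le hT hd

/- H_eq, ts_e3, mn_cf, abel (V/KL) with the weight n ^ (-2 / 3) on Ico (M + 1) (N + 1),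
u = ± 6 π y ^ (1 / 3). -/
theorem bl_H {ε : ℝ} (hε : 0 < ε) : ∃ C : ℝ, 0 < C ∧ ∀ (M N : ℕ) (T : ℝ), 1 ≤ T →
    T ^ (2 / 5 : ℝ) ≤ M → (M : ℝ) ≤ T ^ (2 / 3 : ℝ) → N ≤ 2 * M → ∀ y ∈ Icc (T / 2) (4 * T),
    ‖(zs 3).H P3 M N y‖ ≤ C * T ^ (1 / 3 : ℝ) * (M : ℝ) ^ (7 / 24 + ε) := by
  obtain ⟨C, hC, h⟩ := bl3_ts hε
  refine ⟨2 * (‖P3.ap‖ + ‖P3.am‖ + 1) * C, by positivity, fun M N T hT m1 m2 hN y hy => ?_⟩
  have T0 : 0 < T := by linarith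
  have y0 : 0 < y := by linarith [hy.1]
  have M1 : (1 : ℝ) ≤ M := (Real.one_le_rpow hT (by norm_num)).trans m1
  have e8 : ∀ x : ℝ, 0 ≤ x → (8 * x) ^ (1 / 3 : ℝ) = 2 * x ^ (1 / 3 : ℝ) := fun x hx => by
    rw [Real.mul_rpow (by norm_num) hx, show (8 : ℝ) = 2 ^ (3 : ℝ) by norm_num,
      ← Real.rpow_mul (by norm_num)]
    norm_num
  have y1 : y ^ (1 / 3 : ℝ) ≤ 2 * T ^ (1 / 3 : ℝ) :=
    e8 T T0.le ▸ Real.rpow_le_rpow y0.le (by linarith [hy.2]) (by norm_num)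
  have y2 : T ^ (1 / 3 : ℝ) ≤ 2 * y ^ (1 / 3 : ℝ) :=
    e8 y y0.le ▸ Real.rpow_le_rpow T0.le (by linarith [hy.1]) (by norm_num)
  have y3 : √(M : ℝ) ≤ T ^ (1 / 3 : ℝ) := by
    refine Real.sqrt_le_iff.2 ⟨by positivity, m2.trans (le_of_eq ?_)⟩
    rw [sq, ← Real.rpow_add T0]
    norm_num
  have y4 : T ^ (1 / 3 : ℝ) ≤ (M : ℝ) ^ (5 / 6 : ℝ) := by
    refine le_trans (le_of_eq ?_) (Real.rpow_le_rpow (by positivity) m1 (by norm_num))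
    rw [← Real.rpow_mul T0.le]
    norm_num
  have y5 : 0 < y ^ (1 / 3 : ℝ) := by positivity
  have k : ∀ κ : ℝ, |κ| = 6 * Real.pi →
      ‖ts 3 κ ((zs 3).cf P3) M N y‖ ≤ C * (M : ℝ) ^ (7 / 24 + ε) := fun κ hκ => by
    have e : |κ * y ^ (1 / 3 : ℝ)| = 6 * Real.pi * y ^ (1 / 3 : ℝ) := by
      rw [abs_mul, hκ, abs_of_pos y5]
    rw [ts_e3 _ _ _ _ y0.le]
    refine h M N _ (by exact_mod_cast M1) hN (e ▸ ?_) (e ▸ ?_)
    · nlinarith [Real.pi_gt_three]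
    · nlinarith [Real.pi_lt_d2]
  have p0 : |P3.ka| = 6 * Real.pi := abs_of_pos (show 0 < 6 * Real.pi by positivity)
  have k1 := k _ p0
  have k2 := k (-P3.ka) (by rw [abs_neg, p0])
  rw [Sel.H_eq _ _ _ _ y0, norm_mul, norm_px _ y0, Vo.ex_re, zs_deg3, al_three]
  refine (mul_le_mul y1 ((norm_add_le _ _).trans (add_le_add
    ((norm_mul_le _ _).trans (mul_le_mul_of_nonneg_left k1 (norm_nonneg _)))
    ((norm_mul_le _ _).trans (mul_le_mul_of_nonneg_left k2 (norm_nonneg _))))) (norm_nonneg _)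
    (by positivity)).trans ?_
  have : 0 ≤ C * T ^ (1 / 3 : ℝ) * (M : ℝ) ^ (7 / 24 + ε) := by positivity
  linarith

/- Sel.H_mv gives wd 2 ≤ C T ^ ε (T ^ (5 / 3) (M + 1) ^ (-1 / 3) + T ^ (4 / 3) (2 M) ^ (1 / 3)).  For
M ≤ T ^ (2 / 5) multiply with l4_H; otherwise wd 4 ≤ sup ^ 2 * wd 2 with bl_H. -/
theorem blk {ε : ℝ} (hε : 0 < ε) : ∃ C : ℝ, 0 < C ∧ ∀ (M N : ℕ) (T : ℝ), 1 ≤ T → 1 ≤ M →
    T ^ (1 / 1000 : ℝ) ≤ M + 1 → (M : ℝ) ≤ T ^ (501 / 1000 : ℝ) → N ≤ 2 * M →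
    wd 2 ((zs 3).H P3 M N) T * wd 4 ((zs 3).H P3 M N) T ≤ C * T ^ ε * T ^ (4 - 1 / 3000 : ℝ) := by
  have hδ : 0 < ε / 4 := by linarith
  have hP : 0 < P3.ka := show 0 < 6 * Real.pi by positivity
  obtain ⟨A, hA, h1⟩ := (zs 3).H_mv hP (by rw [zs_deg3]; norm_num) hδ
  obtain ⟨B, hB, h2⟩ := l4_H (zs 3) zs_deg3 hP hδ
  obtain ⟨C, hC, h3⟩ := bl_H hδ
  refine ⟨6 * (A * 2 ^ (ε / 4)) * B + (3 * (A * 2 ^ (ε / 4)) * C) ^ 2, by positivity,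
    fun M N T hT hM m1 m2 hN => ?_⟩
  have T0 : 0 < T := by linarith
  have M0 : (0 : ℝ) < M := by exact_mod_cast hM
  have hN' : (N : ℝ) ≤ 2 * M := by exact_mod_cast hN
  have mT : (M : ℝ) ≤ T :=
    m2.trans ((Real.rpow_le_rpow_of_exponent_le hT (by norm_num)).trans (Real.rpow_one T).le)
  have mδ : (M : ℝ) ^ (ε / 4) ≤ T ^ (ε / 4) := Real.rpow_le_rpow M0.le mT hδ.le
  have t1 : 1 ≤ T ^ (ε / 4) := Real.one_le_rpow hT hδ.le
  have t4 : T ^ ε = (T ^ (ε / 4)) ^ 4 := by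
    rw [← Real.rpow_natCast, ← Real.rpow_mul T0.le]
    norm_num
  have w2 : wd 2 ((zs 3).H P3 M N) T ≤ A * 2 ^ (ε / 4) * T ^ (ε / 4) *
      (T ^ (5 / 3 : ℝ) * ((M : ℝ) + 1) ^ (-1 / 3 : ℝ) +
        2 * (T ^ (4 / 3 : ℝ) * (M : ℝ) ^ (1 / 3 : ℝ))) := by
    refine (h1 M N T hT).trans ?_
    rw [zs_deg3, show (2 - 1 / 3 : ℝ) = 5 / 3 by norm_num, show (2 - 2 / 3 : ℝ) = 4 / 3 by norm_num,
      show (1 - 2 / 3 : ℝ) = 1 / 3 by norm_num, mul_assoc A (2 ^ _),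
      ← Real.mul_rpow (by norm_num) T0.le, mul_left_comm 2]
    have n1 : (N : ℝ) ^ (1 / 3 : ℝ) ≤ 2 * (M : ℝ) ^ (1 / 3 : ℝ) := by
      refine (Real.rpow_le_rpow N.cast_nonneg hN' (by norm_num)).trans ?_
      rw [Real.mul_rpow (by norm_num) M0.le]
      exact mul_le_mul_of_nonneg_right ((Real.rpow_le_rpow_of_exponent_le (by norm_num)
        (by norm_num)).trans (Real.rpow_one 2).le) (by positivity)
    gcongr
    linarith
  have w0 := fun p => wd_nonneg p ((zs 3).H P3 M N) T0.le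
  have r1 : ((M : ℝ) + 1) ^ (-1 / 3 : ℝ) ≤ (M : ℝ) ^ (-1 / 3 : ℝ) :=
    Real.rpow_le_rpow_of_nonpos M0 (by linarith) (by norm_num)
  have ad : ∀ a b c d : ℝ, T ^ a * (M : ℝ) ^ b * (T ^ c * (M : ℝ) ^ d) =
      T ^ (a + c) * (M : ℝ) ^ (b + d) := fun a b c d => by
    rw [Real.rpow_add T0, Real.rpow_add M0]
    ring
  have up : ∀ {c : ℝ}, (M : ℝ) ≤ T ^ c → ∀ a p d : ℝ, 0 ≤ p → a + c * p ≤ d →
      T ^ a * (M : ℝ) ^ p ≤ T ^ d := fun h a p d hp hd =>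
    bl3_pow hT (Real.rpow_le_rpow M0.le h hp) hd
  have A0 : 0 ≤ A * 2 ^ (ε / 4) := by positivity
  generalize A * 2 ^ (ε / 4) = A' at w2 A0 ⊢
  rw [t4, add_mul, add_mul]
  rcases le_total (M : ℝ) (T ^ (2 / 5 : ℝ)) with m3 | m3
  · refine le_add_of_le_of_nonneg ?_ (by positivity)
    have s1 := bl3_pow (a := 4) (d := 4 - 1 / 3000) hT
      (Real.rpow_le_rpow_of_nonpos (by positivity) m1 (by norm_num : (-1 / 3 : ℝ) ≤ 0)) (by norm_num)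
    have s2 := up m3 (5 / 3 + 2) (-1 / 3 + 1) (4 - 1 / 3000) (by norm_num) (by norm_num)
    have s3 := up m3 (4 / 3 + 7 / 3) (1 / 3 + 0) (4 - 1 / 3000) (by norm_num) (by norm_num)
    have s4 := up m3 (4 / 3 + 2) (1 / 3 + 1) (4 - 1 / 3000) (by norm_num) (by norm_num)
    rw [← ad, Real.rpow_one, Real.rpow_two] at s2 s4
    rw [← ad, Real.rpow_zero, mul_one] at s3
    rw [show (4 : ℝ) = 5 / 3 + 7 / 3 by norm_num, Real.rpow_add T0,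
      show (5 / 3 + 7 / 3 : ℝ) = 4 by norm_num] at s1
    have s5 := mul_le_mul_of_nonneg_left r1
      (show 0 ≤ T ^ (5 / 3 : ℝ) * (T ^ 2 * M) by positivity)
    have s6 : (T ^ (5 / 3 : ℝ) * ((M : ℝ) + 1) ^ (-1 / 3 : ℝ) +
        2 * (T ^ (4 / 3 : ℝ) * (M : ℝ) ^ (1 / 3 : ℝ))) * (T ^ (7 / 3 : ℝ) + T ^ 2 * M) ≤
        6 * T ^ (4 - 1 / 3000 : ℝ) := by linarith
    have s7 : T ^ (ε / 4) * (M : ℝ) ^ (ε / 4) ≤ (T ^ (ε / 4)) ^ 4 :=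
      (mul_le_mul_of_nonneg_left mδ (by positivity)).trans
        ((sq _).ge.trans (pow_le_pow_right₀ t1 (by norm_num)))
    refine (mul_le_mul w2 (h2 M N T hT hM hN) (w0 4) (by positivity)).trans ?_
    refine le_trans (le_of_eq (by ring)) ((mul_le_mul_of_nonneg_left (mul_le_mul s7 s6
      (by positivity) (by positivity)) (mul_nonneg A0 hB.le)).trans (le_of_eq (by ring)))
  · refine le_add_of_nonneg_of_le (by positivity) ?_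
    have i := fun p => wd_int p ((zs 3).H_cont P3 M N) (half_pos T0) (show 0 < 4 * T by linarith)
    have w4 : wd 4 ((zs 3).H P3 M N) T ≤ (C * T ^ (1 / 3 : ℝ) * (M : ℝ) ^ (7 / 24 + ε / 4)) ^ 2 *
        wd 2 ((zs 3).H P3 M N) T := by
      rw [wd, wd, ← intervalIntegral.integral_const_mul]
      refine intervalIntegral.integral_mono_on (by linarith) (i 4) ((i 2).const_mul _) fun y hy => ?_
      rw [show 4 = 2 + 2 from rfl, pow_add]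
      exact mul_le_mul_of_nonneg_right (pow_le_pow_left₀ (norm_nonneg _) (h3 M N T hT m3
        (m2.trans (Real.rpow_le_rpow_of_exponent_le hT (by norm_num))) hN y hy) 2) (sq_nonneg _)
    have s1 : T ^ (5 / 3 + 1 / 3 : ℝ) * (M : ℝ) ^ (-1 / 3 + 7 / 24 : ℝ) ≤ T ^ (2 - 1 / 6000 : ℝ) :=
      bl3_pow hT (Real.rpow_le_rpow_of_nonpos (by positivity) m3 (by norm_num)) (by norm_num)
    have s2 := up m2 (4 / 3 + 1 / 3) (1 / 3 + 7 / 24) (2 - 1 / 6000) (by norm_num) (by norm_num)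
    rw [← ad] at s1 s2
    have s5 := mul_le_mul_of_nonneg_left r1 (show 0 ≤ T ^ (5 / 3 : ℝ) *
      (T ^ (1 / 3 : ℝ) * (M : ℝ) ^ (7 / 24 : ℝ)) by positivity)
    have s6 : (T ^ (5 / 3 : ℝ) * ((M : ℝ) + 1) ^ (-1 / 3 : ℝ) +
        2 * (T ^ (4 / 3 : ℝ) * (M : ℝ) ^ (1 / 3 : ℝ))) * (T ^ (1 / 3 : ℝ) * (M : ℝ) ^ (7 / 24 : ℝ)) ≤
        3 * T ^ (2 - 1 / 6000 : ℝ) := by linarith
    have s7 : C * T ^ (1 / 3 : ℝ) * (M : ℝ) ^ (7 / 24 + ε / 4) * wd 2 ((zs 3).H P3 M N) T ≤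
        3 * A' * C * (T ^ (ε / 4)) ^ 2 * T ^ (2 - 1 / 6000 : ℝ) := by
      refine (mul_le_mul_of_nonneg_left w2 (by positivity)).trans ?_
      rw [Real.rpow_add M0]
      refine le_trans (le_of_eq (by ring)) ((mul_le_mul_of_nonneg_left (mul_le_mul mδ s6
        (by positivity) (by positivity)) (show 0 ≤ A' * C * T ^ (ε / 4) by positivity)).trans
        (le_of_eq (by ring)))
    refine (mul_le_mul_of_nonneg_left w4 (w0 2)).trans (le_trans (le_of_eq (by ring))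
      ((pow_le_pow_left₀ (mul_nonneg (by positivity) (w0 2)) s7 2).trans (le_of_eq ?_)))
    rw [show (4 - 1 / 3000 : ℝ) = 2 - 1 / 6000 + (2 - 1 / 6000) by norm_num, Real.rpow_add T0]
    ring

end Pool.Agent.Lib.MP_2a1a00_nt
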