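import Pool.Agent.Lib.MP_2a1a00_nt.C.Stmt4
import Pool.Agent.Lib.MP_2a1a00_nt.R.Defs
import Pool.Agent.Lib.MP_2a1a00_nt.V.Cnt

/-! Internal vocabulary for the third moment. -/

namespace Pool.Agent.Lib.MP_2a1a00_nt

open Complex MeasureTheory Set

/-- The Voronoi data of the divisor problem of order three. -/
noncomputable def P3 : Vo :=
  ⟨((1 / (2 * √3 * Real.pi) : ℝ) : ℂ), ((1 / (2 * √3 * Real.pi) : ℝ) : ℂ), 0, 6 * Real.pi⟩

/-- The finite sums of the diagonal series. -/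
noncomputable def DD (N : ℕ) : ℝ :=
  ∑ p ∈ Finset.Ioc 0 N ×ˢ Finset.Ioc 0 N ×ˢ Finset.Ioc 0 N, tc p

/-- The exponential with the phase u * n ^ (1 / 3). -/
noncomputable def e3 (u : ℝ) (n : ℕ) : ℂ := exp (I * (u * (n : ℝ) ^ (1 / 3 : ℝ) : ℝ))

/-- A moment on [T / 2, 4 T]. -/
noncomputable def wd (p : ℕ) (f : ℝ → ℂ) (T : ℝ) : ℝ := ∫ y in T / 2..4 * T, ‖f y‖ ^ p

/-- A Dirichlet polynomial on the critical line. -/
noncomputable def dp (c : ℕ → ℂ) (M : ℕ) (t : ℝ) : ℂ :=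
  ∑ n ∈ Finset.Icc 1 M, c n * (((n : ℝ) ^ (-(1 / 2) : ℝ) : ℝ) : ℂ) * exp (I * (Real.log n * t : ℝ))

/-- The modulus of the zeta function on the critical line. -/
noncomputable def zt (t : ℝ) : ℝ := ‖riemannZeta (1 / 2 + t * I)‖

/-- The number of i ∈ S with τ i = h. -/
def fib {ι : Type} (S : Finset ι) (τ : ι → ℤ) (h : ℤ) : ℝ := ∑ i ∈ S, if τ i = h then 1 else 0

/-- The number of pairs with τ i - τ j = h. -/
def cor {ι : Type} (S : Finset ι) (τ : ι → ℤ) (h : ℤ) : ℝ :=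
  fib (S ×ˢ S) (fun p => τ p.1 - τ p.2) h

/-- The additive energy. -/
def Eg (W : Finset ℤ) : ℝ := cor (W ×ˢ W) (fun p => p.1 - p.2) 0

/-- An exponential sum with integer frequencies. -/
noncomputable def ex {ι : Type} (S : Finset ι) (τ : ι → ℤ) (α : ℝ) : ℂ :=
  ∑ i ∈ S, exp (I * (τ i * α : ℝ))

/-- A double sum over the ratios m / n. -/
noncomputable def qf (M : ℕ) (G : ℝ → ℝ) : ℝ :=
  ∑ m ∈ Finset.Icc 1 M, ∑ n ∈ Finset.Icc 1 M,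
    (m : ℝ) ^ (-(1 / 2) : ℝ) * (n : ℝ) ^ (-(1 / 2) : ℝ) * G (Real.log m - Real.log n)

/-- There is a kernel with a peak of mass A and a rest of mean square B. -/
def Kn (M U : ℕ) (A B : ℝ) : Prop :=
  ∃ G₁ G₂ : ℤ → ℝ, (∀ h, 0 ≤ G₁ h) ∧ (∀ h, 0 ≤ G₂ h) ∧
    ∑ h ∈ Finset.Icc (-(4 * U : ℤ)) (4 * U), G₁ h ≤ A ∧
    ∑ h ∈ Finset.Icc (-(4 * U : ℤ)) (4 * U), G₂ h ^ 2 ≤ B ∧
    ∀ (ι : Type) (S : Finset ι) (τ : ι → ℤ), qf M (fun α => ‖ex S τ α‖ ^ 2) ≤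
      ∑ p ∈ S ×ˢ S, (G₁ (τ p.1 - τ p.2) + G₂ (τ p.1 - τ p.2))

/-- The right side of the energy inequality. -/
noncomputable def eb (R E A B : ℝ) : ℝ := √(R * A + √(E * B)) * √(E * A + √(E * R ^ 4 * B))

/-- The mean value bound and the energy inequality for a majorant. -/
structure Mj (α : ℤ → ℝ) (M U : ℕ) (Λ : ℝ) : Prop where
  pos : ∀ k, 0 ≤ α k
  one : ∑ k ∈ Finset.Ico (-(U : ℤ)) U, α k ≤ Λ * (U + M)
  three : ∀ W : Finset ℤ, W ⊆ Finset.Ico (-(U : ℤ)) U →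
    ∑ p ∈ W ×ˢ W ×ˢ W, α (p.1 + p.2.1 - p.2.2) ≤ Λ * eb W.card (Eg W) M U

/-- The Fourier integral over a union of unit intervals. -/
noncomputable def fw (ψ : ℝ → ℂ) (W : Finset ℤ) (u : ℝ) : ℂ :=
  ∑ k ∈ W, ∫ t in (k : ℝ)..k + 1, ψ t * exp (I * (t * u : ℝ))

/-- The corresponding piece of the Mellin integral. -/
noncomputable def pc (ψ : ℝ → ℂ) (W : Finset ℤ) (x : ℝ) : ℂ :=
  (1 / (2 * Real.pi) : ℝ) * px (1 / 2 : ℝ) x * fw ψ W (Real.log x)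

/-- A weight with local averages at most lam, mass V₁ and fourth moment V₄. -/
structure Wg (v : ℝ → ℝ) (T W lam V₁ V₄ : ℝ) : Prop where
  cont : Continuous v
  pos : ∀ x, 0 ≤ v x
  loc : ∀ y ∈ Icc (T / 2) (4 * T),
    ∫ x in T..2 * T, ph W (Real.log y - Real.log x) * v x ≤ lam * T
  one : ∫ x in T..2 * T, v x ≤ V₁
  four : ∫ x in T..2 * T, v x ^ 4 ≤ V₄

/-- One of three sufficient conditions for a weighted third moment to be of size Z. -/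
def Ok (lam S V₄ Z L₂ L₄ : ℝ) : Prop :=
  V₄ * L₄ ^ 3 ≤ Z ^ 4 ∨ lam * S * L₂ ≤ Z ∨ lam ^ 2 * (L₂ * L₄) ≤ Z ^ 2

/-- The weight. -/
noncomputable def vw (F : Sel) (T x : ℝ) : ℝ := √T + ‖F.B T (max x T)‖ ^ 2

/-- The parameter with 1 / V ^ 2 = 1 / (4 W) ^ 2 + 1 / up W V ^ 2. -/
noncomputable def up (W V : ℝ) : ℝ := 1 / √(1 / V ^ 2 - 1 / (4 * W) ^ 2)

/-- The coefficients of S ^ 2, where S is the sum over n ≤ Y. -/
noncomputable def sc (Y n : ℕ) : ℂ :=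
  ∑ p ∈ n.divisorsAntidiagonal, if p.1 ≤ Y ∧ p.2 ≤ Y then 1 else 0

/-- The coefficients of S ^ 2 + S * ζ + ζ ^ 2. -/
noncomputable def xc (Y n : ℕ) : ℂ :=
  ∑ p ∈ n.divisorsAntidiagonal,
    ((if p.1 ≤ Y ∧ p.2 ≤ Y then 1 else 0) + (if p.1 ≤ Y then 1 else 0) + 1)

/-- The first Y ^ 2 terms of that series, at the point 1 - s. -/
noncomputable def Xp (Y : ℕ) (s : ℂ) : ℂ := ∑ n ∈ Finset.Icc 1 (Y ^ 2), xc Y n * (n : ℂ) ^ (s - 1)

/-- The part of ζ s ^ 3 whose dual series is supported on n > Y ^ 3. -/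
noncomputable def RR (Y : ℕ) (s : ℂ) : ℂ :=
  (zs 1).L s ^ 3 - (zs 1).chi s ^ 3 * (zs 1).Hd Y s ^ 3 -
    (zs 1).chi s ^ 2 * Xp Y s * ((zs 1).L s - (zs 1).chi s * (zs 1).Hd Y s)

theorem d3_nonneg (n : ℕ) : 0 ≤ d3 n := Nat.cast_nonneg _

theorem d3_zero : d3 0 = 0 := by simp [d3]

theorem zs_d3 (n : ℕ) : (zs 3).f n = (d3 n : ℝ) := by simp only [zs, d3, ofReal_natCast]

theorem d3_le {ε : ℝ} (hε : 0 < ε) : ∃ C : ℝ, 1 ≤ C ∧ ∀ n : ℕ, d3 n ≤ C * (n : ℝ) ^ ε := by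
  obtain ⟨C, h1, hC⟩ := (zs 3).ram' hε
  refine ⟨C, h1, fun n => ?_⟩
  rcases Nat.eq_zero_or_pos n with rfl | hn
  · rw [d3_zero]
    positivity
  · have := hC n hn
    rwa [zs_d3, norm_real, Real.norm_of_nonneg (d3_nonneg n)] at this

theorem dv_le {ε : ℝ} (hε : 0 < ε) : ∃ C : ℝ, 1 ≤ C ∧ ∀ n : ℕ, dv n ≤ C * (n : ℝ) ^ ε := by
  obtain ⟨C, -, hC⟩ := card_divisors_le ε hε
  exact ⟨max 1 C, le_max_left _ _, fun n => (hC n).trans
    (mul_le_mul_of_nonneg_right (le_max_right _ _) (by positivity))⟩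

theorem zs_f1 {n : ℕ} (hn : 1 ≤ n) : (zs 1).f n = 1 := by
  simp only [zs, pow_one, ArithmeticFunction.zeta_apply_ne (Nat.one_le_iff_ne_zero.1 hn),
    Nat.cast_one]

theorem zs_deg1 : (zs 1).deg = 1 := by rw [zs_deg]; norm_num

theorem half_ne (t : ℝ) : (1 / 2 + t * I : ℂ) ≠ 1 := fun h => by
  have := congrArg re h
  norm_num at this

theorem zt_eq (t : ℝ) : ‖(zs 1).L (1 / 2 + t * I)‖ = zt t := by
  rw [zs_L 1 (half_ne t), pow_one, zt]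

theorem zt_four (t : ℝ) : (zs 2).w t = zt t ^ 4 := by
  rw [Sel.w, zs_L 2 (half_ne t), norm_pow, zt, ← pow_mul]

theorem zt_nonneg (t : ℝ) : 0 ≤ zt t := norm_nonneg _

theorem zt_cont : Continuous zt := by
  have : zt = fun t : ℝ => ‖(zs 1).L (1 / 2 + t * I)‖ := funext fun t => (zt_eq t).symm
  rw [this]
  exact (zs 1).continuous_L_half.norm

theorem tc_nonneg (p : ℕ × ℕ × ℕ) : 0 ≤ tc p := by
  unfold tc
  split_ifs
  · exact div_nonneg (mul_nonneg (mul_nonneg (d3_nonneg _) (d3_nonneg _)) (d3_nonneg _))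
      (by positivity)
  · exact le_rfl

theorem norm_e3 (u : ℝ) (n : ℕ) : ‖e3 u n‖ = 1 := norm_ei _

theorem e3_mul (u : ℝ) (a n : ℕ) : e3 u (a * n) = e3 (u * (a : ℝ) ^ (1 / 3 : ℝ)) n := by
  rw [e3, e3, Nat.cast_mul, Real.mul_rpow (Nat.cast_nonneg _) (Nat.cast_nonneg _), mul_assoc]

theorem ts_e3 (κ : ℝ) (c : ℕ → ℂ) (M N : ℕ) {x : ℝ} (hx : 0 ≤ x) :
    ts 3 κ c M N x = ∑ n ∈ Finset.Ioc M N, c n * e3 (κ * x ^ (1 / 3 : ℝ)) n := by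
  refine Finset.sum_congr rfl fun n _ => ?_
  rw [e3, Real.mul_rpow (Nat.cast_nonneg _) hx]
  congr 4
  ring

theorem wd_nonneg (p : ℕ) (f : ℝ → ℂ) {T : ℝ} (hT : 0 ≤ T) : 0 ≤ wd p f T :=
  intervalIntegral.integral_nonneg (by linarith) fun _ _ => by positivity

theorem wd_int (p : ℕ) {f : ℝ → ℂ} (hf : ContinuousOn f (Ioi 0)) {a b : ℝ} (ha : 0 < a)
    (hb : 0 < b) : IntervalIntegrable (fun y => ‖f y‖ ^ p) volume a b :=
  ((hf.mono fun _ hx => (lt_min ha hb).trans_le hx.1).norm.pow p).intervalIntegrable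

theorem mu0_le_wd (p : ℕ) {f : ℝ → ℂ} (hf : ContinuousOn f (Ioi 0)) {T : ℝ} (hT : 0 < T) :
    mu0 p f T ≤ wd p f T :=
  intervalIntegral.integral_mono_interval (by linarith) (by linarith) (by linarith)
    (Filter.Eventually.of_forall fun _ => by positivity)
    (wd_int p hf (by linarith) (by linarith))

theorem dp_cont (c : ℕ → ℂ) (M : ℕ) : Continuous (dp c M) := by
  unfold dp
  fun_prop

theorem fib_nonneg {ι : Type} (S : Finset ι) (τ : ι → ℤ) (h : ℤ) : 0 ≤ fib S τ h :=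
  Finset.sum_nonneg fun _ _ => by split_ifs <;> norm_num

theorem Eg_nonneg (W : Finset ℤ) : 0 ≤ Eg W := fib_nonneg _ _ _

theorem eb_nonneg (R E A B : ℝ) : 0 ≤ eb R E A B := mul_nonneg (Real.sqrt_nonneg _) (Real.sqrt_nonneg _)

theorem Mj.add {α β : ℤ → ℝ} {M U : ℕ} {Λ Λ' : ℝ} (h : Mj α M U Λ) (h' : Mj β M U Λ') :
    Mj (fun k => α k + β k) M U (Λ + Λ') :=
  ⟨fun k => add_nonneg (h.pos k) (h'.pos k), by
    rw [Finset.sum_add_distrib, add_mul]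
    exact add_le_add h.one h'.one, fun W hW => by
    rw [Finset.sum_add_distrib, add_mul]
    exact add_le_add (h.three W hW) (h'.three W hW)⟩

theorem Mj.mono {α : ℤ → ℝ} {M U : ℕ} {Λ Λ' : ℝ} (h : Mj α M U Λ) (h' : Λ ≤ Λ') : Mj α M U Λ' :=
  ⟨h.pos, h.one.trans (mul_le_mul_of_nonneg_right h' (by positivity)), fun W hW =>
    (h.three W hW).trans (mul_le_mul_of_nonneg_right h' (eb_nonneg _ _ _ _))⟩

theorem Wg.mono {v : ℝ → ℝ} {T W a b c a' b' c' : ℝ} (h : Wg v T W a b c) (hT : 0 ≤ T)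
    (ha : a ≤ a') (hb : b ≤ b') (hc : c ≤ c') : Wg v T W a' b' c' :=
  ⟨h.cont, h.pos, fun y hy => (h.loc y hy).trans (mul_le_mul_of_nonneg_right ha hT),
    h.one.trans hb, h.four.trans hc⟩

theorem up_mem {W V : ℝ} (hW : 0 < W) (h1 : W ≤ V) (h2 : V ≤ 2 * W) :
    up W V ∈ Icc W (3 * W) ∧ 1 / V ^ 2 = 1 / (4 * W) ^ 2 + 1 / up W V ^ 2 := by
  have hV : 0 < V := hW.trans_le h1
  have a1 : 1 / (2 * W) ^ 2 ≤ 1 / V ^ 2 := one_div_le_one_div_of_le (by positivity) (by gcongr)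
  have a2 : 1 / V ^ 2 ≤ 1 / W ^ 2 := one_div_le_one_div_of_le (by positivity) (by gcongr)
  have e1 : 1 / (2 * W) ^ 2 = 1 / 4 * (1 / W ^ 2) := by field_simp; norm_num
  have e2 : 1 / (4 * W) ^ 2 = 1 / 16 * (1 / W ^ 2) := by field_simp; norm_num
  have e3 : (1 / (3 * W)) ^ 2 = 1 / 9 * (1 / W ^ 2) := by field_simp; norm_num
  have e4 : (1 / W) ^ 2 = 1 / W ^ 2 := by field_simp
  have p : 0 < 1 / W ^ 2 := by positivity
  have q : 0 < 1 / V ^ 2 - 1 / (4 * W) ^ 2 := by linarith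
  have r := Real.sqrt_pos.2 q
  refine ⟨⟨?_, ?_⟩, ?_⟩
  · rw [up, le_one_div hW r]
    exact Real.sqrt_le_iff.2 ⟨by positivity, by linarith⟩
  · rw [up, one_div_le r (by positivity)]
    exact Real.le_sqrt_of_sq_le (by linarith)
  · rw [up, div_pow, one_pow, one_div_one_div, Real.sq_sqrt q.le]
    ring

end Pool.Agent.Lib.MP_2a1a00_nt
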