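import Pool.Agent.Lib.MP_2a1a00_nt.C.Defs

/-! The diagonal series. -/

namespace Pool.Agent.Lib.MP_2a1a00_nt

open Set

theorem dg_cube (n : ℕ) : ((n : ℝ) ^ (1 / 3 : ℝ)) ^ 3 = n := by
  rw [← Real.rpow_natCast, ← Real.rpow_mul (Nat.cast_nonneg n)]
  norm_num

theorem dg_mem {N a : ℕ} (ha : a ∈ Finset.Ioc 0 N) :
    1 ≤ (a : ℝ) ^ (1 / 3 : ℝ) ∧ (a : ℝ) ^ (1 / 3 : ℝ) ≤ (N : ℝ) ^ (1 / 3 : ℝ) :=
  ⟨Real.one_le_rpow (Nat.one_le_cast.2 (Finset.mem_Ioc.1 ha).1) (by norm_num),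
    Real.rpow_le_rpow (Nat.cast_nonneg a) (Nat.cast_le.2 (Finset.mem_Ioc.1 ha).2) (by norm_num)⟩

theorem dg_real {x y z w : ℝ} (hx : 1 ≤ x ∧ x ≤ w) (hy : 1 ≤ y ∧ y ≤ w) (hz : 1 ≤ z ∧ z ≤ w)
    (h : x + y ≠ z) (K : ℤ) (hK : (K : ℝ) = (x ^ 3 + y ^ 3 - z ^ 3) ^ 3 + 27 * (x * y * z) ^ 3) :
    1 ≤ |x + y - z| * (100 * (w ^ 3) ^ 3) := by
  obtain ⟨x1, x2⟩ := hx
  obtain ⟨y1, y2⟩ := hy
  obtain ⟨z1, z2⟩ := hz
  have w1 : 1 ≤ w := x1.trans x2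
  have cube : ∀ t : ℝ, 1 ≤ t → t ≤ w → 0 ≤ t ^ 3 ∧ t ^ 3 ≤ w ^ 3 := fun t h1 h2 =>
    ⟨by positivity, pow_le_pow_left₀ (by linarith) h2 3⟩
  have sq : ∀ t u : ℝ, 1 ≤ t → t ≤ w → 1 ≤ u → u ≤ w → 0 ≤ t * u ∧ t * u ≤ w ^ 3 :=
    fun t u h1 h2 h3 h4 => ⟨by positivity, (mul_le_mul h2 h4 (by linarith) (by linarith)).trans
      (by nlinarith [mul_nonneg (sq_nonneg w) (sub_nonneg.2 w1)])⟩
  obtain ⟨Q, hQ⟩ : ∃ Q, Q = x * x + y * y + z * z - x * y + x * z + y * z := ⟨_, rfl⟩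
  obtain ⟨A, hA⟩ : ∃ A, A = x ^ 3 + y ^ 3 - z ^ 3 := ⟨_, rfl⟩
  obtain ⟨μ, hμ⟩ : ∃ μ, μ = x * y * z := ⟨_, rfl⟩
  have Q0 : 0 < Q := by nlinarith [sq_nonneg (x - y)]
  have Q1 : Q ≤ 5 * w ^ 3 := by
    linarith [sq x x x1 x2 x1 x2, sq y y y1 y2 y1 y2, sq z z z1 z2 z1 z2, sq x y x1 x2 y1 y2,
      sq x z x1 x2 z1 z2, sq y z y1 y2 z1 z2]
  have m0 : 0 < μ := by rw [hμ]; positivity
  have m1 : μ ≤ w ^ 3 := by
    rw [hμ, pow_three']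
    gcongr
  have A1 : |A| ≤ 2 * w ^ 3 := abs_le.2 ⟨by linarith [cube x x1 x2, cube y y1 y2, cube z z1 z2],
    by linarith [cube x x1 x2, cube y y1 y2, cube z z1 z2]⟩
  have L0 : 0 < A ^ 2 - 3 * A * μ + 9 * μ ^ 2 := by nlinarith [sq_nonneg (2 * A - 3 * μ)]
  have L1 : A ^ 2 - 3 * A * μ + 9 * μ ^ 2 ≤ 20 * (w ^ 3) ^ 2 := by
    have a := pow_le_pow_left₀ (abs_nonneg A) A1 2
    have b := pow_le_pow_left₀ m0.le m1 2
    have c := mul_le_mul A1 m1 m0.le (by positivity)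
    have d := mul_le_mul_of_nonneg_right (neg_abs_le A) m0.le
    rw [sq_abs] at a
    nlinarith
  have e : (K : ℝ) = (x + y - z) * (Q * (A ^ 2 - 3 * A * μ + 9 * μ ^ 2)) := by
    rw [hK, hQ, hA, hμ]
    ring
  have K0 : K ≠ 0 := fun h0 => by
    rw [h0, Int.cast_zero] at e
    exact mul_ne_zero (sub_ne_zero.2 h) (mul_pos Q0 L0).ne' e.symm
  have K1 : (1 : ℝ) ≤ |(K : ℝ)| := by exact_mod_cast Int.one_le_abs K0
  rw [e, abs_mul, abs_of_pos (mul_pos Q0 L0)] at K1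
  refine K1.trans (mul_le_mul_of_nonneg_left ?_ (abs_nonneg _))
  calc _ ≤ 5 * w ^ 3 * (20 * (w ^ 3) ^ 2) := mul_le_mul Q1 L1 L0.le (by positivity)
    _ = _ := by ring

/- With x, y, z the cube roots (all in [1, N], even ≤ N ^ (1 / 3)), s = x + y - z, μ = x y z,
A = a + b - c ∈ ℤ: A + 3 μ = s * Q, Q = x² + y² + z² - x y + x z + y z ∈ (0, 5 N], and
A ^ 3 + 27 a b c = (A + 3 μ) (A² - 3 A μ + 9 μ²) is a non-zero integer, the last factor lying in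
(0, 19 N²] (|A| ≤ 2 N, 0 < μ ≤ N). -/
theorem dg_gap {N a b c : ℕ} (ha : a ∈ Finset.Ioc 0 N) (hb : b ∈ Finset.Ioc 0 N)
    (hc : c ∈ Finset.Ioc 0 N)
    (h : (a : ℝ) ^ (1 / 3 : ℝ) + (b : ℝ) ^ (1 / 3 : ℝ) ≠ (c : ℝ) ^ (1 / 3 : ℝ)) :
    1 / (100 * (N : ℝ) ^ 3) ≤
      |(a : ℝ) ^ (1 / 3 : ℝ) + (b : ℝ) ^ (1 / 3 : ℝ) - (c : ℝ) ^ (1 / 3 : ℝ)| := by
  have hN : (0 : ℝ) < N := Nat.cast_pos.2 ((Finset.mem_Ioc.1 ha).1.trans_le (Finset.mem_Ioc.1 ha).2)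
  have := dg_real (dg_mem ha) (dg_mem hb) (dg_mem hc) h ((a + b - c) ^ 3 + 27 * (a * b * c)) (by
    simp only [mul_pow, dg_cube]
    push_cast
    rfl)
  rw [dg_cube] at this
  exact (div_le_iff₀ (by positivity)).2 this

/- (x + y) ^ 3 = x ^ 3 + y ^ 3 + 3 x y (x + y). -/
theorem dg_eq {a b c : ℕ}
    (h : (a : ℝ) ^ (1 / 3 : ℝ) + (b : ℝ) ^ (1 / 3 : ℝ) = (c : ℝ) ^ (1 / 3 : ℝ)) :
    ∃ j : ℕ, c = a + b + j ∧ j ^ 3 = 27 * (a * b * c) := by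
  have h1 : (c : ℝ) = a + b + 3 * ((a : ℝ) ^ (1 / 3 : ℝ) * (b : ℝ) ^ (1 / 3 : ℝ) *
      (c : ℝ) ^ (1 / 3 : ℝ)) := by
    have ha := dg_cube a
    have hb := dg_cube b
    have hc := dg_cube c
    rw [← h] at hc ⊢
    linear_combination ha + hb - hc
  have h2 : a + b ≤ c := by
    have : (a : ℝ) + b ≤ c := h1.symm ▸ le_add_of_nonneg_right (by positivity)
    exact_mod_cast this
  obtain ⟨j, hj⟩ := Nat.exists_eq_add_of_le h2
  refine ⟨j, hj, ?_⟩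
  have h3 : (c : ℝ) = a + b + j := by exact_mod_cast hj
  have h4 : (j : ℝ) ^ 3 = 27 * (a * b * c) := by
    rw [show (j : ℝ) = 3 * ((a : ℝ) ^ (1 / 3 : ℝ) * (b : ℝ) ^ (1 / 3 : ℝ) *
      (c : ℝ) ^ (1 / 3 : ℝ)) by linarith]
    simp only [mul_pow, dg_cube]
    norm_num
  exact_mod_cast h4

theorem dg_ne {p : ℕ × ℕ × ℕ} (h : tc p ≠ 0) : 0 < p.1 ∧ 0 < p.2.1 ∧ 0 < p.2.2 ∧
    p.2.2 = p.1 + p.2.1 + (p.2.2 - p.1 - p.2.1) ∧
    (p.2.2 - p.1 - p.2.1) ^ 3 = 27 * (p.1 * p.2.1 * p.2.2) := by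
  unfold tc at h
  split_ifs at h with h1
  · obtain ⟨j, h2, h3⟩ := dg_eq h1
    have h4 : p.2.2 - p.1 - p.2.1 = j := by omega
    have h5 : ∀ n, d3 n ≠ 0 → 0 < n := fun n hn => Nat.pos_of_ne_zero fun h0 => hn (h0 ▸ d3_zero)
    have h6 := (div_ne_zero_iff.1 h).1
    rw [mul_ne_zero_iff, mul_ne_zero_iff] at h6
    exact ⟨h5 _ h6.1.1, h5 _ h6.1.2, h5 _ h6.2, h4 ▸ h2, h4 ▸ h3⟩
  · exact absurd rfl h

theorem dg_term : ∃ C : ℝ, 0 < C ∧ ∀ (p : ℕ × ℕ × ℕ) (j : ℕ), 0 < j →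
    j ^ 3 = 27 * (p.1 * p.2.1 * p.2.2) → tc p ≤ C * (j : ℝ) ^ (-(15 / 8) : ℝ) := by
  obtain ⟨C, h1, hC⟩ := d3_le (ε := 1 / 24) (by norm_num)
  refine ⟨C ^ 3 * 3 ^ (15 / 8 : ℝ), by positivity, fun p j hj h => ?_⟩
  have hj' : (0 : ℝ) < j := Nat.cast_pos.2 hj
  have h2 : (p.1 : ℝ) * p.2.1 * p.2.2 = (j / 3 : ℝ) ^ (3 : ℝ) := by
    have : (j : ℝ) ^ 3 = 27 * (p.1 * p.2.1 * p.2.2) := by exact_mod_cast h
    rw [Real.rpow_ofNat]
    linarith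
  unfold tc
  split_ifs
  · have h3 : d3 p.1 * d3 p.2.1 * d3 p.2.2 ≤ C ^ 3 * ((p.1 : ℝ) * p.2.1 * p.2.2) ^ (1 / 24 : ℝ) := by
      rw [Real.mul_rpow (by positivity) (by positivity),
        Real.mul_rpow (by positivity) (by positivity)]
      calc _ ≤ C * (p.1 : ℝ) ^ (1 / 24 : ℝ) * (C * (p.2.1 : ℝ) ^ (1 / 24 : ℝ)) *
            (C * (p.2.2 : ℝ) ^ (1 / 24 : ℝ)) :=
            mul_le_mul (mul_le_mul (hC _) (hC _) (d3_nonneg _) (by positivity)) (hC _)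
              (d3_nonneg _) (by positivity)
        _ = _ := by ring
    refine (div_le_div_of_nonneg_right h3 (by positivity)).trans (le_of_eq ?_)
    rw [h2, mul_div_assoc, ← Real.rpow_sub (by positivity), ← Real.rpow_mul (by positivity),
      show (3 : ℝ) * (1 / 24 - 2 / 3) = -(15 / 8) by norm_num,
      Real.div_rpow hj'.le (by norm_num), Real.rpow_neg (by norm_num : (0 : ℝ) ≤ 3),
      div_inv_eq_mul]
    ring
  · positivity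

/- Only triples of positive integers on the diagonal count (d3_zero).  Sort them by
j = c - a - b: j ^ 3 = 27 a b c ≥ N + 1, tc p ≤ C * j ^ (1 / 8) / j ^ 2 (d3_le), and the pair
(a, b) of divisors of j ^ 3 determines the triple, so there are at most dv (j ^ 3) ^ 2 ≤ C j ^ (1 / 8)
of them (dv_le).  Finish with sum_rpow_tail for β = 3 / 4 and J = ⌊(N + 1) ^ (1 / 3)⌋₊ < j. -/
theorem dg_fin : ∃ C : ℝ, 0 < C ∧ ∀ (N : ℕ) (S : Finset (ℕ × ℕ × ℕ)), (∀ p ∈ S, N < p.2.2) →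
    ∑ p ∈ S, tc p ≤ C * ((N : ℝ) + 1) ^ (-(1 / 4) : ℝ) := by
  obtain ⟨C1, h1, hC1⟩ := dg_term
  obtain ⟨C2, h2, hC2⟩ := dv_le (ε := 1 / 48) (by norm_num)
  obtain ⟨C3, h3, hC3⟩ := sum_rpow_tail (β := 3 / 4) (by norm_num)
  refine ⟨C2 ^ 2 * C1 * C3, by positivity, fun N S hS => ?_⟩
  obtain ⟨w, hw⟩ : ∃ w : ℝ, w = ((N + 1 : ℕ) : ℝ) ^ (1 / 3 : ℝ) := ⟨_, rfl⟩
  have w0 : 0 < w := by rw [hw]; positivity
  obtain ⟨J, hJ⟩ : ∃ J, ⌈w⌉₊ = J + 1 := Nat.exists_eq_succ_of_ne_zero (Nat.ceil_pos.2 w0).ne'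
  let g : ℕ × ℕ × ℕ → ℕ := fun p => p.2.2 - p.1 - p.2.1
  rw [← Finset.sum_filter_ne_zero, ← Finset.sum_fiberwise_of_maps_to (g := g)
    (t := Finset.Ioc J (S.sup g)) fun p hp => ?_]
  · refine (Finset.sum_le_sum (g := fun j : ℕ => C2 ^ 2 * C1 * (j : ℝ) ^ (-1 - 3 / 4 : ℝ))
      fun j hj => ?_).trans ?_
    · have j0 : 0 < j := (Nat.zero_le J).trans_lt (Finset.mem_Ioc.1 hj).1
      have j1 : (0 : ℝ) < j := Nat.cast_pos.2 j0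
      have k : ∀ p ∈ (S.filter (tc · ≠ 0)).filter (g · = j), p.2.2 = p.1 + p.2.1 + j ∧
          j ^ 3 = 27 * (p.1 * p.2.1 * p.2.2) := fun p hp => by
        rw [Finset.mem_filter, Finset.mem_filter] at hp
        exact hp.2 ▸ (dg_ne hp.1.2).2.2.2
      refine (Finset.sum_le_card_nsmul _ _ _ fun p hp => hC1 p j j0 (k p hp).2).trans ?_
      have c1 := Finset.card_le_card_of_injOn (t := (j ^ 3).divisors ×ˢ (j ^ 3).divisors)
        (fun p : ℕ × ℕ × ℕ => (p.1, p.2.1)) (fun p hp => by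
          have := (k p hp).2
          simp only [Finset.coe_product, Set.mem_prod, Finset.mem_coe, Nat.mem_divisors]
          exact ⟨⟨⟨27 * p.2.1 * p.2.2, by rw [this]; ring⟩, by positivity⟩,
            ⟨27 * p.1 * p.2.2, by rw [this]; ring⟩, by positivity⟩) fun p hp q hq e => by
          have e1 : p.1 = q.1 := (Prod.ext_iff.1 e).1
          have e2 : p.2.1 = q.2.1 := (Prod.ext_iff.1 e).2
          exact Prod.ext e1 (Prod.ext e2 (by rw [(k p hp).1, (k q hq).1, e1, e2]))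
      have c2 : dv (j ^ 3) ≤ C2 * (j : ℝ) ^ (1 / 16 : ℝ) := (hC2 _).trans (le_of_eq (by
        rw [Nat.cast_pow, ← Real.rpow_natCast, ← Real.rpow_mul j1.le]
        norm_num))
      have c3 : (((S.filter (tc · ≠ 0)).filter (g · = j)).card : ℝ) ≤
          (C2 * (j : ℝ) ^ (1 / 16 : ℝ)) ^ 2 := by
        refine le_trans ?_ (pow_le_pow_left₀ (Nat.cast_nonneg _) c2 2)
        rw [Finset.card_product, ← sq] at c1
        rw [dv]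
        exact_mod_cast c1
      rw [nsmul_eq_mul]
      refine (mul_le_mul_of_nonneg_right c3 (by positivity)).trans (le_of_eq ?_)
      rw [show (-1 - 3 / 4 : ℝ) = 1 / 16 + 1 / 16 + -(15 / 8) by norm_num, Real.rpow_add j1,
        Real.rpow_add j1]
      ring
    · rw [← Finset.mul_sum, mul_assoc (C2 ^ 2 * C1)]
      refine mul_le_mul_of_nonneg_left ((hC3 _ _).trans
        (mul_le_mul_of_nonneg_left ?_ h3.le)) (by positivity)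
      have e : w ≤ J + 1 := (Nat.le_ceil w).trans (by rw [hJ]; push_cast; rfl)
      refine (Real.rpow_le_rpow_of_nonpos w0 e (by norm_num)).trans (le_of_eq ?_)
      rw [hw, ← Real.rpow_mul (Nat.cast_nonneg _)]
      norm_num
  · rw [Finset.mem_filter] at hp
    obtain ⟨a0, b0, -, -, e⟩ := dg_ne hp.2
    refine Finset.mem_Ioc.2 ⟨?_, Finset.le_sup hp.1⟩
    rw [← Nat.succ_le_iff, Nat.succ_eq_add_one, ← hJ, Nat.ceil_le]
    refine le_of_pow_le_pow_left₀ three_ne_zero (Nat.cast_nonneg _) ?_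
    have e1 : N + 1 ≤ g p ^ 3 := by
      have := Nat.le_mul_of_pos_left p.2.2 (Nat.mul_pos a0 b0)
      have := hS p hp.1
      simp only [g, e]
      omega
    rw [hw, dg_cube]
    exact_mod_cast e1

/- summable_of_sum_le; the triples with p.2.2 = 0 give zero. -/
theorem tc_summable : Summable tc := by
  obtain ⟨C, -, hC⟩ := dg_fin
  refine summable_of_sum_le tc_nonneg (c := C * (((0 : ℕ) : ℝ) + 1) ^ (-(1 / 4) : ℝ)) fun S => ?_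
  rw [← Finset.sum_filter_ne_zero]
  exact hC 0 _ fun p hp => (dg_ne (Finset.mem_filter.1 hp).2).2.2.1

/- Outside the box a non-zero term has N < p.2.2, since p.1, p.2.1 ≤ p.2.2 (dg_eq). -/
theorem dg_tail : ∃ C : ℝ, 0 < C ∧ ∀ N : ℕ,
    |(∑' p : ℕ × ℕ × ℕ, tc p) - DD N| ≤ C * ((N : ℝ) + 1) ^ (-(1 / 4) : ℝ) := by
  obtain ⟨C, h0, hC⟩ := dg_fin
  refine ⟨C, h0, fun N => ?_⟩
  rw [DD, ← tc_summable.sum_add_tsum_subtype_compl
    (Finset.Ioc 0 N ×ˢ Finset.Ioc 0 N ×ˢ Finset.Ioc 0 N), add_sub_cancel_left,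
    abs_of_nonneg (tsum_nonneg fun _ => tc_nonneg _)]
  refine (tc_summable.subtype _).tsum_le_of_sum_le fun S => ?_
  refine (Finset.sum_map S (Function.Embedding.subtype _) tc).symm.le.trans ?_
  rw [← Finset.sum_filter_ne_zero]
  refine hC N _ fun p hp => ?_
  rw [Finset.mem_filter, Finset.mem_map] at hp
  obtain ⟨⟨q, -, rfl⟩, h1⟩ := hp
  obtain ⟨a0, b0, c0, e, -⟩ := dg_ne h1
  have h2 := q.2
  simp only [Finset.mem_product, Finset.mem_Ioc, Function.Embedding.coe_subtype] at *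
  omega

/- The triple (1, 1, 8). -/
theorem c3_pos : 0 < c3 := by
  refine mul_pos (by positivity) (tc_summable.tsum_pos tc_nonneg (1, 1, 8) ?_)
  have h8 : ((8 : ℕ) : ℝ) ^ (1 / 3 : ℝ) = 2 :=
    (pow_left_inj₀ (by positivity) (by norm_num) three_ne_zero).1 (by rw [dg_cube]; norm_num)
  have h1 : ∀ n, n = 1 ∨ n = 8 → 0 < d3 n := by
    rintro n (rfl | rfl) <;> exact Nat.cast_pos.2 (by decide +kernel)
  rw [tc, if_pos (by rw [h8]; norm_num)]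
  exact div_pos (mul_pos (mul_pos (h1 _ (.inl rfl)) (h1 _ (.inl rfl))) (h1 _ (.inr rfl)))
    (by positivity)

end Pool.Agent.Lib.MP_2a1a00_nt
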