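import Pool.Agent.Lib.MP_2a1a00_nt.C.Defs

/-! The energy inequality. -/

namespace Pool.Agent.Lib.MP_2a1a00_nt

open Complex MeasureTheory Set

variable {ι : Type}

/- Sort by the value of τ. -/
theorem fib_sum (S : Finset ι) (τ : ι → ℤ) {H : Finset ℤ} (h : ∀ i ∈ S, τ i ∈ H) (G : ℤ → ℝ) :
    ∑ i ∈ S, G (τ i) = ∑ x ∈ H, fib S τ x * G x := by
  simp only [fib, Finset.sum_mul]
  rw [Finset.sum_comm]
  refine Finset.sum_congr rfl fun i hi => ?_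
  simp only [ite_mul, one_mul, zero_mul]
  rw [Finset.sum_ite_eq, if_pos (h i hi)]

theorem ena_le (S : Finset ι) (τ : ι → ℤ) (H : Finset ℤ) {G : ℤ → ℝ} (hG : ∀ x, 0 ≤ G x) :
    ∑ x ∈ H, fib S τ x * G x ≤ ∑ i ∈ S, G (τ i) := by
  simp only [fib, Finset.sum_mul]
  rw [Finset.sum_comm]
  refine Finset.sum_le_sum fun i _ => ?_
  simp only [ite_mul, one_mul, zero_mul]
  rw [Finset.sum_ite_eq]
  split_ifs
  exacts [le_rfl, hG _]

theorem ena_cor (S : Finset ι) (τ : ι → ℤ) (h : ℤ) :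
    cor S τ h = ∑ i ∈ S, fib S τ (τ i - h) := by
  rw [cor, fib, Finset.sum_product]
  refine Finset.sum_congr rfl fun i _ => Finset.sum_congr rfl fun j _ => ?_
  have e : τ i - τ j = h ↔ τ j = τ i - h := by constructor <;> intro <;> omega
  exact if_congr e rfl rfl

theorem fib_total (S : Finset ι) (τ : ι → ℤ) (H : Finset ℤ) : ∑ x ∈ H, fib S τ x ≤ S.card := by
  simpa using ena_le S τ H (G := fun _ => 1) fun _ => zero_le_one

theorem fib_sq (S : Finset ι) (τ : ι → ℤ) (H : Finset ℤ) :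
    ∑ x ∈ H, fib S τ x ^ 2 ≤ cor S τ 0 := by
  simpa only [ena_cor, sub_zero, sq] using ena_le S τ H (fib_nonneg S τ)

/- cor S τ h = ∑ x, fib x * fib (x - h) ≤ ∑ x, (fib x ^ 2 + fib (x - h) ^ 2) / 2, fib_sq. -/
theorem cor_le (S : Finset ι) (τ : ι → ℤ) (h : ℤ) : cor S τ h ≤ cor S τ 0 := by
  have h1 := fib_sq S τ (S.image τ)
  have h2 := fib_sq S τ ((S.image τ).image fun x => x - h)
  rw [Finset.sum_image fun _ _ _ _ e => sub_left_injective e] at h2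
  rw [ena_cor S τ h, fib_sum S τ (fun i hi => Finset.mem_image_of_mem τ hi)
    fun x => fib S τ (x - h)]
  have h3 : ∑ x ∈ S.image τ, fib S τ x * fib S τ (x - h) ≤
      ∑ x ∈ S.image τ, (fib S τ x ^ 2 + fib S τ (x - h) ^ 2) / 2 :=
    Finset.sum_le_sum fun x _ => by nlinarith [sq_nonneg (fib S τ x - fib S τ (x - h))]
  rw [← Finset.sum_div, Finset.sum_add_distrib] at h3
  linarith

theorem cor_id (W : Finset ℤ) : cor W id 0 = W.card := by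
  rw [ena_cor, Finset.card_eq_sum_ones, Nat.cast_sum]
  refine Finset.sum_congr rfl fun i hi => ?_
  simp [fib, hi]

/- fib_sum for the differences, cor_le, Finset.sum_mul_sq_le_sq_mul_sq. -/
theorem en_pair (S : Finset ι) (τ : ι → ℤ) {H : Finset ℤ}
    (h : ∀ i ∈ S, ∀ j ∈ S, τ i - τ j ∈ H) {G₁ G₂ : ℤ → ℝ} (h1 : ∀ x, 0 ≤ G₁ x) {A B Q : ℝ}
    (hA : ∑ x ∈ H, G₁ x ≤ A) (hB : ∑ x ∈ H, G₂ x ^ 2 ≤ B) (hQ : ∑ x ∈ H, cor S τ x ^ 2 ≤ Q) :
    ∑ p ∈ S ×ˢ S, (G₁ (τ p.1 - τ p.2) + G₂ (τ p.1 - τ p.2)) ≤ cor S τ 0 * A + √(Q * B) := by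
  rw [fib_sum (S ×ˢ S) (fun p => τ p.1 - τ p.2) (H := H)
    (fun p hp => h _ (Finset.mem_product.1 hp).1 _ (Finset.mem_product.1 hp).2)
    fun x => G₁ x + G₂ x]
  change ∑ x ∈ H, cor S τ x * (G₁ x + G₂ x) ≤ _
  simp only [mul_add, Finset.sum_add_distrib]
  refine add_le_add ?_ (Real.le_sqrt_of_sq_le ?_)
  · refine le_trans ?_ (mul_le_mul_of_nonneg_left hA (fib_nonneg _ _ _))
    rw [Finset.mul_sum]
    exact Finset.sum_le_sum fun x _ => mul_le_mul_of_nonneg_right (cor_le S τ x) (h1 x)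
  · have h2 : 0 ≤ ∑ x ∈ H, cor S τ x ^ 2 := Finset.sum_nonneg fun _ _ => sq_nonneg _
    exact (Finset.sum_mul_sq_le_sq_mul_sq _ _ _).trans
      (mul_le_mul hQ hB (Finset.sum_nonneg fun _ _ => sq_nonneg _) (h2.trans hQ))

theorem enb_conj (x : ℝ) : (starRingEnd ℂ) (exp (I * x)) = exp (I * (-x : ℝ)) := by
  rw [← exp_conj, map_mul, conj_I, conj_ofReal, ofReal_neg, neg_mul, mul_neg]

theorem enb_sq (c : ℕ → ℂ) (M : ℕ) (t : ℝ) : ((‖dp c M t‖ ^ 2 : ℝ) : ℂ) =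
    ∑ m ∈ Finset.Icc 1 M, ∑ n ∈ Finset.Icc 1 M,
      c m * (starRingEnd ℂ) (c n) * (((m : ℝ) ^ (-(1 / 2) : ℝ) * (n : ℝ) ^ (-(1 / 2) : ℝ) : ℝ) : ℂ) *
        exp (I * ((Real.log m - Real.log n) * t : ℝ)) := by
  rw [ofReal_pow, ← mul_conj', dp, map_sum, Finset.sum_mul_sum]
  refine Finset.sum_congr rfl (fun m _ => Finset.sum_congr rfl (fun n _ => ?_))
  rw [map_mul, map_mul, enb_conj, conj_ofReal, ofReal_mul ((m : ℝ) ^ _),
    show (I * (((Real.log m - Real.log n) * t : ℝ) : ℂ)) =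
      I * ((Real.log m * t : ℝ) : ℂ) + I * ((-(Real.log n * t) : ℝ) : ℂ) by push_cast; ring, exp_add]
  ring

theorem enb_three (W : Finset ℤ) (α v : ℝ) :
    ‖∑ p ∈ W ×ˢ W ×ˢ W, exp (I * (α * ((p.1 + p.2.1 - p.2.2 : ℤ) + v) : ℝ))‖ = ‖ex W id α‖ ^ 3 := by
  have : ∑ p ∈ W ×ˢ W ×ˢ W, exp (I * (α * ((p.1 + p.2.1 - p.2.2 : ℤ) + v) : ℝ)) =
      exp (I * (α * v : ℝ)) * (ex W id α * (ex W id α * (starRingEnd ℂ) (ex W id α))) := by
    rw [ex, map_sum, Finset.sum_mul_sum, ← Finset.sum_product', Finset.sum_mul_sum,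
      ← Finset.sum_product', Finset.mul_sum]
    refine Finset.sum_congr rfl (fun p _ => ?_)
    rw [enb_conj, ← exp_add, ← exp_add, ← exp_add]
    congr 1
    simp only [id]
    push_cast
    ring
  rw [this, norm_mul, norm_mul, norm_mul, RCLike.norm_conj, norm_exp_I_mul_ofReal]
  ring

/- Expand the square: the sum over p of exp (i (p.1 + p.2.1 - p.2.2 + v) α) is
exp (i v α) * ex W id α ^ 2 * conj (ex W id α). -/
theorem en_cube (W : Finset ℤ) {c : ℕ → ℂ} {M : ℕ} {K : ℝ} (hc : ∀ n ∈ Finset.Icc 1 M, ‖c n‖ ≤ K)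
    (v : ℝ) : ∑ p ∈ W ×ˢ W ×ˢ W, ‖dp c M ((p.1 + p.2.1 - p.2.2 : ℤ) + v)‖ ^ 2 ≤
      K ^ 2 * qf M fun α => ‖ex W id α‖ ^ 3 := by
  have h1 : ((∑ p ∈ W ×ˢ W ×ˢ W, ‖dp c M ((p.1 + p.2.1 - p.2.2 : ℤ) + v)‖ ^ 2 : ℝ) : ℂ) =
      ∑ m ∈ Finset.Icc 1 M, ∑ n ∈ Finset.Icc 1 M,
        c m * (starRingEnd ℂ) (c n) * (((m : ℝ) ^ (-(1 / 2) : ℝ) * (n : ℝ) ^ (-(1 / 2) : ℝ) : ℝ) : ℂ) *
          ∑ p ∈ W ×ˢ W ×ˢ W,
            exp (I * ((Real.log m - Real.log n) * ((p.1 + p.2.1 - p.2.2 : ℤ) + v) : ℝ)) := by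
    rw [ofReal_sum]
    simp only [enb_sq, Finset.mul_sum]
    rw [Finset.sum_comm]
    exact Finset.sum_congr rfl (fun m _ => Finset.sum_comm)
  have h2 := congrArg norm h1
  rw [norm_real, Real.norm_of_nonneg (Finset.sum_nonneg fun _ _ => sq_nonneg _)] at h2
  rw [h2, qf, Finset.mul_sum]
  refine (norm_sum_le _ _).trans (Finset.sum_le_sum fun m hm => ?_)
  rw [Finset.mul_sum]
  refine (norm_sum_le _ _).trans (Finset.sum_le_sum fun n hn => ?_)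
  have w : 0 ≤ (m : ℝ) ^ (-(1 / 2) : ℝ) * (n : ℝ) ^ (-(1 / 2) : ℝ) := by positivity
  rw [norm_mul, norm_mul, norm_mul, enb_three, norm_real, Real.norm_of_nonneg w, RCLike.norm_conj,
    mul_assoc]
  refine mul_le_mul_of_nonneg_right ?_ (by positivity)
  rw [sq]
  exact mul_le_mul (hc m hm) (hc n hn) (norm_nonneg _) ((norm_nonneg _).trans (hc m hm))

theorem en_cs (M : ℕ) {g : ℝ → ℝ} (hg : ∀ α, 0 ≤ g α) :
    qf M (fun α => g α ^ 3) ≤ √(qf M fun α => g α ^ 2) * √(qf M fun α => g α ^ 4) := by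
  unfold qf
  simp only [← Finset.sum_product']
  have w : ∀ p : ℕ × ℕ, 0 ≤ (p.1 : ℝ) ^ (-(1 / 2) : ℝ) * (p.2 : ℝ) ^ (-(1 / 2) : ℝ) := fun p => by positivity
  have h := Real.sum_mul_le_sqrt_mul_sqrt (Finset.Icc 1 M ×ˢ Finset.Icc 1 M)
    (fun p => √((p.1 : ℝ) ^ (-(1 / 2) : ℝ) * (p.2 : ℝ) ^ (-(1 / 2) : ℝ)) * g (Real.log p.1 - Real.log p.2))
    (fun p => √((p.1 : ℝ) ^ (-(1 / 2) : ℝ) * (p.2 : ℝ) ^ (-(1 / 2) : ℝ)) *
      g (Real.log p.1 - Real.log p.2) ^ 2)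
  simp only [mul_pow, Real.sq_sqrt (w _), ← pow_mul] at h
  refine le_trans (le_of_eq (Finset.sum_congr rfl fun p _ => ?_)) h
  rw [mul_mul_mul_comm, Real.mul_self_sqrt (w p)]
  ring

/- ex (W ×ˢ W) (p.1 - p.2) α = ex W id α * conj (ex W id α). -/
theorem en_sq (W : Finset ℤ) (α : ℝ) :
    ‖ex (W ×ˢ W) (fun p => p.1 - p.2) α‖ ^ 2 = ‖ex W id α‖ ^ 4 := by
  have : ex (W ×ˢ W) (fun p => p.1 - p.2) α = ex W id α * (starRingEnd ℂ) (ex W id α) := by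
    rw [ex, ex, map_sum, Finset.sum_mul_sum, ← Finset.sum_product']
    refine Finset.sum_congr rfl (fun p _ => ?_)
    rw [enb_conj, ← exp_add]
    congr 1
    simp only [id]
    push_cast
    ring
  rw [this, norm_mul, RCLike.norm_conj]
  ring

/- en_cube, en_cs, and en_pair twice with H = Icc (-4U) (4U): for S = W, τ = id,
Q = Eg W (fib_sq, cor_id); for S = W ×ˢ W, Q = Eg W * card ^ 4 (cor_le, fib_total). -/
theorem en_main {M U : ℕ} {A B K : ℝ} (hk : Kn M U A B) {W : Finset ℤ}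
    (hW : W ⊆ Finset.Ico (-(U : ℤ)) U) {c : ℕ → ℂ} (hc : ∀ n ∈ Finset.Icc 1 M, ‖c n‖ ≤ K) (v : ℝ) :
    ∑ p ∈ W ×ˢ W ×ˢ W, ‖dp c M ((p.1 + p.2.1 - p.2.2 : ℤ) + v)‖ ^ 2 ≤
      K ^ 2 * eb W.card (Eg W) A B := by
  obtain ⟨G₁, G₂, g1, -, hA, hB, hq⟩ := hk
  have hm : ∀ i ∈ W, -(U : ℤ) ≤ i ∧ i < U := fun i hi => Finset.mem_Ico.1 (hW hi)
  have q1 : qf M (fun α => ‖ex W id α‖ ^ 2) ≤ W.card * A + √(Eg W * B) := by
    have := en_pair W id (H := Finset.Icc (-(4 * U : ℤ)) (4 * U)) (fun i hi j hj => by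
      have := hm i hi
      have := hm j hj
      simp only [id, Finset.mem_Icc]
      omega) g1 hA hB (fib_sq (W ×ˢ W) (fun p => p.1 - p.2) _)
    rw [cor_id] at this
    exact (hq _ W id).trans this
  have q2 : qf M (fun α => ‖ex W id α‖ ^ 4) ≤ Eg W * A + √(Eg W * (W.card : ℝ) ^ 4 * B) := by
    have hQ : ∑ x ∈ Finset.Icc (-(4 * U : ℤ)) (4 * U), cor (W ×ˢ W) (fun p => p.1 - p.2) x ^ 2 ≤
        Eg W * (W.card : ℝ) ^ 4 := by
      have t := fib_total ((W ×ˢ W) ×ˢ (W ×ˢ W)) (fun q => (q.1.1 - q.1.2) - (q.2.1 - q.2.2))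
        (Finset.Icc (-(4 * U : ℤ)) (4 * U))
      rw [Finset.card_product, Finset.card_product] at t
      refine le_trans (Finset.sum_le_sum fun x _ => ?_) ((Finset.mul_sum _ _ _).symm.trans_le
        (mul_le_mul_of_nonneg_left (t.trans (le_of_eq (by push_cast; ring))) (Eg_nonneg W)))
      rw [sq]
      exact mul_le_mul_of_nonneg_right (cor_le _ _ x) (fib_nonneg _ _ _)
    have := en_pair (W ×ˢ W) (fun p => p.1 - p.2) (H := Finset.Icc (-(4 * U : ℤ)) (4 * U))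
      (fun i hi j hj => by
        rw [Finset.mem_product] at hi hj
        have := hm _ hi.1
        have := hm _ hi.2
        have := hm _ hj.1
        have := hm _ hj.2
        simp only [Finset.mem_Icc]
        omega) g1 hA hB hQ
    have e := (hq _ (W ×ˢ W) (fun p => p.1 - p.2)).trans this
    simp only [en_sq] at e
    exact e
  refine (en_cube W hc v).trans (mul_le_mul_of_nonneg_left ?_ (sq_nonneg K))
  exact (en_cs M (fun α => norm_nonneg (ex W id α))).trans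
    (mul_le_mul (Real.sqrt_le_sqrt q1) (Real.sqrt_le_sqrt q2) (Real.sqrt_nonneg _) (Real.sqrt_nonneg _))

/- A quadruple with k₁ - k₂ = k₃ - k₄ has k₁ = k₂ + k₃ - k₄ ∈ W and is determined by
(k₂, k₃, k₄). -/
theorem en_low {W : Finset ℤ} {α : ℤ → ℝ} {a : ℝ} (h0 : ∀ k, 0 ≤ α k) (h : ∀ k ∈ W, a ≤ α k) :
    Eg W * a ≤ ∑ p ∈ W ×ˢ W ×ˢ W, α (p.1 + p.2.1 - p.2.2) := by
  simp only [Eg, cor, fib, Finset.sum_product, Finset.sum_mul]
  rw [Finset.sum_comm]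
  refine Finset.sum_le_sum fun b _ => ?_
  rw [Finset.sum_comm]
  refine Finset.sum_le_sum fun c _ => ?_
  rw [Finset.sum_comm]
  refine Finset.sum_le_sum fun d _ => ?_
  have e : ∀ k : ℤ, (k - b - (c - d) = 0) = (b + c - d = k) := fun k =>
    propext (by constructor <;> intro <;> omega)
  simp only [e, ite_mul, one_mul, zero_mul]
  rw [Finset.sum_ite_eq]
  split_ifs with h1
  exacts [h _ h1, h0 _]

theorem Eg_pos {W : Finset ℤ} (h : W.Nonempty) : 0 < Eg W := by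
  obtain ⟨k, hk⟩ := h
  refine Finset.sum_pos' (fun _ _ => by split_ifs <;> norm_num) ⟨((k, k), (k, k)), ?_, by simp⟩
  simp [hk]

theorem eb_scale {R E A B Λ A' B' : ℝ} (hR : 0 ≤ R) (hE : 0 ≤ E) (hΛ : 1 ≤ Λ) (h0 : 0 ≤ B')
    (hA : A ≤ Λ * A') (hB : B ≤ Λ * B') : eb R E A B ≤ Λ * eb R E A' B' := by
  have hΛ0 : 0 ≤ Λ := zero_le_one.trans hΛ
  have key : ∀ P Q : ℝ, 0 ≤ P → 0 ≤ Q →
      √(P * A + √(Q * B)) ≤ √Λ * √(P * A' + √(Q * B')) := by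
    intro P Q hP hQ
    rw [← Real.sqrt_mul hΛ0]
    refine Real.sqrt_le_sqrt ?_
    have h1 : √(Q * B) ≤ Λ * √(Q * B') := by
      refine Real.sqrt_le_iff.2 ⟨by positivity, ?_⟩
      rw [mul_pow, Real.sq_sqrt (mul_nonneg hQ h0)]
      have h2 := mul_le_mul_of_nonneg_left hB hQ
      have h3 : 0 ≤ (Λ - 1) * (Λ * (Q * B')) :=
        mul_nonneg (sub_nonneg.2 hΛ) (mul_nonneg hΛ0 (mul_nonneg hQ h0))
      nlinarith
    have h2 := mul_le_mul_of_nonneg_left hA hP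
    nlinarith
  have h3 := mul_le_mul (key R E hR hE) (key E (E * R ^ 4) hE (by positivity))
    (Real.sqrt_nonneg _) (by positivity)
  rw [mul_mul_mul_comm, Real.mul_self_sqrt hΛ0] at h3
  exact h3

end Pool.Agent.Lib.MP_2a1a00_nt
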