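import Pool.Agent.Lib.MP_2a1a00_nt.C.Mn
import Pool.Agent.Lib.MP_2a1a00_nt.V.Q3

/-! The main term. -/

namespace Pool.Agent.Lib.MP_2a1a00_nt

open Complex MeasureTheory Set

variable {F : Sel} {P : Vo} {a : ℕ}

theorem fna_one (r : ℂ) {s : ℝ} (hs : 0 < s) : ‖r‖ ≤ s + ‖r‖ ^ 2 / s := by
  rw [← sub_le_iff_le_add', le_div_iff₀ hs]
  nlinarith [sq_nonneg (‖r‖ - s), norm_nonneg r]

theorem fna_two (e h : ℂ) {t : ℝ} (h0 : 0 < t) (h1 : t ≤ 1) :
    ‖e ^ 2 - h ^ 2‖ ≤ ‖e‖ ^ 2 * t + 2 * (‖e - h‖ ^ 2 / t) := by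
  have e1 : e ^ 2 - h ^ 2 = (e - h) * (e + e - (e - h)) := by ring
  have a1 : ‖e + e - (e - h)‖ ≤ ‖e‖ + ‖e‖ + ‖e - h‖ :=
    (norm_sub_le _ _).trans (add_le_add_left (norm_add_le _ _) _)
  have a2 : ‖e - h‖ ^ 2 ≤ ‖e - h‖ ^ 2 / t := le_div_self (by positivity) h0 h1
  have a3 : 2 * ‖e - h‖ * ‖e‖ - ‖e‖ ^ 2 * t ≤ ‖e - h‖ ^ 2 / t := by
    rw [le_div_iff₀ h0]
    nlinarith [sq_nonneg (‖e - h‖ - ‖e‖ * t)]
  rw [e1, norm_mul]
  nlinarith [mul_le_mul_of_nonneg_left a1 (norm_nonneg (e - h))]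

theorem fna_bm (F : Sel) (P : Vo) (a : ℕ) {T : ℝ} (hT : 1 ≤ T) :
    Bm (fun x => F.E x ^ a - F.Hs P (1 / 100) T x ^ a) T :=
  ((F.bm_E hT).pow a).sub ((F.bm_Hs P _ hT).pow a)

theorem fna_sup : ∃ K : ℝ → ℝ, Bd K (1 / 3 + 1 / 3000) ∧ ∀ T, 1 ≤ T → ∀ x ∈ Icc T (2 * T),
    ‖(zs 3).Hs P3 (1 / 1000) T x‖ ≤ K T := by
  obtain ⟨K, k1, -, k2⟩ := bd_unif' (S := fun T => Icc T (2 * T)) (c := 1 / 3 + 1 / 3000)
    (φ := fun T x => ‖(zs 3).Hs P3 (1 / 1000) T x‖) fun ε hε => by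
      obtain ⟨C, hC, h⟩ := (zs 3).H_le P3 (by rw [zs_deg3]; norm_num) hε
      rw [zs_deg3, al_three] at h
      refine ⟨C * 2 ^ (1 / 3 : ℝ), fun T hT x hx => ?_⟩
      have h0 : 0 < T := by linarith
      have hx0 : 0 < x := p1_pos hT hx
      have a1 : x ^ (1 / 3 : ℝ) ≤ 2 ^ (1 / 3 : ℝ) * T ^ (1 / 3 : ℝ) := by
        rw [← Real.mul_rpow zero_le_two h0.le]
        exact Real.rpow_le_rpow hx0.le hx.2 (by norm_num)
      have a2 : (⌊T ^ (1 / 1000 : ℝ)⌋₊ : ℝ) ^ (1 / 3 + ε) ≤ T ^ ε * T ^ (1 / 3000 : ℝ) := by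
        refine (Real.rpow_le_rpow (Nat.cast_nonneg _) (Nat.floor_le (by positivity))
          (by positivity)).trans ?_
        rw [← Real.rpow_mul h0.le, ← Real.rpow_add h0]
        exact Real.rpow_le_rpow_of_exponent_le hT (by linarith)
      refine (h 0 _ x hx0).trans ((mul_le_mul (mul_le_mul_of_nonneg_left a1 hC.le) a2
        (by positivity) (by positivity)).trans (le_of_eq ?_))
      rw [Real.rpow_add h0]
      ring
  exact ⟨K, k1, k2⟩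

/- r = e - h.  a = 1: ‖r‖ ≤ s + ‖r‖² / s, s = T ^ (1 / 4 - 1 / 400).  a = 2:
‖e² - h²‖ ≤ 2 ‖r‖² / t + t ‖e‖², t = T ^ (-1 / 400).  p2_l2, E_eight, low0. -/
theorem fn_diff (h : F.deg = 2) (hP : F.Vor P) (ha : a ≤ 2) :
    Bd (fun T => ∫ x in T..2 * T, ‖F.E x ^ a - F.Hs P (1 / 100) T x ^ a‖)
      (1 + a / 4 - 1 / 400) := by
  have m2 : Bd (fun T => mu0 2 (fun x => F.E x - F.Hs P (1 / 100) T x) T) (3 / 2 - 1 / 100 / 2) := by
    simpa only [mo_one] using Sel.p2_l2 h hP (γ := 1 / 100) le_rfl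
  have b2 := fun (T : ℝ) (hT : 1 ≤ T) =>
    ((F.bm_E hT).sub (F.bm_Hs P (1 / 100) hT)).int_pow0 (by linarith) 2
  have b1 := fun (T : ℝ) (hT : 1 ≤ T) =>
    ((fna_bm F P a hT).int (y := 2 * T) ⟨by linarith, le_rfl⟩).norm
  obtain rfl | rfl | rfl : a = 0 ∨ a = 1 ∨ a = 2 := by omega
  · exact ((bd_const 0).mono (by norm_num)).of_le fun T _ => by simp
  · refine (((bd_id.mul_rpow (1 / 4 - 1 / 400)).mono (by norm_num)).add
      ((m2.div_rpow (1 / 4 - 1 / 400)).mono (by norm_num))).of_le fun T hT => ?_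
    have h0 : 0 < T := by linarith
    refine (intervalIntegral.integral_mono_on (by linarith) (b1 T hT)
      ((intervalIntegrable_const (c := T ^ (1 / 4 - 1 / 400 : ℝ))).add
        ((b2 T hT).div_const (T ^ (1 / 4 - 1 / 400 : ℝ))))
      fun x _ => ?_).trans (le_of_eq ?_)
    · rw [pow_one, pow_one]
      exact fna_one _ (Real.rpow_pos_of_pos h0 (1 / 4 - 1 / 400))
    · rw [intervalIntegral.integral_add intervalIntegrable_const ((b2 T hT).div_const _),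
        intervalIntegral.integral_div, intervalIntegral.integral_const, smul_eq_mul, mu0]
      ring
  · have m1 := low0 (n := 2) (m := 8) (x := 1 / 4) (f := fun _ => F.E) (by omega)
      (fun _ hT => F.bm_E hT) ((bd_nat 3 fun _ hε => F.E_eight h hP hε).mono (by norm_num))
    refine (((m1.mul_rpow (-(1 / 400))).mono (by norm_num)).add
      (((m2.div_rpow (-(1 / 400))).const_mul zero_le_two).mono (by norm_num))).of_le fun T hT => ?_
    have h0 : 0 < T := by linarith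
    have b3 := ((F.bm_E hT).int_pow0 h0.le 2).mul_const (T ^ (-(1 / 400) : ℝ))
    have b4 := ((b2 T hT).div_const (T ^ (-(1 / 400) : ℝ))).const_mul 2
    refine (intervalIntegral.integral_mono_on (by linarith) (b1 T hT) (b3.add b4)
      fun x _ => fna_two _ _ (Real.rpow_pos_of_pos h0 _)
        (Real.rpow_le_one_of_one_le_of_nonpos hT (by norm_num))).trans (le_of_eq ?_)
    rw [intervalIntegral.integral_add b3 b4, intervalIntegral.integral_mul_const,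
      intervalIntegral.integral_const_mul, intervalIntegral.integral_div, mu0, mu0]

/- H_le: ‖Hs P3 (1 / 1000) T x‖ ^ 3 ≤ C T ^ (1 + 1 / 1000 + ε), fn_diff. -/
theorem fn_one (h : F.deg = 2) (hP : F.Vor P) (ha : a ≤ 2) :
    Bd (fun T => ‖∫ x in T..2 * T, (F.E x ^ a - F.Hs P (1 / 100) T x ^ a) *
      (zs 3).Hs P3 (1 / 1000) T x ^ 3‖) (2 + a / 4 - 1 / 1000) := by
  obtain ⟨K, k1, k2⟩ := fna_sup
  have k0 : ∀ T, 1 ≤ T → 0 ≤ K T := fun T hT =>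
    (norm_nonneg _).trans (k2 T hT T ⟨le_rfl, by linarith⟩)
  refine (((fn_diff h hP ha).mul (k1.pow k0 3) fun T hT => pow_nonneg (k0 T hT) 3).mono
    (by push_cast; linarith)).of_le fun T hT => ?_
  have hT2 : T ≤ 2 * T := by linarith
  rw [← intervalIntegral.integral_mul_const]
  refine intervalIntegral.norm_integral_le_of_norm_le hT2
    (Filter.Eventually.of_forall fun x hx => ?_)
    (((fna_bm F P a hT).int ⟨hT2, le_rfl⟩).norm.mul_const _)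
  rw [norm_mul, norm_pow]
  exact mul_le_mul_of_nonneg_left (pow_le_pow_left₀ (norm_nonneg _)
    (k2 T hT x (Ioc_subset_Icc_self hx)) 3) (norm_nonneg _)

/- pb_of with px_int (and hy_int), fn_diff, Pb.add. -/
theorem fn_pb (h : F.deg = 2) (hP : F.Vor P) (ha : a ≤ 2) {M : ℂ} {δ : ℝ} (hδ : δ ≤ 1 / 400)
    (hM : ∀ ε : ℝ, 0 < ε → ∃ C : ℝ, ∀ T : ℝ, 1 ≤ T → ‖(∫ x in (1 : ℝ)..T, F.E x ^ a) -
      M * (T ^ (1 + (a : ℝ) / 4) : ℝ)‖ ≤ C * T ^ (1 + (a : ℝ) / 4 - δ + ε)) :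
    Pb (fun T x => F.Hs P (1 / 100) T x ^ a - M * ((1 + (a : ℝ) / 4 : ℝ) * px ((a : ℝ) / 4 : ℝ) x))
      (1 + a / 4 - δ) := by
  have hσ : (0 : ℝ) ≤ a / 4 := by positivity
  have hv : ContinuousOn (fun x => M * ((1 + (a : ℝ) / 4 : ℝ) * px ((a : ℝ) / 4 : ℝ) x)) (Ioi 0) :=
    continuousOn_const.mul (continuousOn_const.mul (px_cont _))
  have p1 := pb_of (u := fun x => F.E x ^ a) (U := fun x => M * (x ^ (1 + (a : ℝ) / 4) : ℝ))
    (by linarith) (fun _ _ h1 h2 => (hy_int F F F a a h1 h2).2) hv (fun _ _ h1 h2 => by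
      rw [intervalIntegral.integral_const_mul, px_int hσ h1 h2, mul_sub]) hM
  have p2 : Pb (fun T x => F.E x ^ a - F.Hs P (1 / 100) T x ^ a) (1 + a / 4 - δ) :=
    ⟨_, (fn_diff h hP ha).mono (by linarith), fun T hT y hy =>
      (intervalIntegral.norm_integral_le_integral_norm hy.1).trans
        (intervalIntegral.integral_mono_interval le_rfl hy.1 hy.2
          (Filter.Eventually.of_forall fun _ => norm_nonneg _)
          ((fna_bm F P a hT).int ⟨by linarith, le_rfl⟩).norm)⟩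
  refine (p1.add p2.neg (fun T hT => ((F.bm_E hT).pow a).sub (bm_of hT hv)) fun T hT => ?_).congr
    fun T x _ _ => by ring
  simpa only [neg_sub] using ((F.bm_Hs P (1 / 100) hT).pow a).sub ((F.bm_E hT).pow a)

/- mn_cube with N = ⌊T ^ (1 / 1000)⌋₊, D = (4 √3 π³)⁻¹ DD N, |D - 2 c3| ≤ C T ^ (-1 / 4000)
(dg_tail).  The function is D px 1 * (Hs ^ a - M ..) + (D - 2 c3) M .. px (1 + a / 4) + Hs ^ a * O.
Pb.px with fn_pb; trig1, Trig.pow, Trig.mul, trig_bd with M T = 40 N ^ 3; compare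
q2_prim, q_osc. -/
theorem fn_two (h : F.deg = 2) (hP : F.Vor P) (ha : a ≤ 2) {M : ℂ} {δ : ℝ} (hδ : δ ≤ 1 / 4000)
    (hM : ∀ ε : ℝ, 0 < ε → ∃ C : ℝ, ∀ T : ℝ, 1 ≤ T → ‖(∫ x in (1 : ℝ)..T, F.E x ^ a) -
      M * (T ^ (1 + (a : ℝ) / 4) : ℝ)‖ ≤ C * T ^ (1 + (a : ℝ) / 4 - δ + ε)) :
    Pb (fun T x => F.Hs P (1 / 100) T x ^ a * (zs 3).Hs P3 (1 / 1000) T x ^ 3 -
      2 * c3 * M * (1 + (a : ℝ) / 4 : ℝ) * px (1 + (a : ℝ) / 4 : ℝ) x) (2 + a / 4 - δ) := by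
  obtain ⟨K, k1, k⟩ := mn_cube
  choose! O o1 e1 using k
  obtain ⟨A, hA, tl⟩ := dg_tail
  obtain ⟨K₁, m1, m2⟩ := Sel.trig1 h hP.1 (1 / 100)
  have a0 : (0 : ℝ) ≤ a := Nat.cast_nonneg a
  have a2 : (a : ℝ) ≤ 2 := by exact_mod_cast ha
  have fl := fun (T : ℝ) (hT : 1 ≤ T) => one_le_floor (γ := 1 / 1000) (by norm_num) hT
  obtain ⟨D, hD⟩ : ∃ D : ℝ → ℂ, D = fun T : ℝ =>
    ((1 / (4 * √3 * Real.pi ^ 3) * DD ⌊T ^ (1 / 1000 : ℝ)⌋₊ : ℝ) : ℂ) := ⟨_, rfl⟩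
  have q0 : 0 < 1 / (4 * √3 * Real.pi ^ 3) := by positivity
  have d1 : Bd (fun T => ‖D T - 2 * c3‖) (-(1 / 4000)) :=
    ((bd_rpow (-(1 / 4000))).const_mul (K := 1 / (4 * √3 * Real.pi ^ 3) * A)
      (by positivity)).of_le fun T hT => by
      have T0 : 0 < T := by linarith
      have e : D T - 2 * c3 = ((1 / (4 * √3 * Real.pi ^ 3) *
          (DD ⌊T ^ (1 / 1000 : ℝ)⌋₊ - ∑' p : ℕ × ℕ × ℕ, tc p) : ℝ) : ℂ) := by
        rw [hD, c3]
        push_cast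
        ring
      rw [e, norm_real, Real.norm_eq_abs, abs_mul, abs_of_pos q0, abs_sub_comm,
        mul_assoc _ A]
      refine mul_le_mul_of_nonneg_left ((tl _).trans (mul_le_mul_of_nonneg_left ?_ hA.le)) q0.le
      refine (Real.rpow_le_rpow_of_nonpos (Real.rpow_pos_of_pos T0 (1 / 1000))
        (Nat.lt_floor_add_one _).le (by norm_num)).trans (le_of_eq ?_)
      rw [← Real.rpow_mul T0.le]
      norm_num
  have d0 : Bd (fun T => ‖D T‖) 0 :=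
    ((d1.mono (by norm_num)).add (bd_const ‖(2 * c3 : ℂ)‖)).of_le fun T _ =>
      norm_le_norm_sub_add _ _
  have c1 := fun T : ℝ => (F.H_cont P 0 ⌊T ^ (1 / 100 : ℝ)⌋₊).pow a
  have cp := fun (D β : ℂ) => (continuousOn_const (c := D)).mul (px_cont β)
  have w1 := fun T : ℝ => (c1 T).sub ((continuousOn_const (c := M)).mul
    (cp (1 + (a : ℝ) / 4 : ℝ) ((a : ℝ) / 4 : ℝ)))
  have sub := fun (T : ℝ) (hT : 1 ≤ T) x (hx : x ∈ Icc T (2 * T)) => p1_pos hT hx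
  have v1 := (fn_pb h hP ha (hδ.trans (by norm_num)) hM).px (fun T hT => (w1 T).mono (sub T hT)) d0
    (β := 1) (by simp)
  have u2 : Pb (fun _ _ => M * (1 + (a : ℝ) / 4 : ℝ)) 1 :=
    ⟨_, bd_id.const_mul (norm_nonneg (M * (1 + (a : ℝ) / 4 : ℝ))), fun T _ y hy => by
      rw [intervalIntegral.integral_const, norm_smul, mul_comm,
        Real.norm_of_nonneg (sub_nonneg.2 hy.1)]
      exact mul_le_mul_of_nonneg_left (by linarith [hy.2]) (norm_nonneg _)⟩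
  have v2 := u2.px (fun _ _ => continuousOn_const) d1 (β := (1 + (a : ℝ) / 4 : ℝ))
    (by rw [ofReal_re]; positivity)
  have n3 := (bd_floor (1 / 1000)).pow (fun _ _ => Nat.cast_nonneg _) 3
  have t1 := fun T => ((m2 T).mono (ok₂ := fun _ B => B = 0) le_rfl fun _ _ h => h.1).pow rfl
    (fun _ _ _ _ h h' => by rw [h, h', add_zero]) a
  have r3 : ((a : ℂ) * P.ex 2 + 1).re = a / 4 + 1 := by
    simp [Vo.ex_re, al_two]
    ring
  have v3 : Pb (fun T x => F.Hs P (1 / 100) T x ^ a * O ⌊T ^ (1 / 1000 : ℝ)⌋₊ x) _ :=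
    trig_bd (κ := 6 * Real.pi) (by positivity) (by rw [r3]; positivity)
      ((m1.pow (fun T _ => (m2 T).nonneg) a).mul (n3.const_mul (K := K) (by linarith))
        fun T hT => (o1 _ (fl T hT)).nonneg) (n3.const_mul (K := 40) (by norm_num))
      (fun T hT => by
        have := Sel.q2_floor (γ := 1 / 1000) (by norm_num) hT
        positivity)
      fun T hT => Or.inl ((t1 T).mul (o1 _ (fl T hT))
        fun _ _ _ _ h h' => by rw [h, zero_add]; exact h'.2)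
  rw [r3] at v3
  rw [one_re] at v1
  rw [ofReal_re] at v2
  have b1 := fun (T : ℝ) (hT : 1 ≤ T) => bm_of hT ((cp (D T) 1).mul (w1 T))
  have b2 := fun (T : ℝ) (hT : 1 ≤ T) => bm_of hT ((cp (D T - 2 * c3) (1 + (a : ℝ) / 4 : ℝ)).mul
    (continuousOn_const (c := M * (1 + (a : ℝ) / 4 : ℝ))))
  have b3 := fun (T : ℝ) (hT : 1 ≤ T) => bm_of hT ((c1 T).mul (o1 _ (fl T hT)).cont)
  refine (((v1.mono (by linarith)).add (v2.mono (by linarith)) b1 b2).add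
    (v3.mono (by push_cast; linarith)) (fun T hT => (b1 T hT).add (b2 T hT)) b3).congr
    fun T x hT hx => ?_
  have e3 : px (1 + (a : ℝ) / 4 : ℝ) x = px 1 x * px ((a : ℝ) / 4 : ℝ) x := by
    rw [← px_add]
    congr 1
    push_cast
    ring
  have e4 : (zs 3).Hs P3 (1 / 1000) T x ^ 3 = D T * px 1 x + O ⌊T ^ (1 / 1000 : ℝ)⌋₊ x := by
    rw [hD]
    exact e1 _ (fl T hT) x hx
  rw [e3, e4]
  ring

end Pool.Agent.Lib.MP_2a1a00_nt
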