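import Pool.Agent.Lib.MP_2a1a00_nt.C.Ky
import Pool.Agent.Lib.MP_2a1a00_nt.C.Fn

/-! The asymptotic formula. -/

namespace Pool.Agent.Lib.MP_2a1a00_nt

open Complex MeasureTheory Set

theorem cube_int (F : Sel) (a : ℕ) {x y : ℝ} (hx : 1 ≤ x) (hy : 1 ≤ y) :
    IntervalIntegrable (fun t => F.E t ^ a * Del 3 t ^ 3) volume x y := by
  have hs : uIoc x y ⊆ Icc 1 (max x y) := fun t ht => ⟨(le_min hx hy).trans ht.1.le, ht.2⟩
  have hs' : uIoc x y ⊆ Ioi 0 := fun t ht => one_pos.trans_le (hs ht).1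
  obtain ⟨K₁, h₁⟩ := F.E_bdd (max x y)
  obtain ⟨K₂, h₂⟩ := (zs 3).E_bdd (max x y)
  simp only [Del_eq]
  refine intervalIntegrable_iff.2 (IntegrableOn.of_bound measure_Ioc_lt_top
    (((F.E_meas.mono_set hs').pow a).mul (((zs 3).E_meas.mono_set hs').pow 3)) (K₁ ^ a * K₂ ^ 3)
    ((ae_restrict_iff' measurableSet_uIoc).2 (Filter.Eventually.of_forall fun t ht => ?_)))
  refine norm_mul_le_of_le ?_ ?_ <;> rw [norm_pow]
  exacts [pow_le_pow_left₀ (norm_nonneg _) (h₁ t (hs ht)) a,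
    pow_le_pow_left₀ (norm_nonneg _) (h₂ t (hs ht)) 3]

/- vor, asy_mono (replace δ by min δ (1 / 300000)), key_a, fn_one, fn_two, bd_split,
bd_dsum, px_int, Del_eq; compare main_two. -/
theorem main_cube {F : Sel} (h : F.deg = 2) {a : ℕ} (ha : a ≤ 2) {M : ℂ} {δ : ℝ} (hδ : 0 < δ)
    (hM : ∀ ε : ℝ, 0 < ε → ∃ C : ℝ, ∀ T : ℝ, 1 ≤ T → ‖(∫ x in (1 : ℝ)..T, F.E x ^ a) -
      M * (T ^ (1 + (a : ℝ) / 4) : ℝ)‖ ≤ C * T ^ (1 + (a : ℝ) / 4 - δ + ε)) :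
    ∃ δ' : ℝ, 0 < δ' ∧ ∃ C : ℝ, ∀ T : ℝ, 1 ≤ T →
      ‖(∫ x in (1 : ℝ)..T, F.E x ^ a * Del 3 x ^ 3) -
        2 * (4 + a) / (8 + a) * M * c3 * (T ^ (2 + (a : ℝ) / 4) : ℝ)‖ ≤
        C * T ^ (2 + (a : ℝ) / 4 - δ') := by
  obtain ⟨P, hP⟩ := F.vor h.ge
  obtain ⟨η, e0, e1, e2⟩ : ∃ η : ℝ, 0 < η ∧ η ≤ δ ∧ η ≤ 1 / 300000 :=
    ⟨min δ (1 / 300000), by positivity, min_le_left _ _, min_le_right _ _⟩
  have a0 : (0 : ℝ) ≤ a := Nat.cast_nonneg a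
  obtain ⟨B, s1, s2⟩ := fn_two (δ := η) h hP ha (by linarith) (asy_mono (by linarith) hM)
  have hg : ContinuousOn (fun x => 2 * c3 * M * (1 + (a : ℝ) / 4 : ℝ) *
      px (1 + (a : ℝ) / 4 : ℝ) x) (Ioi 0) := continuousOn_const.mul (px_cont _)
  have b1 := fun (T : ℝ) (hT : 1 ≤ T) => (F.bm_E hT).pow a
  have b2 : ∀ T, 1 ≤ T → Bm (fun x => F.Hs P (1 / 100) T x ^ a) T :=
    fun T hT => (bm_of hT (F.H_cont P 0 _)).pow a
  have b3 : ∀ T, 1 ≤ T → Bm (fun x => (zs 3).Hs P3 (1 / 1000) T x ^ 3) T :=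
    fun T hT => (bm_of hT ((zs 3).H_cont P3 0 _)).pow 3
  have b4 := fun (T : ℝ) (hT : 1 ≤ T) => ((b1 T hT).sub (b2 T hT)).mul (b3 T hT)
  have b5 := fun (T : ℝ) (hT : 1 ≤ T) => ((b2 T hT).mul (b3 T hT)).sub (bm_of hT hg)
  have s3 := bd_split (c := 2 + a / 4 - η) b4 b5 ((fn_one h hP ha).mono (by linarith))
    (s1.of_le fun T hT => s2 T hT _ ⟨by linarith, le_rfl⟩) fun _ _ => rfl
  have s4 := bd_split (k := fun _ x => F.E x ^ a * Del 3 x ^ 3 -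
      2 * c3 * M * (1 + (a : ℝ) / 4 : ℝ) * px (1 + (a : ℝ) / 4 : ℝ) x)
    (fun T hT => (b1 T hT).mul ((((zs 3).bm_E hT).pow 3).sub (b3 T hT)))
    (fun T hT => (b4 T hT).add (b5 T hT)) ((key_a h hP ha).mono (by linarith)) s3 fun T x => by
      rw [Del_eq]
      ring
  have hi : ∀ x y : ℝ, 1 ≤ x → 1 ≤ y → IntervalIntegrable (fun x => 2 * c3 * M *
      (1 + (a : ℝ) / 4 : ℝ) * px (1 + (a : ℝ) / 4 : ℝ) x) volume x y :=
    fun x y hx hy => (hg.mono fun t ht =>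
      lt_of_lt_of_le one_pos ((le_min hx hy).trans ht.1)).intervalIntegrable
  obtain ⟨C, hC⟩ := bd_dsum (d := 2 + a / 4 - η / 2) (fun x y hx hy =>
    (cube_int F a hx hy).sub (hi x y hx hy)) (by linarith) (by linarith) s4
  obtain ⟨G, hG⟩ : ∃ G : ℂ, G = 2 * (4 + a) / (8 + a) * M * c3 := ⟨_, rfl⟩
  rw [← hG]
  refine ⟨η / 2, half_pos e0, C + ‖G‖, fun T hT => ?_⟩
  have t1 := hC T hT
  have t2 : ∫ x in (1 : ℝ)..T, 2 * c3 * M * (1 + (a : ℝ) / 4 : ℝ) * px (1 + (a : ℝ) / 4 : ℝ) x =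
      G * (T ^ (2 + (a : ℝ) / 4) : ℝ) - G := by
    have := px_int (σ := 1 + (a : ℝ) / 4) (by positivity) one_pos (lt_of_lt_of_le one_pos hT)
    rw [Real.one_rpow, show 1 + (1 + (a : ℝ) / 4) = 2 + a / 4 by ring, ofReal_one] at this
    rw [← mul_sub_one, ← this, ← intervalIntegral.integral_const_mul]
    refine intervalIntegral.integral_congr fun x _ => ?_
    have n8 : (8 + a : ℂ) ≠ 0 := by exact_mod_cast (by omega : 8 + a ≠ 0)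
    rw [hG]
    push_cast
    field_simp
    ring
  rw [intervalIntegral.integral_sub (cube_int F a le_rfl hT) (hi 1 T le_rfl hT), t2,
    ← sub_add] at t1
  have t3 := norm_sub_le ((∫ x in (1 : ℝ)..T, F.E x ^ a * Del 3 x ^ 3) -
    G * (T ^ (2 + (a : ℝ) / 4) : ℝ) + G) G
  rw [add_sub_cancel_right] at t3
  have t4 := le_mul_of_one_le_right (norm_nonneg G)
    (Real.one_le_rpow hT (show 0 ≤ 2 + (a : ℝ) / 4 - η / 2 by linarith))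
  rw [add_mul]
  linarith

end Pool.Agent.Lib.MP_2a1a00_nt
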