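import Pool.Agent.Lib.MP_2a1a00_nt.C.Defs
import Pool.Agent.Lib.MP_2a1a00_nt.V.Av
import Pool.Agent.Lib.MP_2a1a00_nt.X

/-! Second and fourth moments of Fourier integrals over unions of unit intervals. -/

namespace Pool.Agent.Lib.MP_2a1a00_nt

open Complex MeasureTheory Set

theorem foa_int (h : ℤ) (a : ℝ) : ‖∫ u in a..a + 2 * Real.pi, exp (I * h * u)‖ =
    2 * Real.pi * if h = 0 then 1 else 0 := by
  split_ifs with e
  · simp [e, abs_of_pos Real.pi_pos]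
  · rw [integral_exp_mul_complex (mul_ne_zero I_ne_zero (Int.cast_ne_zero.2 e)),
      show I * h * ((a + 2 * Real.pi : ℝ) : ℂ) = I * h * a + h * (2 * Real.pi * I) by
        push_cast; ring, exp_add, exp_int_mul_two_pi_mul_I]
    simp

/- Expand as in mvt_abs; for a non-zero integer h the integral of exp (i h u) over a period
vanishes. -/
theorem fo_par {ι : Type} (S : Finset ι) (γ : ι → ℂ) (τ : ι → ℤ) (a : ℝ) :
    ∫ u in a..a + 2 * Real.pi, ‖∑ i ∈ S, γ i * exp (I * (τ i * u : ℝ))‖ ^ 2 ≤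
      2 * Real.pi * ∑ p ∈ S ×ˢ S, if τ p.1 - τ p.2 = 0 then ‖γ p.1‖ * ‖γ p.2‖ else 0 := by
  have e : ∀ t : ℝ, ((‖∑ x ∈ S, γ x * exp (I * (τ x * t : ℝ))‖ ^ 2 : ℝ) : ℂ) = ∑ p ∈ S ×ˢ S,
      γ p.1 * (starRingEnd ℂ) (γ p.2) * exp (I * (τ p.1 - τ p.2 : ℤ) * t) := fun t => by
    rw [← normSq_eq_norm_sq, ← mul_conj, map_sum, Finset.sum_mul_sum, Finset.sum_product]
    refine Finset.sum_congr rfl fun x _ => Finset.sum_congr rfl fun y _ => ?_
    rw [map_mul, ← exp_conj, map_mul, conj_I, conj_ofReal, mul_mul_mul_comm, ← exp_add]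
    push_cast
    ring_nf
  refine (le_abs_self _).trans ?_
  rw [← Real.norm_eq_abs, ← norm_real, ← intervalIntegral.integral_ofReal]
  simp only [e]
  rw [intervalIntegral.integral_finsetSum fun x _ => Continuous.intervalIntegrable (by fun_prop) _ _,
    Finset.mul_sum]
  refine norm_sum_le_of_le _ fun p _ => le_of_eq ?_
  rw [intervalIntegral.integral_const_mul, norm_mul, norm_mul, norm_conj, foa_int]
  split_ifs <;> ring

theorem fw_eq {ψ : ℝ → ℂ} (hψ : Continuous ψ) (W : Finset ℤ) (u : ℝ) : fw ψ W u =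
    ∫ θ in (0 : ℝ)..1, exp (I * (θ * u : ℝ)) * ∑ k ∈ W, ψ (k + θ) * exp (I * (k * u : ℝ)) := by
  simp only [fw, Finset.mul_sum]
  rw [intervalIntegral.integral_finsetSum fun x _ => Continuous.intervalIntegrable (by fun_prop) _ _]
  refine Finset.sum_congr rfl fun k _ => ?_
  have := intervalIntegral.integral_comp_add_left (a := 0) (b := 1)
    (fun t => ψ t * exp (I * (t * u : ℝ))) k
  rw [add_zero] at this
  rw [← this]
  refine intervalIntegral.integral_congr fun θ _ => ?_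
  simp only [add_mul, ofReal_add, mul_add, exp_add]
  ring

theorem fw_cont {ψ : ℝ → ℂ} (hψ : Continuous ψ) (W : Finset ℤ) : Continuous (fw ψ W) := by
  exact continuous_finsetSum _ fun k _ =>
    intervalIntegral.continuous_parametric_intervalIntegral_of_continuous'
      (f := fun u t : ℝ => ψ t * exp (I * (t * u : ℝ))) (by fun_prop) _ _

theorem pc_cont {ψ : ℝ → ℂ} (hψ : Continuous ψ) (W : Finset ℤ) :
    ContinuousOn (pc ψ W) (Ioi 0) := by
  exact (continuousOn_const.mul (px_cont _)).mul ((fw_cont hψ W).comp_continuousOn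
    (Real.continuousOn_log.mono fun _ hx => ne_of_gt hx))

/- Jensen on [0, 1]: (∫ g) ^ 2 ≤ ∫ g ^ 2 for continuous g. -/
theorem fo_jen {g : ℝ → ℝ} (hg : Continuous g) :
    (∫ θ in (0 : ℝ)..1, g θ) ^ 2 ≤ ∫ θ in (0 : ℝ)..1, g θ ^ 2 := by
  obtain ⟨t, ht⟩ : ∃ t, t = ∫ θ in (0 : ℝ)..1, g θ := ⟨_, rfl⟩
  have h1 : ∫ θ in (0 : ℝ)..1, 2 * t * g θ ≤ ∫ θ in (0 : ℝ)..1, (t ^ 2 + g θ ^ 2) :=
    intervalIntegral.integral_mono_on zero_le_one
      ((continuous_const.mul hg).intervalIntegrable _ _)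
      ((continuous_const.add (hg.pow 2)).intervalIntegrable _ _) fun θ _ => by
        nlinarith [sq_nonneg (t - g θ)]
  rw [intervalIntegral.integral_add (g := fun θ => g θ ^ 2) intervalIntegrable_const
    ((hg.pow 2).intervalIntegrable _ _), intervalIntegral.integral_const_mul,
    intervalIntegral.integral_const, ← ht, sub_zero, one_smul] at h1
  rw [← ht]
  linarith

/-- The inner sum. -/
noncomputable def fob_g (ψ : ℝ → ℂ) (W : Finset ℤ) (u θ : ℝ) : ℂ :=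
  ∑ k ∈ W, ψ (k + θ) * exp (I * (k * u : ℝ))

theorem fob_cont {ψ : ℝ → ℂ} (hψ : Continuous ψ) (W : Finset ℤ) :
    Continuous fun q : ℝ × ℝ => fob_g ψ W q.1 q.2 := by
  unfold fob_g
  fun_prop

theorem fob_two {ψ : ℝ → ℂ} (hψ : Continuous ψ) (W : Finset ℤ) (u : ℝ) :
    ‖fw ψ W u‖ ^ 2 ≤ ∫ θ in (0 : ℝ)..1, ‖fob_g ψ W u θ‖ ^ 2 := by
  refine le_trans (pow_le_pow_left₀ (norm_nonneg _) ?_ 2)
    (fo_jen ((fob_cont hψ W).comp (Continuous.prodMk_right u)).norm)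
  rw [fw_eq hψ]
  refine (intervalIntegral.norm_integral_le_integral_norm zero_le_one).trans (le_of_eq ?_)
  simp only [norm_mul, norm_ei, one_mul]
  rfl

theorem fob_step {ψ : ℝ → ℂ} (hψ : Continuous ψ) (W : Finset ℤ) {b : ℝ → ℝ} (hb : Continuous b)
    (p : ℕ) (a : ℝ) (h1 : ∀ u, ‖fw ψ W u‖ ^ p ≤ ∫ θ in (0 : ℝ)..1, ‖fob_g ψ W u θ‖ ^ p)
    (h2 : ∀ θ, ∫ u in a..a + 2 * Real.pi, ‖fob_g ψ W u θ‖ ^ p ≤ 2 * Real.pi * b θ) :
    ∫ u in a..a + 2 * Real.pi, ‖fw ψ W u‖ ^ p ≤ 2 * Real.pi * ∫ θ in (0 : ℝ)..1, b θ := by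
  have hc := (fob_cont hψ W).norm.pow p
  have ha : a ≤ a + 2 * Real.pi := le_add_of_nonneg_right (by positivity)
  refine (intervalIntegral.integral_mono_on ha (((fw_cont hψ W).norm.pow p).intervalIntegrable _ _)
    ((intervalIntegral.continuous_parametric_intervalIntegral_of_continuous'
      (f := fun u θ => ‖fob_g ψ W u θ‖ ^ p) hc 0 1).intervalIntegrable _ _)
    fun u _ => h1 u).trans ?_
  rw [vav_swap (f := fun u θ => ‖fob_g ψ W u θ‖ ^ p) hc zero_le_one,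
    ← intervalIntegral.integral_const_mul]
  exact intervalIntegral.integral_mono_on zero_le_one
    ((intervalIntegral.continuous_parametric_intervalIntegral_of_continuous'
      (f := fun θ u => ‖fob_g ψ W u θ‖ ^ p) (hc.comp continuous_swap) _ _).intervalIntegrable _ _)
    ((hb.intervalIntegrable _ _).const_mul _) fun θ _ => h2 θ

theorem fob_shift (ψ : ℝ → ℂ) (k : ℝ) :
    ∫ θ in (0 : ℝ)..1, ‖ψ (k + θ)‖ ^ 4 = ∫ t in k..k + 1, ‖ψ t‖ ^ 4 := by
  rw [intervalIntegral.integral_comp_add_left (fun t => ‖ψ t‖ ^ 4), add_zero]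

/- fw_eq, fo_jen, swap (vav_swap), fo_par with τ = id, and
(∫ ‖ψ (k + θ)‖²)² ≤ ∫ ‖ψ (k + θ)‖⁴ ≤ Φ⁴. -/
theorem fo_two {ψ : ℝ → ℂ} (hψ : Continuous ψ) (W : Finset ℤ) {Φ : ℝ} (hΦ : 0 ≤ Φ)
    (h : ∀ k ∈ W, ∫ t in (k : ℝ)..k + 1, ‖ψ t‖ ^ 4 ≤ Φ ^ 4) (a : ℝ) :
    ∫ u in a..a + 2 * Real.pi, ‖fw ψ W u‖ ^ 2 ≤ 2 * Real.pi * (W.card * Φ ^ 2) := by
  have hc : ∀ k : ℤ, Continuous fun θ : ℝ => ‖ψ (k + θ)‖ ^ 2 := fun k => by fun_prop
  refine (fob_step hψ W (b := fun θ => ∑ k ∈ W, ‖ψ (k + θ)‖ ^ 2) (by fun_prop) 2 a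
    (fob_two hψ W) fun θ => (fo_par W _ id a).trans (le_of_eq ?_)).trans ?_
  · simp only [id, sub_eq_zero, Finset.sum_product, Finset.sum_ite_eq]
    exact congrArg _ (Finset.sum_congr rfl fun k hk => by rw [if_pos hk, sq])
  · rw [intervalIntegral.integral_finsetSum fun k _ => (hc k).intervalIntegrable _ _,
      ← nsmul_eq_mul]
    refine mul_le_mul_of_nonneg_left (Finset.sum_le_card_nsmul _ _ _ fun k hk => ?_)
      (by positivity)
    refine abs_le_of_sq_le_sq' ((fo_jen (hc k)).trans ?_) (by positivity) |>.2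
    simp only [← pow_mul]
    exact (fob_shift ψ k).trans_le (h k hk)

theorem fob_am (w x y z : ℝ) : w * x * (y * z) ≤ 1 / 4 * (w ^ 4 + x ^ 4 + y ^ 4 + z ^ 4) := by
  nlinarith [sq_nonneg (w * x - y * z), sq_nonneg (w ^ 2 - x ^ 2), sq_nonneg (y ^ 2 - z ^ 2)]

/- fo_jen twice; ‖g‖⁴ = ‖g * conj g‖² is the square of a sum over pairs with the frequencies
k₁ - k₂; fo_par; w x y z ≤ (w⁴ + x⁴ + y⁴ + z⁴) / 4. -/
theorem fo_four {ψ : ℝ → ℂ} (hψ : Continuous ψ) (W : Finset ℤ) {Φ : ℝ}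
    (h : ∀ k ∈ W, ∫ t in (k : ℝ)..k + 1, ‖ψ t‖ ^ 4 ≤ Φ ^ 4) (a : ℝ) :
    ∫ u in a..a + 2 * Real.pi, ‖fw ψ W u‖ ^ 4 ≤ 2 * Real.pi * (Eg W * Φ ^ 4) := by
  have hc : ∀ k : ℤ, Continuous fun θ : ℝ => ‖ψ (k + θ)‖ ^ 4 := fun k => by fun_prop
  have hi : ∀ k : ℤ, IntervalIntegrable (fun θ : ℝ => ‖ψ (k + θ)‖ ^ 4) volume 0 1 := fun k =>
    (hc k).intervalIntegrable _ _
  have hk : ∀ k ∈ W, ∫ θ in (0 : ℝ)..1, ‖ψ (k + θ)‖ ^ 4 ≤ Φ ^ 4 := fun k hk =>
    (fob_shift ψ k).trans_le (h k hk)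
  obtain ⟨c, hq⟩ : ∃ c : (ℤ × ℤ) × ℤ × ℤ → ℝ,
    c = fun q => if q.1.1 - q.1.2 - (q.2.1 - q.2.2) = 0 then 1 else 0 := ⟨_, rfl⟩
  refine (fob_step hψ W (b := fun θ => ∑ q ∈ (W ×ˢ W) ×ˢ W ×ˢ W, c q / 4 * (‖ψ (q.1.1 + θ)‖ ^ 4 +
    ‖ψ (q.1.2 + θ)‖ ^ 4 + ‖ψ (q.2.1 + θ)‖ ^ 4 + ‖ψ (q.2.2 + θ)‖ ^ 4)) (by fun_prop) 4 a
    (fun u => ?_) fun θ => ?_).trans ?_
  · have := (pow_le_pow_left₀ (sq_nonneg _) (fob_two hψ W u) 2).trans
      (fo_jen (((fob_cont hψ W).comp (Continuous.prodMk_right u)).norm.pow 2))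
    simpa only [← pow_mul, Function.comp] using this
  · have e : ∀ u : ℝ, ‖fob_g ψ W u θ‖ ^ 4 = ‖∑ p ∈ W ×ˢ W, ψ (p.1 + θ) *
        (starRingEnd ℂ) (ψ (p.2 + θ)) * exp (I * ((p.1 - p.2 : ℤ) * u : ℝ))‖ ^ 2 := fun u => by
      rw [show ‖fob_g ψ W u θ‖ ^ 4 = ‖fob_g ψ W u θ * (starRingEnd ℂ) (fob_g ψ W u θ)‖ ^ 2 by
        rw [norm_mul, Complex.norm_conj]; ring, fob_g, map_sum, Finset.sum_mul_sum,
        Finset.sum_product]
      congr 2
      refine Finset.sum_congr rfl fun k _ => Finset.sum_congr rfl fun l _ => ?_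
      rw [map_mul, ← exp_conj, map_mul, conj_I, conj_ofReal, mul_mul_mul_comm, ← exp_add]
      congr 2
      push_cast
      ring
    simp only [e]
    refine (fo_par (W ×ˢ W) _ (fun p => p.1 - p.2) a).trans (mul_le_mul_of_nonneg_left
      (Finset.sum_le_sum fun q _ => ?_) (by positivity))
    simp only [hq, norm_mul, Complex.norm_conj]
    split_ifs
    · exact fob_am _ _ _ _
    · simp
  · rw [intervalIntegral.integral_finsetSum fun q _ =>
      ((((hi _).add (hi _)).add (hi _)).add (hi _)).const_mul _, Eg, cor, fib, Finset.sum_mul]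
    refine mul_le_mul_of_nonneg_left (Finset.sum_le_sum fun q hq' => ?_) (by positivity)
    simp only [Finset.mem_product] at hq'
    rw [intervalIntegral.integral_const_mul, intervalIntegral.integral_add
      (((hi _).add (hi _)).add (hi _)) (hi _), intervalIntegral.integral_add
      ((hi _).add (hi _)) (hi _), intervalIntegral.integral_add (hi _) (hi _), hq]
    have := hk _ hq'.1.1
    have := hk _ hq'.1.2
    have := hk _ hq'.2.1
    have := hk _ hq'.2.2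
    beta_reduce
    split_ifs <;> linarith

theorem foa_wd {ψ : ℝ → ℂ} (hψ : Continuous ψ) (W : Finset ℤ) {T : ℝ} (hT : 0 < T) (q : ℕ) :
    wd (2 * q) (pc ψ W) T ≤ (4 * T) ^ (q + 1) *
      ∫ u in Real.log (T / 2)..Real.log (T / 2) + 2 * Real.pi, ‖fw ψ W u‖ ^ (2 * q) := by
  have h2 := half_pos hT
  have h4 : T / 2 ≤ 4 * T := by linarith
  have c : Continuous fun u => ‖fw ψ W u‖ ^ (2 * q) := (fw_cont hψ W).norm.pow _
  have p3 := Real.pi_gt_three
  calc _ ≤ ∫ y in T / 2..4 * T, (4 * T) ^ (q + 1) * (y⁻¹ • ‖fw ψ W (Real.log y)‖ ^ (2 * q)) := by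
        refine intervalIntegral.integral_mono_on h4 (wd_int _ (pc_cont hψ W) h2 (by linarith))
          ((continuousOn_const.mul (x_cont c h2)).intervalIntegrable_of_Icc h4) fun y hy => ?_
        have y0 := h2.trans_le hy.1
        have e1 : ‖((1 / (2 * Real.pi) : ℝ) : ℂ)‖ ≤ 1 := by
          rw [norm_real, Real.norm_of_nonneg (by positivity), div_le_one (by positivity)]
          linarith
        have e2 : ‖px (1 / 2 : ℝ) y‖ ^ (2 * q) = y ^ q := by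
          rw [norm_px _ y0, ofReal_re, ← Real.sqrt_eq_rpow, pow_mul, Real.sq_sqrt y0.le]
        rw [pc, norm_mul, norm_mul, mul_pow, mul_pow, e2, smul_eq_mul, ← mul_assoc]
        refine mul_le_mul_of_nonneg_right ((mul_le_of_le_one_left (by positivity)
          (pow_le_one₀ (norm_nonneg _) e1)).trans ?_) (by positivity)
        rw [← div_eq_mul_inv, le_div_iff₀ y0, ← pow_succ]
        exact pow_le_pow_left₀ y0.le hy.2 _
    _ ≤ _ := by
        rw [intervalIntegral.integral_const_mul, x_sub c h2 h4]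
        refine mul_le_mul_of_nonneg_left (intervalIntegral.integral_mono_interval le_rfl
          (Real.log_le_log h2 h4) ?_ (Filter.Eventually.of_forall fun _ => by positivity)
          (c.intervalIntegrable _ _)) (by positivity)
        rw [show 4 * T = T / 2 * 2 ^ 3 by ring, Real.log_mul h2.ne' (by norm_num), Real.log_pow]
        have := Real.log_two_lt_d9
        push_cast
        linarith

/- ‖pc ψ W y‖ ≤ √y ‖fw ψ W (log y)‖, x_sub, log (4 T) - log (T / 2) = log 8 ≤ 2 π. -/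
theorem fo_x : ∃ C : ℝ, 0 < C ∧ ∀ (ψ : ℝ → ℂ) (W : Finset ℤ) (Φ T : ℝ), 0 < T → Continuous ψ →
    0 ≤ Φ → (∀ k ∈ W, ∫ t in (k : ℝ)..k + 1, ‖ψ t‖ ^ 4 ≤ Φ ^ 4) →
    wd 2 (pc ψ W) T ≤ C * T ^ 2 * (W.card * Φ ^ 2) ∧
      wd 4 (pc ψ W) T ≤ C * T ^ 3 * (Eg W * Φ ^ 4) := by
  refine ⟨128 * Real.pi, by positivity, fun ψ W Φ T hT hψ hΦ h => ⟨?_, ?_⟩⟩
  · refine (foa_wd hψ W hT 1).trans ((mul_le_mul_of_nonneg_left (fo_two hψ W hΦ h _)
      (by positivity)).trans ?_)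
    have : 0 ≤ Real.pi * T ^ 2 * (W.card * Φ ^ 2) := by positivity
    rw [show (4 * T) ^ (1 + 1) = 16 * T ^ 2 by ring]
    linarith
  · exact (foa_wd hψ W hT 2).trans ((mul_le_mul_of_nonneg_left (fo_four hψ W h _)
      (by positivity)).trans_eq (by ring))

end Pool.Agent.Lib.MP_2a1a00_nt
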