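import Pool.Agent.Lib.MP_2a1a00_nt.V.Wc
import Pool.Agent.Lib.MP_2a1a00_nt.V.Bd

/-! The number of dyadic steps. -/

namespace Pool.Agent.Lib.MP_2a1a00_nt

/-- The number of dyadic steps up to T. -/
noncomputable def Jl (T : ℝ) : ℕ := Nat.log 2 ⌊T⌋₊ + 1

theorem Jl_nat (T : ℝ) : ⌊T⌋₊ < 2 ^ Jl T := Nat.lt_pow_succ_log_self (by norm_num) _

theorem Jl_le (T : ℝ) : T ≤ 2 ^ Jl T :=
  (Nat.lt_floor_add_one T).le.trans (by exact_mod_cast Jl_nat T)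

theorem bd_Jl : Bd (fun T => (Jl T : ℝ)) 0 := fun ε hε => by
  obtain ⟨C, hC, h⟩ := log_le_rpow hε
  refine ⟨2 * C, by positivity, fun T hT => ?_⟩
  have x2 : 1 ≤ ⌊T⌋₊ := Nat.le_floor (by exact_mod_cast hT)
  have a1 := vwc_log x2
  have a2 : Real.log ⌊T⌋₊ ≤ Real.log T :=
    Real.log_le_log (by exact_mod_cast x2) (Nat.floor_le (by linarith))
  have a3 := h T hT
  show ((Nat.log 2 ⌊T⌋₊ + 1 : ℕ) : ℝ) ≤ _
  rw [Real.rpow_zero, mul_one]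
  linarith

end Pool.Agent.Lib.MP_2a1a00_nt
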