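import Pool.Agent.Lib.MP_2a1a00_nt.C.Defs
import Pool.Agent.Lib.MP_2a1a00_nt.V.P2

/-! The local mean square of an error term of degree two. -/

namespace Pool.Agent.Lib.MP_2a1a00_nt

open Complex MeasureTheory Set

/- Copy ts_mv (V/H4) for d = 2, M = 0, on [a, a + ℓ]: vh4_sub, mvt_abs, vh4_dbl with the
length √(a + ℓ) - √a ≤ ℓ / √T. -/
theorem lm_ts {κ : ℝ} (hκ : κ ≠ 0) : ∃ C : ℝ, 0 < C ∧ ∀ (c : ℕ → ℂ) (N : ℕ) (K T a ℓ : ℝ), 1 ≤ T →
    T / 2 ≤ a → 0 ≤ ℓ → a + ℓ ≤ 4 * T →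
    (∀ n ∈ Finset.Ioc 0 N, ‖c n‖ ≤ K * (n : ℝ) ^ (al 2 - 1)) →
    ∫ x in a..a + ℓ, ‖ts 2 κ c 0 N x‖ ^ 2 ≤ C * K ^ 2 * (ℓ + √T * (1 + Real.log N) ^ 2) := by
  obtain ⟨C, hC, hS⟩ := vh4_dbl (d := 2) le_rfl hκ
  refine ⟨4 * C, by positivity, fun c N K T a ℓ hT ha hℓ hb hc => ?_⟩
  have a0 : 0 < a := by linarith
  have ab : a ≤ a + ℓ := by linarith
  obtain ⟨G, hG⟩ : ∃ G : ℝ → ℝ, G = fun v : ℝ =>
    ‖∑ n ∈ Finset.Ioc 0 N, c n * exp (I * (κ * (n : ℝ) ^ (1 / 2 : ℝ) * v : ℝ))‖ ^ 2 := ⟨_, rfl⟩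
  have e1 : ∫ x in a..a + ℓ, ‖ts 2 κ c 0 N x‖ ^ 2 = ∫ x in a..a + ℓ, G (x ^ (1 / 2 : ℝ)) := by
    refine intervalIntegral.integral_congr fun x hx => ?_
    rw [uIcc_of_le ab] at hx
    simp only [hG, ts, Real.mul_rpow (Nat.cast_nonneg _) (a0.le.trans hx.1), mul_assoc]
  have h1 := vh4_sub (d := 2) (by norm_num) a0 ab (G := G) (by rw [hG]; fun_prop)
    fun v => by rw [hG]; positivity
  have l0 : 0 ≤ (a + ℓ) ^ (1 / 2 : ℝ) - a ^ (1 / 2 : ℝ) :=
    sub_nonneg.2 (Real.rpow_le_rpow a0.le ab (by norm_num))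
  have h2 := mvt_abs (Finset.Ioc 0 N) c (fun n => κ * (n : ℝ) ^ (1 / 2 : ℝ)) (a ^ (1 / 2 : ℝ)) l0
  rw [add_sub_cancel] at h2
  have h5 : (a + ℓ) ^ (1 - 1 / 2 : ℝ) ≤ 2 * √T := by
    rw [show (1 - 1 / 2 : ℝ) = 1 / 2 by norm_num, ← Real.sqrt_eq_rpow]
    exact Real.sqrt_le_iff.2 ⟨by positivity, by rw [mul_pow, Real.sq_sqrt (by linarith)]; linarith⟩
  have h4 : (a + ℓ) ^ (1 - 1 / 2 : ℝ) * ((a + ℓ) ^ (1 / 2 : ℝ) - a ^ (1 / 2 : ℝ)) ≤ ℓ := by
    rw [show (1 - 1 / 2 : ℝ) = 1 / 2 by norm_num, ← Real.sqrt_eq_rpow, ← Real.sqrt_eq_rpow] at *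
    nlinarith [Real.mul_self_sqrt a0.le, Real.mul_self_sqrt (a0.le.trans ab), Real.sqrt_nonneg a]
  generalize (a + ℓ) ^ (1 / 2 : ℝ) - a ^ (1 / 2 : ℝ) = w at l0 h2 h4
  have h3 : ∫ v in a ^ (1 / 2 : ℝ)..(a + ℓ) ^ (1 / 2 : ℝ), G v ≤
      K ^ 2 * (C * (w + (1 + Real.log N) ^ 2)) := by
    have h6 := hS 0 N w l0
    rw [Nat.cast_zero, zero_add, Real.one_rpow, mul_one, show (1 - 2 / 2 : ℝ) = 0 by norm_num,
      Real.rpow_zero, one_mul] at h6
    rw [hG]
    refine h2.trans (le_trans ?_ (mul_le_mul_of_nonneg_left h6 (sq_nonneg K)))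
    rw [Finset.mul_sum]
    refine Finset.sum_le_sum fun x hx => ?_
    rw [Finset.mul_sum]
    refine Finset.sum_le_sum fun y hy => ?_
    have k0 : 0 ≤ KK w (κ * (x : ℝ) ^ (1 / 2 : ℝ)) (κ * (y : ℝ) ^ (1 / 2 : ℝ)) := by
      unfold KK
      split_ifs
      · exact l0
      · positivity
    refine (mul_le_mul_of_nonneg_right (mul_le_mul (hc x hx) (hc y hy) (norm_nonneg _)
      ((norm_nonneg _).trans (hc x hx))) k0).trans (le_of_eq ?_)
    ring
  rw [e1]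
  refine h1.trans ((mul_le_mul_of_nonneg_left h3 (by positivity)).trans ?_)
  have h6 := add_le_add h4 (mul_le_mul_of_nonneg_right h5 (sq_nonneg (1 + Real.log N)))
  have h7 := mul_le_mul_of_nonneg_left h6 (by positivity : 0 ≤ 2 * C * K ^ 2)
  have h8 : 0 ≤ C * K ^ 2 * ℓ := by positivity
  linarith

/- Copy Sel.H_mv. -/
theorem lm_H (F : Sel) {P : Vo} (h : F.deg = 2) (hP : 0 < P.ka) {ε : ℝ} (hε : 0 < ε) :
    ∃ C : ℝ, 0 < C ∧ ∀ (N : ℕ) (T a ℓ : ℝ), 1 ≤ T → T / 2 ≤ a → 0 ≤ ℓ → a + ℓ ≤ 4 * T →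
    ∫ x in a..a + ℓ, ‖F.H P 0 N x‖ ^ 2 ≤ C * (N : ℝ) ^ ε * (ℓ * √T + T) := by
  have e4 : 0 < ε / 4 := by linarith
  obtain ⟨A, hA, h1⟩ := F.cf_le P e4
  obtain ⟨B, hB, h2⟩ := log_le_rpow e4
  obtain ⟨C, hC, h3⟩ := lm_ts hP.ne'
  obtain ⟨D, hD, h4⟩ := lm_ts (neg_ne_zero.2 hP.ne')
  refine ⟨4 * (‖P.ap‖ ^ 2 * C + ‖P.am‖ ^ 2 * D + 1) * A ^ 2 * (1 + B ^ 2), by positivity,
    fun N T a ℓ hT ha hℓ hb => ?_⟩
  have T0 : 0 < T := by linarith
  have a0 : 0 < a := by linarith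
  have ab : a ≤ a + ℓ := by linarith
  rcases Nat.eq_zero_or_pos N with rfl | hN
  · have e : ∀ x, F.H P 0 0 x = 0 := fun x => by simp [Sel.H]
    simp only [e, norm_zero, ne_eq, OfNat.ofNat_ne_zero, not_false_eq_true, zero_pow,
      intervalIntegral.integral_zero]
    positivity
  have N1 : (1 : ℝ) ≤ N := by exact_mod_cast hN
  have N0 : (0 : ℝ) < N := by linarith
  have hc : ∀ n ∈ Finset.Ioc 0 N, ‖F.cf P n‖ ≤ A * (N : ℝ) ^ (ε / 4) * (n : ℝ) ^ (al 2 - 1) :=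
    fun n hn => by
      obtain ⟨u, v⟩ := Finset.mem_Ioc.1 hn
      have n0 : (0 : ℝ) < n := by exact_mod_cast u
      have nN : (n : ℝ) ≤ N := by exact_mod_cast v
      refine (h1 n u).trans ?_
      rw [Real.rpow_add n0, mul_assoc, mul_comm ((N : ℝ) ^ (ε / 4)), h]
      gcongr
  have sub : uIcc a (a + ℓ) ⊆ Ioi 0 := fun x hx => by
    rw [uIcc_of_le ab] at hx
    exact a0.trans_le hx.1
  have i1 : IntervalIntegrable (fun x => ‖ts 2 P.ka (F.cf P) 0 N x‖ ^ 2) volume a (a + ℓ) :=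
    (((ts_cont 2 P.ka (F.cf P) 0 N).mono sub).norm.pow 2).intervalIntegrable
  have i2 : IntervalIntegrable (fun x => ‖ts 2 (-P.ka) (F.cf P) 0 N x‖ ^ 2) volume a (a + ℓ) :=
    (((ts_cont 2 (-P.ka) (F.cf P) 0 N).mono sub).norm.pow 2).intervalIntegrable
  have h5 : ∫ x in a..a + ℓ, ‖F.H P 0 N x‖ ^ 2 ≤ ∫ x in a..a + ℓ,
      (4 * √T * ‖P.ap‖ ^ 2 * ‖ts 2 P.ka (F.cf P) 0 N x‖ ^ 2 +
        4 * √T * ‖P.am‖ ^ 2 * ‖ts 2 (-P.ka) (F.cf P) 0 N x‖ ^ 2) := by
    refine intervalIntegral.integral_mono_on ab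
      (((F.H_cont P 0 N).mono sub).norm.pow 2).intervalIntegrable
      ((i1.const_mul _).add (i2.const_mul _)) fun x hx => ?_
    have x0 : 0 < x := a0.trans_le hx.1
    have a1 : (x ^ al 2) ^ 2 ≤ 2 * √T := by
      rw [sq, ← Real.rpow_add x0, al_two, show (1 / 4 + 1 / 4 : ℝ) = 1 / 2 by norm_num,
        ← Real.sqrt_eq_rpow]
      exact Real.sqrt_le_iff.2
        ⟨by positivity, by rw [mul_pow, Real.sq_sqrt T0.le]; linarith [hx.2]⟩
    rw [F.H_eq P 0 N x0, norm_mul, norm_px _ x0, Vo.ex_re, mul_pow, h]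
    generalize ts 2 P.ka (F.cf P) 0 N x = u
    generalize ts 2 (-P.ka) (F.cf P) 0 N x = v
    have a2 : ‖P.ap * u + P.am * v‖ ^ 2 ≤ 2 * (‖P.ap‖ ^ 2 * ‖u‖ ^ 2 + ‖P.am‖ ^ 2 * ‖v‖ ^ 2) := by
      have a3 := norm_add_le (P.ap * u) (P.am * v)
      rw [norm_mul, norm_mul] at a3
      have a4 := pow_le_pow_left₀ (norm_nonneg _) a3 2
      nlinarith [sq_nonneg (‖P.ap‖ * ‖u‖ - ‖P.am‖ * ‖v‖)]
    refine (mul_le_mul a1 a2 (sq_nonneg _) (by positivity)).trans (le_of_eq ?_)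
    ring
  rw [intervalIntegral.integral_add (i1.const_mul _) (i2.const_mul _),
    intervalIntegral.integral_const_mul, intervalIntegral.integral_const_mul] at h5
  have h6 := add_le_add (mul_le_mul_of_nonneg_left (h3 _ N _ T a ℓ hT ha hℓ hb hc)
    (by positivity : 0 ≤ 4 * √T * ‖P.ap‖ ^ 2))
    (mul_le_mul_of_nonneg_left (h4 _ N _ T a ℓ hT ha hℓ hb hc)
      (by positivity : 0 ≤ 4 * √T * ‖P.am‖ ^ 2))
  refine h5.trans (h6.trans ?_)
  have l0 : 0 ≤ Real.log N := Real.log_natCast_nonneg N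
  have b1 : (1 + Real.log N) ^ 2 ≤ (B * (N : ℝ) ^ (ε / 4)) ^ 2 :=
    pow_le_pow_left₀ (by linarith) (h2 N N1) 2
  have b2 : 1 ≤ (N : ℝ) ^ (ε / 4) := Real.one_le_rpow N1 e4.le
  have b3 : (N : ℝ) ^ ε = ((N : ℝ) ^ (ε / 4)) ^ 4 := by
    rw [← Real.rpow_natCast, ← Real.rpow_mul N0.le]
    congr 1
    push_cast
    ring
  have p1 := Real.sqrt_nonneg T
  have p2 := Real.mul_self_sqrt T0.le
  rw [b3]
  generalize √T = t at p1 p2 ⊢
  subst p2
  generalize (N : ℝ) ^ (ε / 4) = q at b1 b2 ⊢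
  generalize (1 + Real.log N) ^ 2 = L at b1 ⊢
  have c1 : ℓ + t * L ≤ (1 + B ^ 2) * q ^ 2 * (ℓ + t) := by
    have c2 : 1 ≤ q ^ 2 := one_le_pow₀ b2
    have c3 : 1 ≤ (1 + B ^ 2) * q ^ 2 := by nlinarith [sq_nonneg B]
    have c4 : L ≤ (1 + B ^ 2) * q ^ 2 := by nlinarith
    have c5 := mul_le_mul_of_nonneg_right c3 hℓ
    have c6 := mul_le_mul_of_nonneg_right c4 p1
    linarith
  have c7 := mul_le_mul_of_nonneg_left c1
    (by positivity : 0 ≤ 4 * t * (‖P.ap‖ ^ 2 * C + ‖P.am‖ ^ 2 * D) * (A * q) ^ 2)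
  have c8 : 0 ≤ 4 * A ^ 2 * (1 + B ^ 2) * q ^ 4 * (ℓ * t + t * t) := by positivity
  linarith

/-- The mean square of a multiplicative average on a short interval. -/
theorem lm_av {g : ℝ → ℂ} {W a ℓ Z : ℝ} (hW : 0 < W) (ha : 0 < a) (hℓ : 0 ≤ ℓ)
    (hg : ContinuousOn g (Ioi 0))
    (hZ : ∀ ρ ∈ Icc (1 / 2 : ℝ) 2, ∫ x in a * ρ..a * ρ + ℓ * ρ, ‖g x‖ ^ 2 ≤ Z) :
    ∫ x in a..a + ℓ, ‖av W g x‖ ^ 2 ≤ 2 * Z := by
  obtain ⟨G, hG⟩ : ∃ G : ℝ → ℝ, G = fun y => ‖g (max y (a / 2))‖ ^ 2 := ⟨_, rfl⟩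
  have cG : Continuous G := by
    rw [hG]
    exact ((hg.comp_continuous (continuous_id.max continuous_const) fun y =>
      lt_max_of_lt_right (half_pos ha)).norm).pow 2
  have eG : ∀ y, a / 2 ≤ y → G y = ‖g y‖ ^ 2 := fun y hy => by rw [hG]; simp only [max_eq_left hy]
  have ab : a ≤ a + ℓ := by linarith
  have nn : ∀ ρ : ℝ, 0 ≤ ρ → 0 ≤ ∫ x in a * ρ..a * ρ + ℓ * ρ, ‖g x‖ ^ 2 := fun ρ hρ =>
    intervalIntegral.integral_nonneg (le_add_of_nonneg_right (mul_nonneg hℓ hρ))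
      fun y _ => by positivity
  have Z0 : 0 ≤ Z := (nn 1 zero_le_one).trans (hZ 1 ⟨by norm_num, by norm_num⟩)
  have cF : Continuous (Function.uncurry fun x v : ℝ => ph W v * G (x * Real.exp v)) :=
    ((continuous_ph W).comp continuous_snd).mul
      (cG.comp (continuous_fst.mul (Real.continuous_exp.comp continuous_snd)))
  calc _ ≤ ∫ x in a..a + ℓ, ∫ v in (-1 / 5 : ℝ)..(1 / 5), ph W v * G (x * Real.exp v) := by
        refine intervalIntegral.integral_mono_on ab ?_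
          ((intervalIntegral.continuous_parametric_intervalIntegral_of_continuous' cF _
            _).intervalIntegrable _ _) fun x hx => ?_
        · refine ContinuousOn.intervalIntegrable ?_
          rw [uIcc_of_le ab]
          exact (((av_cont hg).mono fun x hx => ha.trans_le hx.1).norm).pow 2
        · have hx0 := ha.trans_le hx.1
          refine (pow_le_pow_left₀ (norm_nonneg _) (vav_norm hW g x) 2).trans
            ((vav_sq hW (vav_cont hg hx0).norm).trans (le_of_eq ?_))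
          refine intervalIntegral.integral_congr fun v hv => ?_
          rw [uIcc_of_le (by norm_num)] at hv
          have h1 : a / 2 ≤ x * Real.exp v := by nlinarith [(av_mem hv).1, hx.1]
          simp only [eG _ h1]
    _ = ∫ v in (-1 / 5 : ℝ)..(1 / 5), ph W v * ∫ x in a..a + ℓ, G (x * Real.exp v) := by
        rw [vav_swap cF (by norm_num)]
        simp only [intervalIntegral.integral_const_mul]
    _ ≤ _ := by
        refine vav_avg hW (intervalIntegral.continuous_parametric_intervalIntegral_of_continuous'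
          (f := fun v x : ℝ => G (x * Real.exp v))
          (cG.comp (continuous_snd.mul (Real.continuous_exp.comp continuous_fst))) _ _)
          (by linarith) fun v hv => ?_
        obtain ⟨h1, h2⟩ := av_mem hv
        have he := Real.exp_pos v
        have eI : ∫ x in a * Real.exp v..a * Real.exp v + ℓ * Real.exp v, G x =
            ∫ x in a * Real.exp v..a * Real.exp v + ℓ * Real.exp v, ‖g x‖ ^ 2 :=
          intervalIntegral.integral_congr fun y hy => by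
            rw [uIcc_of_le (le_add_of_nonneg_right (mul_nonneg hℓ he.le))] at hy
            exact eG y (by nlinarith [hy.1])
        rw [intervalIntegral.integral_comp_mul_right G he.ne', smul_eq_mul, add_mul, eI]
        refine mul_le_mul ?_ (hZ _ ⟨h1, h2⟩) (nn _ he.le) (by norm_num)
        rw [inv_le_comm₀ he (by norm_num)]
        linarith

/- Vor with W = T and δ = min ε 1 / 4: B T = av T (H 0 N) + O (T ^ δ), N ≤ T ^ (1 + δ) ≤ T ^ 2.
As in av_sq, ∫ x in a..a + ℓ, ‖av T h x‖² ≤ sup over ρ ∈ [1 / 2, 2] of ∫ ‖h (x ρ)‖², and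
[a ρ, (a + ℓ) ρ] ⊆ [T / 2, 4 T] has length at most 2 ℓ. -/
theorem lm_B (F : Sel) {P : Vo} (h : F.deg = 2) (hP : F.Vor P) {ε : ℝ} (hε : 0 < ε) :
    ∃ C : ℝ, 0 < C ∧ ∀ T a ℓ : ℝ, 1 ≤ T → T ≤ a → 0 ≤ ℓ → a + ℓ ≤ 2 * T →
    ∫ x in a..a + ℓ, ‖F.B T x‖ ^ 2 ≤ C * T ^ ε * (ℓ * √T + T) := by
  obtain ⟨δ, d0, d1, d2⟩ : ∃ δ : ℝ, 0 < δ ∧ δ ≤ 1 ∧ 2 * δ ≤ ε :=
    ⟨min 1 (ε / 2), lt_min one_pos (half_pos hε), min_le_left _ _, by
      linarith [min_le_right 1 (ε / 2)]⟩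
  obtain ⟨A, hA, h1⟩ := hP.2 δ d0
  obtain ⟨D, hD, h2⟩ := lm_H F h hP.1 d0
  refine ⟨2 * A ^ 2 + 8 * D, by positivity, fun T a ℓ hT ha hℓ hb => ?_⟩
  have T0 : 0 < T := by linarith
  have a0 : 0 < a := by linarith
  have ab : a ≤ a + ℓ := by linarith
  have s1 : 1 ≤ √T := Real.one_le_sqrt.2 hT
  have h3 := h1 T T hT (by nlinarith [Real.mul_self_sqrt T0.le]) le_rfl
  rw [h, show (2 / 2 - 1 : ℝ) = 0 by norm_num, Real.rpow_zero, mul_one] at h3
  have e1 : (T ^ δ) ^ 2 ≤ T ^ ε := by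
    rw [sq, ← Real.rpow_add T0]
    exact Real.rpow_le_rpow_of_exponent_le hT (by linarith)
  have e2 : (⌊T ^ (2 : ℝ) * T ^ (δ - 1)⌋₊ : ℝ) ^ δ ≤ T ^ ε := by
    have e3 : (⌊T ^ (2 : ℝ) * T ^ (δ - 1)⌋₊ : ℝ) ≤ T ^ (2 : ℝ) :=
      (Nat.floor_le (by positivity)).trans (mul_le_of_le_one_right (by positivity)
        (Real.rpow_le_one_of_one_le_of_nonpos hT (by linarith)))
    refine (Real.rpow_le_rpow (Nat.cast_nonneg _) e3 d0.le).trans ?_
    rw [← Real.rpow_mul T0.le]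
    exact Real.rpow_le_rpow_of_exponent_le hT d2
  generalize ⌊T ^ (2 : ℝ) * T ^ (δ - 1)⌋₊ = N at h3 e2
  have h4 := lm_av (Z := D * T ^ ε * (2 * (ℓ * √T + T))) T0 a0 hℓ (F.H_cont P 0 N) fun ρ hρ => by
    obtain ⟨r1, r2⟩ := hρ
    refine (h2 N T (a * ρ) (ℓ * ρ) hT (by nlinarith) (mul_nonneg hℓ (by linarith))
      (by nlinarith)).trans (mul_le_mul (mul_le_mul_of_nonneg_left e2 hD.le) ?_ ?_ (by positivity))
    · nlinarith [mul_le_mul_of_nonneg_left r2 (mul_nonneg hℓ (Real.sqrt_nonneg T))]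
    · have : 0 ≤ ρ := by linarith
      positivity
  have sub : uIcc a (a + ℓ) ⊆ Ioi 0 := fun x hx => by
    rw [uIcc_of_le ab] at hx
    exact a0.trans_le hx.1
  have i1 : IntervalIntegrable (fun x => ‖av T (F.H P 0 N) x‖ ^ 2) volume a (a + ℓ) :=
    (((av_cont (F.H_cont P 0 N)).mono sub).norm.pow 2).intervalIntegrable
  have h5 : ∫ x in a..a + ℓ, ‖F.B T x‖ ^ 2 ≤
      ∫ x in a..a + ℓ, (2 * ‖av T (F.H P 0 N) x‖ ^ 2 + 2 * A ^ 2 * T ^ ε) := by
    refine intervalIntegral.integral_mono_on ab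
      (((F.B_cont T0).mono sub).norm.pow 2).intervalIntegrable
      ((i1.const_mul _).add intervalIntegrable_const) fun x hx => ?_
    have a1 := h3 x ⟨ha.trans hx.1, hx.2.trans hb⟩
    have a2 := norm_le_norm_add_norm_sub' (F.B T x) (av T (F.H P 0 N) x)
    have a3 := pow_le_pow_left₀ (norm_nonneg _) (a2.trans (add_le_add_right a1 _)) 2
    have a4 := mul_le_mul_of_nonneg_left e1 (sq_nonneg A)
    nlinarith [sq_nonneg (‖av T (F.H P 0 N) x‖ - A * T ^ δ)]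
  rw [intervalIntegral.integral_add (i1.const_mul _) intervalIntegrable_const,
    intervalIntegral.integral_const_mul, intervalIntegral.integral_const, smul_eq_mul,
    add_sub_cancel_left] at h5
  have h6 : ℓ ≤ ℓ * √T + T := by nlinarith
  have h7 := mul_le_mul_of_nonneg_right h6 (by positivity : 0 ≤ 2 * A ^ 2 * T ^ ε)
  linarith

theorem lmb_log {x y T : ℝ} (hx : 0 < x) (hy : 0 < y) (h1 : x ≤ T) (h2 : y ≤ T) :
    (x - y) ^ 2 ≤ T ^ 2 * (Real.log y - Real.log x) ^ 2 := by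
  have key : ∀ x y : ℝ, 0 < y → y ≤ x → x ≤ T →
      (x - y) ^ 2 ≤ T ^ 2 * (Real.log x - Real.log y) ^ 2 := fun x y hy h h1 => by
    have hx := hy.trans_le h
    have a := Real.log_le_sub_one_of_pos (div_pos hy hx)
    have b := sub_nonneg.2 (Real.log_le_log hy h)
    rw [Real.log_div hy.ne' hx.ne', le_sub_iff_add_le, le_div_iff₀ hx] at a
    rw [← mul_pow]
    exact pow_le_pow_left₀ (sub_nonneg.2 h) (by nlinarith) 2
  rcases le_total x y with h | h
  · have := key y x hx h h2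
    linarith
  · have := key x y hy h h1
    linarith

theorem lmb_ph {W t θ L : ℝ} (hW : 0 < W) (h0 : 0 ≤ θ) (h1 : θ ≤ 1)
    (h : (t + θ) ^ 2 ≤ 64 * (W * L) ^ 2) : ph W L ≤ 512 * W / (1 + t ^ 2) := by
  have a := Real.add_one_le_exp ((W * L) ^ 2 / 4)
  have b : 1 ≤ √Real.pi := Real.one_le_sqrt.2 (by linarith [Real.pi_gt_three])
  have c : 1 + t ^ 2 ≤ 512 * Real.exp ((W * L) ^ 2 / 4) := by
    nlinarith [sq_nonneg (t + 2 * θ)]
  rw [ph, neg_div, Real.exp_neg, mul_comm 512, mul_div_assoc]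
  refine mul_le_mul (div_le_self hW.le (by linarith)) ?_ (by positivity) hW.le
  rw [inv_eq_one_div, div_le_div_iff₀ (by positivity) (by positivity)]
  linarith



/- Cut [T, 2 T] into n = ⌈W⌉₊ intervals of length ℓ = T / n (sum_integral_adjacent_intervals).
With y = T + z ℓ and x in the interval number j: |log y - log x| ≥ |y - x| / (4 T),
|y - x| ≥ (|j - z| - 1) ℓ, W ℓ / (4 T) ≥ 1 / 8, hence ph ≤ C W / (1 + (j - z) ^ 2); vgb_sum with
m = 1. -/
theorem lm_shell : ∃ C : ℝ, 0 < C ∧ ∀ (v : ℝ → ℝ) (T W m : ℝ), 0 < T → 1 ≤ W → Continuous v →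
    (∀ x, 0 ≤ v x) →
    (∀ a ℓ : ℝ, T ≤ a → 0 ≤ ℓ → ℓ ≤ T / W → a + ℓ ≤ 2 * T → ∫ x in a..a + ℓ, v x ≤ m) →
    ∀ y ∈ Icc (T / 2) (4 * T),
      ∫ x in T..2 * T, ph W (Real.log y - Real.log x) * v x ≤ C * W * m := by
  refine ⟨4096, by norm_num, fun v T W m hT hW hv h0 h y hy => ?_⟩
  have hW0 : 0 < W := by linarith
  have hy0 : 0 < y := (half_pos hT).trans_le hy.1
  have hm : 0 ≤ m := by
    simpa using h T 0 le_rfl le_rfl (by positivity) (by linarith)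
  obtain ⟨n, hn⟩ : ∃ n : ℕ, n = ⌈W⌉₊ := ⟨_, rfl⟩
  have n1 : W ≤ n := hn ▸ Nat.le_ceil W
  have n2 : (n : ℝ) ≤ 2 * W := by
    have := Nat.ceil_lt_add_one hW0.le
    rw [← hn] at this
    linarith
  have n0 : (0 : ℝ) < n := by linarith
  obtain ⟨l, hl⟩ : ∃ l : ℝ, l = T / n := ⟨_, rfl⟩
  have l0 : 0 < l := by rw [hl]; positivity
  have l1 : n * l = T := by rw [hl]; field_simp
  have l2 : l ≤ T / W := hl ▸ div_le_div_of_nonneg_left hT.le hW0 n1
  have a1 : ∀ j : ℕ, T ≤ T + j * l := fun j => le_add_of_nonneg_right (by positivity)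
  have a2 : ∀ j : ℕ, T + (j + 1 : ℕ) * l = T + j * l + l := fun j => by push_cast; ring
  have a3 : ∀ j < n, T + j * l + l ≤ 2 * T := fun j hj => by
    have : ((j + 1 : ℕ) : ℝ) ≤ n := Nat.cast_le.2 hj
    rw [← a2]
    nlinarith
  have hi : ∀ a b : ℝ, T ≤ a → T ≤ b → IntervalIntegrable
      (fun x => ph W (Real.log y - Real.log x) * v x) volume a b := fun a b ha hb =>
    (((continuous_ph W).comp_continuousOn (continuousOn_const.sub (Real.continuousOn_log.mono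
      fun x hx => (hT.trans_le ((le_min ha hb).trans hx.1)).ne'))).mul
      hv.continuousOn).intervalIntegrable
  have e := intervalIntegral.sum_integral_adjacent_intervals (μ := volume)
    (f := fun x => ph W (Real.log y - Real.log x) * v x) (a := fun j : ℕ => T + j * l) (n := n)
    fun j _ => hi _ _ (a1 _) (a1 _)
  simp only [Nat.cast_zero, zero_mul, add_zero, l1, ← two_mul, a2] at e
  rw [← e]
  have hs := vgb_sum (m := 1) le_rfl ((y - T) / l) n
  calc _ ≤ ∑ j ∈ Finset.range n, 512 * W * m * (1 ^ 2 / (1 ^ 2 + ((j : ℝ) - (y - T) / l) ^ 2)) := by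
        refine Finset.sum_le_sum fun j hj => ?_
        have b3 := a3 j (Finset.mem_range.1 hj)
        have b1 := a1 j
        obtain ⟨K, hK⟩ : ∃ K, K = 512 * W / (1 + ((j : ℝ) - (y - T) / l) ^ 2) := ⟨_, rfl⟩
        have K0 : 0 ≤ K := by rw [hK]; positivity
        calc _ ≤ ∫ x in T + j * l..T + j * l + l, K * v x := by
              refine intervalIntegral.integral_mono_on (by linarith) (hi _ _ b1 (by linarith))
                ((hv.intervalIntegrable _ _).const_mul K) fun x hx => ?_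
              refine mul_le_mul_of_nonneg_right ?_ (h0 x)
              rw [hK]
              refine lmb_ph hW0 (θ := (x - (T + j * l)) / l) (div_nonneg (sub_nonneg.2 hx.1) l0.le)
                ((div_le_one l0).2 (by linarith [hx.2])) ?_
              have c1 := lmb_log (T := 4 * T) (hT.trans_le (b1.trans hx.1)) hy0
                (by linarith [hx.2]) hy.2
              have c2 : (j : ℝ) - (y - T) / l + (x - (T + j * l)) / l = (x - y) / l := by
                field_simp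
                ring
              have c3 : (4 * T) ^ 2 ≤ 64 * W ^ 2 * l ^ 2 := by
                rw [← l1, show 64 * W ^ 2 * l ^ 2 = (4 * (2 * W * l)) ^ 2 by ring]
                gcongr
              rw [c2, div_pow, div_le_iff₀ (by positivity)]
              exact (c1.trans (mul_le_mul_of_nonneg_right c3 (sq_nonneg _))).trans
                (le_of_eq (by ring))
          _ ≤ K * m := by
              rw [intervalIntegral.integral_const_mul]
              exact mul_le_mul_of_nonneg_left (h _ _ b1 l0.le l2 b3) K0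
          _ = _ := by rw [hK]; ring
    _ ≤ 512 * W * m * (8 * 1) := by
        rw [← Finset.mul_sum]
        exact mul_le_mul_of_nonneg_left hs (by positivity)
    _ = _ := by ring

theorem vw_cont (F : Sel) {T : ℝ} (hT : 0 < T) : Continuous (vw F T) := by
  exact continuous_const.add (((F.B_cont hT).comp_continuous (continuous_id.max continuous_const)
    fun x => hT.trans_le (le_max_right x T)).norm.pow 2)

/- lm_shell with m = C T ^ ε * 2 T (ℓ √T ≤ T), lm_B with ℓ = T, p2_B8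
((a + b) ^ 4 ≤ 8 (a ^ 4 + b ^ 4)). -/
theorem wg_vw (F : Sel) {P : Vo} (h : F.deg = 2) (hP : F.Vor P) {ε : ℝ} (hε : 0 < ε) :
    ∃ C : ℝ, 1 ≤ C ∧ ∀ T W : ℝ, 1 ≤ T → √T ≤ W →
    Wg (vw F T) T W (C * T ^ ε * W) (C * T ^ ε * T ^ (3 / 2 : ℝ)) (C * T ^ ε * T ^ 3) := by
  obtain ⟨C0, hC0, h0⟩ := lm_shell
  obtain ⟨C1, hC1, h1⟩ := lm_B F h hP hε
  obtain ⟨C2, hC2, h2⟩ := F.p2_B8 h hP ε hε
  obtain ⟨C, hC⟩ : ∃ C, C = (1 + C0) * (1 + 2 * C1) + 8 * (1 + C2) := ⟨_, rfl⟩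
  have p1 : 0 < C0 * C1 := by positivity
  refine ⟨C, by linarith, fun T W hT hW => ?_⟩
  have hT0 : 0 < T := by linarith
  have s1 : 1 ≤ √T := Real.one_le_sqrt.2 hT
  have s2 : √T * √T = T := Real.mul_self_sqrt hT0.le
  have t1 : 1 ≤ T ^ ε := Real.one_le_rpow hT hε.le
  have hc := vw_cont F hT0
  have hp : ∀ x, 0 ≤ vw F T x := fun x => by unfold vw; positivity
  have hB : ∀ (p : ℕ) (a b : ℝ), T ≤ a → T ≤ b →
      IntervalIntegrable (fun x => ‖F.B T x‖ ^ p) volume a b := fun p a b ha hb =>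
    wd_int p (F.B_cont hT0) (by linarith) (by linarith)
  have key : ∀ a l M : ℝ, T ≤ a → 0 ≤ l → a + l ≤ 2 * T → l * √T ≤ M → T ≤ M →
      ∫ x in a..a + l, vw F T x ≤ (1 + 2 * C1) * T ^ ε * M := fun a l M ha hl hb m1 m2 => by
    have e : ∫ x in a..a + l, vw F T x = ∫ x in a..a + l, (√T + ‖F.B T x‖ ^ 2) := by
      refine intervalIntegral.integral_congr fun x hx => ?_
      rw [uIcc_of_le (by linarith)] at hx
      rw [vw, max_eq_left (ha.trans hx.1)]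
    rw [e, intervalIntegral.integral_add (by simp) (hB 2 _ _ ha (by linarith)),
      intervalIntegral.integral_const, add_sub_cancel_left, smul_eq_mul]
    have a1 := (h1 T a l hT ha hl hb).trans (mul_le_mul_of_nonneg_left (add_le_add m1 m2)
      (by positivity))
    have a2 : M ≤ T ^ ε * M := le_mul_of_one_le_left (by linarith) t1
    linarith
  refine ⟨hc, hp, fun y hy => ?_, ?_, ?_⟩
  · refine (h0 _ T W _ hT0 (s1.trans hW) hc hp (fun a l ha hl hl' hb =>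
      key a l T ha hl hb ?_ le_rfl) y hy).trans ?_
    · rw [le_div_iff₀ (by linarith)] at hl'
      exact (mul_le_mul_of_nonneg_left hW hl).trans hl'
    · have : 0 ≤ T ^ ε * W * T := mul_nonneg (mul_nonneg (by linarith) (by linarith)) hT0.le
      calc _ = C0 * (1 + 2 * C1) * (T ^ ε * W * T) := by ring
        _ ≤ C * (T ^ ε * W * T) := mul_le_mul_of_nonneg_right (by linarith) this
        _ = _ := by ring
  · have e : T ^ (3 / 2 : ℝ) = T * √T := by
      rw [Real.sqrt_eq_rpow, ← Real.rpow_one_add' hT0.le (by norm_num)]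
      norm_num
    rw [e, two_mul]
    refine (key T T _ le_rfl hT0.le (by linarith) le_rfl
      (le_mul_of_one_le_right hT0.le s1)).trans ?_
    gcongr
    linarith
  · have a1 := h2 T hT
    simp only [Real.rpow_one, Real.rpow_ofNat, mu0] at a1
    have a2 : ∫ x in T..2 * T, vw F T x ^ 4 ≤ ∫ x in T..2 * T, 8 * (T ^ 2 + ‖F.B T x‖ ^ 8) := by
      refine intervalIntegral.integral_mono_on (by linarith) ((hc.pow 4).intervalIntegrable _ _)
        ((IntervalIntegrable.add (by simp) (hB 8 _ _ le_rfl (by linarith))).const_mul 8)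
        fun x hx => ?_
      rw [vw, max_eq_left hx.1]
      refine (add_pow_le (by positivity) (by positivity) 4).trans (le_of_eq ?_)
      rw [show √T ^ 4 = (√T * √T) ^ 2 by ring, s2]
      ring
    rw [intervalIntegral.integral_const_mul, intervalIntegral.integral_add (by simp)
      (hB 8 _ _ le_rfl (by linarith)), intervalIntegral.integral_const, smul_eq_mul] at a2
    have a3 : T ^ 3 ≤ T ^ ε * T ^ 3 := le_mul_of_one_le_left (by positivity) t1
    calc _ ≤ 8 * (1 + C2) * (T ^ ε * T ^ 3) := by linarith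
      _ ≤ C * (T ^ ε * T ^ 3) := mul_le_mul_of_nonneg_right (by linarith) (by positivity)
      _ = _ := by ring

end Pool.Agent.Lib.MP_2a1a00_nt
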