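import Pool.Agent.Lib.MP_2a1a00_nt.C.Defs
import Pool.Agent.Lib.MP_2a1a00_nt.R.Z2

/-! The explicit Voronoi kernel of the divisor problem of order three. -/

namespace Pool.Agent.Lib.MP_2a1a00_nt

open Complex MeasureTheory Set

/- As zs_q2, zs_th2 in R/Z1. -/
theorem zs_q3 : (zs 3).q = 1 / (8 * Real.pi ^ 3) := by
  have e : (zs 3).q = Real.exp (-(((3 : ℕ) : ℝ) / 2) * Real.log Real.pi) ^ 2 *
      ∏ _i : Fin 3, (1 / 2 : ℝ) ^ (2 * (1 / 2 : ℝ)) := rfl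
  have hp := Real.pi_pos
  have e2 : ((2 : ℕ) : ℝ) * (-(((3 : ℕ) : ℝ) / 2) * Real.log Real.pi) =
      -Real.log (Real.pi ^ 3) := by
    rw [Real.log_pow]
    push_cast
    ring
  rw [e, ← Real.exp_nat_mul, e2, Real.exp_neg, Real.exp_log (by positivity), Fin.prod_univ_three,
    show (2 * (1 / 2 : ℝ)) = 1 by norm_num, Real.rpow_one]
  field_simp
  norm_num

theorem zs_th3 : (zs 3).th = 0 := by
  change 2 * ∑ _i : Fin 3, (0 : ℂ).im = 0
  simp

/- Copy rz1_asymp (R/Z1): three factors rz1_factor with lam = 1 / 2, mu = 0, each gives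
± π i / 4. -/
theorem z3_asymp (A : ℝ) : ∃ C t₀ : ℝ, 0 < C ∧ 1 ≤ t₀ ∧
    ∀ s : ℂ, |s.re| ≤ A → t₀ ≤ |s.im| → ∃ r : ℂ, ‖r‖ ≤ C / |s.im| ∧
      (zs 3).chi s = exp ((if 0 < s.im then 3 * Real.pi / 4 * I else -(3 * Real.pi / 4 * I)) +
        (1 / 2 - s) * (Real.log (zs 3).q : ℝ) +
        ((zs 3).deg * (1 / 2 - s) - (zs 3).th * I) * (Real.log |s.im| : ℝ) +
        (zs 3).deg * s.im * I + r) := by
  obtain ⟨C, t₀, hC, ht, h⟩ := rz1_factor (lam := 1 / 2) (by norm_num) 0 A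
  refine ⟨3 * C, t₀, by positivity, ht, fun s hs hi => ?_⟩
  obtain ⟨r, hr, e⟩ := h s hs hi
  refine ⟨3 * r, ?_, ?_⟩
  · rw [norm_mul, Complex.norm_ofNat, mul_div_assoc]
    linarith
  · have e1 : (zs 3).chi s = 1 * ((zs 3).Q : ℂ) ^ (1 - 2 * s) * ∏ _i : Fin 3,
        (Gamma (((1 / 2 : ℝ) : ℂ) * (1 - s) + (starRingEnd ℂ) 0) *
          (Gamma (((1 / 2 : ℝ) : ℂ) * s + 0))⁻¹) := rfl
    have e2 : Real.log (zs 3).q = 2 * Real.log (zs 3).Q + ∑ _i : Fin 3,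
        2 * (1 / 2 : ℝ) * Real.log (1 / 2 : ℝ) := (zs 3).vst2_logq
    rw [e1, e, e2, px_cpow _ (zs 3).Q_pos, px, zs_deg3, zs_th3, Fin.prod_univ_three,
      Fin.sum_univ_three, one_mul, ← Complex.exp_add, ← Complex.exp_add, ← Complex.exp_add]
    congr 1
    simp only [zero_im, zero_re]
    push_cast
    split_ifs <;> ring

theorem z3_line (F : Sel) {σ W y : ℝ} (h0 : 0 < σ) (h1 : σ ≤ 1 / 2) (hW : 0 < W) (hy : 0 < y) :
    F.kr W y = Ln (fun s => F.chi s / s * ((y : ℂ) ^ s * gW W s)) σ ∧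
      Integrable fun t : ℝ => F.chi (σ + t * I) / (σ + t * I) *
        ((y : ℂ) ^ (σ + t * I : ℂ) * gW W (σ + t * I)) := by
  have hD := F.vker_dec h0 hW hy
  refine ⟨?_, by simpa only [mul_assoc] using hD.integrable le_rfl h1⟩
  simp only [← mul_assoc]
  rw [hD.shift h1, Sel.kr]
  refine Ln_congr fun v => ?_
  ring

theorem z3_Lb : Real.log ((zs 3).q / (zs 3).deg ^ (zs 3).deg) = -(3 * Real.log (6 * Real.pi)) := by
  have := Real.pi_pos
  rw [zs_q3, zs_deg3, Real.rpow_ofNat, show 1 / (8 * Real.pi ^ 3) / 3 ^ 3 = ((6 * Real.pi) ^ 3)⁻¹ by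
    field_simp
    norm_num, Real.log_inv, Real.log_pow]
  norm_num

theorem z3_amp : Real.exp (-c0 + Real.log 3 - Real.log (6 * Real.pi) / 2) / 3 =
    1 / (2 * √3 * Real.pi) := by
  have := Real.pi_pos
  have e : √(2 * Real.pi) * √(6 * Real.pi) = 2 * √3 * Real.pi := by
    rw [← Real.sqrt_mul (by positivity), Real.sqrt_eq_iff_mul_self_eq (by positivity)
      (by positivity)]
    linear_combination -4 * Real.pi ^ 2 * Real.mul_self_sqrt (show (0 : ℝ) ≤ 3 by norm_num)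
  rw [← e, ← Real.log_sqrt (by positivity), Real.exp_sub, Real.exp_add, Real.exp_neg, c0,
    Real.exp_log (by positivity), Real.exp_log (by positivity), Real.exp_log (by positivity)]
  field_simp



/- Copy exists_good (R/Z2).  rz1_gen with z3_asymp gives the model with
c₁ = c₂ = 3 / √(2 π) (exp (π i / 2) / i = 1); Lb = log (q / 27) = -3 log (6 π), a = 1 / 3, so
rz2_mdl gives the data c₁ * exp (Lb / 6) / 3 = 1 / (2 √3 π), th = 0, ka = 6 π.  In rz2_vor use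
the line σ = 1 / 6 + η < 1 / 3; the shift from 1 / 2 to σ is vker_dec (V/Ker, see kernel), the
difference chi / s - mdl is O ((1 + |t|) ^ (-1 - 3 η)). -/
theorem vor3 : (zs 3).Vor P3 := by
  have hπ := Real.pi_pos
  have hd : 0 < (zs 3).deg := by rw [zs_deg3]; norm_num
  obtain ⟨c, hc⟩ : ∃ c : ℂ, c = exp (-c0 + (Real.log 3 : ℝ)) := ⟨_, rfl⟩
  have hI : exp (Real.pi / 2 * I) = I := exp_pi_div_two_mul_I
  have hc₁ : c = exp (3 * Real.pi / 4 * I - c0 - Real.pi / 4 * I +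
      (1 + (zs 3).th * I) * (Real.log (zs 3).deg : ℝ)) / I := by
    rw [eq_div_iff I_ne_zero, hc, zs_th3, zs_deg3]
    refine (congrArg _ hI.symm).trans ?_
    rw [← exp_add]
    congr 1
    push_cast
    ring
  have hc₂ : c = exp (-(3 * Real.pi / 4 * I) - c0 - Real.pi / 4 * (-I) +
      (1 + (zs 3).th * I) * (Real.log (zs 3).deg : ℝ)) / (-I) := by
    rw [eq_div_iff (neg_ne_zero.2 I_ne_zero), hc, zs_th3, zs_deg3]
    refine (congrArg _ (inv_I.symm.trans (congrArg _ hI.symm))).trans ?_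
    rw [← exp_neg, ← exp_add]
    congr 1
    push_cast
    ring
  obtain ⟨Lb, hLb⟩ : ∃ Lb, Lb = Real.log ((zs 3).q / (zs 3).deg ^ (zs 3).deg) := ⟨_, rfl⟩
  obtain ⟨a, ha⟩ : ∃ a : ℂ, a = al 3 + (-(zs 3).th / 3 : ℝ) * I := ⟨_, rfl⟩
  have hP : P3 = ⟨c * exp ((1 / 2 - a) * Lb) / (3 : ℝ), c * exp ((1 / 2 - a) * Lb) / (3 : ℝ),
      -(zs 3).th / 3, Real.exp (-Lb / 3)⟩ := by
    have e1 : c * exp ((1 / 2 - a) * Lb) / (3 : ℝ) = ((1 / (2 * √3 * Real.pi) : ℝ) : ℂ) := by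
      rw [← z3_amp, hc, ha, zs_th3, al_three, hLb, z3_Lb, ← exp_add, ofReal_div (Real.exp _),
        ofReal_exp]
      congr 2
      push_cast
      ring
    rw [e1, zs_th3, hLb, z3_Lb, show -(-(3 * Real.log (6 * Real.pi))) / 3 = Real.log (6 * Real.pi)
      by ring, Real.exp_log (by positivity), neg_zero, zero_div]
    rfl
  refine rz2_vor (zs 3) (by rw [zs_deg3]; norm_num) (by change 0 < 6 * Real.pi; positivity)
    fun η h0 h1 => ?_
  obtain ⟨σ, hσ⟩ : ∃ σ : ℝ, σ = 1 / 2 - 1 / 3 + η := ⟨_, rfl⟩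
  have h2 : σ < 1 / 3 := by rw [zs_deg3] at h1; linarith
  have h3 : 0 < σ := by linarith
  obtain ⟨C, hC, hb⟩ := (zs 3).rz1_gen hd _ _ z3_asymp hc₁ hc₂ h3.ne'
    (abs_le.2 ⟨by linarith, by linarith⟩) (by rw [zs_deg3, al_three]; exact h2)
  rw [show (zs 3).deg * (1 / 2 - σ) - 2 = -(1 + 3 * η) by rw [zs_deg3, hσ]; ring] at hb
  rw [zs_deg3, ← hσ]
  have hi : Integrable fun v : ℝ => (1 + ‖v‖) ^ (-(1 + 3 * η)) := by
    refine integrable_one_add_norm ?_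
    simp only [Module.finrank_self, Nat.cast_one]
    linarith
  obtain ⟨J, hJ⟩ : ∃ J, J = ∫ v : ℝ, (1 + ‖v‖) ^ (-(1 + 3 * η)) := ⟨_, rfl⟩
  have hJ0 : 0 ≤ J := hJ ▸ integral_nonneg fun v => by positivity
  refine ⟨C * Real.exp 1 * (J + 1), by positivity, fun W y hW hy => ?_⟩
  have hW0 : 0 < W := by linarith
  obtain ⟨k1, k2⟩ := rz2_mdl (zs 3) c c (d := 3) three_pos zs_deg3.symm hLb ha
    (σ := σ) (by rw [al_three]; exact h2) hW0 hy
  obtain ⟨l1, l2⟩ := z3_line (zs 3) h3 (by linarith) hW0 hy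
  rw [← hP] at k2
  rw [l1, ← k2, ← Ln_sub (g₁ := fun s => (zs 3).chi s / s * ((y : ℂ) ^ s * gW W s))
    (g₂ := fun s => (zs 3).mdl c c s * ((y : ℂ) ^ s * gW W s)) l2 k1]
  refine (norm_Ln_le 0 (hi.const_mul (C * Real.exp 1 * y ^ σ)) fun v => ?_).trans ?_
  · rw [zero_add]
    have hg : ‖gW W (σ + v * I)‖ ≤ Real.exp 1 := by
      rw [norm_gW hW0, Real.exp_le_exp, div_le_one (by positivity)]
      simp only [add_re, ofReal_re, mul_re, I_re, mul_zero, ofReal_im, I_im, mul_one, sub_self,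
        add_zero, add_im, mul_im, zero_add]
      nlinarith [sq_nonneg v]
    have hb' := hb v
    rw [← sub_mul, norm_mul, norm_mul, norm_cpow_eq_rpow_re_of_pos hy, Real.norm_eq_abs]
    simp only [add_re, ofReal_re, mul_re, I_re, mul_zero, ofReal_im, I_im, mul_one, sub_self,
      add_zero]
    calc _ ≤ C * (1 + |v|) ^ (-(1 + 3 * η)) * (y ^ σ * Real.exp 1) := by gcongr
      _ = _ := by ring
  · rw [integral_const_mul, ← hJ]
    have : 0 < C * Real.exp 1 * y ^ σ := by positivity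
    nlinarith

end Pool.Agent.Lib.MP_2a1a00_nt
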