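import Pool.Agent.Lib.MP_2a1a00_nt.C.Wt
import Pool.Agent.Lib.MP_2a1a00_nt.C.Bl3
import Pool.Agent.Lib.MP_2a1a00_nt.C.Z3
import Pool.Agent.Lib.MP_2a1a00_nt.C.Jl
import Pool.Agent.Lib.MP_2a1a00_nt.V.P3
import Pool.Agent.Lib.MP_2a1a00_nt.V.M43

/-! The low and the high frequencies. -/

namespace Pool.Agent.Lib.MP_2a1a00_nt

open Complex MeasureTheory Set

/- H_split and Finset.sum_range_sub for j ↦ H 0 (min (M * 2 ^ j) N); N < 2 ^ J. -/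
theorem lo_dy (F : Sel) (P : Vo) {M N J : ℕ} (h1 : 1 ≤ M) (h2 : M ≤ N) (hJ : N ≤ 2 ^ J) (x : ℝ) :
    F.H P M N x =
      ∑ j ∈ Finset.range J, F.H P (min (M * 2 ^ j) N) (min (M * 2 ^ (j + 1)) N) x := by
  have e : ∀ j ∈ Finset.range J, F.H P (min (M * 2 ^ j) N) (min (M * 2 ^ (j + 1)) N) x =
      F.H P 0 (min (M * 2 ^ (j + 1)) N) x - F.H P 0 (min (M * 2 ^ j) N) x := fun j _ => by
    have h : min (M * 2 ^ j) N ≤ min (M * 2 ^ (j + 1)) N :=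
      min_le_min_right _ (Nat.mul_le_mul_left _ (Nat.pow_le_pow_right two_pos j.le_succ))
    rw [F.H_split P h x, add_sub_cancel_left]
  rw [Finset.sum_congr rfl e, Finset.sum_range_sub fun j => F.H P 0 (min (M * 2 ^ j) N) x,
    min_eq_right (hJ.trans (Nat.le_mul_of_pos_left _ h1)), pow_zero, mul_one, min_eq_left h2,
    F.H_split P h2 x, add_sub_cancel_left]

theorem loa_sum {ι : Type} (s : Finset ι) {f : ι → ℝ → ℂ} {g : ℝ → ℂ} {T : ℝ} (hT : 0 ≤ T)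
    (hf : ∀ i ∈ s, Bm (f i) T) (hg : Bm g T) (e : ∀ x, g x = ∑ i ∈ s, f i x) :
    mu0 4 g T ≤ (s.card : ℝ) ^ 3 * ∑ i ∈ s, mu0 4 (f i) T := by
  have h1 := IntervalIntegrable.sum s fun i hi => (hf i hi).int_pow0 hT 4
  rw [Finset.sum_fn] at h1
  simp only [mu0]
  rw [← intervalIntegral.integral_finsetSum fun i hi => (hf i hi).int_pow0 hT 4,
    ← intervalIntegral.integral_const_mul]
  refine intervalIntegral.integral_mono_on (by linarith) (hg.int_pow0 hT 4) (h1.const_mul _)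
    fun x _ => ?_
  rw [e]
  exact (pow_le_pow_left₀ (norm_nonneg _) (norm_sum_le _ _) 4).trans
    (pow_sum_le_card_mul_sum_pow (fun i _ => norm_nonneg _) 3)

theorem loa_bm (F : Sel) (P : Vo) (M N : ℕ) {T : ℝ} (hT : 1 ≤ T) : Bm (F.H P M N) T :=
  Bm.of_cont ((F.H_cont P M N).mono fun _ hx => p1_pos hT hx)

theorem loa_log : Bd (fun T => 2 * (1 + Real.log T)) 0 := fun ε hε => by
  obtain ⟨C, hC, h⟩ := log_le_rpow hε
  refine ⟨2 * C, by positivity, fun T hT => ?_⟩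
  have := h T hT
  rw [Real.rpow_zero]
  linarith

theorem loa_dy : Bd (fun T => mu0 4 ((zs 3).H P3 1 ⌊T ^ (1 / 1000 : ℝ)⌋₊) T) (7 / 3) := by
  have l0 : ∀ T : ℝ, 1 ≤ T → 0 ≤ 2 * (1 + Real.log T) := fun T hT => by
    have := Real.log_nonneg hT
    positivity
  refine (((loa_log.pow l0 4).mul_rpow (7 / 3)).mono (by norm_num)).of_forall fun ε hε => ?_
  obtain ⟨C, hC, h⟩ := l4_H (zs 3) zs_deg3 vor3.1 hε
  refine ⟨2 * C, by positivity, fun T hT => ?_⟩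
  have h0 : 0 < T := by linarith
  have n1 := one_le_floor (γ := 1 / 1000) (by norm_num) hT
  have n2 : (⌊T ^ (1 / 1000 : ℝ)⌋₊ : ℝ) ≤ T ^ (1 / 3 : ℝ) :=
    (Nat.floor_le (by positivity)).trans (Real.rpow_le_rpow_of_exponent_le hT (by norm_num))
  generalize ⌊T ^ (1 / 1000 : ℝ)⌋₊ = N at n1 n2
  have n3 : (N : ℝ) ≤ T := n2.trans (p1_W (by norm_num) (by norm_num) hT).2
  have n4 : (1 : ℝ) ≤ N := by exact_mod_cast n1
  have j1 : ((Nat.log 2 N + 1 : ℕ) : ℝ) ≤ 2 * (1 + Real.log T) :=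
    (vwc_log n1).trans (by linarith [Real.log_le_log (by linarith) n3])
  have e := lo_dy (zs 3) P3 le_rfl n1 (Nat.lt_pow_succ_log_self one_lt_two N).le
  refine (loa_sum _ h0.le (fun j _ => loa_bm _ _ _ _ hT) (loa_bm _ _ _ _ hT) e).trans ?_
  have b : ∀ j ∈ Finset.range (Nat.log 2 N + 1),
      mu0 4 ((zs 3).H P3 (min (1 * 2 ^ j) N) (min (1 * 2 ^ (j + 1)) N)) T ≤
        2 * C * T ^ ε * T ^ (7 / 3 : ℝ) := fun j _ => by
    have m1 : 1 ≤ min (1 * 2 ^ j) N := le_min (by rw [one_mul]; exact Nat.one_le_two_pow) n1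
    have m2 : min (1 * 2 ^ (j + 1)) N ≤ 2 * min (1 * 2 ^ j) N := by
      rw [pow_succ]
      omega
    have m3 : ((min (1 * 2 ^ j) N : ℕ) : ℝ) ≤ N := by exact_mod_cast min_le_right _ _
    refine (mu0_le_wd 4 ((zs 3).H_cont P3 _ _) h0).trans ((h _ _ T hT m1 m2).trans ?_)
    have m4 : T ^ 2 * ((min (1 * 2 ^ j) N : ℕ) : ℝ) ≤ T ^ (7 / 3 : ℝ) := by
      refine (mul_le_mul_of_nonneg_left (m3.trans n2) (by positivity)).trans (le_of_eq ?_)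
      rw [← Real.rpow_natCast, ← Real.rpow_add h0]
      norm_num
    have m5 : ((min (1 * 2 ^ j) N : ℕ) : ℝ) ^ ε ≤ T ^ ε :=
      Real.rpow_le_rpow (by positivity) (m3.trans n3) hε.le
    calc _ ≤ C * T ^ ε * (T ^ (7 / 3 : ℝ) + T ^ (7 / 3 : ℝ)) := by gcongr
      _ = _ := by ring
  have b2 := Finset.sum_le_card_nsmul _ _ _ b
  rw [nsmul_eq_mul] at b2
  rw [Finset.card_range] at b2 ⊢
  calc _ ≤ ((Nat.log 2 N + 1 : ℕ) : ℝ) ^ 3 *
        (((Nat.log 2 N + 1 : ℕ) : ℝ) * (2 * C * T ^ ε * T ^ (7 / 3 : ℝ))) :=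
        mul_le_mul_of_nonneg_left b2 (by positivity)
    _ ≤ (2 * (1 + Real.log T)) ^ 3 * ((2 * (1 + Real.log T)) * (2 * C * T ^ ε * T ^ (7 / 3 : ℝ))) := by
        have := l0 T hT
        gcongr
    _ = _ := by ring

/- H 0 N = H 0 1 + H 1 N, H_le for the first term, lo_dy with J = Nat.log 2 N + 1, l4_H
(M ≤ T ^ (1 / 3)), mu0_le_wd, pow_sum_le_card_mul_sum_pow, vwc_log, log_le_rpow. -/
theorem lo_four : Bd (fun T => mu0 4 ((zs 3).Hs P3 (1 / 1000) T) T) (7 / 3) := by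
  obtain ⟨C, hC, h⟩ := (zs 3).H_le P3 (by rw [zs_deg3]; norm_num) one_pos
  have k1 : Bd (fun T => (2 * C * T ^ (1 / 3 : ℝ)) ^ 4 * T) (7 / 3) :=
    ((((bd_rpow (1 / 3)).const_mul (K := 2 * C) (by positivity)).pow
      (fun T hT => by positivity) 4).mul bd_id fun T hT => by linarith).mono (by norm_num)
  refine ((loa_dy.add k1).const_mul (K := 2 ^ 4) (by norm_num)).of_le fun T hT => ?_
  refine mu0_close 4 (by linarith) ((zs 3).bm_Hs P3 _ hT) (loa_bm _ _ _ _ hT) fun x hx => ?_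
  have x0 : 0 < x := p1_pos hT hx
  have h1 := h 0 1 x x0
  rw [zs_deg3, al_three, Nat.cast_one, Real.one_rpow, mul_one] at h1
  rw [Sel.Hs, (zs 3).H_split P3 (one_le_floor (by norm_num) hT) x, add_sub_cancel_right]
  have h2 : x ^ (1 / 3 : ℝ) ≤ 2 * T ^ (1 / 3 : ℝ) := by
    refine (Real.rpow_le_rpow x0.le hx.2 (by norm_num)).trans ?_
    rw [Real.mul_rpow zero_le_two (by linarith)]
    exact mul_le_mul_of_nonneg_right (p1_W (by norm_num) (by norm_num) one_le_two).2 (by positivity)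
  nlinarith [mul_le_mul_of_nonneg_left h2 hC.le]

theorem lob_one : ∃ C : ℝ, 0 < C ∧ ∀ T : ℝ, 1 ≤ T → ∃ N : ℕ, ⌊T ^ (1 / 1000 : ℝ)⌋₊ ≤ N ∧
    (N : ℝ) ≤ T ^ (501 / 1000 : ℝ) ∧ ∀ x ∈ Icc T (2 * T), ‖(zs 3).B (T ^ (1 / 2 + 1 / 12000 : ℝ)) x -
      av (T ^ (1 / 2 + 1 / 12000 : ℝ)) ((zs 3).H P3 0 N) x‖ ≤ C * T ^ (3 / 10 : ℝ) := by
  obtain ⟨C, hC, H⟩ := vor3.2 (1 / 10000) (by norm_num)
  refine ⟨C, hC, fun T hT => ?_⟩
  have hT0 : 0 < T := by linarith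
  have w0 : √T ≤ T ^ (1 / 2 + 1 / 12000 : ℝ) := by
    rw [Real.sqrt_eq_rpow]
    exact Real.rpow_le_rpow_of_exponent_le hT (by norm_num)
  have w1 : T ^ (1 / 2 + 1 / 12000 : ℝ) ≤ T :=
    (Real.rpow_le_rpow_of_exponent_le hT (by norm_num)).trans_eq (Real.rpow_one T)
  have k := H T _ hT w0 w1
  rw [zs_deg3, ← Real.rpow_mul hT0.le, ← Real.rpow_mul hT0.le, ← Real.rpow_add hT0, mul_assoc,
    ← Real.rpow_add hT0] at k
  refine ⟨_, Nat.floor_le_floor (Real.rpow_le_rpow_of_exponent_le hT (by norm_num)),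
    (Nat.floor_le (by positivity)).trans (Real.rpow_le_rpow_of_exponent_le hT (by norm_num)),
    fun x hx => (k x hx).trans ?_⟩
  exact mul_le_mul_of_nonneg_left (Real.rpow_le_rpow_of_exponent_le hT (by norm_num)) hC.le

theorem lob_three : ∃ C : ℝ, 0 < C ∧ ∀ T : ℝ, 1 ≤ T → ∀ x ∈ Icc T (2 * T),
    ‖av (T ^ (1 / 2 + 1 / 12000 : ℝ)) ((zs 3).Hs P3 (1 / 1000) T) x - (zs 3).Hs P3 (1 / 1000) T x‖ ≤
      C * T ^ (3 / 10 : ℝ) := by
  obtain ⟨C, hC, H⟩ := (zs 3).H_der P3 (by rw [zs_deg3]; norm_num)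
  refine ⟨30 * (18 * C), by positivity, fun T hT x hx => ?_⟩
  have hT0 : 0 < T := by linarith
  obtain ⟨H', -, d, b⟩ := H ⌊T ^ (1 / 1000 : ℝ)⌋₊
  have e1 : al (zs 3).deg = 1 / 3 := by rw [zs_deg3, al]; norm_num
  rw [e1, zs_deg3] at b
  have n1 : (⌊T ^ (1 / 1000 : ℝ)⌋₊ : ℝ) ≤ T ^ (1 / 1000 : ℝ) := Nat.floor_le (by positivity)
  have k := av_near (W := T ^ (1 / 2 + 1 / 12000 : ℝ)) (by positivity) hT0 d
    (P := C * (16 * T ^ (2 / 3 : ℝ)) * T ^ (1 / 1000 : ℝ))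
    (P' := C * (2 * T ^ (-(1 / 3) : ℝ)) * T ^ (1 / 1000 : ℝ)) (fun y hy => by
      have y0 : 1 / 2 ≤ y := by linarith [hy.1]
      obtain ⟨b1, b2⟩ := b y y0
      have c1 : y ^ (1 / 3 : ℝ) ≤ 16 * T ^ (2 / 3 : ℝ) :=
        ((Real.rpow_le_rpow (by linarith) hy.2 (by norm_num)).trans
          (l4_four hT0.le (by norm_num))).trans (mul_le_mul_of_nonneg_left
            (Real.rpow_le_rpow_of_exponent_le hT (by norm_num)) (by norm_num))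
      have c2 : y ^ (1 / 3 + 1 / 3 - 1 : ℝ) ≤ 2 * T ^ (-(1 / 3) : ℝ) := by
        rw [show (1 / 3 + 1 / 3 - 1 : ℝ) = -(1 / 3) by norm_num]
        refine (Real.rpow_le_rpow_of_nonpos (by linarith) hy.1 (by norm_num)).trans ?_
        rw [Real.div_rpow hT0.le (by norm_num), Real.rpow_neg (x := 2) (by norm_num), div_inv_eq_mul,
          mul_comm]
        exact mul_le_mul_of_nonneg_right ((Real.rpow_le_rpow_of_exponent_le (by norm_num)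
          (by norm_num)).trans_eq (Real.rpow_one 2)) (by positivity)
      exact ⟨b1.trans (by gcongr), b2.trans (by gcongr)⟩) hx
  refine k.trans ?_
  have e2 : T * T ^ (-(1 / 3) : ℝ) = T ^ (2 / 3 : ℝ) := by
    rw [← Real.rpow_one_add' hT0.le (by norm_num)]
    norm_num
  have e3 : T ^ (2 / 3 : ℝ) * T ^ (1 / 1000 : ℝ) ≤ T ^ (3 / 10 : ℝ) * T ^ (1 / 2 + 1 / 12000 : ℝ) := by
    rw [← Real.rpow_add hT0, ← Real.rpow_add hT0]
    exact Real.rpow_le_rpow_of_exponent_le hT (by norm_num)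
  rw [div_le_iff₀ (by positivity)]
  calc _ = 30 * (18 * C) * (T ^ (2 / 3 : ℝ) * T ^ (1 / 1000 : ℝ)) := by rw [← e2]; ring
    _ ≤ _ := by rw [mul_assoc (30 * (18 * C))]; gcongr

theorem lob_two : ∃ C : ℝ, 0 < C ∧ ∀ (v : ℝ → ℝ) (T Λ V₁ V₄ : ℝ) (N : ℕ), 1 ≤ T → 1 ≤ Λ →
    Wg v T (T ^ (1 / 2 + 1 / 12000 : ℝ)) (Λ * T ^ (1 / 2 + 1 / 12000 : ℝ)) V₁ V₄ →
    ⌊T ^ (1 / 1000 : ℝ)⌋₊ ≤ N → (N : ℝ) ≤ T ^ (501 / 1000 : ℝ) →
    mo 3 (av (T ^ (1 / 2 + 1 / 12000 : ℝ)) ((zs 3).H P3 ⌊T ^ (1 / 1000 : ℝ)⌋₊ N)) v T ≤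
      C * Λ * T ^ (5 / 2 - 1 / 50000 : ℝ) := by
  obtain ⟨C, hC, H⟩ := blk (ε := 1 / 20000) (by norm_num)
  obtain ⟨D, hD, HJ⟩ := bd_Jl (1 / 100000) (by norm_num)
  refine ⟨16 * D ^ 3 * √C, by positivity, fun v T Λ V₁ V₄ N hT hΛ g h1 h2 => ?_⟩
  have hT0 : 0 < T := by linarith
  have hΛ0 : 0 < Λ := by linarith
  obtain ⟨M, hM⟩ : ∃ M, M = ⌊T ^ (1 / 1000 : ℝ)⌋₊ := ⟨_, rfl⟩
  have m1 : 1 ≤ M := hM ▸ Nat.le_floor (by exact_mod_cast Real.one_le_rpow hT (by norm_num))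
  have m2 : T ^ (1 / 1000 : ℝ) ≤ M + 1 := hM ▸ (Nat.lt_floor_add_one _).le
  rw [← hM] at h1 ⊢
  have n1 : N ≤ 2 ^ Jl T := by
    exact_mod_cast (h2.trans ((Real.rpow_le_rpow_of_exponent_le hT (by norm_num)).trans_eq
      (Real.rpow_one T))).trans (Jl_le T)
  obtain ⟨S, hS⟩ := (isCompact_Icc (a := T / 2) (b := 4 * T)).exists_bound_of_continuousOn
    (((zs 3).H_cont P3 M N).mono fun y hy => lt_of_lt_of_le (by linarith) hy.1)
  have k := wt_main (Finset.range (Jl T)) (S := S) (ρ := 0)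
    (f := fun j => (zs 3).H P3 (min (M * 2 ^ j) N) (min (M * 2 ^ (j + 1)) N))
    (Z := √C * Λ * T ^ (5 / 2 - 1 / 12000 + 1 / 40000 : ℝ)) hT0 (by positivity) g
    ((zs 3).H_cont P3 M N) (fun _ _ => (zs 3).H_cont P3 _ _) (by positivity)
    (fun y hy => ⟨hS y hy, by rw [← lo_dy _ _ m1 h1 n1, sub_self, norm_zero]⟩) fun j _ => by
      have a1 : M ≤ min (M * 2 ^ j) N := le_min (Nat.le_mul_of_pos_right _ (by positivity)) h1
      have a2 : (M : ℝ) ≤ (min (M * 2 ^ j) N : ℕ) := by exact_mod_cast a1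
      have a3 : ((min (M * 2 ^ j) N : ℕ) : ℝ) ≤ N := by exact_mod_cast min_le_right _ _
      have a4 := H (min (M * 2 ^ j) N) (min (M * 2 ^ (j + 1)) N) T hT (m1.trans a1) (by linarith)
        (a3.trans h2) (by rw [pow_succ, ← mul_assoc]; omega)
      refine ⟨_, _, le_rfl, le_rfl, Or.inr (Or.inr ((mul_le_mul_of_nonneg_left a4
        (sq_nonneg _)).trans (le_of_eq ?_)))⟩
      rw [mul_pow, mul_pow, mul_pow, Real.sq_sqrt hC.le, rpow_pow hT, rpow_pow hT, mul_assoc C,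
        ← Real.rpow_add hT0, mul_mul_mul_comm, ← Real.rpow_add hT0, mul_comm C]
      congr 2
      push_cast
      norm_num
  have j1 := HJ T hT
  rw [Real.rpow_zero, mul_one] at j1
  have j2 : (Jl T : ℝ) ^ 3 ≤ D ^ 3 * T ^ (3 / 100000 : ℝ) := by
    refine (pow_le_pow_left₀ (Nat.cast_nonneg _) j1 3).trans (le_of_eq ?_)
    rw [mul_pow, rpow_pow hT]
    norm_num
  have j3 : T ^ (3 / 100000 : ℝ) * T ^ (5 / 2 - 1 / 12000 + 1 / 40000 : ℝ) ≤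
      T ^ (5 / 2 - 1 / 50000 : ℝ) := by
    rw [← Real.rpow_add hT0]
    exact Real.rpow_le_rpow_of_exponent_le hT (by norm_num)
  rw [Finset.card_range] at k
  calc _ ≤ _ := k
    _ ≤ 4 * (0 ^ 3 * V₁) + 16 * (D ^ 3 * T ^ (3 / 100000 : ℝ)) *
        (√C * Λ * T ^ (5 / 2 - 1 / 12000 + 1 / 40000 : ℝ)) := by gcongr
    _ = 16 * D ^ 3 * √C * Λ * (T ^ (3 / 100000 : ℝ) * T ^ (5 / 2 - 1 / 12000 + 1 / 40000 : ℝ)) := by
        ring
    _ ≤ _ := by gcongr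

theorem lo : ∃ C : ℝ, 0 < C ∧ ∀ (v : ℝ → ℝ) (T Λ : ℝ), 1 ≤ T → 1 ≤ Λ →
    Wg v T (T ^ (1 / 2 + 1 / 12000 : ℝ)) (Λ * T ^ (1 / 2 + 1 / 12000 : ℝ)) (Λ * T ^ (3 / 2 : ℝ))
      (Λ * T ^ 3) →
    mo 3 (fun x => (zs 3).B (T ^ (1 / 2 + 1 / 12000 : ℝ)) x - (zs 3).Hs P3 (1 / 1000) T x) v T ≤
      C * Λ * T ^ (5 / 2 - 1 / 50000 : ℝ) := by
  obtain ⟨C₁, hC₁, H₁⟩ := lob_one
  obtain ⟨C₂, hC₂, H₂⟩ := lob_two
  obtain ⟨C₃, hC₃, H₃⟩ := lob_three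
  refine ⟨4 * C₁ ^ 3 + 4 * (4 * C₂ + 4 * C₃ ^ 3), by positivity, fun v T Λ hT hΛ g => ?_⟩
  have hT0 : 0 < T := by linarith
  obtain ⟨N, n1, n2, k1⟩ := H₁ T hT
  have b1 := ((zs 3).nice_Bw (1 / 2 + 1 / 12000) hT).bm0
  have b2 := bm_pos hT0 (av_cont (W := T ^ (1 / 2 + 1 / 12000 : ℝ)) ((zs 3).H_cont P3 0 N))
  have b3 : Bm (av (T ^ (1 / 2 + 1 / 12000 : ℝ)) ((zs 3).Hs P3 (1 / 1000) T)) T :=
    bm_pos hT0 (av_cont ((zs 3).H_cont P3 0 _))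
  have b4 := (zs 3).bm_Hs P3 (1 / 1000) hT
  have r1 := mo3_tri hT0.le g.cont g.pos b1 b2 b4
  have r2 := mo3_tri hT0.le g.cont g.pos b2 b3 b4
  have e : ∀ K : ℝ, 0 < K → (K * T ^ (3 / 10 : ℝ)) ^ 3 * (Λ * T ^ (3 / 2 : ℝ)) ≤
      K ^ 3 * Λ * T ^ (5 / 2 - 1 / 50000 : ℝ) := fun K hK => by
    rw [mul_pow, rpow_pow hT, mul_mul_mul_comm, ← Real.rpow_add hT0]
    exact mul_le_mul_of_nonneg_left (Real.rpow_le_rpow_of_exponent_le hT (by norm_num))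
      (by positivity)
  have r3 := (mo3_sup hT0.le g (b1.sub b2) (by positivity) k1).trans (e C₁ hC₁)
  have r4 := (mo3_sup hT0.le g (b3.sub b4) (by positivity) (H₃ T hT)).trans (e C₃ hC₃)
  have r5 := H₂ v T Λ _ _ N hT hΛ g n1 n2
  have r6 : mo 3 (fun x => av (T ^ (1 / 2 + 1 / 12000 : ℝ)) ((zs 3).H P3 0 N) x -
      av (T ^ (1 / 2 + 1 / 12000 : ℝ)) ((zs 3).Hs P3 (1 / 1000) T) x) v T =
      mo 3 (av (T ^ (1 / 2 + 1 / 12000 : ℝ)) ((zs 3).H P3 ⌊T ^ (1 / 1000 : ℝ)⌋₊ N)) v T := by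
    refine intervalIntegral.integral_congr fun x hx => ?_
    have x0 : 0 < x := (lt_min hT0 (by linarith)).trans_le hx.1
    rw [show (zs 3).H P3 0 N = fun y => (zs 3).H P3 0 ⌊T ^ (1 / 1000 : ℝ)⌋₊ y +
      (zs 3).H P3 ⌊T ^ (1 / 1000 : ℝ)⌋₊ N y from funext ((zs 3).H_split P3 n1)]
    simp only [av_add ((zs 3).H_cont P3 _ _) ((zs 3).H_cont P3 _ _) x0, Sel.Hs, add_sub_cancel_left]
  linarith

theorem zs_split : (zs 3).Split := by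
  refine ⟨zs 1, zs 2, ⟨1, 0, 0, one_pos, fun n hn _ => ?_⟩, zs_deg1.le, zs_deg2.le, fun s hs => ?_⟩
  · rw [zs_f1 hn, zs_f1 (by omega)]
    simp
  · have h1 : s ≠ 1 := fun h => by simp [h] at hs
    rw [zs_L 1 h1, zs_L 2 h1, zs_L 3 h1]
    ring

theorem loa_ms : Bd (fun T => mu0 2 (fun x => (zs 3).E x - (zs 3).B (T ^ (63 / 100 : ℝ)) x) T)
    (158 / 100) := by
  have k1 : Bd (fun T => mu0 2 (fun x => (zs 3).B (T ^ (1 : ℝ)) x -
      (zs 3).B (T ^ (63 / 100 : ℝ)) x) T) (158 / 100) := by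
    refine (bd_rpow (158 / 100)).of_forall fun ε hε => ?_
    obtain ⟨C, hC, k⟩ := (zs 3).B_ms (by norm_num) (by norm_num) (Sel.ms43 zs_split) hε
    refine ⟨C, hC, fun T hT => ?_⟩
    have h0 : 0 < T := by linarith
    have := p1_W (w := 63 / 100) (by norm_num) (by norm_num) hT
    rw [Real.rpow_one]
    refine (k T _ this.1 this.2).trans (le_of_eq ?_)
    rw [← Real.rpow_mul h0.le, ← Real.rpow_natCast, ← Real.rpow_add h0]
    norm_num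
  obtain ⟨K, k2, k3⟩ := (zs 3).bd_near zero_le_one le_rfl
  have k0 : ∀ T : ℝ, 1 ≤ T → 0 ≤ K T := fun T hT =>
    (norm_nonneg _).trans (k3 T hT T ⟨le_rfl, by linarith⟩)
  have k4 : Bd (fun T => K T ^ 2 * T) (158 / 100) :=
    ((k2.pow k0 2).mul bd_id fun T hT => by linarith).mono (by norm_num)
  refine ((k1.add k4).const_mul (K := 2 ^ 2) (by norm_num)).of_le fun T hT => ?_
  refine mu0_close 2 (by linarith) (((zs 3).bm_E hT).sub ((zs 3).nice_Bw _ hT).bm0)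
    (((zs 3).nice_Bw _ hT).bm0.sub ((zs 3).nice_Bw _ hT).bm0) fun x hx => ?_
  rw [sub_sub_sub_cancel_right]
  exact k3 T hT x hx

theorem loa_four : Bd (fun T => mu0 4 (fun x => (zs 3).E x - (zs 3).B (T ^ (63 / 100 : ℝ)) x) T)
    (232 / 100) := by
  obtain ⟨K, k2, k3⟩ := (zs 3).bd_near (w := 63 / 100) (by norm_num) (by norm_num)
  have k0 : ∀ T : ℝ, 1 ≤ T → 0 ≤ K T := fun T hT =>
    (norm_nonneg _).trans (k3 T hT T ⟨le_rfl, by linarith⟩)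
  refine (((k2.pow k0 2).mul loa_ms fun T hT => mu0_nonneg _ _ (by linarith)).mono
    (by norm_num)).of_le fun T hT => ?_
  have h0 : 0 ≤ T := by linarith
  have b := ((zs 3).bm_E hT).sub ((zs 3).nice_Bw (63 / 100) hT).bm0
  rw [mu0, mu0, ← intervalIntegral.integral_const_mul]
  refine intervalIntegral.integral_mono_on (by linarith) (b.int_pow0 h0 4)
    ((b.int_pow0 h0 2).const_mul _) fun x hx => ?_
  rw [show 4 = 2 + 2 from rfl, pow_add]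
  exact mul_le_mul_of_nonneg_right (pow_le_pow_left₀ (norm_nonneg _) (k3 T hT x hx) 2)
    (by positivity)

/- mo3_four with t = T ^ (17 / 100); mu0 4 ≤ sup ^ 2 * mu0 2, the supremum is
C T ^ ε T ^ (37 / 100) (B_near), and mu0 2 ≤ C T ^ ε T ^ (158 / 100) (mu0_add, B_near with
W = T, B_ms, ms43 zs_split). -/
theorem hi : ∃ C : ℝ, 0 < C ∧ ∀ (v : ℝ → ℝ) (T W lam V₁ Λ : ℝ), 1 ≤ T → 1 ≤ Λ →
    Wg v T W lam V₁ (Λ * T ^ 3) →
    mo 3 (fun x => (zs 3).E x - (zs 3).B (T ^ (63 / 100 : ℝ)) x) v T ≤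
      C * Λ * T ^ (5 / 2 - 1 / 200 : ℝ) := by
  obtain ⟨C, h⟩ := (loa_four.mul_rpow (17 / 100)).le (d := 5 / 2 - 1 / 200) (by norm_num)
  refine ⟨|C| + 1, by positivity, fun v T W lam V₁ Λ hT hΛ hv => ?_⟩
  have h0 : 0 < T := by linarith
  have b := ((zs 3).bm_E hT).sub ((zs 3).nice_Bw (63 / 100) hT).bm0
  refine (mo3_four (t := T ^ (17 / 100 : ℝ)) h0.le hv b (by positivity)).trans ?_
  have h1 : T ^ 3 / (T ^ (17 / 100 : ℝ)) ^ 3 ≤ T ^ (5 / 2 - 1 / 200 : ℝ) := by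
    rw [rpow_pow hT, ← Real.rpow_natCast, ← Real.rpow_sub h0]
    exact Real.rpow_le_rpow_of_exponent_le hT (by norm_num)
  have h2 := h T hT
  have h3 : 0 ≤ T ^ (5 / 2 - 1 / 200 : ℝ) := by positivity
  have h4 : C * T ^ (5 / 2 - 1 / 200 : ℝ) ≤ |C| * Λ * T ^ (5 / 2 - 1 / 200 : ℝ) :=
    mul_le_mul_of_nonneg_right ((le_abs_self C).trans (le_mul_of_one_le_right (abs_nonneg C) hΛ)) h3
  have h5 := mul_le_mul_of_nonneg_left h1 (zero_le_one.trans hΛ)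
  rw [mul_div_assoc, mul_comm (T ^ (17 / 100 : ℝ))]
  linarith

end Pool.Agent.Lib.MP_2a1a00_nt
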