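import Pool.Agent.Lib.MP_2a1a00_nt.C.Lv
import Pool.Agent.Lib.MP_2a1a00_nt.C.Lo
import Pool.Agent.Lib.MP_2a1a00_nt.C.Lm
import Pool.Agent.Lib.MP_2a1a00_nt.C.Jl

/-! The key estimate. -/

namespace Pool.Agent.Lib.MP_2a1a00_nt

open Complex MeasureTheory Set

variable {F : Sel} {P : Vo}

theorem wg_bd (h : F.deg = 2) (hP : F.Vor P) : ∃ Λ : ℝ → ℝ, Bd Λ 0 ∧ (∀ T, 1 ≤ Λ T) ∧
    ∀ T W : ℝ, 1 ≤ T → √T ≤ W →
      Wg (vw F T) T W (Λ T * W) (Λ T * T ^ (3 / 2 : ℝ)) (Λ T * T ^ 3) := by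
  obtain ⟨Λ, h1, h2, h3⟩ := bd_unif (S := fun T => Ici √T ×ˢ Icc (T / 2) (4 * T)) (g := fun _ => 1)
    (φ := fun T p => max ((∫ x in T..2 * T, ph p.1 (Real.log p.2 - Real.log x) * vw F T x) /
      (p.1 * T)) (max ((∫ x in T..2 * T, vw F T x) / T ^ (3 / 2 : ℝ))
        ((∫ x in T..2 * T, vw F T x ^ 4) / T ^ 3))) (fun _ _ => one_pos) fun ε hε => by
      obtain ⟨C, -, hC⟩ := wg_vw F h hP hε
      refine ⟨C, fun T hT p hp => ?_⟩
      have hT0 : 0 < T := by linarith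
      have hW : 0 < p.1 := (Real.sqrt_pos.2 hT0).trans_le hp.1
      have k := hC T p.1 hT hp.1
      rw [mul_one]
      refine max_le ?_ (max_le ?_ ?_) <;> rw [div_le_iff₀ (by positivity)]
      · exact (k.loc _ hp.2).trans_eq (mul_assoc _ _ _)
      · exact k.one
      · exact k.four
  refine ⟨Λ, h1, h2, fun T W hT hW => ?_⟩
  have hT0 : 0 < T := by linarith
  have hW0 : 0 < W := (Real.sqrt_pos.2 hT0).trans_le hW
  have k := fun y hy => h3 T hT (W, y) ⟨hW, hy⟩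
  have k0 := k T ⟨by linarith, by linarith⟩
  simp only [mul_one, max_le_iff] at k k0
  refine ⟨vw_cont F hT0, fun x => by unfold vw; positivity, fun y hy => ?_, ?_, ?_⟩
  · rw [mul_assoc, ← div_le_iff₀ (by positivity)]
    exact (k y hy).1
  · rw [← div_le_iff₀ (by positivity)]
    exact k0.2.1
  · rw [← div_le_iff₀ (by positivity)]
    exact k0.2.2

theorem vky_mid (h : F.deg = 2) (hP : F.Vor P) :
    Bd (fun T => mo 3 (fun x => (zs 3).B (T ^ (63 / 100 : ℝ)) x -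
      (zs 3).B (T ^ (1 / 2 + 1 / 12000 : ℝ)) x) (vw F T) T) (5 / 2 - 1 / 50000) := by
  obtain ⟨Λ, h1, h2, h3⟩ := wg_bd h hP
  obtain ⟨C, hC, H⟩ := lv
  have k1 := (((h1.const_mul (K := 4) (by norm_num)).pow
    (fun T _ => by linarith [h2 T]) 10).const_mul hC.le).mul_rpow (5 / 2 - 1 / 50000)
  have k2 := (bd_Jl.pow (fun _ _ => Nat.cast_nonneg _) 3).mul k1 fun T hT => by
    have : 0 < T := by linarith
    have := h2 T
    positivity
  refine (k2.mono (by norm_num)).of_le fun T hT => ?_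
  have hT0 : 0 < T := by linarith
  obtain ⟨W₀, e0⟩ : ∃ W, W = T ^ (1 / 2 + 1 / 12000 : ℝ) := ⟨_, rfl⟩
  obtain ⟨W₁, e1⟩ : ∃ W, W = T ^ (63 / 100 : ℝ) := ⟨_, rfl⟩
  have w0 : √T ≤ W₀ := by
    rw [Real.sqrt_eq_rpow, e0]
    exact Real.rpow_le_rpow_of_exponent_le hT (by norm_num)
  have w1 : 1 ≤ W₀ := (Real.one_le_sqrt.2 hT).trans w0
  have w2 : W₀ ≤ W₁ := by
    rw [e0, e1]
    exact Real.rpow_le_rpow_of_exponent_le hT (by norm_num)
  have w3 : W₁ ≤ T := e1 ▸ (p1_W (by norm_num) (by norm_num) hT).2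
  obtain ⟨W, hW⟩ : ∃ W : ℕ → ℝ, W = fun j => min (W₀ * 2 ^ j) W₁ := ⟨_, rfl⟩
  have a0 : ∀ j, W₀ ≤ W j ∧ W j ≤ W₁ ∧ W j ≤ W (j + 1) ∧ W (j + 1) ≤ 2 * W j := fun j => by
    have b : (1 : ℝ) ≤ 2 ^ j := one_le_pow₀ (by norm_num)
    simp only [hW, pow_succ]
    refine ⟨le_min (by nlinarith) w2, min_le_right _ _, min_le_min_right _ (by nlinarith), ?_⟩
    rw [mul_min_of_nonneg _ _ (by norm_num : (0 : ℝ) ≤ 2)]
    exact min_le_min (by linarith) (by linarith)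
  have a1 : W 0 = W₀ := by simp only [hW, pow_zero, mul_one, min_eq_left w2]
  have a2 : W (Jl T) = W₁ := by
    simp only [hW]
    refine min_eq_right (w3.trans ((Jl_le T).trans ?_))
    exact le_mul_of_one_le_left (by positivity) w1
  have cb : ∀ j, Bm ((zs 3).B (W j)) T := fun j =>
    bm_pos hT0 ((zs 3).B_cont (by linarith [(a0 j).1]))
  have g := h3 T W₀ hT w0
  have e : (fun x => (zs 3).B W₁ x - (zs 3).B W₀ x) = fun x =>
      ∑ j ∈ Finset.range (Jl T), ((zs 3).B (W (j + 1)) x - (zs 3).B (W j) x) := by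
    funext x
    rw [Finset.sum_range_sub (fun j => (zs 3).B (W j) x), a1, a2]
  rw [← e0, ← e1, e]
  refine (mo3_sum (Finset.range (Jl T)) (f := fun j x => (zs 3).B (W (j + 1)) x - (zs 3).B (W j) x)
    hT0.le g.cont g.pos fun j _ => (cb _).sub (cb _)).trans ?_
  rw [Finset.card_range, pow_succ _ 2, mul_assoc]
  refine mul_le_mul_of_nonneg_left ?_ (by positivity)
  refine (Finset.sum_le_card_nsmul _ _ _ fun j _ => ?_).trans
    (by rw [Finset.card_range, nsmul_eq_mul])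
  obtain ⟨b0, b1, b2, b3⟩ := a0 j
  have := h2 T
  refine H _ T _ _ _ hT (by linarith) (e0 ▸ b0) (e1 ▸ b1) b2 b3
    ((h3 T (4 * W j) hT (by linarith)).mono hT0.le (le_of_eq (by ring)) ?_ ?_) <;>
    exact mul_le_mul_of_nonneg_right (by linarith) (by positivity)

theorem key (h : F.deg = 2) (hP : F.Vor P) :
    Bd (fun T => mo 3 (fun x => (zs 3).E x - (zs 3).Hs P3 (1 / 1000) T x) (vw F T) T)
      (5 / 2 - 1 / 100000) := by
  obtain ⟨Λ, h1, h2, h3⟩ := wg_bd h hP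
  obtain ⟨C₁, hC₁, H₁⟩ := hi
  obtain ⟨C₂, hC₂, H₂⟩ := lo
  have k1 := ((h1.const_mul hC₁.le).mul_rpow (5 / 2 - 1 / 200)).mono
    (d := 5 / 2 - 1 / 100000) (by norm_num)
  have k2 := ((h1.const_mul hC₂.le).mul_rpow (5 / 2 - 1 / 50000)).mono
    (d := 5 / 2 - 1 / 100000) (by norm_num)
  have k3 := (vky_mid h hP).mono (d := 5 / 2 - 1 / 100000) (by norm_num)
  refine ((k1.const_mul (K := 4) (by norm_num)).add (((k3.const_mul (K := 4) (by norm_num)).add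
    (k2.const_mul (K := 4) (by norm_num))).const_mul (K := 4) (by norm_num))).of_le fun T hT => ?_
  have w0 : √T ≤ T ^ (1 / 2 + 1 / 12000 : ℝ) := by
    rw [Real.sqrt_eq_rpow]
    exact Real.rpow_le_rpow_of_exponent_le hT (by norm_num)
  have g := h3 T _ hT w0
  have hT0 : 0 ≤ T := by linarith
  have b1 := ((zs 3).nice_Bw (63 / 100) hT).bm0
  have b2 := ((zs 3).nice_Bw (1 / 2 + 1 / 12000) hT).bm0
  have b3 := (zs 3).bm_Hs P3 (1 / 1000) hT
  have r1 := mo3_tri hT0 g.cont g.pos ((zs 3).bm_E hT) b1 b3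
  have r2 := mo3_tri hT0 g.cont g.pos b1 b2 b3
  have r3 := H₁ _ T _ _ _ _ hT (h2 T) g
  have r4 := H₂ _ T _ hT (h2 T) g
  linarith

theorem key_H (h : F.deg = 2) (hP : F.Vor P) :
    Bd (fun T => mo 3 ((zs 3).Hs P3 (1 / 1000) T) (vw F T) T) (5 / 2) := by
  obtain ⟨Λ, h1, h2, h3⟩ := wg_bd h hP
  have k1 := (lo_four.mul_rpow (1 / 6)).mono (d := 5 / 2) (by norm_num)
  have k2 := (h1.mul_rpow (5 / 2)).mono (d := 5 / 2) (by norm_num)
  refine (k1.add k2).of_le fun T hT => ?_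
  have hT0 : 0 < T := by linarith
  refine (mo3_four (t := T ^ (1 / 6 : ℝ)) hT0.le (h3 T _ hT le_rfl)
    ((zs 3).bm_Hs P3 (1 / 1000) hT) (by positivity)).trans (le_of_eq ?_)
  rw [mul_comm, mul_div_assoc, rpow_pow hT, ← Real.rpow_natCast T 3, ← Real.rpow_sub hT0]
  norm_num

theorem vky_pt (e h : ℂ) {t : ℝ} (h0 : 0 < t) (h1 : t ≤ 1) :
    ‖e ^ 3 - h ^ 3‖ ≤ 7 * (‖e - h‖ ^ 3 / t ^ 2) + 6 * (‖h‖ ^ 3 * t) := by
  obtain ⟨r, rfl⟩ : ∃ r, e = h + r := ⟨e - h, by ring⟩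
  rw [add_sub_cancel_left, show (h + r) ^ 3 - h ^ 3 = r ^ 3 + 3 * (r ^ 2 * h) + 3 * (r * h ^ 2) by ring]
  refine ((norm_add_le _ _).trans (add_le_add (norm_add_le _ _) le_rfl)).trans ?_
  simp only [norm_mul, norm_pow, Complex.norm_ofNat]
  obtain ⟨a, ha, ea⟩ : ∃ a : ℝ, 0 ≤ a ∧ ‖r‖ = a * t :=
    ⟨‖r‖ / t, by positivity, (div_mul_cancel₀ _ h0.ne').symm⟩
  have hb := norm_nonneg h
  generalize ‖h‖ = b at hb
  rw [ea, show (a * t) ^ 3 / t ^ 2 = a ^ 3 * t by field_simp]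
  have i1 : a ^ 2 * b ≤ a ^ 3 + b ^ 3 := by
    nlinarith [mul_nonneg (add_nonneg ha hb) (sq_nonneg (a - b)), mul_nonneg ha (sq_nonneg b)]
  have i2 : a * b ^ 2 ≤ a ^ 3 + b ^ 3 := by
    nlinarith [mul_nonneg (add_nonneg ha hb) (sq_nonneg (a - b)), mul_nonneg hb (sq_nonneg a)]
  have i3 : t ^ 2 ≤ t := by nlinarith
  have i4 : t ^ 3 ≤ t := by nlinarith
  have i5 : (a * t) ^ 3 ≤ a ^ 3 * t := by
    rw [mul_pow]
    gcongr
  have i6 : (a * t) ^ 2 * b ≤ (a ^ 3 + b ^ 3) * t := by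
    rw [mul_pow, mul_right_comm]
    gcongr
  have i7 : a * t * b ^ 2 ≤ (a ^ 3 + b ^ 3) * t := by
    rw [mul_right_comm]
    gcongr
  linarith

theorem key_cube (h : F.deg = 2) (hP : F.Vor P) :
    Bd (fun T => ∫ x in T..2 * T,
      ‖(zs 3).E x ^ 3 - (zs 3).Hs P3 (1 / 1000) T x ^ 3‖ * vw F T x) (5 / 2 - 1 / 300000) := by
  have k1 := (((key h hP).mul_rpow (2 / 300000)).const_mul (K := 7) (by norm_num)).mono
    (d := 5 / 2 - 1 / 300000) (by norm_num)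
  have k2 := (((key_H h hP).mul_rpow (-1 / 300000)).const_mul (K := 6) (by norm_num)).mono
    (d := 5 / 2 - 1 / 300000) (by norm_num)
  refine (k1.add k2).of_le fun T hT => ?_
  have hT0 : 0 < T := by linarith
  have cv := (vw_cont F hT0).continuousOn (s := Icc T (2 * T))
  have b1 := (zs 3).bm_E hT
  have b2 := (zs 3).bm_Hs P3 (1 / 1000) hT
  have i1 := (b1.sub b2).int_pow hT0.le 3 cv
  have i2 := b2.int_pow hT0.le 3 cv
  have i3 := ((b1.pow 3).sub (b2.pow 3)).int_pow hT0.le 1 cv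
  simp only [pow_one] at i3
  unfold mo
  rw [← intervalIntegral.integral_mul_const, ← intervalIntegral.integral_mul_const,
    ← intervalIntegral.integral_const_mul, ← intervalIntegral.integral_const_mul,
    ← intervalIntegral.integral_add ((i1.mul_const _).const_mul _) ((i2.mul_const _).const_mul _)]
  refine intervalIntegral.integral_mono_on (by linarith) i3
    (((i1.mul_const _).const_mul _).add ((i2.mul_const _).const_mul _)) fun x _ => ?_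
  have v0 : 0 ≤ vw F T x := by unfold vw; positivity
  refine (mul_le_mul_of_nonneg_right (vky_pt _ _ (t := T ^ (-1 / 300000 : ℝ)) (by positivity)
    (Real.rpow_le_one_of_one_le_of_nonpos hT (by norm_num))) v0).trans (le_of_eq ?_)
  rw [rpow_pow hT, div_eq_mul_inv, ← Real.rpow_neg hT0.le,
    show -((2 : ℕ) * (-1 / 300000) : ℝ) = 2 / 300000 by norm_num]
  ring

theorem vky_a {a : ℕ} (ha : a ≤ 2) {T K : ℝ} (hT : 1 ≤ T) {e b : ℂ} (h : ‖e - b‖ ≤ K) :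
    ‖e‖ ^ a ≤ (3 + 2 * K ^ 2) * T ^ ((a : ℝ) / 4 - 1 / 2) * (√T + ‖b‖ ^ 2) := by
  have hT0 : 0 < T := by linarith
  obtain ⟨s, hs⟩ : ∃ s, s = T ^ (1 / 4 : ℝ) := ⟨_, rfl⟩
  have s1 : 1 ≤ s := hs ▸ Real.one_le_rpow hT (by norm_num)
  have s2 : √T = s ^ 2 := by
    rw [hs, rpow_pow hT, Real.sqrt_eq_rpow]
    norm_num
  have s3 : T ^ ((a : ℝ) / 4 - 1 / 2) = s ^ a / s ^ 2 := by
    rw [hs, rpow_pow hT, rpow_pow hT, ← Real.rpow_sub hT0]
    congr 1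
    push_cast
    ring
  have e1 : ‖e‖ ≤ K + ‖b‖ := by linarith [norm_sub_norm_le e b]
  have e0 := norm_nonneg e
  have b0 := norm_nonneg b
  have s4 : 1 ≤ s ^ 2 := one_le_pow₀ s1
  have e2 : ‖e‖ ^ 2 ≤ (2 + 2 * K ^ 2) * (s ^ 2 + ‖b‖ ^ 2) := by
    have : ‖e‖ ^ 2 ≤ (K + ‖b‖) ^ 2 := by gcongr
    nlinarith [sq_nonneg (K - ‖b‖), mul_nonneg (sq_nonneg K) (sq_nonneg ‖b‖),
      mul_le_mul_of_nonneg_left s4 (sq_nonneg K)]
  have e3 : 0 ≤ K ^ 2 * (s ^ 2 + ‖b‖ ^ 2) := by positivity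
  rw [s2, s3, mul_right_comm, ← mul_div_assoc, le_div_iff₀ (by positivity)]
  interval_cases a
  · nlinarith [sq_nonneg ‖b‖]
  · have : ‖e‖ * s ≤ (3 + 2 * K ^ 2) * (s ^ 2 + ‖b‖ ^ 2) := by
      nlinarith [sq_nonneg (‖e‖ - s), sq_nonneg ‖b‖]
    rw [pow_one, pow_one]
    nlinarith [mul_le_mul_of_nonneg_right this (zero_le_one.trans s1)]
  · gcongr
    nlinarith [sq_nonneg ‖b‖]

theorem key_a (h : F.deg = 2) (hP : F.Vor P) {a : ℕ} (ha : a ≤ 2) :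
    Bd (fun T => ‖∫ x in T..2 * T,
      F.E x ^ a * ((zs 3).E x ^ 3 - (zs 3).Hs P3 (1 / 1000) T x ^ 3)‖)
      (2 + a / 4 - 1 / 300000) := by
  obtain ⟨K, k1, k2⟩ := F.bd_near zero_le_one le_rfl
  have K0 : ∀ T, 1 ≤ T → 0 ≤ K T := fun T hT =>
    (norm_nonneg _).trans (k2 T hT T ⟨le_rfl, by linarith⟩)
  have k3 := (((bd_const 3).add (((k1.pow K0 2).const_mul (K := 2) (by norm_num)).mono
    (by norm_num))).mul_rpow ((a : ℝ) / 4 - 1 / 2))
  have k4 := (key_cube h hP).mul k3 fun T hT => by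
    have : 0 < T := by linarith
    positivity
  refine (k4.mono (by linarith)).of_le fun T hT => ?_
  have hT0 : 0 < T := by linarith
  have cv := (vw_cont F hT0).continuousOn (s := Icc T (2 * T))
  have i3 := ((((zs 3).bm_E hT).pow 3).sub (((zs 3).bm_Hs P3 (1 / 1000) hT).pow 3)).int_pow
    hT0.le 1 cv
  simp only [pow_one] at i3
  rw [← intervalIntegral.integral_mul_const]
  refine intervalIntegral.norm_integral_le_of_norm_le (by linarith)
    (Filter.Eventually.of_forall fun x hx => ?_) (i3.mul_const _)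
  have k := vky_a ha hT (k2 T hT x ⟨hx.1.le, hx.2⟩)
  rw [Real.rpow_one] at k
  rw [norm_mul, norm_pow, vw, max_eq_left hx.1.le, mul_assoc, mul_comm]
  exact mul_le_mul_of_nonneg_left (k.trans_eq (mul_comm _ _)) (norm_nonneg _)

end Pool.Agent.Lib.MP_2a1a00_nt
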