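import Pool.Agent.Lib.MP_2a1a00_nt.C.Defs
import Pool.Agent.Lib.MP_2a1a00_nt.V.B1
import Pool.Agent.Lib.MP_2a1a00_nt.V.Cv
import Pool.Agent.Lib.MP_2a1a00_nt.Ms
import Pool.Agent.Lib.MP_2a1a00_nt.Gav

/-! Smooth sums of n ^ (-1 / 2 + i h). -/

namespace Pool.Agent.Lib.MP_2a1a00_nt

open Complex MeasureTheory Set

theorem kz1a_int (h : ℝ) : Integrable fun v : ℝ => zt (v - h) * Real.exp (-v ^ 2) := by
  have hc : Continuous fun v : ℝ => zt (v - h) := zt_cont.comp (by fun_prop)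
  refine (gav_int.add ((zs 1).vcv_int (a := 1 / 2) (by norm_num) (by norm_num) (-h))).mono'
    (hc.mul (by fun_prop)).aestronglyMeasurable (Filter.Eventually.of_forall fun v => ?_)
  have h1 := zt_eq (-h + v)
  have h2 := zt_nonneg (v - h)
  have h3 : Real.exp (-v ^ 2) ≤ Real.exp (-v ^ 2 / 2) := Real.exp_le_exp.2 (by nlinarith)
  have h4 := Real.exp_pos (-v ^ 2 / 2)
  rw [neg_add_eq_sub] at h1
  rw [Real.norm_of_nonneg (by positivity), Pi.add_apply, neg_add_eq_sub, ofReal_div, ofReal_one,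
    ofReal_ofNat, h1]
  nlinarith [mul_le_mul_of_nonneg_left h3 h2, mul_nonneg (sq_nonneg (zt (v - h) - 1)) h4.le,
    mul_nonneg h2 h4.le]

/- Let s₀ = 1 / 2 - i h.  Use vb1_ser for zs 1 with W = 2 and the bounded function
g s = x ^ (-s₀) * exp ((s - s₀) ^ 2 - s ^ 2 / 4), so gW 2 s * g s = x ^ (-s₀) * gW 1 (s - s₀).  By
Ln_ph and a translation (res_tr, integral_add_right_eq_self) the function φ is
φ u = x ^ (-s₀) * exp (s₀ u) * ph 1 u.  On the line 1 / 2 use norm_Ln_le with t = -h and norm_gW;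
for the residue use res_le: on the ball ‖gW 1 (s - s₀)‖ ≤ e * exp (-(|h| - 1 / 2)²) ≤ C exp (-h² / 2). -/
theorem kz_one {ε : ℝ} (hε : 0 < ε) : ∃ C : ℝ, 0 < C ∧ ∀ x h : ℝ, 1 ≤ x → ∃ z : ℂ,
    HasSum (fun n : ℕ => ((ph 1 (Real.log x - Real.log n) * (n : ℝ) ^ (-(1 / 2) : ℝ) : ℝ) : ℂ) *
      exp (I * (Real.log n * h : ℝ))) z ∧
    ‖z‖ ≤ C * (x ^ (1 / 2 + ε) * Real.exp (-h ^ 2 / 2) +
      ∫ v : ℝ, zt (v - h) * Real.exp (-v ^ 2)) := by
  obtain ⟨C, hC, hr⟩ := (zs 1).res_le hε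
  refine ⟨C * Real.exp 2 + 1, by positivity, fun x h hx => ?_⟩
  have hx0 : 0 < x := by linarith
  obtain ⟨s₀, hs⟩ : ∃ s₀ : ℂ, s₀ = 1 / 2 - h * I := ⟨_, rfl⟩
  obtain ⟨g, hg⟩ : ∃ g : ℂ → ℂ, g = fun s =>
    exp (-(s₀ * (Real.log x : ℝ)) + ((s - s₀) ^ 2 - s ^ 2 / 4)) := ⟨_, rfl⟩
  have e1 : ∀ s, gW 2 s * g s = exp (-(s₀ * (Real.log x : ℝ)) + (s - s₀) ^ 2) := fun s => by
    rw [hg, gW, ← exp_add]
    congr 1
    push_cast
    ring
  have dg : Differentiable ℂ g := by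
    rw [hg]
    fun_prop
  have n1 : ∀ s, ‖gW 2 s * g s‖ =
      x ^ (-(1 / 2) : ℝ) * Real.exp ((s.re - 1 / 2) ^ 2 - (s.im + h) ^ 2) := fun s => by
    rw [e1, norm_exp, Real.rpow_def_of_pos hx0, ← Real.exp_add, hs]
    congr 1
    simp [sq]
    ring
  have hK : ∀ s ∈ St (1 / 2) 2, ‖g s‖ ≤ Real.exp (-(Real.log x / 2) + (3 + h ^ 2)) := by
    intro s ⟨h1, h2⟩
    rw [hg, norm_exp, hs]
    refine Real.exp_le_exp.2 ?_
    simp [sq]
    nlinarith [sq_nonneg (s.im + 2 * h), sq_nonneg s.im, sq_nonneg h, sq_nonneg s.re]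
  have hφ : ∀ u : ℝ, Ln (fun s => exp (s * u) * (gW 2 s * g s)) 2 =
      exp (s₀ * (u - (Real.log x : ℝ))) * (ph 1 u : ℝ) := fun u => by
    rw [← Ln_ph one_pos u (3 / 2), Ln, Ln, mul_left_comm, ← integral_const_mul (exp _),
      ← integral_add_right_eq_self _ (-h)]
    congr 2
    funext v
    rw [e1, gW, ← exp_add, ← exp_add, ← exp_add, hs]
    congr 1
    push_cast
    ring
  have hS := (zs 1).vb1_ser two_pos hx0 dg.differentiableOn hK hφ
  refine ⟨_, (congrArg (HasSum · _) (funext fun n => ?_)).mp hS, (norm_add_le _ _).trans ?_⟩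
  · rcases Nat.eq_zero_or_pos n with rfl | hn
    · simp [Sel.f0]
    · rw [Sel.f0, if_neg hn.ne', zs_f1 hn, Real.rpow_def_of_pos (Nat.cast_pos.2 hn), one_mul,
        ofReal_mul, ofReal_exp, mul_assoc, ← exp_add, mul_comm, hs]
      congr 2
      push_cast
      ring
  · have b1 : ‖Ln (fun s => (zs 1).L s * ((x : ℂ) ^ s * (gW 2 s * g s))) (1 / 2)‖ ≤
        ∫ v : ℝ, zt (v - h) * Real.exp (-v ^ 2) := by
      refine norm_Ln_le (-h) (kz1a_int h) fun v => le_of_eq ?_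
      rw [norm_mul, norm_mul, n1, norm_cpow_eq_rpow_re_of_pos hx0, neg_add_eq_sub, ofReal_div,
        ofReal_one, ofReal_ofNat, zt_eq, ← mul_assoc (x ^ _), ← Real.rpow_add hx0]
      simp
    have b2 := hr x (x ^ (-(1 / 2) : ℝ) * (Real.exp 2 * Real.exp (-h ^ 2 / 2))) _ hx
      ((differentiable_gW 2).mul dg).differentiableOn fun s hs => by
        rw [mem_closedBall_iff_norm] at hs
        have h1 := abs_le.1 ((abs_re_le_norm _).trans hs)
        have h2 := abs_le.1 ((abs_im_le_norm _).trans hs)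
        simp only [sub_re, one_re, sub_im, one_im, sub_zero] at h1 h2
        rw [Pi.mul_apply, n1, ← Real.exp_add]
        refine mul_le_mul_of_nonneg_left (Real.exp_le_exp.2 ?_) (by positivity)
        nlinarith [sq_nonneg (h + 2 * s.im)]
    have b3 : 0 ≤ ∫ v : ℝ, zt (v - h) * Real.exp (-v ^ 2) :=
      integral_nonneg fun v => mul_nonneg (zt_nonneg _) (Real.exp_pos _).le
    have b4 : x ^ (1 + ε) * x ^ (-(1 / 2) : ℝ) = x ^ (1 / 2 + ε) := by
      rw [← Real.rpow_add hx0]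
      congr 1
      ring
    have b5 : 0 ≤ x ^ (1 / 2 + ε) * Real.exp (-h ^ 2 / 2) := by positivity
    have b6 := mul_nonneg (mul_pos hC (Real.exp_pos 2)).le b3
    rw [show C * x ^ (1 + ε) * (x ^ (-(1 / 2) : ℝ) * (Real.exp 2 * Real.exp (-h ^ 2 / 2))) =
      C * Real.exp 2 * (x ^ (1 + ε) * x ^ (-(1 / 2) : ℝ) * Real.exp (-h ^ 2 / 2)) by ring, b4] at b2
    refine (add_le_add b1 b2).trans ?_
    linarith

theorem kz1b_int (t : ℝ) : Integrable fun v : ℝ => zt (t + v) ^ 4 * Real.exp (-v ^ 2 / 2) := by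
  have := (zs 2).vcv_int (a := 1 / 2) (by norm_num) (by norm_num) t
  simp only [← zt_four, Sel.w]
  simpa only [ofReal_div, ofReal_one, ofReal_ofNat] using this

theorem kz1b_hol : ∃ M : ℝ, 0 < M ∧ ∀ t : ℝ,
    Integrable (fun v : ℝ => zt (t + v) * Real.exp (-v ^ 2 / 2)) ∧
    (∫ v : ℝ, zt (t + v) * Real.exp (-v ^ 2 / 2)) ^ 4 ≤
      M * ∫ v : ℝ, zt (t + v) ^ 4 * Real.exp (-v ^ 2 / 2) := by
  have m0 := gav_pos
  obtain ⟨m, hm⟩ : ∃ m, m = ∫ v : ℝ, Real.exp (-v ^ 2 / 2) := ⟨_, rfl⟩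
  rw [← hm] at m0
  refine ⟨m ^ 3, by positivity, fun t => ?_⟩
  have y (s v : ℝ) : 4 * s ^ 3 * (zt (t + v) * Real.exp (-v ^ 2 / 2)) ≤
      3 * s ^ 4 * Real.exp (-v ^ 2 / 2) + zt (t + v) ^ 4 * Real.exp (-v ^ 2 / 2) := by
    have : 4 * s ^ 3 * zt (t + v) ≤ 3 * s ^ 4 + zt (t + v) ^ 4 := by
      nlinarith [mul_nonneg (sq_nonneg (zt (t + v) - s))
        (add_nonneg (sq_nonneg (zt (t + v) + s)) (mul_nonneg zero_le_two (sq_nonneg s)))]
    linarith [mul_le_mul_of_nonneg_right this (Real.exp_pos (-v ^ 2 / 2)).le]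
  have i (s : ℝ) := (gav_int.const_mul (3 * s ^ 4)).add (kz1b_int t)
  have c := zt_cont
  have i1 : Integrable fun v : ℝ => zt (t + v) * Real.exp (-v ^ 2 / 2) :=
    (i 1).mono' (Continuous.aestronglyMeasurable (by fun_prop))
      (Filter.Eventually.of_forall fun v => by
        have := mul_nonneg (zt_nonneg (t + v)) (Real.exp_pos (-v ^ 2 / 2)).le
        rw [Real.norm_of_nonneg this, Pi.add_apply]
        linarith [y 1 v])
  refine ⟨i1, ?_⟩
  obtain ⟨s, hs⟩ : ∃ s, ∫ v : ℝ, zt (t + v) * Real.exp (-v ^ 2 / 2) = s * m :=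
    ⟨_, (div_mul_cancel₀ _ m0.ne').symm⟩
  have k := integral_mono (i1.const_mul (4 * s ^ 3)) (i s) (y s)
  rw [integral_add' (gav_int.const_mul _) (kz1b_int t), integral_const_mul, integral_const_mul, hs,
    ← hm] at k
  rw [hs]
  nlinarith [mul_le_mul_of_nonneg_left k (pow_pos m0 3).le]

theorem kz1b_sh {θ h : ℝ} (hθ : θ ∈ Icc (0 : ℝ) 1)
    (hi : Integrable fun v : ℝ => zt (θ - h + v) * Real.exp (-v ^ 2 / 2)) :
    ∫ v : ℝ, zt (v - h) * Real.exp (-v ^ 2) ≤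
      Real.exp 1 * ∫ v : ℝ, zt (θ - h + v) * Real.exp (-v ^ 2 / 2) := by
  rw [← integral_add_right_eq_self _ θ, ← integral_const_mul]
  refine integral_mono_of_nonneg (Filter.Eventually.of_forall fun v =>
    mul_nonneg (zt_nonneg _) (Real.exp_pos _).le) (hi.const_mul _)
    (Filter.Eventually.of_forall fun v => ?_)
  beta_reduce
  rw [show v + θ - h = θ - h + v by ring, mul_left_comm, ← Real.exp_add]
  refine mul_le_mul_of_nonneg_left (Real.exp_le_exp.2 ?_) (zt_nonneg _)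
  nlinarith [sq_nonneg (v + 2 * θ), hθ.1, hθ.2]

theorem kz1b_one {κ : ℝ} : ∃ C : ℝ, 0 < C ∧ ∀ (g : ℝ → ℝ) (K U : ℝ), Continuous g →
    (∀ t, 0 ≤ g t) → 0 ≤ K → 1 ≤ U → (∀ X : ℝ, 1 ≤ X → ∫ t in -X..X, g t ≤ K * X ^ κ) →
    ∫⁻ t in Ioc (-(5 * U)) (5 * U), ENNReal.ofReal (∫ v : ℝ, g (t + v) * Real.exp (-v ^ 2 / 2)) ≤
      ENNReal.ofReal (C * K * U ^ κ) := by
  have hI0 : 0 ≤ ∫ v : ℝ, (1 + |v|) ^ κ * Real.exp (-v ^ 2 / 2) :=
    integral_nonneg fun v => by positivity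
  refine ⟨5 ^ κ * ((∫ v : ℝ, (1 + |v|) ^ κ * Real.exp (-v ^ 2 / 2)) + 1), by positivity, ?_⟩
  intro g K U hg h0 hK hU hX
  have hU0 : 0 < U := one_pos.trans_le hU
  have hin : ∀ v : ℝ, ∫⁻ t in Ioc (-(5 * U)) (5 * U), ENNReal.ofReal (g (t + v)) ≤
      ENNReal.ofReal (K * (5 * U * (1 + |v|)) ^ κ) := by
    intro v
    have hv := abs_nonneg v
    have h1 : 1 ≤ 5 * U * (1 + |v|) := by nlinarith
    refine (lintegral_mono_set (t := Ioc (-(5 * U * (1 + |v|)) - v) (5 * U * (1 + |v|) - v))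
      (Ioc_subset_Ioc (by nlinarith [neg_abs_le v]) (by nlinarith [le_abs_self v]))).trans ?_
    rw [gav_Ioc hg h0 (by linarith) v, sub_add_cancel, sub_add_cancel]
    exact ENNReal.ofReal_le_ofReal (hX _ h1)
  refine (gav_swap hg h0 _).trans ?_
  calc _ ≤ ∫⁻ v : ℝ, ENNReal.ofReal
          (K * 5 ^ κ * U ^ κ * ((1 + |v|) ^ κ * Real.exp (-v ^ 2 / 2))) := by
        refine lintegral_mono fun v => (mul_le_mul_left (hin v) _).trans (le_of_eq ?_)
        rw [← ENNReal.ofReal_mul (by positivity), Real.mul_rpow (by positivity) (by positivity),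
          Real.mul_rpow (by positivity) (by positivity)]
        exact congrArg _ (by ring)
    _ = ENNReal.ofReal (K * 5 ^ κ * U ^ κ * ∫ v : ℝ, (1 + |v|) ^ κ * Real.exp (-v ^ 2 / 2)) := by
        rw [← ofReal_integral_eq_lintegral_ofReal ((integrable_gauss_poly κ).const_mul _)
          (Filter.Eventually.of_forall fun v => by positivity), integral_const_mul]
    _ ≤ _ := by
        refine ENNReal.ofReal_le_ofReal ?_
        have : 0 ≤ K * 5 ^ κ * U ^ κ := by positivity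
        nlinarith

/- Hoelder (twice Cauchy-Schwarz, or the tangent line trick) gives
(∫ zt (v - h) e ^ (-v²)) ^ 4 ≤ C ∫ zt (v - h) ^ 4 e ^ (-v²).  For θ ∈ [0, 1],
e ^ (-(v + θ)²) ≤ e * e ^ (-v² / 2), so this is at most C G (θ - h) for every θ, where
G t = ∫ zt (t + v) ^ 4 e ^ (-v² / 2); average over θ and add: the sum is at most
C ∫ t in -4U..4U+1, G t.  Then gav_swap, gav_Ioc, zt_four, (zs 2).ms with κ = 1,
integrable_gauss_poly (compare gav_one, vcv_int, cv_win). -/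
theorem kz_four {ε : ℝ} (hε : 0 < ε) : ∃ C : ℝ, 0 < C ∧ ∀ U : ℕ, 1 ≤ U →
    ∑ h ∈ Finset.Icc (-(4 * U : ℤ)) (4 * U),
      (∫ v : ℝ, zt (v - h) * Real.exp (-v ^ 2)) ^ 4 ≤ C * (U : ℝ) ^ (1 + ε) := by
  obtain ⟨M, hM, hm⟩ := kz1b_hol
  obtain ⟨K, hK, hk⟩ := (zs 2).ms (κ := 1) le_rfl (by rw [zs_deg2]; norm_num) ε hε
  obtain ⟨C, hC, hc⟩ := kz1b_one (κ := 1 + ε)
  have hA : 0 < Real.exp 1 ^ 4 * M := by positivity
  refine ⟨Real.exp 1 ^ 4 * M * (C * K), by positivity, fun U hU => ?_⟩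
  have hU' : (1 : ℝ) ≤ U := Nat.one_le_cast.2 hU
  have k1 := hc (fun t => zt t ^ 4) K U (zt_cont.pow 4) (fun t => pow_nonneg (zt_nonneg t) 4) hK.le
    hU' fun X hX => by simpa only [← zt_four, Sel.w] using hk X hX
  have a0 (h : ℝ) : 0 ≤ ∫ v : ℝ, zt (v - h) * Real.exp (-v ^ 2) :=
    integral_nonneg fun v => mul_nonneg (zt_nonneg _) (Real.exp_pos _).le
  have k2 (h : ℝ) : ENNReal.ofReal ((∫ v : ℝ, zt (v - h) * Real.exp (-v ^ 2)) ^ 4) ≤
      ∫⁻ t in Ioc (-h) (-h + 1), ENNReal.ofReal (Real.exp 1 ^ 4 * M) *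
        ENNReal.ofReal (∫ v : ℝ, zt (t + v) ^ 4 * Real.exp (-v ^ 2 / 2)) := by
    refine le_trans (le_of_eq ?_) (setLIntegral_mono' (f := fun _ =>
      ENNReal.ofReal ((∫ v : ℝ, zt (v - h) * Real.exp (-v ^ 2)) ^ 4)) measurableSet_Ioc
      fun t ht => ?_)
    · simp
    · rw [← ENNReal.ofReal_mul hA.le]
      have e := kz1b_sh (θ := t + h) (h := h) ⟨by linarith [ht.1], by linarith [ht.2]⟩
      rw [add_sub_cancel_right] at e
      refine ENNReal.ofReal_le_ofReal ((pow_le_pow_left₀ (a0 h) (e (hm t).1) 4).trans ?_)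
      rw [mul_pow, mul_assoc]
      exact mul_le_mul_of_nonneg_left (hm t).2 (by positivity)
  rw [← ENNReal.ofReal_le_ofReal_iff (by positivity),
    ENNReal.ofReal_sum_of_nonneg fun h _ => pow_nonneg (a0 _) 4]
  refine (Finset.sum_le_sum fun (h : ℤ) _ => k2 h).trans ?_
  rw [← lintegral_biUnion_finset (fun a _ b _ hab => ?_) fun _ _ => measurableSet_Ioc]
  · refine (lintegral_mono_set (t := Ioc (-(5 * U : ℝ)) (5 * U)) (iUnion₂_subset fun h hh => ?_)).trans ?_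
    · obtain ⟨h1, h2⟩ := Finset.mem_Icc.1 hh
      have h1' : -(4 * U : ℝ) ≤ h := by exact_mod_cast h1
      have h2' : (h : ℝ) ≤ 4 * U := by exact_mod_cast h2
      exact Ioc_subset_Ioc (by linarith) (by linarith)
    · rw [lintegral_const_mul' _ _ ENNReal.ofReal_ne_top, mul_assoc _ (C * K),
        ENNReal.ofReal_mul hA.le]
      exact mul_le_mul_right k1 _
  · rw [Function.onFun, Ioc_disjoint_Ioc]
    rcases lt_or_gt_of_ne hab with e | e
    · have : (a : ℝ) + 1 ≤ b := by exact_mod_cast e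
      exact (min_le_right _ _).trans (le_max_of_le_left (by linarith))
    · have : (b : ℝ) + 1 ≤ a := by exact_mod_cast e
      exact (min_le_left _ _).trans (le_max_of_le_right (by linarith))

end Pool.Agent.Lib.MP_2a1a00_nt
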