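import Pool.Agent.Lib.MP_2a1a00_nt.C.Kz1
import Pool.Agent.Lib.MP_2a1a00_nt.V.Cv

/-! The kernel of the energy inequality. -/

namespace Pool.Agent.Lib.MP_2a1a00_nt

open Complex MeasureTheory Set

theorem kz2_sq {ι : Type} (T : Finset ι) (w θ : ι → ℝ) :
    ‖∑ i ∈ T, (w i : ℂ) * exp (I * (θ i : ℝ))‖ ^ 2 =
      ∑ i ∈ T, ∑ j ∈ T, w i * w j * Real.cos (θ i - θ j) := by
  rw [Complex.sq_norm, normSq_apply, re_sum, im_sum, Finset.sum_mul_sum, Finset.sum_mul_sum,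
    ← Finset.sum_add_distrib]
  refine Finset.sum_congr rfl fun i _ => ?_
  rw [← Finset.sum_add_distrib]
  refine Finset.sum_congr rfl fun j _ => ?_
  simp only [mul_comm I, re_ofReal_mul, im_ofReal_mul, exp_ofReal_mul_I_re, exp_ofReal_mul_I_im,
    Real.cos_sub]
  ring

/- Expand both sides: they are equal to
∑ m, ∑ n, a m * a n * ∑ i, ∑ j, exp (i (τ i - τ j) (log m - log n)). -/
theorem kz_dual {ι : Type} (S : Finset ι) (τ : ι → ℤ) (A : Finset ℕ) (a : ℕ → ℝ) :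
    ∑ m ∈ A, ∑ n ∈ A, a m * a n * ‖ex S τ (Real.log m - Real.log n)‖ ^ 2 =
      ∑ p ∈ S ×ˢ S, ‖∑ n ∈ A, (a n : ℂ) * exp (I * (Real.log n * (τ p.1 - τ p.2 : ℤ) : ℝ))‖ ^ 2 := by
  have h : ∀ α, ‖ex S τ α‖ ^ 2 = ∑ p ∈ S ×ˢ S, Real.cos (τ p.1 * α - τ p.2 * α) := fun α => by
    simpa [ex, Finset.sum_product] using kz2_sq S (fun _ => 1) fun i => τ i * α
  simp only [h, kz2_sq, Finset.mul_sum]
  rw [Finset.sum_comm (s := S ×ˢ S)]
  refine Finset.sum_congr rfl fun m _ => ?_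
  rw [Finset.sum_comm]
  refine Finset.sum_congr rfl fun p _ => Finset.sum_congr rfl fun n _ => ?_
  congr 2
  push_cast
  ring

/- For K ≥ M the left side is at most the sum in kz_dual with A = range (K + 1); let K → ∞
(HasSum.tendsto_sum_nat, ge_of_tendsto). -/
theorem kz_lim {ι : Type} (S : Finset ι) (τ : ι → ℤ) (M : ℕ) {a : ℕ → ℝ} (h0 : ∀ n, 0 ≤ a n)
    (h1 : ∀ n ∈ Finset.Icc 1 M, (n : ℝ) ^ (-(1 / 2) : ℝ) ≤ a n) {Z : ℤ → ℂ}
    (hZ : ∀ h : ℤ, HasSum (fun n : ℕ => (a n : ℂ) * exp (I * (Real.log n * h : ℝ))) (Z h)) :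
    qf M (fun α => ‖ex S τ α‖ ^ 2) ≤ ∑ p ∈ S ×ˢ S, ‖Z (τ p.1 - τ p.2)‖ ^ 2 := by
  refine ge_of_tendsto (tendsto_finsetSum (S ×ˢ S) fun p _ =>
    (hZ (τ p.1 - τ p.2)).tendsto_sum_nat.norm.pow 2) ?_
  filter_upwards [Filter.eventually_gt_atTop M] with K hK
  have hs : Finset.Icc 1 M ⊆ Finset.range K := fun n hn =>
    Finset.mem_range.2 ((Finset.mem_Icc.1 hn).2.trans_lt hK)
  have hn : ∀ m n : ℕ, 0 ≤ a m * a n * ‖ex S τ (Real.log m - Real.log n)‖ ^ 2 := fun m n =>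
    mul_nonneg (mul_nonneg (h0 m) (h0 n)) (sq_nonneg _)
  rw [← kz_dual]
  refine le_trans (Finset.sum_le_sum fun m hm => le_trans (Finset.sum_le_sum fun n hn => ?_)
    (Finset.sum_le_sum_of_subset_of_nonneg hs fun n _ _ => hn m n))
    (Finset.sum_le_sum_of_subset_of_nonneg hs fun m _ _ => Finset.sum_nonneg fun n _ => hn m n)
  exact mul_le_mul_of_nonneg_right (mul_le_mul (h1 m hm) (h1 n hn) (by positivity) (h0 m))
    (sq_nonneg _)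

theorem kz2_cov {M n : ℕ} (hn : n ∈ Finset.Icc 1 M) :
    (n : ℝ) ^ (-(1 / 2) : ℝ) ≤ (ph 1 1)⁻¹ * ∑ j ∈ Finset.range (⌈Real.log M⌉₊ + 1),
      ph 1 (Real.log (Real.exp j) - Real.log n) * (n : ℝ) ^ (-(1 / 2) : ℝ) := by
  obtain ⟨h1, h2⟩ := Finset.mem_Icc.1 hn
  have h3 : (1 : ℝ) ≤ n := Nat.one_le_cast.2 h1
  have h4 := Nat.le_ceil (Real.log n)
  have h5 := Nat.ceil_lt_add_one (Real.log_nonneg h3)
  rw [le_inv_mul_iff₀ (ph_pos one_pos 1)]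
  refine le_trans ?_ (Finset.single_le_sum (a := ⌈Real.log n⌉₊)
    (fun j _ => mul_nonneg (ph_pos one_pos _).le (by positivity)) (Finset.mem_range.2
      (Nat.lt_succ_of_le (Nat.ceil_mono (Real.log_le_log (by positivity) (Nat.cast_le.2 h2))))))
  rw [Real.log_exp, ph, ph]
  gcongr
  nlinarith

theorem kz2_exp (h : ℤ) : Real.exp (-(h : ℝ) ^ 2 / 2) ^ 2 ≤ Real.exp (-|(h : ℝ)|) := by
  have : |(h : ℝ)| ≤ (h : ℝ) ^ 2 := by
    exact_mod_cast (Int.le_self_sq |h|).trans_eq (sq_abs h)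
  rw [← Real.exp_nat_mul]
  exact Real.exp_le_exp.2 (by push_cast; linarith)

/- J = ⌈log M⌉₊, a n = (ph 1 1)⁻¹ * ∑ j ∈ range (J + 1), ph 1 (j - log n) * n ^ (-1 / 2) (for
1 ≤ n ≤ M take j = ⌈log n⌉₊), kz_one with x = exp j ≤ e M.  Then
G₁ h = 2 C² (J + 1)² (e M) ^ (1 + 2 δ) exp (-h²), G₂ h = 2 C² (J + 1)² (∫ ..)²; vcv_sum
(exp (-h²) ≤ exp (-|h|) for integers), kz_four, log_le_rpow. -/
theorem kz_main {ε : ℝ} (hε : 0 < ε) : ∃ C : ℝ, 0 < C ∧ ∀ M U : ℕ, 1 ≤ M → 1 ≤ U →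
    Kn M U (C * (M : ℝ) ^ ε * M) (C * ((M : ℝ) * U) ^ ε * U) := by
  have hδ : 0 < ε / 4 := by positivity
  obtain ⟨C₁, c1, h1⟩ := kz_one hδ
  obtain ⟨C₂, c2, h2⟩ := kz_four hε
  obtain ⟨C₃, c3, h3⟩ := log_le_rpow hδ
  choose! z hz hb using h1
  have c0 := inv_pos.2 (ph_pos one_pos 1)
  have hT : 0 ≤ ∑' n : ℤ, Real.exp (-|(n : ℝ)|) := tsum_nonneg fun _ => (Real.exp_pos _).le
  have hT' := fun s => vcv_sum.sum_le_tsum s fun _ _ => (Real.exp_pos _).le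
  generalize ∑' n : ℤ, Real.exp (-|(n : ℝ)|) = T at hT hT'
  obtain ⟨D, hD⟩ : ∃ D, D = (ph 1 1)⁻¹ * (2 * C₃) * C₁ := ⟨_, rfl⟩
  obtain ⟨E, hE⟩ : ∃ E, E = Real.exp 1 ^ (1 / 2 + ε / 4) := ⟨_, rfl⟩
  have d0 : 0 < D := by rw [hD]; positivity
  refine ⟨2 * D ^ 2 * E ^ 2 * T + 4 * D ^ 4 * C₂, by positivity, fun M U hM hU => ?_⟩
  have m1 : (1 : ℝ) ≤ M := Nat.one_le_cast.2 hM
  have u1 : (1 : ℝ) ≤ U := Nat.one_le_cast.2 hU
  have l0 := Real.log_nonneg m1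
  have hJ := Nat.ceil_lt_add_one l0
  have hL := h3 M m1
  have y4 : ((M : ℝ) ^ (ε / 4)) ^ 4 = (M : ℝ) ^ ε := by
    rw [← Real.rpow_natCast, ← Real.rpow_mul (by positivity)]
    congr 1
    push_cast
    ring
  have y2 : ((M : ℝ) ^ (1 / 2 + ε / 4)) ^ 2 = M * ((M : ℝ) ^ (ε / 4)) ^ 2 := by
    rw [Real.rpow_add (by positivity), mul_pow, ← Real.sqrt_eq_rpow, Real.sq_sqrt (by positivity)]
  have hP : ∀ h : ℝ, 0 ≤ ∫ v : ℝ, zt (v - h) * Real.exp (-v ^ 2) := fun h =>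
    integral_nonneg fun v => mul_nonneg (zt_nonneg _) (Real.exp_pos _).le
  have e1 : ∀ j : ℕ, 1 ≤ Real.exp j := fun j => Real.one_le_exp (Nat.cast_nonneg j)
  have hZ : ∀ h : ℝ, ‖((ph 1 1)⁻¹ : ℝ) * ∑ j ∈ Finset.range (⌈Real.log M⌉₊ + 1),
      z (Real.exp j) h‖ ≤ D * (M : ℝ) ^ (ε / 4) * (E * (M : ℝ) ^ (1 / 2 + ε / 4) *
        Real.exp (-h ^ 2 / 2) + ∫ v : ℝ, zt (v - h) * Real.exp (-v ^ 2)) := fun h => by
    have hP := hP h
    have := Finset.sum_le_card_nsmul (Finset.range (⌈Real.log M⌉₊ + 1))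
      (fun j : ℕ => ‖z (Real.exp j) h‖) (C₁ * (E * (M : ℝ) ^ (1 / 2 + ε / 4) *
        Real.exp (-h ^ 2 / 2) + ∫ v : ℝ, zt (v - h) * Real.exp (-v ^ 2))) fun j hj => by
      have : (j : ℝ) ≤ ⌈Real.log M⌉₊ := Nat.cast_le.2 (Finset.mem_range_succ_iff.1 hj)
      refine (hb _ h (e1 j)).trans ?_
      rw [hE, ← Real.mul_rpow (by positivity) (by positivity), ← Real.exp_log (one_pos.trans_le m1),
        ← Real.exp_add]
      gcongr
      linarith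
    rw [Finset.card_range, nsmul_eq_mul, Nat.cast_succ] at this
    rw [norm_mul, norm_real, Real.norm_of_nonneg c0.le, hD]
    have e0 : 0 < E := by rw [hE]; positivity
    refine (mul_le_mul_of_nonneg_left ((norm_sum_le _ _).trans (this.trans
      (mul_le_mul_of_nonneg_right (show _ ≤ 2 * C₃ * (M : ℝ) ^ (ε / 4) by linarith) ?_)))
      c0.le).trans_eq (by ring)
    positivity
  refine ⟨fun h => 2 * (D * (M : ℝ) ^ (ε / 4)) ^ 2 * (E * (M : ℝ) ^ (1 / 2 + ε / 4)) ^ 2 *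
      Real.exp (-|(h : ℝ)|), fun h => 2 * (D * (M : ℝ) ^ (ε / 4)) ^ 2 *
      (∫ v : ℝ, zt (v - h) * Real.exp (-v ^ 2)) ^ 2, fun h => by positivity,
    fun h => by positivity, ?_, ?_, fun ι S τ => ?_⟩
  · rw [← Finset.mul_sum]
    refine (mul_le_mul_of_nonneg_left (hT' _) (by positivity)).trans ?_
    rw [mul_pow E, y2, ← y4]
    have : 0 ≤ 4 * D ^ 4 * C₂ * ((M : ℝ) ^ (ε / 4)) ^ 4 * M := by positivity
    linarith
  · simp only [mul_pow _ (_ ^ 2), ← pow_mul]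
    rw [← Finset.mul_sum]
    refine (mul_le_mul_of_nonneg_left (h2 U hU) (by positivity)).trans ?_
    rw [Real.mul_rpow (by positivity) (by positivity), Real.rpow_add (by positivity), Real.rpow_one,
      ← y4]
    have : 0 ≤ 2 * D ^ 2 * E ^ 2 * T * (((M : ℝ) ^ (ε / 4)) ^ 4 * (U : ℝ) ^ ε) * U := by positivity
    linarith
  · refine (kz_lim S τ M (fun n => mul_nonneg c0.le (Finset.sum_nonneg fun j _ =>
      mul_nonneg (ph_pos one_pos _).le (by positivity))) (fun n => kz2_cov)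
      (Z := fun h => ((ph 1 1)⁻¹ : ℝ) * ∑ j ∈ Finset.range (⌈Real.log M⌉₊ + 1), z (Real.exp j) h)
      fun h => ?_).trans (Finset.sum_le_sum fun p _ => ?_)
    · simpa only [ofReal_mul, ofReal_sum, mul_assoc, Finset.sum_mul] using
        (hasSum_sum fun (j : ℕ) (_ : j ∈ Finset.range (⌈Real.log M⌉₊ + 1)) =>
          hz _ h (e1 j)).mul_left (((ph 1 1)⁻¹ : ℝ) : ℂ)
    · generalize τ p.1 - τ p.2 = h
      refine (pow_le_pow_left₀ (norm_nonneg _) (hZ h) 2).trans ?_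
      have := mul_le_mul_of_nonneg_left (kz2_exp h) (sq_nonneg (E * (M : ℝ) ^ (1 / 2 + ε / 4)))
      rw [mul_pow]
      refine (mul_le_mul_of_nonneg_left add_sq_le (sq_nonneg _)).trans ?_
      have := mul_le_mul_of_nonneg_left this (sq_nonneg (D * (M : ℝ) ^ (ε / 4)))
      linarith

end Pool.Agent.Lib.MP_2a1a00_nt
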