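import Pool.Agent.Lib.MP_2a1a00_nt.C.Defs

/-! The comparison of exponents. -/

namespace Pool.Agent.Lib.MP_2a1a00_nt

theorem lp_log {t w l a p r e m u l₂ l₄ z : ℝ} (ht : 0 ≤ t) (hl : 0 ≤ l)
    (w0 : (1 / 2 + 1 / 12000) * t ≤ w) (w1 : w ≤ 63 / 100 * t) (h1 : r + 2 * a ≤ l + w)
    (h2 : r + 4 * p ≤ l + w) (hm : m ≤ l + (2 * w - 2 / 3 * t)) (hu : u ≤ l + w)
    (h4 : 2 * (e + 2 * a) ≤ 3 * l + max (r + m) ((e + u) / 2) + max (e + m) ((e + 4 * r + u) / 2))
    (e2 : l₂ = l + 2 * t + (r + 2 * (a + p - w))) (e4 : l₄ = l + 3 * t + (e + 4 * (a + p - w)))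
    (ez : z = 10 * l + (5 / 2 - 1 / 40000) * t) :
    l + 3 * t + 3 * l₄ ≤ 4 * z ∨ l + w + (l + (t - w)) + l₂ ≤ z ∨
      2 * (l + w) + (l₂ + l₄) ≤ 2 * z := by
  by_contra hc
  push Not at hc
  obtain ⟨c1, c2, c3⟩ := hc
  rcases le_total (r + m) ((e + u) / 2) with h | h <;>
    rcases le_total (e + m) ((e + 4 * r + u) / 2) with h' | h' <;>
    simp only [max_eq_left, max_eq_right, h, h'] at h4 <;> linarith

theorem vlp_max {x y : ℝ} (hx : 0 < x) (hy : 0 < y) :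
    Real.log (max x √y) = max (Real.log x) (Real.log y / 2) := by
  rw [← Real.log_sqrt hy.le]
  rcases le_total x √y with h | h
  · rw [max_eq_right h, max_eq_right (Real.log_le_log hx h)]
  · rw [max_eq_left h, max_eq_left (Real.log_le_log (Real.sqrt_pos.2 hy) h)]

/- Take logarithms; eb ^ 2 ≤ 4 * max (R M) √(E U) * max (E M) √(E R⁴ U) and 4 ≤ Λ. -/
theorem lp {T W Λ a p R E M U : ℝ} (hT : 1 ≤ T) (hΛ : 4 ≤ Λ) (w0 : T ^ (1 / 2 + 1 / 12000 : ℝ) ≤ W)
    (w1 : W ≤ T ^ (63 / 100 : ℝ)) (ha : 0 < a) (hp : 0 < p) (hR : 0 < R) (hE : 0 < E) (hM : 0 < M)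
    (hU : 0 < U) (h1 : R * a ^ 2 ≤ Λ * W) (h2 : R * p ^ 4 ≤ Λ * W)
    (hm : M ≤ Λ * (W ^ 2 / T ^ (2 / 3 : ℝ))) (hu : U ≤ Λ * W) (h4 : E * a ^ 2 ≤ Λ * eb R E M U) :
    Ok (Λ * W) (Λ * (T / W)) (Λ * T ^ 3) (Λ ^ 10 * T ^ (5 / 2 - 1 / 40000 : ℝ))
      (Λ * T ^ 2 * (R * (a * p / W) ^ 2)) (Λ * T ^ 3 * (E * (a * p / W) ^ 4)) := by
  have hT0 : 0 < T := by linarith
  have hΛ0 : 0 < Λ := by linarith
  have hW : 0 < W := (Real.rpow_pos_of_pos hT0 _).trans_le w0
  have h5 : (E * a ^ 2) ^ 2 ≤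
      Λ ^ 3 * max (R * M) √(E * U) * max (E * M) √(E * R ^ 4 * U) := by
    have a1 : R * M + √(E * U) ≤ 2 * max (R * M) √(E * U) := by
      linarith [le_max_left (R * M) √(E * U), le_max_right (R * M) √(E * U)]
    have a2 : E * M + √(E * R ^ 4 * U) ≤ 2 * max (E * M) √(E * R ^ 4 * U) := by
      linarith [le_max_left (E * M) √(E * R ^ 4 * U), le_max_right (E * M) √(E * R ^ 4 * U)]
    have a3 : 0 < max (R * M) √(E * U) := lt_max_of_lt_left (by positivity)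
    have a4 : 0 < max (E * M) √(E * R ^ 4 * U) := lt_max_of_lt_left (by positivity)
    calc _ ≤ (Λ * eb R E M U) ^ 2 := by gcongr
      _ = Λ ^ 2 * ((R * M + √(E * U)) * (E * M + √(E * R ^ 4 * U))) := by
          rw [eb, mul_pow Λ, mul_pow √(R * M + √(E * U)), Real.sq_sqrt (by positivity),
            Real.sq_sqrt (by positivity)]
      _ ≤ Λ ^ 2 * (2 * max (R * M) √(E * U) * (2 * max (E * M) √(E * R ^ 4 * U))) := by gcongr
      _ = 4 * (Λ ^ 2 * max (R * M) √(E * U) * max (E * M) √(E * R ^ 4 * U)) := by ring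
      _ ≤ Λ * (Λ ^ 2 * max (R * M) √(E * U) * max (E * M) √(E * R ^ 4 * U)) := by gcongr
      _ = _ := by ring
  have a3 : 0 < max (R * M) √(E * U) := lt_max_of_lt_left (by positivity)
  have a4 : 0 < max (E * M) √(E * R ^ 4 * U) := lt_max_of_lt_left (by positivity)
  have l0 := Real.log_le_log (by positivity) w0
  have l1 := Real.log_le_log hW w1
  have l2 := Real.log_le_log (by positivity) h1
  have l3 := Real.log_le_log (by positivity) h2
  have l4 := Real.log_le_log hM hm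
  have l5 := Real.log_le_log hU hu
  have l6 := Real.log_le_log (by positivity) h5
  rw [Real.log_mul (by positivity) a4.ne', Real.log_mul (by positivity) a3.ne',
    vlp_max (by positivity) (by positivity), vlp_max (by positivity) (by positivity)] at l6
  simp (disch := positivity) only [Real.log_mul, Real.log_div, Real.log_pow, Real.log_rpow,
    Nat.cast_ofNat] at l0 l1 l2 l3 l4 l5 l6
  have k := lp_log (Real.log_nonneg hT) (Real.log_nonneg (by linarith : 1 ≤ Λ)) l0 l1 l2 l3 l4 l5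
    l6 rfl rfl rfl
  refine k.imp (fun h => ?_) (Or.imp (fun h => ?_) fun h => ?_) <;>
    rw [← Real.log_le_log_iff (by positivity) (by positivity)] <;>
    simp (disch := positivity) only [Real.log_mul, Real.log_div, Real.log_pow, Real.log_rpow,
      Nat.cast_ofNat] <;> linarith

end Pool.Agent.Lib.MP_2a1a00_nt
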