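import Pool.Agent.Lib.MP_2a1a00_nt.C.En
import Pool.Agent.Lib.MP_2a1a00_nt.C.Kz2

/-! Majorants for Dirichlet polynomials on unit intervals. -/

namespace Pool.Agent.Lib.MP_2a1a00_nt

open Complex MeasureTheory Set

/- For x, t ∈ [a, a + 1]: ‖f t‖² - ‖f x‖² = ∫ 2 re (f' conj f) ≤ ∫ (‖f‖² + ‖f'‖²); integrate over x. -/
theorem sob {f f' : ℝ → ℂ} (hd : ∀ x, HasDerivAt f (f' x) x) (hc : Continuous f') {a t : ℝ}
    (ht : t ∈ Icc a (a + 1)) : ‖f t‖ ^ 2 ≤ ∫ x in a..a + 1, (2 * ‖f x‖ ^ 2 + ‖f' x‖ ^ 2) := by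
  have cf : Continuous f := continuous_iff_continuousAt.2 fun x => (hd x).continuousAt
  have c1 : Continuous fun x => ‖f x‖ ^ 2 := cf.norm.pow 2
  have c2 : Continuous fun x => ‖f x‖ ^ 2 + ‖f' x‖ ^ 2 := c1.add (hc.norm.pow 2)
  have c3 : Continuous fun x => 2 * inner ℝ (f x) (f' x) := continuous_const.mul (cf.inner hc)
  have aa : a ≤ a + 1 := by linarith
  obtain ⟨J, hJ⟩ : ∃ J, J = ∫ x in a..a + 1, (‖f x‖ ^ 2 + ‖f' x‖ ^ 2) := ⟨_, rfl⟩
  have J0 : 0 ≤ J := hJ ▸ intervalIntegral.integral_nonneg aa fun x _ => by positivity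
  have key : ∀ x ∈ Icc a (a + 1), ‖f t‖ ^ 2 ≤ ‖f x‖ ^ 2 + J := fun x hx => by
    have h1 := intervalIntegral.integral_eq_sub_of_hasDerivAt (a := x) (b := t)
      (fun y _ => (hd y).norm_sq) (c3.intervalIntegrable _ _)
    have h2 := intervalIntegral.norm_integral_le_abs_of_norm_le (μ := volume) (a := x) (b := t)
      (f := fun y => 2 * inner ℝ (f y) (f' y)) (Filter.Eventually.of_forall fun y => by
        have h3 := abs_real_inner_le_norm (f y) (f' y)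
        rw [Real.norm_eq_abs, abs_mul, abs_two]
        nlinarith [sq_nonneg (‖f y‖ - ‖f' y‖)]) (c2.intervalIntegrable _ _)
    have h3 := intervalIntegral.abs_integral_mono_interval (μ := volume) (a := x) (b := t)
      (uIoc_subset_uIoc_of_uIcc_subset_uIcc ((uIcc_subset_Icc hx ht).trans Icc_subset_uIcc))
      (Filter.Eventually.of_forall fun y => by positivity) (c2.intervalIntegrable a (a + 1))
    rw [← hJ, abs_of_nonneg J0] at h3
    rw [h1, Real.norm_eq_abs] at h2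
    linarith [le_abs_self (‖f t‖ ^ 2 - ‖f x‖ ^ 2)]
  have h4 := intervalIntegral.integral_mono_on aa (intervalIntegrable_const (μ := volume))
    ((c1.add continuous_const).intervalIntegrable _ _) key
  rw [intervalIntegral.integral_const, add_sub_cancel_left, one_smul] at h4
  refine h4.trans (le_of_eq ?_)
  have h5 := intervalIntegral.integral_add (μ := volume) (c1.intervalIntegrable a (a + 1))
    (intervalIntegrable_const (c := J))
  have h6 := intervalIntegral.integral_add (μ := volume) (c1.intervalIntegrable a (a + 1))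
    (c2.intervalIntegrable a (a + 1))
  rw [intervalIntegral.integral_const, add_sub_cancel_left, one_smul] at h5
  rw [← hJ, ← h5] at h6
  refine h6.symm.trans (intervalIntegral.integral_congr fun x _ => ?_)
  ring

theorem dp_der (c : ℕ → ℂ) (M : ℕ) (t : ℝ) :
    HasDerivAt (dp c M) (dp (fun n => c n * (I * (Real.log n : ℝ))) M t) t := by
  refine HasDerivAt.fun_sum fun n _ => ?_
  have h := ((((hasDerivAt_id t).const_mul (Real.log n)).ofReal_comp.const_mul I).cexp).const_mul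
    (c n * (((n : ℝ) ^ (-(1 / 2) : ℝ) : ℝ) : ℂ))
  refine h.congr_deriv ?_
  simp only [id, mul_one]
  ring

/- mvt_dir, harm_le, vhz_sqrt or sum_rpow_head. -/
theorem mv_dp : ∃ C : ℝ, 0 < C ∧ ∀ (c : ℕ → ℂ) (M : ℕ) (K a ℓ : ℝ), 0 ≤ ℓ →
    (∀ n ∈ Finset.Icc 1 M, ‖c n‖ ≤ K) →
    ∫ t in a..a + ℓ, ‖dp c M t‖ ^ 2 ≤ C * K ^ 2 * (1 + Real.log M) * (ℓ + M) := by
  obtain ⟨A, hA, h1⟩ := sum_rpow_head (β := 1 / 2) (by norm_num)
  refine ⟨4 * A ^ 2 + 8, by positivity, fun c M K a ℓ hℓ hc => ?_⟩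
  have l0 : 0 ≤ Real.log M := Real.log_natCast_nonneg M
  have M0 : (0 : ℝ) ≤ M := Nat.cast_nonneg M
  refine (mvt_dir (Finset.Icc 1 M) (fun n hn => (Finset.mem_Icc.1 hn).1)
    (fun n => c n * (((n : ℝ) ^ (-(1 / 2) : ℝ) : ℝ) : ℂ)) a hℓ).trans ?_
  have g1 : ∀ n ∈ Finset.Icc 1 M, ‖c n * (((n : ℝ) ^ (-(1 / 2) : ℝ) : ℝ) : ℂ)‖ ≤
      |K| * (n : ℝ) ^ (1 / 2 - 1 : ℝ) := fun n hn => by
    rw [norm_mul, norm_real, Real.norm_of_nonneg (by positivity),
      show (1 / 2 - 1 : ℝ) = -(1 / 2) by norm_num]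
    exact mul_le_mul_of_nonneg_right ((hc n hn).trans (le_abs_self K)) (by positivity)
  have g2 : ∀ n ∈ Finset.Icc 1 M, ‖c n * (((n : ℝ) ^ (-(1 / 2) : ℝ) : ℝ) : ℂ)‖ ^ 2 ≤
      K ^ 2 * (1 / n) := fun n hn => by
    have n0 : (0 : ℝ) < n := by exact_mod_cast (Finset.mem_Icc.1 hn).1
    refine (pow_le_pow_left₀ (norm_nonneg _) (g1 n hn) 2).trans (le_of_eq ?_)
    rw [mul_pow, sq_abs, sq ((n : ℝ) ^ _), ← Real.rpow_add n0,
      show (1 / 2 - 1 + (1 / 2 - 1) : ℝ) = -1 by norm_num, Real.rpow_neg_one, one_div]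
  have s1 := Finset.sum_le_sum g2
  rw [← Finset.mul_sum] at s1
  have s2 := s1.trans (mul_le_mul_of_nonneg_left (harm_le M) (sq_nonneg K))
  have s3 := Finset.sum_le_sum g1
  rw [← Finset.mul_sum] at s3
  have s4 := pow_le_pow_left₀ (Finset.sum_nonneg fun _ _ => norm_nonneg _)
    (s3.trans (mul_le_mul_of_nonneg_left (h1 M) (abs_nonneg K))) 2
  rw [mul_pow, mul_pow, sq_abs, ← Real.sqrt_eq_rpow, Real.sq_sqrt M0] at s4
  have s5 : ∑ n ∈ Finset.Icc 1 M, n * (1 + Real.log n) *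
      ‖c n * (((n : ℝ) ^ (-(1 / 2) : ℝ) : ℝ) : ℂ)‖ ^ 2 ≤ M * (K ^ 2 * (1 + Real.log M)) := by
    refine (Finset.sum_le_card_nsmul _ _ (K ^ 2 * (1 + Real.log M)) fun n hn => ?_).trans
      (le_of_eq (by simp))
    obtain ⟨u, v⟩ := Finset.mem_Icc.1 hn
    have n0 : (0 : ℝ) < n := by exact_mod_cast u
    have l1 : 0 ≤ Real.log n := Real.log_natCast_nonneg n
    have l2 : Real.log n ≤ Real.log M := Real.log_le_log n0 (by exact_mod_cast v)
    calc _ ≤ n * (1 + Real.log M) * (K ^ 2 * (1 / n)) := by gcongr; exact g2 n hn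
      _ = _ := by field_simp
  have p1 := mul_le_mul_of_nonneg_left s2 hℓ
  have p2 : 0 ≤ A ^ 2 * K ^ 2 * (M * Real.log M + ℓ * (1 + Real.log M)) := by positivity
  have p3 : 0 ≤ K ^ 2 * (ℓ * (1 + Real.log M)) := by positivity
  linarith

theorem mja_sum {g : ℝ → ℝ} (hg : Continuous g) (a : ℤ) (n : ℕ) :
    ∑ k ∈ Finset.Ico a (a + n), ∫ t in (k : ℝ)..k + 1, g t = ∫ t in (a : ℝ)..a + n, g t := by
  induction n with
  | zero => simp
  | succ n ih =>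
    rw [Nat.cast_succ, ← add_assoc, ← Finset.insert_Ico_right_eq_Ico_add_one (by omega),
      Finset.sum_insert (by simp), ih, add_comm, Nat.cast_succ, ← add_assoc]
    push_cast
    exact intervalIntegral.integral_add_adjacent_intervals (hg.intervalIntegrable _ _)
      (hg.intervalIntegrable _ _)

theorem mj_sum {f : ℝ → ℝ} (hf : Continuous f) (a : ℤ) (n : ℕ) :
    ∑ k ∈ Finset.Ico a (a + n), ∫ x in (k : ℝ)..k + 1, f x = ∫ x in (a : ℝ)..a + n, f x := by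
  induction n with
  | zero => simp
  | succ n ih =>
    rw [Nat.cast_succ, ← add_assoc, ← Finset.insert_Ico_right_eq_Ico_add_one (by omega),
      Finset.sum_insert (by simp), ih, add_comm]
    push_cast
    rw [← add_assoc]
    exact intervalIntegral.integral_add_adjacent_intervals (hf.intervalIntegrable _ _)
      (hf.intervalIntegrable _ _)

theorem mj_pow {M U : ℕ} (hM : 1 ≤ M) (hU : 1 ≤ U) {δ : ℝ} (hδ : 0 < δ) :
    1 ≤ (M : ℝ) ^ δ ∧ (M : ℝ) ^ δ ≤ ((M : ℝ) * U) ^ δ := by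
  have m1 : (1 : ℝ) ≤ M := by exact_mod_cast hM
  have u1 : (1 : ℝ) ≤ U := by exact_mod_cast hU
  exact ⟨Real.one_le_rpow m1 hδ.le,
    Real.rpow_le_rpow (by linarith) (le_mul_of_one_le_right (by linarith) u1) hδ.le⟩

theorem mj_cube {x ε : ℝ} (hx : 0 ≤ x) : (x ^ (ε / 3)) ^ 3 = x ^ ε := by
  rw [← Real.rpow_natCast, ← Real.rpow_mul hx]
  congr 1
  push_cast
  ring

theorem mj_base {δ : ℝ} (hδ : 0 < δ) : ∃ C : ℝ, 0 < C ∧ ∀ (c : ℕ → ℂ) (M U : ℕ) (K : ℝ), 1 ≤ M →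
    1 ≤ U → (∀ n ∈ Finset.Icc 1 M, ‖c n‖ ≤ K) →
    Mj (fun k => ∫ x in (k : ℝ)..k + 1, ‖dp c M x‖ ^ 2) M U (C * ((M : ℝ) * U) ^ δ * K ^ 2) := by
  obtain ⟨C₁, hC₁, h₁⟩ := mv_dp
  obtain ⟨C₂, hC₂, h₂⟩ := kz_main hδ
  obtain ⟨C₃, hC₃, h₃⟩ := log_le_rpow hδ
  refine ⟨2 * C₁ * C₃ + (1 + C₂), by positivity, fun c M U K hM hU hc => ?_⟩
  have m1 : (1 : ℝ) ≤ M := by exact_mod_cast hM
  have u1 : (1 : ℝ) ≤ U := by exact_mod_cast hU
  obtain ⟨p1, p2⟩ := mj_pow hM hU hδ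
  have hf : Continuous fun x => ‖dp c M x‖ ^ 2 := (dp_cont c M).norm.pow 2
  generalize hX : ((M : ℝ) * U) ^ δ = X at p2
  have x1 : 1 ≤ X := p1.trans p2
  refine ⟨fun k => intervalIntegral.integral_nonneg (by linarith) fun _ _ => by positivity, ?_,
    fun W hW => ?_⟩
  · have e := mj_sum hf (-(U : ℤ)) (2 * U)
    rw [show -(U : ℤ) + ((2 * U : ℕ) : ℤ) = U by push_cast; ring] at e
    rw [e]
    refine (h₁ c M K _ _ (by positivity) hc).trans ?_
    have l1 : 1 + Real.log M ≤ C₃ * X :=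
      (h₃ M m1).trans (mul_le_mul_of_nonneg_left p2 hC₃.le)
    calc C₁ * K ^ 2 * (1 + Real.log M) * (((2 * U : ℕ) : ℝ) + M)
        ≤ C₁ * K ^ 2 * (C₃ * X) * (2 * (U + M)) := by
          refine mul_le_mul (mul_le_mul_of_nonneg_left l1 (by positivity)) ?_ (by positivity)
            (by positivity)
          push_cast
          linarith
      _ = 2 * C₁ * C₃ * X * K ^ 2 * (U + M) := by ring
      _ ≤ _ := by gcongr; linarith
  · have hk := h₂ M U hM hU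
    rw [hX] at hk
    have e : ∀ k : ℤ, ∫ x in (k : ℝ)..k + 1, ‖dp c M x‖ ^ 2 =
        ∫ v in (0 : ℝ)..1, ‖dp c M (k + v)‖ ^ 2 := fun k => by
      rw [intervalIntegral.integral_comp_add_left (fun x => ‖dp c M x‖ ^ 2), add_zero]
    have hg : ∀ k : ℤ, Continuous fun v : ℝ => ‖dp c M (k + v)‖ ^ 2 := fun k =>
      hf.comp (continuous_const.add continuous_id)
    simp only [e]
    rw [← intervalIntegral.integral_finsetSum fun p _ => (hg _).intervalIntegrable _ _]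
    have b1 := intervalIntegral.integral_mono_on (μ := volume) (zero_le_one' ℝ)
      ((continuous_finsetSum _ fun p _ => hg _).intervalIntegrable _ _)
      (continuous_const.intervalIntegrable _ _) fun v _ => en_main hk hW hc v
    refine b1.trans ?_
    rw [intervalIntegral.integral_const, sub_zero, one_smul]
    have b2 : eb W.card (Eg W) (C₂ * (M : ℝ) ^ δ * M) (C₂ * X * U) ≤
        (1 + C₂) * X * eb W.card (Eg W) M U := by
      refine eb_scale (by positivity) (Eg_nonneg W) (by nlinarith) (by positivity) ?_ ?_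
      · gcongr
        linarith
      · gcongr
        linarith
    have b3 := eb_nonneg W.card (Eg W) M U
    calc _ ≤ K ^ 2 * ((1 + C₂) * X * eb W.card (Eg W) M U) :=
          mul_le_mul_of_nonneg_left b2 (by positivity)
      _ = (1 + C₂) * X * K ^ 2 * eb W.card (Eg W) M U := by ring
      _ ≤ _ := by
        have := mul_pos hC₁ hC₃
        exact mul_le_mul_of_nonneg_right (mul_le_mul_of_nonneg_right
          (mul_le_mul_of_nonneg_right (by linarith) (by linarith)) (by positivity)) b3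

/- α k = ∫ v in 0..1, (2 ‖dp c M (k + v)‖² + ‖dp c' M (k + v)‖²), c' n = c n * i log n,
‖c' n‖ ≤ K (1 + log M).  one: the sum is an integral over [-U, U]
(sum_integral_adjacent_intervals), mv_dp.  three: swap sum and integral, en_main for every v
with kz_main, eb_scale. -/
theorem maj {ε : ℝ} (hε : 0 < ε) : ∃ C : ℝ, 0 < C ∧ ∀ (c : ℕ → ℂ) (M U : ℕ) (K : ℝ), 1 ≤ M → 1 ≤ U →
    (∀ n ∈ Finset.Icc 1 M, ‖c n‖ ≤ K) → ∃ α : ℤ → ℝ, Mj α M U (C * ((M : ℝ) * U) ^ ε * K ^ 2) ∧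
      ∀ k : ℤ, ∀ t ∈ Icc (k : ℝ) (k + 1), ‖dp c M t‖ ^ 2 ≤ α k := by
  have hδ : 0 < ε / 3 := by positivity
  obtain ⟨C, hC, h⟩ := mj_base hδ
  obtain ⟨D, hD, hl⟩ := log_le_rpow hδ
  refine ⟨C * (2 + D ^ 2), by positivity, fun c M U K hM hU hc => ?_⟩
  have m1 : (1 : ℝ) ≤ M := by exact_mod_cast hM
  obtain ⟨p1, p2⟩ := mj_pow hM hU hδ
  have hK : 0 ≤ K := (norm_nonneg _).trans (hc 1 (by simp [hM]))
  have h1 := h c M U K hM hU hc
  have h2 := h (fun n => c n * (I * (Real.log n : ℝ))) M U (K * (D * ((M : ℝ) * U) ^ (ε / 3))) hM hU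
    fun n hn => by
      obtain ⟨n1, n2⟩ := Finset.mem_Icc.1 hn
      have n1' : (1 : ℝ) ≤ n := by exact_mod_cast n1
      have n2' : (n : ℝ) ≤ M := by exact_mod_cast n2
      rw [norm_mul, norm_mul, norm_I, one_mul, norm_real,
        Real.norm_of_nonneg (Real.log_nonneg n1')]
      refine mul_le_mul (hc n hn) ?_ (Real.log_nonneg n1') hK
      have l1 := Real.log_le_log (by linarith) n2'
      have l2 := hl M m1
      have l3 := mul_le_mul_of_nonneg_left p2 hD.le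
      linarith
  refine ⟨_, ((h1.add h1).add h2).mono ?_, fun k t ht => ?_⟩
  · rw [← mj_cube (x := (M : ℝ) * U) (ε := ε) (by positivity)]
    generalize ((M : ℝ) * U) ^ (ε / 3) = X at p2
    have x1 : 1 ≤ X := p1.trans p2
    have x3 : X ≤ X ^ 3 := le_self_pow₀ x1 (by norm_num)
    have x4 := mul_le_mul_of_nonneg_left x3 (show 0 ≤ 2 * C * K ^ 2 by positivity)
    nlinarith
  · refine (sob (dp_der c M) (dp_cont _ _) ht).trans (le_of_eq ?_)
    rw [intervalIntegral.integral_add, intervalIntegral.integral_const_mul, two_mul]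
    · exact (continuous_const.mul ((dp_cont c M).norm.pow 2)).intervalIntegrable _ _
    · exact ((dp_cont _ M).norm.pow 2).intervalIntegrable _ _

/- Add the majorants of maj for xc Y, sc Y (twice each) and for the indicator of n = 1, whose
polynomial is 1; ‖xc Y n‖, ‖sc Y n‖ ≤ 3 dv n ≤ 3 C M ^ δ are hypotheses here. -/
theorem maj_two {ε : ℝ} (hε : 0 < ε) : ∃ C : ℝ, 0 < C ∧ ∀ (c c' : ℕ → ℂ) (M U : ℕ), 1 ≤ M → 1 ≤ U →
    (∀ n, ‖c n‖ ≤ 3 * dv n) → (∀ n, ‖c' n‖ ≤ 3 * dv n) →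
    ∃ α : ℤ → ℝ, Mj α M U (C * ((M : ℝ) * U) ^ ε) ∧ ∀ k : ℤ, 1 ≤ α k ∧
      ∀ t ∈ Icc (k : ℝ) (k + 1), (‖dp c M t‖ + ‖dp c' M t‖) ^ 2 ≤ α k := by
  have hδ : 0 < ε / 3 := by positivity
  obtain ⟨C, hC, h⟩ := maj hδ
  obtain ⟨D, hD, hd⟩ := dv_le hδ
  refine ⟨C * (36 * D ^ 2 + 1), by positivity, fun c c' M U hM hU hc hc' => ?_⟩
  obtain ⟨p1, p2⟩ := mj_pow hM hU hδ
  have key : ∀ n ∈ Finset.Icc 1 M, 3 * dv n ≤ 3 * (D * ((M : ℝ) * U) ^ (ε / 3)) := fun n hn => by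
    have n2 : (n : ℝ) ≤ M := by exact_mod_cast (Finset.mem_Icc.1 hn).2
    have l1 : (n : ℝ) ^ (ε / 3) ≤ ((M : ℝ) * U) ^ (ε / 3) :=
      (Real.rpow_le_rpow (Nat.cast_nonneg n) n2 hδ.le).trans p2
    have l2 := mul_le_mul_of_nonneg_left l1 (zero_le_one.trans hD)
    linarith [hd n]
  obtain ⟨α₁, a1, b1⟩ := h c M U _ hM hU fun n hn => (hc n).trans (key n hn)
  obtain ⟨α₂, a2, b2⟩ := h c' M U _ hM hU fun n hn => (hc' n).trans (key n hn)
  obtain ⟨α₃, a3, b3⟩ := h (fun n => if n = 1 then 1 else 0) M U 1 hM hU fun n _ => by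
    split_ifs <;> simp
  have e : ∀ t, dp (fun n => if n = 1 then 1 else 0) M t = 1 := fun t => by
    rw [dp, Finset.sum_eq_single 1 (fun n _ hn => by simp [hn]) (fun hn => absurd (by simp [hM]) hn)]
    simp
  have c3 : ∀ k : ℤ, 1 ≤ α₃ k := fun k => by
    simpa [e] using b3 k k ⟨le_rfl, by linarith⟩
  refine ⟨_, ((((a1.add a1).add a2).add a2).add a3).mono ?_, fun k => ⟨?_, fun t ht => ?_⟩⟩
  · rw [← mj_cube (x := (M : ℝ) * U) (ε := ε) (by positivity)]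
    generalize ((M : ℝ) * U) ^ (ε / 3) = X at p2
    have x1 : 1 ≤ X := p1.trans p2
    have x3 : X ≤ X ^ 3 := le_self_pow₀ x1 (by norm_num)
    have x4 := mul_le_mul_of_nonneg_left x3 hC.le
    nlinarith
  · linarith [a1.pos k, a2.pos k, c3 k]
  · nlinarith [b1 k t ht, b2 k t ht, c3 k, sq_nonneg (‖dp c M t‖ - ‖dp c' M t‖)]

/- π k = 1 + ∫ t in k..k + 1, (zt t + ‖D t‖) ^ 4; (a + b) ^ 4 ≤ 8 (a ^ 4 + b ^ 4), zt_four,
(zs 2).ms, mv_dp. -/
theorem maj_four {ε : ℝ} (hε : 0 < ε) : ∃ C : ℝ, 0 < C ∧ ∀ (c : ℕ → ℂ) (D : ℝ → ℂ) (M U : ℕ),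
    1 ≤ M → 1 ≤ U → (∀ n, ‖c n‖ ≤ 3 * dv n) → Continuous D → (∀ t, D t ^ 2 = dp c M t) →
    ∑ k ∈ Finset.Ico (-(U : ℤ)) U, (1 + ∫ t in (k : ℝ)..k + 1, (zt t + ‖D t‖) ^ 4) ≤
      C * ((M : ℝ) * U) ^ ε * (U + M) := by
  have e3 : 0 < ε / 3 := by linarith
  obtain ⟨A, hA, h1⟩ := (zs 2).ms le_rfl (by rw [zs_deg2]; norm_num) ε hε
  obtain ⟨B, hB, h2⟩ := mv_dp
  obtain ⟨E, hE, h3⟩ := dv_le e3
  obtain ⟨L, hL, h4⟩ := log_le_rpow e3
  refine ⟨2 + 8 * A + 144 * B * E ^ 2 * L, by positivity, fun c D M U hM hU hc hD hs => ?_⟩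
  have M1 : (1 : ℝ) ≤ M := by exact_mod_cast hM
  have U1 : (1 : ℝ) ≤ U := by exact_mod_cast hU
  have M0 : (0 : ℝ) < M := by linarith
  have U0 : (0 : ℝ) < U := by linarith
  have cg : Continuous fun t => (zt t + ‖D t‖) ^ 4 := (zt_cont.add hD.norm).pow 4
  have c1 : Continuous fun t : ℝ => ‖(zs 2).L (1 / 2 + t * I)‖ ^ 2 := (zs 2).continuous_w
  have c2 : Continuous fun t => ‖dp c M t‖ ^ 2 := (dp_cont c M).norm.pow 2
  have e1 := mja_sum cg (-(U : ℤ)) (2 * U)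
  rw [show -(U : ℤ) + ((2 * U : ℕ) : ℤ) = U by push_cast; ring] at e1
  have e2 : ((-(U : ℤ) : ℤ) : ℝ) = -(U : ℝ) := by push_cast; ring
  have e4 : -(U : ℝ) + ((2 * U : ℕ) : ℝ) = U := by push_cast; ring
  rw [e2, e4] at e1
  have a1 := h1 U U1
  have a2 := h2 c M (3 * (E * (M : ℝ) ^ (ε / 3))) (-U) (2 * U) (by positivity) fun n hn =>
    (hc n).trans (mul_le_mul_of_nonneg_left ((h3 n).trans (mul_le_mul_of_nonneg_left
      (Real.rpow_le_rpow (Nat.cast_nonneg n) (by exact_mod_cast (Finset.mem_Icc.1 hn).2) e3.le)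
      (by linarith))) (by norm_num))
  rw [show -(U : ℝ) + 2 * U = U by ring] at a2
  have a3 : ∫ t in -(U : ℝ)..U, (zt t + ‖D t‖) ^ 4 ≤
      ∫ t in -(U : ℝ)..U, (8 * ‖(zs 2).L (1 / 2 + t * I)‖ ^ 2 + 8 * ‖dp c M t‖ ^ 2) := by
    refine intervalIntegral.integral_mono_on (by linarith) (cg.intervalIntegrable _ _)
      (((c1.const_mul 8).add (c2.const_mul 8)).intervalIntegrable _ _) fun t _ => ?_
    have b1 : ‖(zs 2).L (1 / 2 + t * I)‖ ^ 2 = zt t ^ 4 := zt_four t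
    rw [b1, ← hs, norm_pow, ← pow_mul]
    have b2 := add_pow_le (zt_nonneg t) (norm_nonneg (D t)) 4
    norm_num at b2 ⊢
    linarith
  rw [intervalIntegral.integral_add ((c1.const_mul 8).intervalIntegrable _ _)
    ((c2.const_mul 8).intervalIntegrable _ _), intervalIntegral.integral_const_mul,
    intervalIntegral.integral_const_mul] at a3
  have e5 : ∑ _k ∈ Finset.Ico (-(U : ℤ)) U, (1 : ℝ) = 2 * U := by
    rw [Finset.sum_const, Int.card_Ico, show (U : ℤ) - -(U : ℤ) = ((2 * U : ℕ) : ℤ) by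
      push_cast; ring, Int.toNat_natCast]
    simp
  rw [Finset.sum_add_distrib, e1, e5]
  have q1 : 1 ≤ (M : ℝ) ^ ε := Real.one_le_rpow M1 hε.le
  have q2 : 1 ≤ (U : ℝ) ^ ε := Real.one_le_rpow U1 hε.le
  have q3 : (M : ℝ) ^ ε = ((M : ℝ) ^ (ε / 3)) ^ 3 := by
    rw [← Real.rpow_natCast, ← Real.rpow_mul M0.le]
    congr 1
    push_cast
    ring
  rw [Real.rpow_add U0, Real.rpow_one] at a1
  have a4 : B * (3 * (E * (M : ℝ) ^ (ε / 3))) ^ 2 * (1 + Real.log M) * (2 * U + M) ≤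
      18 * B * E ^ 2 * L * ((M : ℝ) ^ ε * (U : ℝ) ^ ε * (U + M)) :=
    calc _ ≤ B * (3 * (E * (M : ℝ) ^ (ε / 3))) ^ 2 * (L * (M : ℝ) ^ (ε / 3)) *
          (2 * (U + M)) := by
          have := h4 M M1
          gcongr
          linarith
      _ = 18 * B * E ^ 2 * L * ((M : ℝ) ^ ε * 1 * (U + M)) := by
          rw [q3]
          ring
      _ ≤ _ := by gcongr
  have a5 : (U : ℝ) ≤ (M : ℝ) ^ ε * (U : ℝ) ^ ε * (U + M) :=
    le_trans (by linarith) (le_mul_of_one_le_left (by positivity)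
      (one_le_mul_of_one_le_of_one_le q1 q2))
  have a6 : (U : ℝ) * (U : ℝ) ^ ε ≤ (M : ℝ) ^ ε * (U : ℝ) ^ ε * (U + M) :=
    calc _ = 1 * (U : ℝ) ^ ε * (U + 0) := by ring
      _ ≤ _ := by gcongr
  have a7 := mul_le_mul_of_nonneg_left a6 hA.le
  rw [Real.mul_rpow M0.le U0.le]
  linarith

end Pool.Agent.Lib.MP_2a1a00_nt
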