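import Pool.Agent.Lib.MP_2a1a00_nt.C.Pt1
import Pool.Agent.Lib.MP_2a1a00_nt.V.B5

/-! The difference of two smoothed error terms as a Fourier integral. -/

namespace Pool.Agent.Lib.MP_2a1a00_nt

open Complex MeasureTheory Set

theorem pt2_half {t : ℝ} : (1 / 2 : ℝ) ≤ ‖(((1 / 2 : ℝ) : ℂ) + t * I)‖ := by
  have := re_le_norm (((1 / 2 : ℝ) : ℂ) + t * I)
  simpa using this

theorem pt2_cast (t : ℝ) : (((1 / 2 : ℝ) : ℂ) + t * I) = 1 / 2 + t * I := by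
  push_cast
  rfl

theorem pt2_gW {W V : ℝ} (hW : 1 ≤ W) (hV : V ∈ Icc W (3 * W)) (t : ℝ) :
    ‖gW V ((1 / 2 : ℝ) + t * I)‖ ≤ Real.exp 4 * Real.exp (-t ^ 2 / (3 * W) ^ 2) := by
  have hV1 : 1 ≤ V := hW.trans hV.1
  have h1 : (((1 / 2 : ℝ) : ℂ) + t * I).re = 1 / 2 := by simp
  have h2 : (((1 / 2 : ℝ) : ℂ) + t * I).im = t := by simp
  rw [norm_gW (by linarith), h1, h2, ← Real.exp_add, Real.exp_le_exp, sub_div, neg_div]
  have a1 : (1 / 2 : ℝ) ^ 2 / V ^ 2 ≤ 4 := by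
    rw [div_le_iff₀ (by positivity)]
    nlinarith
  have a2 : t ^ 2 / (3 * W) ^ 2 ≤ t ^ 2 / V ^ 2 := by
    gcongr
    exact hV.2
  linarith

/- ‖s‖ ≤ W: gW_sub twice.  W ≤ ‖s‖: norm_gW.  Second bound: norm_gW and 1 / 2 ≤ ‖s‖. -/
theorem pt_mult {W V V' : ℝ} (hW : 1 ≤ W) (hV : V ∈ Icc W (3 * W)) (hV' : V' ∈ Icc W (3 * W))
    (t : ℝ) :
    ‖(gW V ((1 / 2 : ℝ) + t * I) - gW V' ((1 / 2 : ℝ) + t * I)) / ((1 / 2 : ℝ) + t * I)‖ ≤
        2 * Real.exp 4 / W ∧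
      ‖(gW V ((1 / 2 : ℝ) + t * I) - gW V' ((1 / 2 : ℝ) + t * I)) / ((1 / 2 : ℝ) + t * I)‖ ≤
        4 * Real.exp 4 * Real.exp (-t ^ 2 / (3 * W) ^ 2) := by
  have hW0 : 0 < W := by linarith
  have he := Real.exp_pos 4
  have a1 := pt2_half (t := t)
  have b1 := pt2_gW hW hV t
  have b2 := pt2_gW hW hV' t
  have hre : |(((1 / 2 : ℝ) : ℂ) + t * I).re| ≤ 2 := by
    have h1 : (((1 / 2 : ℝ) : ℂ) + t * I).re = 1 / 2 := by simp
    rw [h1, abs_le]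
    constructor <;> norm_num
  have c1 := gW_sub (hW.trans hV.1) hre
  have c2 := gW_sub (hW.trans hV'.1) hre
  have b3 : Real.exp (-t ^ 2 / (3 * W) ^ 2) ≤ 1 :=
    Real.exp_le_one_iff.2 (div_nonpos_of_nonpos_of_nonneg (by nlinarith) (by positivity))
  generalize (((1 / 2 : ℝ) : ℂ) + t * I) = s at *
  have hs0 : 0 < ‖s‖ := by linarith
  have b4 := norm_sub_le (gW V s) (gW V' s)
  rw [norm_div]
  constructor
  · rw [div_le_div_iff₀ hs0 hW0]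
    rcases le_total ‖s‖ W with h | h
    · have h5 : Real.exp 4 * (‖s‖ ^ 2 / V ^ 2) ≤ Real.exp 4 * (‖s‖ ^ 2 / W ^ 2) := by
        gcongr
        exact hV.1
      have h7 : Real.exp 4 * (‖s‖ ^ 2 / V' ^ 2) ≤ Real.exp 4 * (‖s‖ ^ 2 / W ^ 2) := by
        gcongr
        exact hV'.1
      have h6 := norm_sub_le (gW V s - 1) (gW V' s - 1)
      rw [sub_sub_sub_cancel_right] at h6
      calc ‖gW V s - gW V' s‖ * W ≤ 2 * Real.exp 4 * (‖s‖ ^ 2 / W ^ 2) * W := by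
            gcongr
            linarith
        _ = 2 * Real.exp 4 * ‖s‖ * (‖s‖ / W) := by field_simp
        _ ≤ 2 * Real.exp 4 * ‖s‖ * 1 := by
            gcongr
            exact (div_le_one hW0).2 h
        _ = _ := mul_one _
    · have h5 : ‖gW V s - gW V' s‖ ≤ 2 * Real.exp 4 := by nlinarith
      gcongr
  · rw [div_le_iff₀ hs0]
    have := Real.exp_pos (-t ^ 2 / (3 * W) ^ 2)
    calc ‖gW V s - gW V' s‖ ≤ 4 * Real.exp 4 * Real.exp (-t ^ 2 / (3 * W) ^ 2) * (1 / 2) := by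
          linarith
      _ ≤ _ := by gcongr

/- chi_half, pt_half, pt_sq, zt_eq. -/
theorem pt_line (Y : ℕ) (t : ℝ) :
    ‖(zs 1).L ((1 / 2 : ℝ) + t * I) ^ 3 - RR Y ((1 / 2 : ℝ) + t * I)‖ ≤
      (‖dp (xc Y) (Y ^ 2) t‖ + ‖dp (sc Y) (Y ^ 2) t‖) * (zt t + ‖dp (fun _ => 1) Y t‖) := by
  have h1 : ‖(zs 1).chi ((1 / 2 : ℝ) + t * I)‖ = 1 := by rw [pt2_cast, Sel.chi_half]
  have h2 : ‖(zs 1).L ((1 / 2 : ℝ) + t * I)‖ = zt t := by rw [pt2_cast, zt_eq]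
  obtain ⟨h3, h4⟩ := pt_half Y t
  rw [RR, h3, h4, ← pt_sq, ← h2]
  generalize (zs 1).chi ((1 / 2 : ℝ) + t * I) = c at *
  generalize (zs 1).L ((1 / 2 : ℝ) + t * I) = L
  generalize dp (xc Y) (Y ^ 2) t = X
  generalize dp (fun _ => 1) Y t = S
  have e : L ^ 3 - (L ^ 3 - c ^ 3 * S ^ 3 - c ^ 2 * X * (L - c * S)) =
      c ^ 3 * (S ^ 2 * S) + c ^ 2 * X * (L - c * S) := by ring
  have h5 : ‖L - c * S‖ ≤ ‖L‖ + ‖S‖ := by
    have := norm_sub_le L (c * S)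
    rwa [norm_mul, h1, one_mul] at this
  rw [e]
  refine (norm_add_le _ _).trans ?_
  rw [norm_mul, norm_mul, norm_mul, norm_mul, norm_pow c, norm_pow c, h1, one_pow, one_pow, one_mul,
    one_mul, add_mul, add_comm]
  have := norm_nonneg L
  gcongr
  linarith

theorem pt2_sum {g : ℝ → ℂ} (hg : Integrable g) (a b : ℤ) (h : a ≤ b) :
    ∑ k ∈ Finset.Ico a b, ∫ t in (k : ℝ)..k + 1, g t = ∫ t in (a : ℝ)..b, g t := by
  induction b, h using Int.leInduction with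
  | base => simp
  | succ n hn ih =>
    rw [← Finset.insert_Ico_right_eq_Ico_add_one hn, Finset.sum_insert Finset.right_notMem_Ico, ih,
      add_comm, intervalIntegral.integral_add_adjacent_intervals hg.intervalIntegrable
        hg.intervalIntegrable]
    push_cast
    rfl

theorem pt2_exp {κ : ℝ} (hκ : 0 < κ) (K : ℝ) : ∃ C : ℝ, 0 < C ∧ ∀ T : ℝ, 1 ≤ T →
    T ^ K * Real.exp (-(T ^ κ) ^ 2 / 18) ≤ C := by
  refine ⟨18 ^ ⌈K / (2 * κ)⌉₊ * (⌈K / (2 * κ)⌉₊).factorial, by positivity, fun T hT => ?_⟩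
  set n := ⌈K / (2 * κ)⌉₊
  have hT0 : 0 < T := by linarith
  have h1 : T ^ K ≤ ((T ^ κ) ^ 2) ^ n := by
    rw [← pow_mul, ← Real.rpow_natCast, ← Real.rpow_mul hT0.le]
    refine Real.rpow_le_rpow_of_exponent_le hT ?_
    have := Nat.le_ceil (K / (2 * κ))
    rw [div_le_iff₀ (by positivity)] at this
    push_cast
    linarith
  have h2 := Real.pow_div_factorial_le_exp ((T ^ κ) ^ 2 / 18) (by positivity) n
  rw [div_pow, div_div, div_le_iff₀ (by positivity)] at h2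
  rw [neg_div, Real.exp_neg, ← div_eq_mul_inv, div_le_iff₀ (Real.exp_pos _)]
  linarith

/- fw ψ (Ico (-U) U) u = ∫ t in -U..U, ψ t * exp (i t u) (sum_integral_adjacent_intervals), and for
|t| ≥ U ≥ W T ^ κ: exp (-t² / (3 W)²) ≤ exp (-T ^ (2 κ) / 18) * exp (-t² / (5 W)²); gW_poly, and
exp (-T ^ (2 κ) / 18) ≤ C T ^ (-K') for every K'. -/
theorem pt_cut {κ K : ℝ} (hκ : 0 < κ) (hK : 0 ≤ K) : ∃ C : ℝ, 0 < C ∧ ∀ (ψ : ℝ → ℂ) (T W D : ℝ)
    (U : ℕ), 1 ≤ T → 1 ≤ W → W ≤ T → W * T ^ κ ≤ U → Continuous ψ → 0 ≤ D →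
    (∀ t, ‖ψ t‖ ≤ D * T ^ K * ((1 + |t|) ^ K * Real.exp (-t ^ 2 / (3 * W) ^ 2))) →
    Integrable ψ ∧ ∀ u : ℝ, ‖four ψ u - fw ψ (Finset.Ico (-(U : ℤ)) U) u‖ ≤ C * D / T := by
  obtain ⟨C₁, hC₁, h₁⟩ := gW_poly hK
  obtain ⟨C₂, hC₂, h₂⟩ := pt2_exp hκ (K + (K + 1) + 1)
  refine ⟨C₁ * 5 ^ (K + 1) * C₂, by positivity, fun ψ T W D U hT hW hWT hU hψ hD hb => ?_⟩
  have hT0 : 0 < T := by linarith
  have hW0 : 0 < W := by linarith
  have hi : Integrable ψ := ((h₁ (3 * W) (by linarith)).1.const_mul (D * T ^ K)).mono'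
    hψ.aestronglyMeasurable (Filter.Eventually.of_forall hb)
  refine ⟨hi, fun u => ?_⟩
  have hg : Integrable fun t : ℝ => ψ t * exp (I * (t * u : ℝ)) :=
    hi.mul_bdd (c := 1) (Continuous.aestronglyMeasurable (by fun_prop))
      (Filter.Eventually.of_forall fun t => (norm_ei _).le)
  have hU0 : (0 : ℝ) ≤ U := Nat.cast_nonneg U
  obtain ⟨i5, e5⟩ := h₁ (5 * W) (by linarith)
  set E := Real.exp (-(T ^ κ) ^ 2 / 18) with hE
  have hE0 : 0 < E := Real.exp_pos _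
  rw [four, fw, pt2_sum hg _ _ (by omega), intervalIntegral.integral_of_le (by push_cast; linarith),
    ← setIntegral_compl measurableSet_Ioc hg]
  have key : ∀ t ∈ (Ioc ((-(U : ℤ) : ℤ) : ℝ) ((U : ℤ) : ℝ))ᶜ, ‖ψ t * exp (I * (t * u : ℝ))‖ ≤
      D * T ^ K * E * ((1 + |t|) ^ K * Real.exp (-t ^ 2 / (5 * W) ^ 2)) := fun t ht => by
    have a1 : (U : ℝ) ≤ |t| := by
      by_contra hc
      obtain ⟨a2, a3⟩ := abs_lt.1 (not_le.1 hc)
      exact ht ⟨by push_cast; exact a2, by push_cast; exact a3.le⟩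
    have a2 : (W * T ^ κ) ^ 2 ≤ t ^ 2 := by
      rw [← sq_abs t]
      gcongr
      exact hU.trans a1
    have a3 : Real.exp (-t ^ 2 / (3 * W) ^ 2) ≤ E * Real.exp (-t ^ 2 / (5 * W) ^ 2) := by
      rw [hE, ← Real.exp_add, Real.exp_le_exp]
      have a4 : (T ^ κ) ^ 2 ≤ t ^ 2 / W ^ 2 := by
        rw [le_div_iff₀ (by positivity)]
        linarith [mul_pow W (T ^ κ) 2]
      have a5 : -t ^ 2 / (3 * W) ^ 2 = -(1 / 9) * (t ^ 2 / W ^ 2) := by field_simp; norm_num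
      have a6 : -t ^ 2 / (5 * W) ^ 2 = -(1 / 25) * (t ^ 2 / W ^ 2) := by field_simp; norm_num
      have a7 : 0 ≤ t ^ 2 / W ^ 2 := by positivity
      rw [a5, a6]
      linarith
    rw [norm_mul, norm_ei, mul_one]
    calc ‖ψ t‖ ≤ D * T ^ K * ((1 + |t|) ^ K * Real.exp (-t ^ 2 / (3 * W) ^ 2)) := hb t
      _ ≤ D * T ^ K * ((1 + |t|) ^ K * (E * Real.exp (-t ^ 2 / (5 * W) ^ 2))) := by gcongr
      _ = _ := by ring
  refine (norm_integral_le_of_norm_le (i5.const_mul (D * T ^ K * E)).integrableOn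
    ((ae_restrict_iff' measurableSet_Ioc.compl).2 (Filter.Eventually.of_forall key))).trans ?_
  refine (setIntegral_le_integral (i5.const_mul _)
    (Filter.Eventually.of_forall fun t => by positivity)).trans ?_
  rw [integral_const_mul, le_div_iff₀ hT0]
  have a8 := h₂ T hT
  rw [Real.rpow_add hT0, Real.rpow_add hT0, Real.rpow_one, ← hE] at a8
  calc D * T ^ K * E * (∫ t : ℝ, (1 + |t|) ^ K * Real.exp (-t ^ 2 / (5 * W) ^ 2)) * T
      ≤ D * T ^ K * E * (C₁ * (5 * T) ^ (K + 1)) * T := by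
        gcongr
        refine e5.trans ?_
        gcongr
    _ = C₁ * 5 ^ (K + 1) * (T ^ K * T ^ (K + 1) * T * E) * D := by
        rw [Real.mul_rpow (by norm_num) hT0.le]
        ring
    _ ≤ _ := by gcongr

theorem pt2_int {g : ℂ → ℂ} {W y C K : ℝ} (hW : 0 < W) (hy : 0 < y) (hC : 0 ≤ C)
    (hd : DifferentiableOn ℂ g (St (-0) (1 / 2)))
    (h : ∀ s ∈ St (-0) (1 / 2), ‖g s‖ ≤ C * (1 + |s.im|) ^ K) :
    Integrable fun v : ℝ => g ((1 / 2 : ℝ) + v * I) * ((y : ℂ) ^ (((1 / 2 : ℝ) : ℂ) + v * I) *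
      (gW W ((1 / 2 : ℝ) + v * I) / ((1 / 2 : ℝ) + v * I))) := by
  have h1 := (Sel.vf1_dec hW hy hC hd h).integrable (σ := 1 / 2) (by norm_num) le_rfl
  have h2 := h1.mul_bdd (g := fun v : ℝ => (((1 / 2 : ℝ) : ℂ) + v * I)⁻¹) (c := 2)
    (Continuous.aestronglyMeasurable (Continuous.inv₀ (by fun_prop) fun v =>
      norm_pos_iff.1 (one_half_pos.trans_le pt2_half)))
    (Filter.Eventually.of_forall fun v => by
      rw [norm_inv]
      exact inv_le_of_inv_le₀ two_pos (by rw [← one_div]; exact pt2_half))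
  refine h2.congr (Filter.Eventually.of_forall fun v => ?_)
  simp only [div_eq_mul_inv, mul_assoc]

theorem pt2_dp {c : ℕ → ℂ} {a : ℝ} {M : ℕ} (h : ∀ n ∈ Finset.Icc 1 M, ‖c n‖ ≤ a) (t : ℝ) :
    ‖dp c M t‖ ≤ M * a := by
  refine (norm_sum_le _ _).trans ((Finset.sum_le_card_nsmul _ _ a fun n hn => ?_).trans ?_)
  · have h1 : (1 : ℝ) ≤ n := Nat.one_le_cast.2 (Finset.mem_Icc.1 hn).1
    rw [norm_mul, norm_mul, norm_ei, mul_one, norm_real, Real.norm_of_nonneg (by positivity)]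
    exact (mul_le_of_le_one_right (norm_nonneg _)
      (Real.rpow_le_one_of_one_le_of_nonpos h1 (by norm_num))).trans (h n hn)
  · simp

theorem pt2_dv {n M : ℕ} (hn : n ∈ Finset.Icc 1 M) : dv n ≤ M :=
  Nat.cast_le.2 ((Nat.card_divisors_le_self n).trans (Finset.mem_Icc.1 hn).2)

theorem pt2_four {a b c d f : ℝ → ℂ} (ha : Integrable a) (hb : Integrable b) (hc : Integrable c)
    (hd : Integrable d) (h : ∀ t, f t = a t - b t - (c t - d t)) :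
    ∫ t, f t = (∫ t, a t) - (∫ t, b t) - ((∫ t, c t) - ∫ t, d t) := by
  rw [← integral_sub ha hb, ← integral_sub hc hd]
  simp only [h]
  exact integral_sub (ha.sub hb) (hc.sub hd)

/- ψ t = (L s ^ 3 - RR Y s) * ((gW V s - gW V' s) / s) at s = 1 / 2 + i t.  (zs 3).L s = (zs 1).L s ^ 3
(zs_L), so B V y - B V' y is the difference in pt_rem plus (1 / 2 π) px (1 / 2) y * four ψ (log y)
(as in vb5_eq; integrability from vf1_shift-like Dec or from pt_cut).  Crude bounds for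
pt_cut: ‖dp c M t‖ ≤ ∑ ‖c n‖ ≤ 3 M² ≤ C T⁴, f1_growth. -/
theorem pt_main {κ : ℝ} (hκ : 0 < κ) : ∃ C : ℝ, 0 < C ∧ ∀ (T W V V' : ℝ) (Y U : ℕ), 1 ≤ T →
    1 ≤ W → W ≤ T → V ∈ Icc W (3 * W) → V' ∈ Icc W (3 * W) →
    W ^ 3 * T ^ (κ - 1) ≤ (Y : ℝ) ^ 3 → (Y : ℝ) ≤ 2 * T → W * T ^ κ ≤ U →
    ∃ ψ : ℝ → ℂ, Continuous ψ ∧
      (∀ t, ‖ψ t‖ ≤ C / W * ((‖dp (xc Y) (Y ^ 2) t‖ + ‖dp (sc Y) (Y ^ 2) t‖) *
        (zt t + ‖dp (fun _ => 1) Y t‖))) ∧
      ∀ y ∈ Icc (T / 2) (4 * T),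
        ‖(zs 3).B V y - (zs 3).B V' y - pc ψ (Finset.Ico (-(U : ℤ)) U) y‖ ≤ C := by
  obtain ⟨C₀, K₀, hC₀, hK₀, g₁⟩ := (zs 1).f1_growth 0
  obtain ⟨C₃, K₃, hC₃, -, g₃⟩ := (zs 3).f1_growth 0
  obtain ⟨C₁, hC₁, h₁⟩ := pt_rem hκ
  obtain ⟨C₂, hC₂, h₂⟩ := pt_cut hκ (K := K₀ + 5) (by linarith)
  have he := Real.exp_pos 4
  have hpi := Real.pi_gt_three
  set D := 4 * Real.exp 4 * (64 * (C₀ + 2)) with hD
  have hD0 : 0 < D := by positivity
  refine ⟨2 * Real.exp 4 + C₁ + C₂ * D, by positivity,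
    fun T W V V' Y U hT hW hWT hV hV' hY hY2 hU => ?_⟩
  have hT0 : 0 < T := by linarith
  have hW0 : 0 < W := by linarith
  obtain ⟨dR, C₄, K₄, hC₄, g₄⟩ := pt_grow 0 Y
  have hmem : ∀ t : ℝ, (((1 / 2 : ℝ) : ℂ) + t * I) ∈ St (-0) (1 / 2) := fun t =>
    ⟨by simp, by simp⟩
  have dL : ∀ F : Sel, DifferentiableOn ℂ F.L (St (-0) (1 / 2)) := fun F s hs =>
    (F.differentiableAt_L fun e => by
      have := hs.2
      rw [e] at this
      norm_num at this).differentiableWithinAt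
  have hl : Continuous fun t : ℝ => (((1 / 2 : ℝ) : ℂ) + t * I) := by fun_prop
  set ψ : ℝ → ℂ := fun t => ((zs 1).L ((1 / 2 : ℝ) + t * I) ^ 3 - RR Y ((1 / 2 : ℝ) + t * I)) *
    ((gW V ((1 / 2 : ℝ) + t * I) - gW V' ((1 / 2 : ℝ) + t * I)) / ((1 / 2 : ℝ) + t * I)) with hψ
  have hc : Continuous ψ :=
    ((((dL (zs 1)).continuousOn.comp_continuous hl hmem).pow 3).sub
      (dR.continuousOn.comp_continuous hl hmem)).mul
      ((((differentiable_gW V).continuous.comp hl).sub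
        ((differentiable_gW V').continuous.comp hl)).div hl fun v =>
          norm_pos_iff.1 (one_half_pos.trans_le pt2_half))
  refine ⟨ψ, hc, fun t => ?_, fun y hy => ?_⟩
  · rw [hψ]
    dsimp only
    rw [norm_mul, mul_comm]
    refine mul_le_mul ((pt_mult hW hV hV' t).1.trans ?_) (pt_line Y t) (norm_nonneg _)
      (by positivity)
    have : 0 < C₂ * D := by positivity
    gcongr
    linarith
  have hy0 : 0 < y := by linarith [hy.1]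
  have hb : ∀ t, ‖ψ t‖ ≤ D * T ^ (K₀ + 5) *
      ((1 + |t|) ^ (K₀ + 5) * Real.exp (-t ^ 2 / (3 * W) ^ 2)) := fun t => by
    have a0 : 1 ≤ 1 + |t| := le_add_of_nonneg_right (abs_nonneg t)
    have a1 : ((Y ^ 2 : ℕ) : ℝ) ≤ 4 * T ^ 2 := by
      push_cast
      nlinarith [Nat.cast_nonneg (α := ℝ) Y]
    have a2 := pt2_dp (c := xc Y) (M := Y ^ 2) (a := 3 * (4 * T ^ 2))
      (fun n hn => (xc_le Y n).trans (by linarith [pt2_dv hn])) t
    have a3 := pt2_dp (c := sc Y) (M := Y ^ 2) (a := 4 * T ^ 2)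
      (fun n hn => (sc_le Y n).trans (by linarith [pt2_dv hn])) t
    have a4 := pt2_dp (c := fun _ => 1) (M := Y) (a := 1) (fun n _ => norm_one.le) t
    have a5 : zt t ≤ C₀ * (1 + |t|) ^ K₀ := by
      have := g₁ _ (hmem t)
      rw [pt2_cast, zt_eq] at this
      simpa using this
    have a6 : ‖dp (xc Y) (Y ^ 2) t‖ + ‖dp (sc Y) (Y ^ 2) t‖ ≤ 64 * T ^ 4 := by
      have : ((Y ^ 2 : ℕ) : ℝ) * (4 * T ^ 2) ≤ 4 * T ^ 2 * (4 * T ^ 2) := by gcongr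
      linarith
    have a7 : 1 ≤ (1 + |t|) ^ (K₀ + 5) := Real.one_le_rpow a0 (by linarith)
    have a8 : (1 + |t|) ^ K₀ ≤ (1 + |t|) ^ (K₀ + 5) :=
      Real.rpow_le_rpow_of_exponent_le a0 (by linarith)
    have a9 : zt t + ‖dp (fun _ => 1) Y t‖ ≤ (C₀ + 2) * (T * (1 + |t|) ^ (K₀ + 5)) := by
      have b1 : C₀ * (1 + |t|) ^ K₀ ≤ C₀ * (T * (1 + |t|) ^ (K₀ + 5)) := by
        gcongr
        nlinarith
      nlinarith
    have b2 : T ^ 4 * T ≤ T ^ (K₀ + 5) := by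
      rw [← pow_succ, ← Real.rpow_natCast]
      exact Real.rpow_le_rpow_of_exponent_le hT (by push_cast; linarith)
    have b3 := zt_nonneg t
    rw [hψ]
    dsimp only
    rw [norm_mul]
    calc _ ≤ 64 * T ^ 4 * ((C₀ + 2) * (T * (1 + |t|) ^ (K₀ + 5))) *
          (4 * Real.exp 4 * Real.exp (-t ^ 2 / (3 * W) ^ 2)) :=
          mul_le_mul ((pt_line Y t).trans (by gcongr)) (pt_mult hW hV hV' t).2 (norm_nonneg _)
            (by positivity)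
      _ = D * (T ^ 4 * T) * ((1 + |t|) ^ (K₀ + 5) * Real.exp (-t ^ 2 / (3 * W) ^ 2)) := by
          rw [hD]
          ring
      _ ≤ _ := by gcongr
  obtain ⟨-, hcut⟩ := h₂ ψ T W D U hT hW hWT hU hc hD0.le hb
  have hV0 : 0 < V := hW0.trans_le hV.1
  have hV0' : 0 < V' := hW0.trans_le hV'.1
  have i1 := pt2_int hV0 hy0 hC₃.le (dL (zs 3)) g₃
  have i2 := pt2_int hV0' hy0 hC₃.le (dL (zs 3)) g₃
  have i3 := pt2_int hV0 hy0 hC₄ dR g₄
  have i4 := pt2_int hV0' hy0 hC₄ dR g₄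
  have e : (zs 3).B V y - (zs 3).B V' y - pc ψ (Finset.Ico (-(U : ℤ)) U) y =
      (Ln (fun s => RR Y s * ((y : ℂ) ^ s * (gW V s / s))) (1 / 2) -
        Ln (fun s => RR Y s * ((y : ℂ) ^ s * (gW V' s / s))) (1 / 2)) +
      (1 / (2 * Real.pi) : ℝ) * px (1 / 2 : ℝ) y *
        (four ψ (Real.log y) - fw ψ (Finset.Ico (-(U : ℤ)) U) (Real.log y)) := by
    have e1 := pt2_four (f := fun t => px (1 / 2 : ℝ) y * (ψ t * exp (I * (t * Real.log y : ℝ))))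
      i1 i2 i3 i4 fun t => by
      have e2 : px (t * I) y = exp (I * (t * Real.log y : ℝ)) := by
        rw [px]
        congr 1
        push_cast
        ring
      have e3 : (zs 3).L ((1 / 2 : ℝ) + t * I) = (zs 1).L ((1 / 2 : ℝ) + t * I) ^ 3 := by
        rw [pt2_cast, zs_L 3 (half_ne t), zs_L 1 (half_ne t), pow_one]
      rw [hψ]
      dsimp only
      rw [px_cpow _ hy0, px_add, e2, e3]
      ring
    rw [integral_const_mul] at e1
    rw [Sel.B, Sel.B, Ln, Ln, Ln, Ln, pc, four]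
    linear_combination (-((1 / (2 * Real.pi) : ℝ) : ℂ)) * e1
  rw [e]
  refine (norm_add_le _ _).trans ?_
  have f1 := h₁ T W V V' Y hT hW hWT hV hV' hY y hy
  have f2 : ‖((1 / (2 * Real.pi) : ℝ) : ℂ) * px (1 / 2 : ℝ) y‖ ≤ T := by
    rw [norm_mul, norm_px _ hy0, norm_real, ofReal_re, Real.norm_of_nonneg (by positivity)]
    have f3 : y ^ (1 / 2 : ℝ) ≤ 4 * T :=
      (Real.rpow_le_rpow hy0.le hy.2 (by norm_num)).trans
        (Real.rpow_le_self_of_one_le (by linarith) (by norm_num))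
    have f4 : 1 / (2 * Real.pi) ≤ 1 / 4 := one_div_le_one_div_of_le (by norm_num) (by linarith)
    calc 1 / (2 * Real.pi) * y ^ (1 / 2 : ℝ) ≤ 1 / 4 * (4 * T) := by gcongr
      _ = T := by ring
  have f5 : ‖((1 / (2 * Real.pi) : ℝ) : ℂ) * px (1 / 2 : ℝ) y *
      (four ψ (Real.log y) - fw ψ (Finset.Ico (-(U : ℤ)) U) (Real.log y))‖ ≤ C₂ * D := by
    rw [norm_mul]
    calc _ ≤ T * (C₂ * D / T) := mul_le_mul f2 (hcut _) (norm_nonneg _) hT0.le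
      _ = _ := by field_simp
  linarith

end Pool.Agent.Lib.MP_2a1a00_nt
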