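import Pool.Agent.Lib.MP_2a1a00_nt.C.Defs
import Pool.Agent.Lib.MP_2a1a00_nt.V.B5
import Pool.Agent.Lib.MP_2a1a00_nt.V.F2

/-! The smoothed error terms form a semigroup under averaging. -/

namespace Pool.Agent.Lib.MP_2a1a00_nt

open Complex MeasureTheory Set

variable (F : Sel)

/- norm_Ln_le, f1_growth, norm_gW, gW_poly. -/
theorem sg_crude : ∃ C K : ℝ, 0 < C ∧ 0 ≤ K ∧ ∀ W y : ℝ, 1 ≤ W → 0 < y →
    ‖F.B W y‖ ≤ C * √y * W ^ K := by
  obtain ⟨C, K, hC, hK, h⟩ := F.f1_growth 0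
  obtain ⟨C', hC', h'⟩ := gW_poly hK
  refine ⟨C * (2 * Real.exp 1) * C', K + 1, by positivity, by linarith, fun W y hW hy => ?_⟩
  obtain ⟨h1, h2⟩ := h' W hW
  refine (norm_Ln_le 0 (h1.const_mul (C * (2 * Real.exp 1) * √y)) fun v => ?_).trans ?_
  · rw [zero_add]
    set s : ℂ := ((1 / 2 : ℝ) : ℂ) + v * I with hs
    have e1 : s.re = 1 / 2 := by simp [hs]
    have e2 : s.im = v := by simp [hs]
    have h3 := h s ⟨by rw [e1]; norm_num, e1.le⟩
    have h4 : 1 / 2 ≤ ‖s‖ := e1 ▸ re_le_norm s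
    have h5 : ‖gW W s‖ ≤ Real.exp 1 * Real.exp (-v ^ 2 / W ^ 2) := by
      rw [norm_gW (by linarith), ← Real.exp_add, Real.exp_le_exp, e1, e2, sub_div, neg_div]
      have : (1 / 2 : ℝ) ^ 2 / W ^ 2 ≤ 1 := (div_le_one (by positivity)).2 (by nlinarith)
      linarith
    rw [e2] at h3
    rw [norm_mul, norm_mul, norm_div, px_cpow _ hy, norm_px _ hy, e1, ← Real.sqrt_eq_rpow]
    calc _ ≤ C * (1 + |v|) ^ K * (√y * (Real.exp 1 * Real.exp (-v ^ 2 / W ^ 2) / (1 / 2))) := by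
          gcongr
      _ = _ := by ring
  · rw [integral_const_mul]
    calc _ ≤ C * (2 * Real.exp 1) * √y * (C' * W ^ (K + 1)) := by gcongr
      _ = _ := by ring

/- vb5_eq, Fubini (vb5_int, ph_exp), gW W₁ s * gW W₂ s = gW W s. -/
theorem sg_conv {W W₁ W₂ x : ℝ} (hW : 0 < W) (h1 : 0 < W₁) (h2 : 0 < W₂) (hx : 0 < x)
    (h : 1 / W ^ 2 = 1 / W₁ ^ 2 + 1 / W₂ ^ 2) :
    Integrable (fun u : ℝ => (ph W₁ u : ℂ) * F.B W₂ (x * Real.exp u)) ∧
      ∫ u : ℝ, (ph W₁ u : ℂ) * F.B W₂ (x * Real.exp u) = F.B W x := by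
  set a : ℝ → ℂ := fun t => F.L (((1 / 2 : ℝ) : ℂ) + t * I) / (((1 / 2 : ℝ) : ℂ) + t * I) *
    gW W₂ (((1 / 2 : ℝ) : ℂ) + t * I) with ha
  have hi : Integrable (Function.uncurry fun u t : ℝ => (ph W₁ u : ℂ) * exp ((1 / 2 : ℝ) * u) * a t *
      exp (I * (t * (Real.log x + u) : ℝ))) (volume.prod volume) :=
    ((ph_exp h1 (1 / 2 : ℝ)).1.mul_prod (F.vb5_int h2)).mul_bdd (c := 1)
      (Continuous.aestronglyMeasurable (by fun_prop))
      (Filter.Eventually.of_forall fun _ => (norm_ei _).le)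
  have e : (fun u : ℝ => (ph W₁ u : ℂ) * F.B W₂ (x * Real.exp u)) = fun u : ℝ =>
      (1 / (2 * Real.pi) : ℝ) * px (1 / 2 : ℝ) x * ∫ t : ℝ, (ph W₁ u : ℂ) * exp ((1 / 2 : ℝ) * u) *
        a t * exp (I * (t * (Real.log x + u) : ℝ)) := by
    funext u
    simp only [mul_assoc _ (a _)]
    rw [F.vb5_eq W₂ (mul_pos hx (Real.exp_pos u)), px_mul _ hx (Real.exp_pos u), px_exp,
      Real.log_mul hx.ne' (Real.exp_pos u).ne', Real.log_exp, integral_const_mul, four]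
    ring
  rw [e]
  refine ⟨hi.integral_prod_left.const_mul _, ?_⟩
  rw [integral_const_mul, integral_integral_swap hi, F.vb5_eq W hx, four]
  refine congrArg _ (congrArg _ (funext fun t => ?_))
  have e2 : ∀ s : ℂ, gW W s = gW W₂ s * gW W₁ s := fun s => by
    have h' : (1 / (W : ℂ) ^ 2) = 1 / (W₁ : ℂ) ^ 2 + 1 / (W₂ : ℂ) ^ 2 := by exact_mod_cast h
    rw [gW, gW, gW, ← exp_add, div_pow, div_pow, div_pow, div_eq_mul_one_div, h']
    ring_nf
  have e3 : ∀ u : ℝ, (ph W₁ u : ℂ) * exp ((1 / 2 : ℝ) * u) * a t *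
      exp (I * (t * (Real.log x + u) : ℝ)) = a t * exp (I * (t * Real.log x : ℝ)) *
        ((ph W₁ u : ℂ) * exp ((((1 / 2 : ℝ) : ℂ) + t * I) * u)) := fun u => by
    have : I * (t * (Real.log x + u) : ℝ) = I * (t * Real.log x : ℝ) + t * I * u := by
      push_cast
      ring
    rw [this, add_mul, exp_add, exp_add]
    ring
  simp only [e3]
  rw [integral_const_mul, (ph_exp h1 _).2, e2, ha]
  ring

/- up_mem, sg_conv, and the part outside Ioc (-1 / 5) (1 / 5) is at most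
C √x (3 W) ^ K * C' (4 W) ^ (-K - 1) (sg_crude, ph_tail with β = 1 / 2; compare f2_cut). -/
theorem sg_av : ∃ C : ℝ, 0 < C ∧ ∀ T W V : ℝ, 1 ≤ T → √T ≤ W → W ≤ V → V ≤ 2 * W →
    ∀ x ∈ Icc T (2 * T), ‖F.B V x - av (4 * W) (F.B (up W V)) x‖ ≤ C := by
  obtain ⟨C, K, hC, hK, h⟩ := sg_crude F
  obtain ⟨C', hC', h'⟩ := ph_tail (K + 1)
  refine ⟨C * 2 * C', by positivity, fun T W V hT h1 h2 h3 x hx => ?_⟩
  have hW : 1 ≤ W := (Real.one_le_sqrt.2 hT).trans h1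
  have hW0 : 0 < W := by linarith
  have h4 : 0 < 4 * W := by linarith
  have hx0 : 0 < x := by linarith [hx.1]
  obtain ⟨⟨u1, u2⟩, u3⟩ := up_mem hW0 h2 h3
  obtain ⟨c1, c2⟩ := sg_conv F (hW0.trans_le h2) h4 (hW0.trans_le u1) hx0 u3
  have h5 : √x ≤ 2 * W := by
    have := (Real.sqrt_le_left hW0.le).1 h1
    exact Real.sqrt_le_iff.2 ⟨by linarith, by linarith [hx.2]⟩
  have hb : ∀ v : ℝ, ‖(ph (4 * W) v : ℂ) * F.B (up W V) (x * Real.exp v)‖ ≤
      C * (2 * W) * (4 * W) ^ K * (ph (4 * W) v * Real.exp (1 / 2 * v)) := fun v => by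
    have h6 := h _ _ (hW.trans u1) (mul_pos hx0 (Real.exp_pos v))
    have h7 := (ph_pos h4 v).le
    have h8 : up W V ≤ 4 * W := by linarith
    rw [Real.sqrt_mul hx0.le, ← Real.exp_half] at h6
    rw [norm_mul, Complex.norm_real, Real.norm_of_nonneg h7, one_div_mul_eq_div]
    calc _ ≤ ph (4 * W) v * (C * (√x * Real.exp (v / 2)) * up W V ^ K) := by gcongr
      _ ≤ ph (4 * W) v * (C * (2 * W * Real.exp (v / 2)) * (4 * W) ^ K) := by
          have := (hW0.trans_le u1).le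
          gcongr
      _ = _ := by ring
  rw [← c2, av, intervalIntegral.integral_of_le (by norm_num),
    ← integral_add_compl (measurableSet_Ioc (a := (-1 / 5 : ℝ)) (b := 1 / 5)) c1,
    add_sub_cancel_left]
  refine (norm_integral_le_of_norm_le ((ph_exp_re h4 (1 / 2)).1.const_mul _).integrableOn
    (Filter.Eventually.of_forall hb)).trans ?_
  rw [integral_const_mul]
  refine (mul_le_mul_of_nonneg_left (h' (4 * W) (1 / 2) (by linarith)
    (abs_le.2 ⟨by norm_num, by norm_num⟩)) (by positivity)).trans ?_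
  have h9 := Real.rpow_pos_of_pos h4 K
  rw [Real.rpow_neg h4.le, Real.rpow_add_one h4.ne']
  refine le_trans (le_of_eq (b := C * C' / 2) (by field_simp; norm_num)) ?_
  linarith [mul_pos hC hC']

/- For T ≥ 216 one has 3 W ≤ T / 2 ≤ y: use B_near twice with y in place of T and x = y.
For T ≤ 216 use sg_crude and 1 ≤ T / W. -/
theorem sg_sup {ε : ℝ} (hε : 0 < ε) : ∃ C : ℝ, 0 < C ∧ ∀ T W V V' : ℝ, 1 ≤ T → 1 ≤ W →
    W ≤ T ^ (2 / 3 : ℝ) → V ∈ Icc W (3 * W) → V' ∈ Icc W (3 * W) → ∀ y ∈ Icc (T / 2) (4 * T),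
    ‖F.B V y - F.B V' y‖ ≤ C * T ^ ε * (T / W) := by
  obtain ⟨C, K, hC, hK, h⟩ := sg_crude F
  obtain ⟨C', hC', h'⟩ := F.B_near hε
  refine ⟨2 * (C * √864 * 648 ^ K + C' * 4 ^ ε * 4), by positivity,
    fun T W V V' hT hW hWT hV hV' y hy => ?_⟩
  have hT0 : 0 < T := by linarith
  have hW0 : 0 < W := by linarith
  have hy0 : 0 < y := by linarith [hy.1]
  have h1 : W ≤ T := hWT.trans (by
    simpa using Real.rpow_le_rpow_of_exponent_le hT (show (2 / 3 : ℝ) ≤ 1 by norm_num))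
  have h2 : 1 ≤ T ^ ε * (T / W) :=
    one_le_mul_of_one_le_of_one_le (Real.one_le_rpow hT hε.le) ((one_le_div hW0).2 h1)
  have p1 : 0 ≤ C * √864 * 648 ^ K := by positivity
  have p2 : 0 ≤ C' * 4 ^ ε * 4 * (T ^ ε * (T / W)) := by positivity
  rcases le_total T 216 with k | k
  · have h3 : ∀ U ∈ Icc W (3 * W), ‖F.B U y‖ ≤ C * √864 * 648 ^ K := fun U hU => by
      refine (h U y (hW.trans hU.1) hy0).trans ?_
      have := (hW0.trans_le hU.1).le
      gcongr <;> linarith [hU.2, hy.2]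
    linarith [norm_sub_le (F.B V y) (F.B V' y), h3 V hV, h3 V' hV', le_mul_of_one_le_right p1 h2]
  · have h3 : 6 * W ≤ T := by
      have h4 : (6 : ℝ) ≤ T ^ (1 / 3 : ℝ) := by
        rw [one_div, Real.le_rpow_inv_iff_of_pos (by norm_num) hT0.le (by norm_num)]
        norm_num
        exact k
      calc 6 * W ≤ T ^ (1 / 3 : ℝ) * T ^ (2 / 3 : ℝ) := by gcongr
        _ = T := by rw [← Real.rpow_add hT0]; norm_num
    have h4 : ∀ U ∈ Icc W (3 * W), ‖F.E y - F.B U y‖ ≤ C' * 4 ^ ε * 4 * (T ^ ε * (T / W)) :=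
      fun U hU => by
      refine (h' y U (hW.trans hU.1) (by linarith [hU.2, hy.1]) y ⟨le_rfl, by linarith⟩).trans ?_
      have := hW0.trans_le hU.1
      calc _ ≤ C' * (4 * T) ^ ε * (4 * T / W) := by
            gcongr
            exacts [hy.2, hy.2, hU.1]
        _ = _ := by rw [Real.mul_rpow (by norm_num) hT0.le]; ring
    have h5 := norm_sub_le (F.E y - F.B V' y) (F.E y - F.B V y)
    rw [sub_sub_sub_cancel_left] at h5
    linarith [h4 V hV, h4 V' hV', mul_nonneg p1 (zero_le_one.trans h2)]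

end Pool.Agent.Lib.MP_2a1a00_nt
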