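import Pool.Agent.Lib.MP_2a1a00_nt.C.Wt
import Pool.Agent.Lib.MP_2a1a00_nt.C.Sg
import Pool.Agent.Lib.MP_2a1a00_nt.C.Pt2
import Pool.Agent.Lib.MP_2a1a00_nt.C.Mj
import Pool.Agent.Lib.MP_2a1a00_nt.C.Fo
import Pool.Agent.Lib.MP_2a1a00_nt.C.Lp
import Pool.Agent.Lib.MP_2a1a00_nt.V.Wc

/-! The middle frequencies. -/

namespace Pool.Agent.Lib.MP_2a1a00_nt

open Complex MeasureTheory Set

theorem vlv_log {x : ℝ} (hx : 1 ≤ x) :
    (2 : ℝ) ^ Nat.log 2 ⌊x⌋₊ ≤ x ∧ x ≤ 2 * 2 ^ Nat.log 2 ⌊x⌋₊ := by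
  have h1 : ⌊x⌋₊ ≠ 0 := by
    have : 1 ≤ ⌊x⌋₊ := Nat.le_floor (by exact_mod_cast hx)
    omega
  constructor
  · refine le_trans ?_ (Nat.floor_le (by linarith))
    exact_mod_cast Nat.pow_log_le_self 2 h1
  · refine (Nat.lt_floor_add_one x).le.trans ?_
    have := Nat.lt_pow_succ_log_self (b := 2) (by norm_num) ⌊x⌋₊
    rw [pow_succ, mul_comm] at this
    exact_mod_cast this

theorem vlv_lt {x : ℝ} {n : ℕ} (hx : 1 ≤ x) (h : x < 2 ^ n) : Nat.log 2 ⌊x⌋₊ < n := by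
  have := (vlv_log hx).1.trans_lt h
  exact (pow_lt_pow_iff_right₀ (by norm_num : (1 : ℝ) < 2)).1 this

theorem lv_cls : ∃ C : ℝ, 0 < C ∧ ∀ (ψ : ℝ → ℂ) (α π : ℤ → ℝ) (M U n : ℕ) (T W Λ Λ₁ D : ℝ), 1 ≤ T →
    4 ≤ Λ → T ^ (1 / 2 + 1 / 12000 : ℝ) ≤ W → W ≤ T ^ (63 / 100 : ℝ) → Continuous ψ → 1 ≤ M →
    1 ≤ U → Mj α M U Λ₁ → ∑ k ∈ Finset.Ico (-(U : ℤ)) U, π k ≤ Λ₁ * (U + M) →
    (∀ k, 1 ≤ α k ∧ 1 ≤ π k) → 1 ≤ D →
    (∀ k : ℤ, ∫ t in (k : ℝ)..k + 1, ‖ψ t‖ ^ 4 ≤ (D / W) ^ 4 * (α k ^ 2 * π k)) →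
    Λ₁ * (U + M) ≤ Λ * W → Λ₁ * (U + M) < 2 ^ n → Λ₁ ≤ Λ → M ≤ Λ * (W ^ 2 / T ^ (2 / 3 : ℝ)) →
    U ≤ Λ * W → C * D ^ 4 ≤ Λ → ∃ Wf : ℕ × ℕ → Finset ℤ,
      (∀ y, pc ψ (Finset.Ico (-(U : ℤ)) U) y =
        ∑ q ∈ Finset.range n ×ˢ Finset.range n, pc ψ (Wf q) y) ∧
      ∀ q, ∃ L₂ L₄ : ℝ, wd 2 (pc ψ (Wf q)) T ≤ L₂ ∧ wd 4 (pc ψ (Wf q)) T ≤ L₄ ∧
        Ok (Λ * W) (Λ * (T / W)) (Λ * T ^ 3) (Λ ^ 10 * T ^ (5 / 2 - 1 / 40000 : ℝ)) L₂ L₄ := by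
  obtain ⟨C, hC, hf⟩ := fo_x
  refine ⟨16 * C, by positivity,
    fun ψ α π M U n T W Λ Λ₁ D hT hΛ w0 w1 hψ hM hU hα hπ h1 hD hk b1 b2 b3 b4 b5 b6 => ?_⟩
  have hT0 : 0 < T := by linarith
  have hW : 0 < W := (Real.rpow_pos_of_pos hT0 _).trans_le w0
  have α0 : ∀ k, 0 ≤ α k := hα.pos
  have π0 : ∀ k, 0 ≤ π k := fun k => zero_le_one.trans (h1 k).2
  refine ⟨fun q => (Finset.Ico (-(U : ℤ)) U).filter fun k =>
    (Nat.log 2 ⌊α k⌋₊, Nat.log 2 ⌊π k⌋₊) = q, fun y => ?_, fun q => ?_⟩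
  · simp only [pc, fw]
    rw [← Finset.mul_sum, Finset.sum_fiberwise_of_maps_to]
    intro k hk
    rw [Finset.mem_product, Finset.mem_range, Finset.mem_range]
    exact ⟨vlv_lt (h1 k).1 (((Finset.single_le_sum (fun i _ => α0 i) hk).trans hα.one).trans_lt b2),
      vlv_lt (h1 k).2 (((Finset.single_le_sum (fun i _ => π0 i) hk).trans hπ).trans_lt b2)⟩
  obtain ⟨S, hS⟩ : ∃ S, S = (Finset.Ico (-(U : ℤ)) U).filter fun k =>
    (Nat.log 2 ⌊α k⌋₊, Nat.log 2 ⌊π k⌋₊) = q := ⟨_, rfl⟩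
  beta_reduce
  rw [← hS]
  have sub : S ⊆ Finset.Ico (-(U : ℤ)) U := hS ▸ Finset.filter_subset _ _
  obtain ⟨a, ha, ea⟩ : ∃ a : ℝ, 0 < a ∧ a ^ 2 = 2 ^ q.1 :=
    ⟨√(2 ^ q.1), by positivity, Real.sq_sqrt (by positivity)⟩
  obtain ⟨p, hp, ep⟩ : ∃ p : ℝ, 0 < p ∧ p ^ 4 = 2 ^ q.2 :=
    ⟨√√(2 ^ q.2), by positivity, by
      rw [show 4 = 2 * 2 by norm_num, pow_mul, Real.sq_sqrt (by positivity),
        Real.sq_sqrt (by positivity)]⟩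
  have hc : ∀ k ∈ S, (a ^ 2 ≤ α k ∧ α k ≤ 2 * a ^ 2) ∧ p ^ 4 ≤ π k ∧ π k ≤ 2 * p ^ 4 := by
    intro k hk
    rw [hS, Finset.mem_filter] at hk
    rw [ea, ep, ← hk.2]
    exact ⟨vlv_log (h1 k).1, vlv_log (h1 k).2⟩
  obtain ⟨f2, f4⟩ := hf ψ S (2 * D * (a * p / W)) T hT0 hψ (by positivity) fun k hk' => by
    obtain ⟨⟨-, c1⟩, -, c2⟩ := hc k hk'
    have := α0 k
    have := π0 k
    calc _ ≤ (D / W) ^ 4 * (α k ^ 2 * π k) := hk k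
      _ ≤ (D / W) ^ 4 * ((2 * a ^ 2) ^ 2 * (2 * p ^ 4)) := by gcongr
      _ = 8 * (D * (a * p / W)) ^ 4 := by ring
      _ ≤ 16 * (D * (a * p / W)) ^ 4 := by gcongr; norm_num
      _ = _ := by ring
  have E0 := Eg_nonneg S
  have d2 : 4 * C * D ^ 2 ≤ Λ := by
    have : D ^ 2 ≤ D ^ 4 := pow_le_pow_right₀ hD (by norm_num)
    have : 0 ≤ D ^ 2 := by positivity
    nlinarith
  refine ⟨Λ * T ^ 2 * (S.card * (a * p / W) ^ 2), Λ * T ^ 3 * (Eg S * (a * p / W) ^ 4),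
    f2.trans ?_, f4.trans ?_, ?_⟩
  · calc _ = 4 * C * D ^ 2 * T ^ 2 * (S.card * (a * p / W) ^ 2) := by ring
      _ ≤ _ := by gcongr
  · calc _ = 16 * C * D ^ 4 * T ^ 3 * (Eg S * (a * p / W) ^ 4) := by ring
      _ ≤ _ := by gcongr
  rcases S.eq_empty_or_nonempty with h0 | h0
  · refine Or.inr (Or.inl ?_)
    rw [h0, Finset.card_empty, Nat.cast_zero, zero_mul, mul_zero, mul_zero]
    have : 0 < Λ := by linarith
    positivity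
  have cs : ∀ (β : ℤ → ℝ) (b : ℝ), (∀ k, 0 ≤ β k) → (∀ k ∈ S, b ≤ β k) →
      S.card * b ≤ ∑ k ∈ Finset.Ico (-(U : ℤ)) U, β k := fun β b β0 hb => by
    rw [← nsmul_eq_mul]
    exact (Finset.card_nsmul_le_sum S β b hb).trans
      (Finset.sum_le_sum_of_subset_of_nonneg sub fun k _ _ => β0 k)
  exact lp hT hΛ w0 w1 ha hp (by exact_mod_cast h0.card_pos) (Eg_pos h0) (by exact_mod_cast hM)
    (by exact_mod_cast hU) (((cs α _ α0 fun k hk => (hc k hk).1.1).trans hα.one).trans b1)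
    (((cs π _ π0 fun k hk => (hc k hk).2.1).trans hπ).trans b1) b4 b5
    (((en_low α0 fun k hk => (hc k hk).1.1).trans (hα.three S sub)).trans
      (mul_le_mul_of_nonneg_right b3 (eb_nonneg _ _ _ _)))

theorem vlv_par {T W κ : ℝ} (hT : 1 ≤ T) (h0 : 0 < κ) (h1 : κ ≤ 1) (w0 : √T ≤ W)
    (w1 : W ≤ T ^ (2 / 3 : ℝ)) : ∃ Y U : ℕ, 1 ≤ Y ∧ 1 ≤ U ∧ W ^ 3 * T ^ (κ - 1) ≤ (Y : ℝ) ^ 3 ∧
      (Y : ℝ) ≤ 2 * T ∧ W * T ^ κ ≤ U ∧ (U : ℝ) ≤ 2 * T ^ κ * W ∧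
      ((Y ^ 2 : ℕ) : ℝ) ≤ 4 * T ^ κ * (W ^ 2 / T ^ (2 / 3 : ℝ)) ∧
      ((Y ^ 2 : ℕ) : ℝ) ≤ 4 * T ^ κ * W ∧ (((Y ^ 2 : ℕ) : ℝ) * U) ^ (κ / 4) ≤ 8 * T ^ κ := by
  have hT0 : 0 < T := by linarith
  have g1 : 1 ≤ T ^ κ := Real.one_le_rpow hT h0.le
  have g2 : T ^ κ ≤ T := by simpa using Real.rpow_le_rpow_of_exponent_le hT h1
  have s1 : 1 ≤ √T := Real.one_le_sqrt.2 hT
  have hW : 1 ≤ W := s1.trans w0
  have w2 : W ≤ T := w1.trans (by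
    simpa using Real.rpow_le_rpow_of_exponent_le hT (show (2 / 3 : ℝ) ≤ 1 by norm_num))
  obtain ⟨z, hz⟩ : ∃ z, z = T ^ ((κ - 1) / 3) := ⟨_, rfl⟩
  have z0 : 0 < z := hz ▸ Real.rpow_pos_of_pos hT0 _
  have z1 : z ≤ 1 := hz ▸ Real.rpow_le_one_of_one_le_of_nonpos hT (by linarith)
  have z2 : 1 ≤ W * z := by
    refine le_trans ?_ (mul_le_mul_of_nonneg_right w0 z0.le)
    rw [Real.sqrt_eq_rpow, hz, ← Real.rpow_add hT0]
    exact Real.one_le_rpow hT (by linarith)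
  have z3 : z ^ 3 = T ^ (κ - 1) := by
    rw [hz, ← Real.rpow_natCast, ← Real.rpow_mul hT0.le]
    congr 1
    push_cast
    ring
  have z4 : z ^ 2 ≤ T ^ κ / T ^ (2 / 3 : ℝ) := by
    rw [hz, ← Real.rpow_natCast, ← Real.rpow_mul hT0.le, ← Real.rpow_sub hT0]
    refine Real.rpow_le_rpow_of_exponent_le hT ?_
    push_cast
    linarith
  have y1 := Nat.le_ceil (W * z)
  have y2 : (⌈W * z⌉₊ : ℝ) ≤ 2 * (W * z) := by
    linarith [Nat.ceil_lt_add_one (show 0 ≤ W * z by linarith)]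
  have u0 : 1 ≤ W * T ^ κ := one_le_mul_of_one_le_of_one_le hW g1
  have u1 := Nat.le_ceil (W * T ^ κ)
  have u2 : (⌈W * T ^ κ⌉₊ : ℝ) ≤ 2 * T ^ κ * W := by
    linarith [Nat.ceil_lt_add_one (show 0 ≤ W * T ^ κ by linarith)]
  have y3 : (⌈W * z⌉₊ : ℝ) ≤ 2 * T := y2.trans (by nlinarith)
  have m1 : ((⌈W * z⌉₊ ^ 2 : ℕ) : ℝ) ≤ 4 * T ^ κ * (W ^ 2 / T ^ (2 / 3 : ℝ)) := by
    rw [Nat.cast_pow]
    calc _ ≤ (2 * (W * z)) ^ 2 := by gcongr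
      _ = 4 * W ^ 2 * z ^ 2 := by ring
      _ ≤ 4 * W ^ 2 * (T ^ κ / T ^ (2 / 3 : ℝ)) := by gcongr
      _ = _ := by ring
  refine ⟨⌈W * z⌉₊, ⌈W * T ^ κ⌉₊, by exact_mod_cast z2.trans y1, by exact_mod_cast u0.trans u1,
    ?_, y3, u1, u2, m1, m1.trans ?_, ?_⟩
  · rw [← z3, ← mul_pow]
    gcongr
  · gcongr
    rw [div_le_iff₀ (by positivity), sq]
    gcongr
  · calc _ ≤ (8 * T ^ (4 : ℝ)) ^ (κ / 4) := by
          refine Real.rpow_le_rpow (by positivity) ?_ (by positivity)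
          rw [Nat.cast_pow, Real.rpow_ofNat]
          calc _ ≤ (2 * T) ^ 2 * (2 * T ^ κ * W) := by gcongr
            _ ≤ (2 * T) ^ 2 * (2 * T * T) := by gcongr
            _ = _ := by ring
      _ = 8 ^ (κ / 4) * T ^ κ := by
          rw [Real.mul_rpow (by norm_num) (by positivity), ← Real.rpow_mul hT0.le]
          congr 2
          ring
      _ ≤ _ := by
          gcongr
          simpa using Real.rpow_le_rpow_of_exponent_le (show (1 : ℝ) ≤ 8 by norm_num)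
            (show κ / 4 ≤ 1 by linarith)

theorem vlv_n {κ K : ℝ} (h0 : 0 < κ) (hK : 1 ≤ K) : ∃ C : ℝ, 0 < C ∧ ∀ T : ℝ, 1 ≤ T → ∃ n : ℕ,
    K * T ^ 3 < 2 ^ n ∧ (n : ℝ) ^ 6 ≤ C * T ^ κ := by
  obtain ⟨C, hC, h⟩ := log_le_rpow (ε := κ / 18) (by positivity)
  refine ⟨(4 * C) ^ 6 * K ^ (κ / 3), by positivity, fun T hT => ?_⟩
  have hT0 : 0 < T := by linarith
  have x1 : 1 ≤ K * T ^ 3 := one_le_mul_of_one_le_of_one_le hK (one_le_pow₀ hT)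
  have x2 : 1 ≤ ⌊K * T ^ 3⌋₊ := Nat.le_floor (by exact_mod_cast x1)
  refine ⟨Nat.log 2 ⌊K * T ^ 3⌋₊ + 2, ?_, ?_⟩
  · refine (vlv_log x1).2.trans_lt ?_
    have : (0 : ℝ) < 2 ^ Nat.log 2 ⌊K * T ^ 3⌋₊ := by positivity
    rw [pow_add]
    linarith
  · have a1 := vwc_log x2
    have a2 : Real.log ⌊K * T ^ 3⌋₊ ≤ Real.log (K * T ^ 3) :=
      Real.log_le_log (by exact_mod_cast x2) (Nat.floor_le (by linarith))
    have a3 := h _ x1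
    have a4 := Real.log_nonneg x1
    calc _ ≤ (4 * C * (K * T ^ 3) ^ (κ / 18)) ^ 6 := by
          gcongr
          push_cast at a1 ⊢
          linarith
      _ = _ := by
          rw [mul_pow (4 * C), ← Real.rpow_natCast (_ ^ (κ / 18)), ← Real.rpow_mul (by positivity),
            Real.mul_rpow (by linarith) (by positivity), ← Real.rpow_natCast T,
            ← Real.rpow_mul hT0.le, mul_assoc]
          congr 3 <;> push_cast <;> ring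

theorem lv : ∃ C : ℝ, 0 < C ∧ ∀ (v : ℝ → ℝ) (T W V Λ : ℝ), 1 ≤ T → 1 ≤ Λ →
    T ^ (1 / 2 + 1 / 12000 : ℝ) ≤ W → W ≤ T ^ (63 / 100 : ℝ) → W ≤ V → V ≤ 2 * W →
    Wg v T (4 * W) (Λ * W) (Λ * T ^ (3 / 2 : ℝ)) (Λ * T ^ 3) →
    mo 3 (fun x => (zs 3).B V x - (zs 3).B W x) v T ≤
      C * Λ ^ 10 * T ^ (5 / 2 - 1 / 50000 : ℝ) := by
  obtain ⟨κ, hκ⟩ : ∃ κ : ℝ, κ = 1 / 10000000 := ⟨_, rfl⟩
  have κ0 : 0 < κ := by rw [hκ]; norm_num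
  obtain ⟨C₁, hC₁, H₁⟩ := lv_cls
  obtain ⟨C₂, hC₂, H₂⟩ := pt_main κ0
  obtain ⟨C₃, hC₃, H₃⟩ := maj_two (ε := κ / 4) (by positivity)
  obtain ⟨C₄, hC₄, H₄⟩ := maj_four (ε := κ / 4) (by positivity)
  obtain ⟨C₅, hC₅, H₅⟩ := sg_av (zs 3)
  obtain ⟨C₆, hC₆, H₆⟩ := sg_sup (zs 3) κ0
  obtain ⟨C₇, hC₇, H₇⟩ := vlv_n (K := 48 * (C₃ + C₄) + 1) κ0 (by linarith)
  obtain ⟨K, hK⟩ : ∃ K, K = 4 + 48 * (C₃ + C₄) + C₁ * (C₂ + 1) ^ 4 + C₆ := ⟨_, rfl⟩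
  have k0 : 0 < C₁ * (C₂ + 1) ^ 4 := by positivity
  have K4 : 4 ≤ K := by linarith
  refine ⟨4 * (2 * C₅) ^ 3 + 16 * C₂ ^ 3 + 64 * C₇ * K ^ 10, by positivity,
    fun v T W V Λ hT hΛ w0 w1 hV hV' hv => ?_⟩
  have hT0 : 0 < T := by linarith
  have w2 : √T ≤ W := by
    rw [Real.sqrt_eq_rpow]
    exact (Real.rpow_le_rpow_of_exponent_le hT (by norm_num)).trans w0
  have w3 : W ≤ T ^ (2 / 3 : ℝ) := w1.trans (Real.rpow_le_rpow_of_exponent_le hT (by norm_num))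
  have w4 : W ≤ T := w3.trans (by
    simpa using Real.rpow_le_rpow_of_exponent_le hT (show (2 / 3 : ℝ) ≤ 1 by norm_num))
  have hW : 1 ≤ W := (Real.one_le_sqrt.2 hT).trans w2
  have hW0 : 0 < W := by linarith
  obtain ⟨Y, U, hY, hU, p1, p2, p3, p4, p5, p6, p7⟩ :=
    vlv_par hT κ0 (by rw [hκ]; norm_num) w2 w3
  obtain ⟨n, n1, n2⟩ := H₇ T hT
  obtain ⟨G, hG⟩ : ∃ G, G = T ^ κ := ⟨_, rfl⟩
  have g1 : 1 ≤ G := hG ▸ Real.one_le_rpow hT κ0.le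
  have g2 : G ≤ T := by
    simpa [hG] using Real.rpow_le_rpow_of_exponent_le hT (show κ ≤ 1 by rw [hκ]; norm_num)
  have u1 := (up_mem hW0 hV hV').1
  have u2 := (up_mem hW0 le_rfl (by linarith)).1
  obtain ⟨ψ, hψ, q1, q2⟩ := H₂ T W _ _ Y U hT hW w4 u1 u2 p1 p2 p3
  have hM : 1 ≤ Y ^ 2 := Nat.one_le_pow _ _ hY
  have sc3 : ∀ n, ‖sc Y n‖ ≤ 3 * dv n := fun n => (sc_le Y n).trans (by linarith [dv_nonneg n])
  obtain ⟨α, hα, a1⟩ := H₃ (xc Y) (sc Y) (Y ^ 2) U hM hU (xc_le Y) sc3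
  have hπ := H₄ (sc Y) (dp (fun _ => 1) Y) (Y ^ 2) U hM hU sc3 (dp_cont _ _) (pt_sq Y)
  rw [← hG] at p4 p5 p6 p7 n2
  obtain ⟨L, hL⟩ : ∃ L, L = K * Λ * G ^ 2 := ⟨_, rfl⟩
  have l0 : 1 ≤ G ^ 2 := one_le_pow₀ g1
  have l1 : K * G ^ 2 ≤ L := by
    rw [hL]
    gcongr
    exact le_mul_of_one_le_right (by linarith) hΛ
  have l2 : K * G ≤ L := le_trans (by gcongr; nlinarith) l1
  have l3 : K ≤ L := le_trans (le_mul_of_one_le_right (by linarith) g1) l2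
  have l4 : Λ ≤ L := by
    rw [hL]
    calc Λ = 1 * Λ * 1 := by ring
      _ ≤ _ := by gcongr; linarith
  have m1 : 8 * (C₃ + C₄) * G * (U + (Y ^ 2 : ℕ)) ≤ 48 * (C₃ + C₄) * G ^ 2 * W :=
    calc _ ≤ 8 * (C₃ + C₄) * G * (2 * G * W + 4 * G * W) := by gcongr
      _ = _ := by ring
  have cq : Continuous fun t => (zt t + ‖dp (fun _ => 1) Y t‖) ^ 4 :=
    (zt_cont.add (dp_cont _ _).norm).pow 4
  obtain ⟨Wf, e1, e2⟩ := H₁ ψ α
    (fun k => 1 + ∫ t in (k : ℝ)..k + 1, (zt t + ‖dp (fun _ => 1) Y t‖) ^ 4) (Y ^ 2) U n T W L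
    (8 * (C₃ + C₄) * G) (C₂ + 1) hT (K4.trans l3) w0 w1 hψ hM hU
    (hα.mono (by nlinarith))
    (hπ.trans (mul_le_mul_of_nonneg_right (by nlinarith) (by positivity)))
    (fun k => ⟨(a1 k).1, le_add_of_nonneg_right (intervalIntegral.integral_nonneg (by linarith)
      fun t _ => by have := zt_nonneg t; positivity)⟩) (by linarith)
    (fun k => by
      have := hα.pos k
      calc _ ≤ ∫ t in (k : ℝ)..k + 1,
            (C₂ / W) ^ 4 * α k ^ 2 * (zt t + ‖dp (fun _ => 1) Y t‖) ^ 4 := by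
            refine intervalIntegral.integral_mono_on (by linarith)
              ((hψ.norm.pow 4).intervalIntegrable _ _)
              ((continuous_const.mul cq).intervalIntegrable _ _) fun t ht => ?_
            refine (pow_le_pow_left₀ (norm_nonneg _) (q1 t) 4).trans ?_
            rw [mul_pow, mul_pow, ← mul_assoc, show 4 = 2 * 2 by norm_num, pow_mul (_ + ‖dp (sc Y) _ _‖)]
            have := zt_nonneg t
            gcongr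
            exact (a1 k).2 t ht
        _ = (C₂ / W) ^ 4 *
            (α k ^ 2 * ∫ t in (k : ℝ)..k + 1, (zt t + ‖dp (fun _ => 1) Y t‖) ^ 4) := by
            rw [intervalIntegral.integral_const_mul, mul_assoc]
        _ ≤ _ := by
            have : 0 ≤ ∫ t in (k : ℝ)..k + 1, (zt t + ‖dp (fun _ => 1) Y t‖) ^ 4 :=
              intervalIntegral.integral_nonneg (by linarith)
                fun t _ => by have := zt_nonneg t; positivity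
            gcongr <;> linarith)
    (m1.trans (by gcongr; exact le_trans (by gcongr; linarith) l1))
    ((m1.trans (by
      calc _ ≤ (48 * (C₃ + C₄) + 1) * T ^ 2 * T := by gcongr; linarith
        _ = _ := by ring)).trans_lt n1)
    (le_trans (by gcongr; linarith) l2) (p5.trans (by gcongr; exact le_trans (by gcongr) l2))
    (p4.trans (by gcongr; exact le_trans (by gcongr; linarith) l2)) (le_trans (by linarith) l3)
  have c1 := (zs 3).B_cont (hW0.trans_le u1.1)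
  have c2 := (zs 3).B_cont (hW0.trans_le u2.1)
  have hv' := hv.mono hT0.le (mul_le_mul_of_nonneg_right l4 hW0.le) le_rfl
    (mul_le_mul_of_nonneg_right l4 (by positivity))
  have r1 := wt_main (Finset.range n ×ˢ Finset.range n) (S := L * (T / W)) (ρ := C₂)
    (Z := L ^ 10 * T ^ (5 / 2 - 1 / 40000 : ℝ)) hT0 (by linarith) hv' (c1.sub c2)
    (fun q _ => pc_cont hψ (Wf q)) (by have : 0 < L := by linarith
                                       positivity)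
    (fun y hy => ⟨(H₆ T W _ _ hT hW w3 u1 u2 y hy).trans (by
      rw [← hG]
      gcongr
      exact le_trans (by gcongr; linarith) l2), by rw [← e1]; exact q2 y hy⟩) fun q _ => e2 q
  have bm : ∀ {h : ℝ → ℂ}, ContinuousOn h (Ioi 0) → Bm h T := fun hh => bm_pos hT0 hh
  have d1 := (zs 3).B_cont (hW0.trans_le hV)
  have d2 := (zs 3).B_cont hW0
  have d3 := av_cont (W := 4 * W) (c1.sub c2)
  have r2 := mo3_tri hT0.le hv.cont hv.pos (bm d1) (bm (d2.add d3)) (bm d2)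
  have r3 := mo3_sup (ρ := 2 * C₅) hT0.le hv (bm (d1.sub (d2.add d3))) (by positivity)
    fun x hx => by
      have x0 := hT0.trans_le hx.1
      have e := av_add (W := 4 * W) (c1.sub c2) c2 x0
      simp only [Pi.sub_apply, sub_add_cancel] at e
      have i1 := H₅ T W V hT w2 hV hV' x hx
      have i2 := H₅ T W W hT w2 le_rfl (by linarith) x hx
      refine le_trans (le_of_eq ?_) ((norm_sub_le _ _).trans (by linarith :
        ‖(zs 3).B V x - av (4 * W) ((zs 3).B (up W V)) x‖ +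
          ‖(zs 3).B W x - av (4 * W) ((zs 3).B (up W W)) x‖ ≤ 2 * C₅))
      congr 1
      rw [show av (4 * W) ((zs 3).B (up W V)) x = _ from e]
      simp only [Pi.sub_apply, Pi.add_apply]
      ring
  simp only [Pi.add_apply, add_sub_cancel_left] at r2
  have t1 : Λ * T ^ (3 / 2 : ℝ) ≤ Λ ^ 10 * T ^ (5 / 2 - 1 / 50000 : ℝ) := by
    gcongr
    · exact le_self_pow₀ hΛ (by norm_num)
    · norm_num
  have t2 : ((Finset.range n ×ˢ Finset.range n).card : ℝ) ^ 3 *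
      (L ^ 10 * T ^ (5 / 2 - 1 / 40000 : ℝ)) ≤
      C₇ * K ^ 10 * (Λ ^ 10 * T ^ (5 / 2 - 1 / 50000 : ℝ)) := by
    have e : G ^ 21 * T ^ (5 / 2 - 1 / 40000 : ℝ) ≤ T ^ (5 / 2 - 1 / 50000 : ℝ) := by
      rw [hG, ← Real.rpow_natCast, ← Real.rpow_mul hT0.le, ← Real.rpow_add hT0, hκ]
      exact Real.rpow_le_rpow_of_exponent_le hT (by norm_num)
    rw [Finset.card_product, Finset.card_range, Nat.cast_mul]
    calc _ = (n : ℝ) ^ 6 * (L ^ 10 * T ^ (5 / 2 - 1 / 40000 : ℝ)) := by ring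
      _ ≤ C₇ * G * (L ^ 10 * T ^ (5 / 2 - 1 / 40000 : ℝ)) := by gcongr
      _ = C₇ * K ^ 10 * (Λ ^ 10 * (G ^ 21 * T ^ (5 / 2 - 1 / 40000 : ℝ))) := by rw [hL]; ring
      _ ≤ _ := by gcongr
  have t3 := mul_le_mul_of_nonneg_left t1 (show 0 ≤ (2 * C₅) ^ 3 by positivity)
  have t4 := mul_le_mul_of_nonneg_left t1 (show 0 ≤ C₂ ^ 3 by positivity)
  refine (r2.trans (add_le_add (mul_le_mul_of_nonneg_left r3 (by norm_num))
    (mul_le_mul_of_nonneg_left r1 (by norm_num)))).trans ?_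
  linarith

end Pool.Agent.Lib.MP_2a1a00_nt
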