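import Pool.Agent.Lib.MP_2a1a00_nt.C.Fin

/-! The moments of order zero and one, and the final family. -/

namespace Pool.Agent.Lib.MP_2a1a00_nt

open Complex MeasureTheory Set

theorem mom_one {F : Sel} (h : F.deg = 2) : ∃ C : ℝ, ∀ T : ℝ, 1 ≤ T →
    ‖∫ x in (1 : ℝ)..T, F.E x ^ 1‖ ≤ C * T ^ (1 + (1 : ℕ) / 4 - 1 / 800 : ℝ) := by
  obtain ⟨P, hP⟩ := F.vor h.ge
  obtain ⟨K, k1, k2⟩ := Sel.trig1 h hP.1 (1 / 100)
  obtain ⟨B, b1, b2⟩ := trig_bd (G := fun T => F.Hs P (1 / 100) T) (β := P.ex 2) (M := fun _ => 1)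
    hP.1 (by rw [Vo.ex_re, al_two]; norm_num) k1 (bd_const 1) (fun _ _ => one_pos) fun T _ =>
      Or.inr ((k2 T).mono le_rfl fun _ _ h => h.2)
  rw [Vo.ex_re, al_two] at b1
  have d := fn_diff h hP one_le_two
  refine bd_dsum (c := 1 + (1 : ℕ) / 4 - 1 / 400) (fun a b ha hb => (hy_int F F F 1 1 ha hb).2)
    (by norm_num) (by norm_num) (bd_split (k := fun _ x => F.E x ^ 1)
      (f := fun T x => F.E x ^ 1 - F.Hs P (1 / 100) T x ^ 1) (g := fun T => F.Hs P (1 / 100) T)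
      (fun T hT => ((F.bm_E hT).pow 1).sub ((F.bm_Hs P _ hT).pow 1)) (fun T hT => F.bm_Hs P _ hT)
      (d.of_le fun T hT => intervalIntegral.norm_integral_le_integral_norm (by linarith))
      ((b1.mono (by norm_num)).of_le fun T hT => b2 T hT _ ⟨by linarith, le_rfl⟩) fun T x => by ring)

theorem main_fam {F : Sel} (h : F.deg = 2) {a : ℕ} {M : ℂ}
    (hM : (a = 0 ∧ M = 1) ∨ (a = 1 ∧ M = 0) ∨ (a = 2 ∧ ∃ δ : ℝ, 0 < δ ∧ ∀ ε : ℝ, 0 < ε →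
      ∃ C : ℝ, ∀ T : ℝ, 1 ≤ T → ‖(∫ x in (1 : ℝ)..T, F.E x ^ 2) - M * (T ^ (3 / 2 : ℝ) : ℝ)‖ ≤
        C * T ^ (3 / 2 - δ + ε))) :
    ∃ δ' : ℝ, 0 < δ' ∧ ∃ C : ℝ, ∀ T : ℝ, 1 ≤ T →
      ‖(∫ x in (1 : ℝ)..T, F.E x ^ a * Del 3 x ^ 3) -
        2 * (4 + a) / (8 + a) * M * c3 * (T ^ (2 + (a : ℝ) / 4) : ℝ)‖ ≤
        C * T ^ (2 + (a : ℝ) / 4 - δ') := by
  rcases hM with ⟨rfl, rfl⟩ | ⟨rfl, rfl⟩ | ⟨rfl, δ, hδ, H⟩
  · refine main_cube h (by norm_num) one_pos fun ε hε => ⟨1, fun T hT => ?_⟩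
    simp only [pow_zero, intervalIntegral.integral_const, Nat.cast_zero, zero_div, add_zero,
      Real.rpow_one, one_mul, real_smul, mul_one, ofReal_sub, ofReal_one, sub_sub_cancel_left,
      norm_neg, norm_one]
    exact Real.one_le_rpow hT (by linarith)
  · obtain ⟨C, H⟩ := mom_one h
    refine main_cube h (by norm_num) (δ := 1 / 800) (by norm_num) fun ε hε => ⟨|C|, fun T hT => ?_⟩
    rw [zero_mul, sub_zero]
    exact (H T hT).trans (mul_le_mul (le_abs_self C) (Real.rpow_le_rpow_of_exponent_le hT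
      (by linarith)) (rpow_nn hT _) (abs_nonneg C))
  · refine main_cube h le_rfl hδ ?_
    rwa [show (1 + ((2 : ℕ) : ℝ) / 4 : ℝ) = 3 / 2 by norm_num]

end Pool.Agent.Lib.MP_2a1a00_nt
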