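import Pool.Agent.Lib.MP_2a1a00_nt.C.Defs
import Pool.Agent.Lib.MP_2a1a00_nt.V.F1

/-! The part of ζ ^ 3 whose dual series lives on large integers. -/

namespace Pool.Agent.Lib.MP_2a1a00_nt

open Complex MeasureTheory Set

theorem sc_le (Y n : ℕ) : ‖sc Y n‖ ≤ dv n := by
  refine (norm_sum_le _ _).trans ((Finset.sum_le_card_nsmul _ _ 1 fun p _ => ?_).trans ?_)
  · split_ifs <;> simp
  · rw [dv, ← Nat.map_div_right_divisors, Finset.card_map, nsmul_one]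

theorem xc_le (Y n : ℕ) : ‖xc Y n‖ ≤ 3 * dv n := by
  refine (norm_sum_le _ _).trans ((Finset.sum_le_card_nsmul _ _ 3 fun p _ => ?_).trans ?_)
  · split_ifs <;> norm_num
  · rw [dv, ← Nat.map_div_right_divisors, Finset.card_map, nsmul_eq_mul, mul_comm]

theorem pt1_fin (c : ℕ → ℂ) (M : ℕ) (s : ℂ) : LSeriesHasSum (fun n => if n ≤ M then c n else 0)
    (1 - s) (∑ n ∈ Finset.Icc 1 M, c n * (n : ℂ) ^ (s - 1)) := by
  have : ∑ n ∈ Finset.Icc 1 M, c n * (n : ℂ) ^ (s - 1) = ∑ n ∈ Finset.Icc 1 M,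
      LSeries.term (fun n => if n ≤ M then c n else 0) (1 - s) n :=
    Finset.sum_congr rfl fun n hn => by
      obtain ⟨h1, h2⟩ := Finset.mem_Icc.1 hn
      rw [LSeries.term_of_ne_zero (by omega), if_pos h2, div_eq_mul_inv, ← cpow_neg, neg_sub]
  rw [this]
  refine hasSum_sum_of_ne_finset_zero fun n hn => ?_
  rcases Nat.eq_zero_or_pos n with rfl | h
  · exact LSeries.term_zero _ _
  · rw [LSeries.term_of_ne_zero h.ne', if_neg fun h' => hn (Finset.mem_Icc.2 ⟨h, h'⟩), zero_div]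

theorem pt1_dp (c : ℕ → ℂ) (M : ℕ) (t : ℝ) :
    dp c M t = ∑ n ∈ Finset.Icc 1 M, c n * (n : ℂ) ^ (((1 / 2 : ℝ) : ℂ) + t * I - 1) := by
  refine Finset.sum_congr rfl fun n hn => ?_
  have h : (0 : ℝ) < n := by exact_mod_cast (Finset.mem_Icc.1 hn).1
  rw [mul_assoc, Real.rpow_def_of_pos h, ofReal_exp, ← exp_add,
    cpow_def_of_ne_zero (by exact_mod_cast h.ne'), ← natCast_log]
  congr 2
  push_cast
  ring

theorem pt1_Hd (Y : ℕ) (s : ℂ) :
    (zs 1).Hd Y s = ∑ n ∈ Finset.Icc 1 Y, (1 : ℂ) * (n : ℂ) ^ (s - 1) :=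
  Finset.sum_congr rfl fun n hn => by rw [zs_f1 (Finset.mem_Icc.1 hn).1, map_one]

/- Finset.sum_fiberwise_of_maps_to for p ↦ p.1 * p.2 on Icc 1 Y ×ˢ Icc 1 Y. -/
theorem pt_sq (Y : ℕ) (t : ℝ) : dp (fun _ => 1) Y t ^ 2 = dp (sc Y) (Y ^ 2) t := by
  rw [pt1_dp, pt1_dp, sq]
  refine ((pt1_fin _ Y _).convolution (pt1_fin _ Y _)).unique ?_
  have : LSeries.convolution (fun n => if n ≤ Y then (1 : ℂ) else 0)
      (fun n => if n ≤ Y then 1 else 0) = fun n => if n ≤ Y ^ 2 then sc Y n else 0 := by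
    funext n
    rw [LSeries.convolution_def]
    have e : ∑ p ∈ n.divisorsAntidiagonal, (if p.1 ≤ Y then (1 : ℂ) else 0) *
        (if p.2 ≤ Y then 1 else 0) = sc Y n :=
      Finset.sum_congr rfl fun p _ => by by_cases p.1 ≤ Y <;> by_cases p.2 ≤ Y <;> simp [*]
    simp only [e]
    split_ifs with h
    · rfl
    · refine Finset.sum_eq_zero fun p hp => if_neg fun h' => h ?_
      rw [← (Nat.mem_divisorsAntidiagonal.1 hp).1, sq]
      exact Nat.mul_le_mul h'.1 h'.2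
  rw [this]
  exact pt1_fin _ _ _

theorem pt_half (Y : ℕ) (t : ℝ) : (zs 1).Hd Y ((1 / 2 : ℝ) + t * I) = dp (fun _ => 1) Y t ∧
    Xp Y ((1 / 2 : ℝ) + t * I) = dp (xc Y) (Y ^ 2) t := by
  rw [pt1_dp, pt1_dp]
  exact ⟨pt1_Hd _ _, rfl⟩

/- With z = 1 - s, re z = 1 + A: Hd Y s = LSeries σ z for the indicator σ of [1, Y],
Hd Y s + Tl Y s = ζ z = LSeries 1 z (Hd_add_Tl, riemannZeta_conj), and LSeries_convolution' shows
that the three products add up to LSeries (xc Y) z.  The terms with n > Y ^ 2 are at most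
3 C n ^ (1 / 2 - 1 - A) (xc_le, dv_le), sum_rpow_tail; compare f1_tail. -/
theorem pt_tail {A : ℝ} (hA : 1 ≤ A) : ∃ C : ℝ, 0 < C ∧ ∀ (Y : ℕ) (s : ℂ), s.re = -A →
    ‖(zs 1).Hd Y s ^ 2 + (zs 1).Hd Y s * ((zs 1).Hd Y s + (zs 1).Tl Y s) +
      ((zs 1).Hd Y s + (zs 1).Tl Y s) ^ 2 - Xp Y s‖ ≤ C * ((Y : ℝ) ^ 2 + 1) ^ (-A + 1 / 2) := by
  obtain ⟨C1, hC1, h2⟩ := dv_le (ε := 1 / 2) one_half_pos
  obtain ⟨C2, hC2, h3⟩ := sum_rpow_tail (β := A - 1 / 2) (by linarith)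
  refine ⟨3 * C1 * C2, by positivity, fun Y s hs => ?_⟩
  have a1 := pt1_fin (fun _ => 1) Y s
  rw [← pt1_Hd] at a1
  have a2 : LSeriesHasSum 1 (1 - s) ((zs 1).Hd Y s + (zs 1).Tl Y s) := by
    rw [Sel.Hd_add_Tl _ _ (by linarith), zs_L 1 (fun e => by
      have := congrArg re e
      rw [sub_re, conj_re] at this
      linarith), pow_one, ← riemannZeta_conj, map_sub, map_one, conj_conj]
    exact LSeriesHasSum_one (by rw [sub_re, one_re]; linarith)
  have a3 := ((a1.convolution a1).add (a1.convolution a2)).add (a2.convolution a2)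
  have e : LSeries.convolution (fun n => if n ≤ Y then (1 : ℂ) else 0)
      (fun n => if n ≤ Y then 1 else 0) + LSeries.convolution (fun n => if n ≤ Y then 1 else 0) 1 +
      LSeries.convolution 1 1 = xc Y := by
    funext n
    simp only [LSeries.convolution_def, Pi.add_apply, ← Finset.sum_add_distrib]
    exact Finset.sum_congr rfl fun p _ => by by_cases p.1 ≤ Y <;> by_cases p.2 ≤ Y <;> simp [*]
  rw [e, ← sq, ← sq] at a3
  refine le_of_tendsto' (HasSum.sub a3 (pt1_fin (xc Y) (Y ^ 2) s)).tendsto_sum_nat.norm fun X => ?_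
  calc _ ≤ ∑ n ∈ Finset.range X, if Y ^ 2 < n then 3 * C1 * (n : ℝ) ^ (-1 - (A - 1 / 2)) else 0 := by
        refine norm_sum_le_of_le _ fun n _ => ?_
        rcases Nat.eq_zero_or_pos n with rfl | hn
        · simp
        have h0 : (0 : ℝ) < n := by exact_mod_cast hn
        rw [LSeries.term_of_ne_zero hn.ne', LSeries.term_of_ne_zero hn.ne']
        split_ifs with h4 h5 h5
        · omega
        · simp
        · rw [zero_div, sub_zero, norm_div, norm_natCast_cpow_of_pos hn, div_le_iff₀ (by positivity),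
            mul_assoc, ← Real.rpow_add h0, sub_re, one_re, hs,
            show -1 - (A - 1 / 2) + (1 - -A) = 1 / 2 by ring]
          linarith [xc_le Y n, h2 n]
        · omega
    _ ≤ ∑ n ∈ Finset.Ioc (Y ^ 2) X, 3 * C1 * (n : ℝ) ^ (-1 - (A - 1 / 2)) := by
        rw [← Finset.sum_filter]
        refine Finset.sum_le_sum_of_subset_of_nonneg (fun n hn => ?_) fun _ _ _ => by positivity
        rw [Finset.mem_filter, Finset.mem_range] at hn
        exact Finset.mem_Ioc.2 ⟨hn.2, hn.1.le⟩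
    _ ≤ _ := by
        have := h3 (Y ^ 2) X
        rw [Nat.cast_pow, show -(A - 1 / 2) = -A + 1 / 2 by ring] at this
        rw [← Finset.mul_sum, mul_assoc (3 * C1)]
        exact mul_le_mul_of_nonneg_left this (by positivity)

/- fe' and Hd_add_Tl: L s = chi s * (Hd + Tl), so RR = chi ^ 3 * (X - Xp) * Tl (ring);
chi_le_strip, pt_tail, f1_tail with η = 1 / 2. -/
theorem pt_RR {A : ℝ} (hA : 1 ≤ A) : ∃ C : ℝ, 0 < C ∧ ∀ (Y : ℕ) (t : ℝ), 1 ≤ Y →
    ‖RR Y ((-A : ℝ) + t * I)‖ ≤ C * (1 + |t|) ^ (3 * (1 / 2 + A)) * ((Y : ℝ) ^ 3) ^ (-A + 1 / 2) := by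
  obtain ⟨C1, hC1, e1⟩ := (zs 1).chi_le_strip A
  obtain ⟨C2, hC2, e2⟩ := pt_tail hA
  obtain ⟨C3, hC3, e3⟩ := (zs 1).f1_tail (A := A) one_half_pos (by linarith)
  refine ⟨C1 ^ 3 * C2 * C3, by positivity, fun Y t hY => ?_⟩
  have Y0 : (0 : ℝ) < Y := by exact_mod_cast hY
  have f3 := (e3 Y t).trans (mul_le_mul_of_nonneg_left
    (Real.rpow_le_rpow_of_nonpos Y0 (le_add_of_nonneg_right zero_le_one) (by linarith)) hC3.le)
  have hre : ((((-A : ℝ) : ℂ) + t * I)).re = -A := by simp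
  have him : ((((-A : ℝ) : ℂ) + t * I)).im = t := by simp
  generalize (((-A : ℝ) : ℂ) + t * I) = s at hre him f3
  have f1 := e1 s ⟨hre.ge, by linarith⟩
  rw [hre, him, sub_neg_eq_add, zs_deg1, one_mul] at f1
  have f2 := (e2 Y s hre).trans (mul_le_mul_of_nonneg_left (Real.rpow_le_rpow_of_nonpos
    (pow_pos Y0 2) (le_add_of_nonneg_right zero_le_one) (by linarith)) hC2.le)
  have h0 : s ≠ 0 := by
    rintro rfl
    rw [zero_re] at hre
    linarith
  have e : RR Y s = (zs 1).chi s ^ 3 * ((zs 1).Hd Y s ^ 2 +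
      (zs 1).Hd Y s * ((zs 1).Hd Y s + (zs 1).Tl Y s) + ((zs 1).Hd Y s + (zs 1).Tl Y s) ^ 2 -
      Xp Y s) * (zs 1).Tl Y s := by
    rw [RR, (zs 1).fe' (by linarith) h0, ← (zs 1).Hd_add_Tl Y (by linarith)]
    ring
  rw [e, norm_mul, norm_mul, norm_pow, mul_comm 3, Real.rpow_mul (by positivity), Real.rpow_ofNat,
    pow_succ (Y : ℝ) 2, Real.mul_rpow (by positivity) Y0.le]
  refine (mul_le_mul (mul_le_mul (pow_le_pow_left₀ (norm_nonneg _) f1 3) f2 (norm_nonneg _)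
    (by positivity)) f3 (norm_nonneg _) (by positivity)).trans (le_of_eq ?_)
  ring

/-- Polynomial growth on the strip. -/
def PtG (A : ℝ) (f : ℂ → ℂ) : Prop := DifferentiableOn ℂ f (St (-A) (1 / 2)) ∧
  ∃ C K : ℝ, 0 ≤ C ∧ ∀ s ∈ St (-A) (1 / 2), ‖f s‖ ≤ C * (1 + |s.im|) ^ K

theorem PtG.mul {A : ℝ} {f g : ℂ → ℂ} (hf : PtG A f) (hg : PtG A g) :
    PtG A fun s => f s * g s := by
  obtain ⟨d, C, K, hC, h⟩ := hf
  obtain ⟨d', C', K', hC', h'⟩ := hg
  refine ⟨d.mul d', C * C', K + K', by positivity, fun s hs => ?_⟩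
  rw [norm_mul, Real.rpow_add (by positivity), mul_mul_mul_comm]
  exact mul_le_mul (h s hs) (h' s hs) (norm_nonneg _) (by positivity)

theorem PtG.sub {A : ℝ} {f g : ℂ → ℂ} (hf : PtG A f) (hg : PtG A g) :
    PtG A fun s => f s - g s := by
  obtain ⟨d, C, K, hC, h⟩ := hf
  obtain ⟨d', C', K', hC', h'⟩ := hg
  refine ⟨d.sub d', C + C', max K K', by positivity, fun s hs => (norm_sub_le _ _).trans ?_⟩
  have j : 1 ≤ 1 + |s.im| := le_add_of_nonneg_right (abs_nonneg _)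
  rw [add_mul]
  exact add_le_add ((h s hs).trans (mul_le_mul_of_nonneg_left
    (Real.rpow_le_rpow_of_exponent_le j (le_max_left _ _)) hC)) ((h' s hs).trans
    (mul_le_mul_of_nonneg_left (Real.rpow_le_rpow_of_exponent_le j (le_max_right _ _)) hC'))

theorem pt_poly (A : ℝ) (c : ℕ → ℂ) (N : ℕ) :
    PtG A fun s => ∑ n ∈ Finset.Icc 1 N, c n * (n : ℂ) ^ (s - 1) := by
  refine ⟨(Differentiable.fun_sum fun n hn => Differentiable.const_mul ?_ _).differentiableOn,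
    ∑ n ∈ Finset.Icc 1 N, ‖c n‖, 0, by positivity, fun s hs => ?_⟩
  · exact (differentiable_id.sub_const 1).const_cpow
      (Or.inl (Nat.cast_ne_zero.2 (by have := (Finset.mem_Icc.1 hn).1; omega)))
  · rw [Real.rpow_zero, mul_one]
    refine (norm_sum_le _ _).trans (Finset.sum_le_sum fun n hn => ?_)
    have h1 := (Finset.mem_Icc.1 hn).1
    rw [norm_mul, norm_natCast_cpow_of_pos h1, sub_re, one_re]
    exact mul_le_of_le_one_right (norm_nonneg _) (Real.rpow_le_one_of_one_le_of_nonpos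
      (by exact_mod_cast h1) (by linarith [hs.2]))

/- differentiableAt_L, chi_diff, differentiable_Hd, f1_growth, vf1_chi, rep2_Hd. -/
theorem pt_grow (A : ℝ) (Y : ℕ) : DifferentiableOn ℂ (RR Y) (St (-A) (1 / 2)) ∧
    ∃ C K : ℝ, 0 ≤ C ∧ ∀ s ∈ St (-A) (1 / 2), ‖RR Y s‖ ≤ C * (1 + |s.im|) ^ K := by
  obtain ⟨C1, K1, hC1, -, h1⟩ := (zs 1).f1_growth A
  obtain ⟨C2, K2, hC2, h2⟩ := (zs 1).vf1_chi A
  have L : PtG A (zs 1).L := ⟨fun s hs => ((zs 1).differentiableAt_L (by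
    rintro rfl
    have := hs.2
    norm_num at this)).differentiableWithinAt, C1, K1, hC1.le, h1⟩
  have c : PtG A (zs 1).chi :=
    ⟨(zs 1).chi_diff.mono fun s hs => lt_of_le_of_lt hs.2 (by norm_num), C2, K2, hC2.le, h2⟩
  have H : PtG A ((zs 1).Hd Y) := pt_poly A _ Y
  have X : PtG A (Xp Y) := pt_poly A _ _
  have h := (((L.mul L).mul L).sub (((c.mul c).mul c).mul ((H.mul H).mul H))).sub
    (((c.mul c).mul X).mul (L.sub (c.mul H)))
  simp only [← sq, ← pow_succ] at h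
  exact h

theorem ptb_line {A : ℝ} (hA : 1 ≤ A) : ∃ C : ℝ, 0 < C ∧ ∀ (Y : ℕ) (V y : ℝ), 1 ≤ Y → 1 ≤ V → 0 < y →
    ‖Ln (fun s => RR Y s * ((y : ℂ) ^ s * (gW V s / s))) (-A)‖ ≤
      C * (((Y : ℝ) ^ 3) ^ (-A + 1 / 2) * y ^ (-A) * V ^ (3 * (1 / 2 + A) + 1)) := by
  have A0 : 0 < A := by linarith
  obtain ⟨C2, hC2, e2⟩ := pt_RR hA
  obtain ⟨C4, hC4, e4⟩ := gW_poly (K := 3 * (1 / 2 + A)) (by positivity)
  refine ⟨C2 * (Real.exp (A ^ 2) / A) * C4, by positivity, fun Y V y hY hV hy => ?_⟩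
  obtain ⟨i4, e5⟩ := e4 V hV
  refine (norm_Ln_le 0 (i4.const_mul (C2 * (Real.exp (A ^ 2) / A) *
    (((Y : ℝ) ^ 3) ^ (-A + 1 / 2) * y ^ (-A)))) fun v => ?_).trans ?_
  · rw [zero_add]
    have f2 := e2 Y v hY
    have hre : ((((-A : ℝ) : ℂ) + v * I)).re = -A := by simp
    have him : ((((-A : ℝ) : ℂ) + v * I)).im = v := by simp
    generalize (((-A : ℝ) : ℂ) + v * I) = s at hre him f2
    have f4 : A ≤ ‖s‖ := by
      have := abs_re_le_norm s
      rwa [hre, abs_neg, abs_of_pos A0] at this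
    have f5 : ‖gW V s‖ ≤ Real.exp (A ^ 2) * Real.exp (-v ^ 2 / V ^ 2) := by
      rw [norm_gW (by linarith), hre, him, ← Real.exp_add, Real.exp_le_exp, neg_sq, sub_div,
        neg_div, sub_eq_add_neg]
      have : A ^ 2 / V ^ 2 ≤ A ^ 2 := div_le_self (by positivity) (one_le_pow₀ hV)
      linarith
    rw [norm_mul, norm_mul, norm_div, norm_cpow_eq_rpow_re_of_pos hy, hre]
    refine (mul_le_mul f2 (mul_le_mul_of_nonneg_left (div_le_div₀ (by positivity) f5 A0 f4)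
      (by positivity)) (by positivity) (by positivity)).trans (le_of_eq ?_)
    ring
  · rw [integral_const_mul]
    refine (mul_le_mul_of_nonneg_left e5 (by positivity)).trans (le_of_eq ?_)
    ring

/- vf1_shift for V and V': the terms RR Y 0 cancel.  On the line -A use pt_RR,
‖y ^ s‖ = y ^ (-A) ≤ (T / 2) ^ (-A), norm_gW, gW_poly: the bound is
C (W³ T ^ (κ - 1)) ^ (1 / 2 - A) T ^ (-A) W ^ (3 A + 5 / 2) = C W⁴ T ^ (κ / 2 - 1 / 2 - κ A) ≤ C for
A = 1 + 4 / κ. -/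
theorem pt_rem {κ : ℝ} (hκ : 0 < κ) : ∃ C : ℝ, 0 < C ∧ ∀ (T W V V' : ℝ) (Y : ℕ), 1 ≤ T → 1 ≤ W →
    W ≤ T → V ∈ Icc W (3 * W) → V' ∈ Icc W (3 * W) → W ^ 3 * T ^ (κ - 1) ≤ (Y : ℝ) ^ 3 →
    ∀ y ∈ Icc (T / 2) (4 * T),
    ‖Ln (fun s => RR Y s * ((y : ℂ) ^ s * (gW V s / s))) (1 / 2) -
      Ln (fun s => RR Y s * ((y : ℂ) ^ s * (gW V' s / s))) (1 / 2)‖ ≤ C := by
  obtain ⟨A, hA, eA⟩ : ∃ A : ℝ, 1 ≤ A ∧ κ * A = κ + 4 :=
    ⟨1 + 4 / κ, le_add_of_nonneg_right (by positivity), by field_simp⟩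
  obtain ⟨C, hC, h⟩ := ptb_line hA
  refine ⟨2 * (C * (2 ^ A * 3 ^ (3 * (1 / 2 + A) + 1))), by positivity,
    fun T W V V' Y hT hW hWT hV hV' hY y hy => ?_⟩
  have T0 : 0 < T := by linarith
  have W0 : 0 < W := by linarith
  have y0 : 0 < y := (half_pos T0).trans_le hy.1
  have p : 0 < W ^ 3 * T ^ (κ - 1) := by positivity
  have Y1 : 1 ≤ Y := Nat.one_le_iff_ne_zero.2 fun h0 => by
    rw [h0, Nat.cast_zero, zero_pow three_ne_zero] at hY
    linarith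
  obtain ⟨d, C', K, hC', hg⟩ := pt_grow A Y
  have key : ∀ U ∈ Icc W (3 * W), ‖Ln (fun s => RR Y s * ((y : ℂ) ^ s * (gW U s / s))) (-A)‖ ≤
      C * (2 ^ A * 3 ^ (3 * (1 / 2 + A) + 1)) := fun U hU => by
    refine (h Y U y Y1 (hW.trans hU.1) y0).trans (mul_le_mul_of_nonneg_left ?_ hC.le)
    refine (mul_le_mul (mul_le_mul (Real.rpow_le_rpow_of_nonpos p hY (by linarith))
      (Real.rpow_le_rpow_of_nonpos (half_pos T0) hy.1 (by linarith)) (by positivity)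
      (by positivity)) (Real.rpow_le_rpow (W0.le.trans hU.1) hU.2 (by positivity))
      (Real.rpow_nonneg (W0.le.trans hU.1) _) (by positivity)).trans ?_
    have e1 : W ^ ((3 : ℕ) * (-A + 1 / 2)) * W ^ (3 * (1 / 2 + A) + 1) ≤ T ^ (4 : ℝ) := by
      rw [← Real.rpow_add W0, show (3 : ℕ) * (-A + 1 / 2) + (3 * (1 / 2 + A) + 1) = 4 by
        push_cast; ring]
      exact Real.rpow_le_rpow W0.le hWT (by norm_num)
    have e2 : T ^ (4 : ℝ) * (T ^ ((κ - 1) * (-A + 1 / 2)) * T ^ (-A)) ≤ 1 := by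
      rw [← Real.rpow_add T0, ← Real.rpow_add T0]
      exact Real.rpow_le_one_of_one_le_of_nonpos hT (by linarith)
    have e3 := mul_le_mul_of_nonneg_left ((mul_le_mul_of_nonneg_right e1 (by positivity)).trans e2)
      (by positivity : (0 : ℝ) ≤ 2 ^ A * 3 ^ (3 * (1 / 2 + A) + 1))
    rw [Real.mul_rpow (by positivity) (by positivity), ← Real.rpow_natCast, ← Real.rpow_mul W0.le,
      ← Real.rpow_mul T0.le, Real.div_rpow T0.le zero_le_two, Real.rpow_neg zero_le_two,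
      div_inv_eq_mul, Real.mul_rpow zero_le_three W0.le]
    linarith
  rw [(Sel.vf1_shift (by linarith) (W0.trans_le hV.1) y0 hC' d hg).1,
    (Sel.vf1_shift (by linarith) (W0.trans_le hV'.1) y0 hC' d hg).1, add_sub_add_left_eq_sub,
    two_mul]
  exact (norm_sub_le _ _).trans (add_le_add (key V hV) (key V' hV'))

end Pool.Agent.Lib.MP_2a1a00_nt
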