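import Pool.Agent.Lib.MP_2a1a00_nt.R.Stmt3

/-! The definitions used in the statement on the third power of the error term of order three. -/

namespace Pool.Agent.Lib.MP_2a1a00_nt

/-- The number of ways to write n as an ordered product of three positive integers. -/
def d3 (n : ℕ) : ℝ := ((ArithmeticFunction.zeta ^ 3) n : ℕ)

/-- The term d3 a * d3 b * d3 c / (a * b * c) ^ (2 / 3) if the cube roots of a and b add up to
the cube root of c, and zero otherwise. -/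
noncomputable def tc (p : ℕ × ℕ × ℕ) : ℝ :=
  if (p.1 : ℝ) ^ (1 / 3 : ℝ) + (p.2.1 : ℝ) ^ (1 / 3 : ℝ) = (p.2.2 : ℝ) ^ (1 / 3 : ℝ) then
    d3 p.1 * d3 p.2.1 * d3 p.2.2 / ((p.1 : ℝ) * p.2.1 * p.2.2) ^ (2 / 3 : ℝ) else 0

/-- The constant (8 √3 π ^ 3)⁻¹ * ∑ tc p, the sum being over all triples. -/
noncomputable def c3 : ℝ := 1 / (8 * √3 * Real.pi ^ 3) * ∑' p : ℕ × ℕ × ℕ, tc p

end Pool.Agent.Lib.MP_2a1a00_nt
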