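import Pool.Agent.Lib.MP_2a1a00_nt.C.Defs
import Pool.Agent.Lib.MP_2a1a00_nt.V.Vd

/-! The second derivative test for the phase u * n ^ (1 / 3). -/

namespace Pool.Agent.Lib.MP_2a1a00_nt

open Complex MeasureTheory Set

theorem v3_six {K : ℝ} (hK : 0 ≤ K) (n : ℕ) : K ^ ((n : ℝ) / 6) = (K ^ (1 / 6 : ℝ)) ^ n := by
  rw [← Real.rpow_natCast, ← Real.rpow_mul hK, one_div_mul_eq_div]

theorem v3_cube {x : ℝ} (hx : 0 < x) : (x ^ 3) ^ (1 / 3 - 1 - 1 : ℝ) = 1 / x ^ 5 := by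
  rw [← Real.rpow_natCast, ← Real.rpow_mul hx.le, one_div (x ^ 5), ← Real.rpow_natCast,
    ← Real.rpow_neg hx.le]
  norm_num

/- vdc with φ t = u * t ^ (1 / 3), lam = 2 / 9 * |u| * (8 K) ^ (-5 / 3), h = 32. -/
theorem vd3 : ∃ C : ℝ, 0 < C ∧ ∀ (u K : ℝ) (a b : ℕ), u ≠ 0 → 0 < K → K ≤ a → (b : ℝ) ≤ 8 * K →
    ‖∑ n ∈ Finset.Ico a b, e3 u n‖ ≤
      C * (√|u| * K ^ (1 / 6 : ℝ) + K ^ (5 / 6 : ℝ) / √|u|) := by
  obtain ⟨C, hC, H⟩ := vdc
  refine ⟨19 * C, by positivity, fun u K a b hu hK ha hb => ?_⟩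
  rcases le_total b a with hab | hab
  · rw [Finset.Ico_eq_empty_of_le hab, Finset.sum_empty, norm_zero]
    positivity
  have e5 := v3_six hK.le 5
  have e6 := v3_six hK.le 6
  have k0 : 0 < K ^ (1 / 6 : ℝ) := by positivity
  have s0 : 0 < √|u| := Real.sqrt_pos.2 (abs_pos.2 hu)
  have s2 : √|u| ^ 2 = |u| := Real.sq_sqrt (abs_nonneg u)
  rw [Nat.cast_ofNat] at e5 e6
  rw [div_self (by norm_num), Real.rpow_one] at e6
  rw [e5]
  generalize K ^ (1 / 6 : ℝ) = k at *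
  generalize √|u| = s at *
  subst e6
  have h0 : ∀ t ∈ Icc (a : ℝ) b, 0 < t := fun t ht => hK.trans_le (ha.trans ht.1)
  have h1 : ∀ t ∈ Icc (a : ℝ) b, (s / (12 * k ^ 5)) ^ 2 ≤ 2 / 9 * s ^ 2 * t ^ (1 / 3 - 1 - 1 : ℝ) ∧
      2 / 9 * s ^ 2 * t ^ (1 / 3 - 1 - 1 : ℝ) ≤ 32 * (s / (12 * k ^ 5)) ^ 2 := fun t ht => by
    have h2 := Real.rpow_le_rpow_of_nonpos (h0 t ht) (show t ≤ (2 * k ^ 2) ^ 3 by linarith [ht.2])
      (show (1 / 3 - 1 - 1 : ℝ) ≤ 0 by norm_num)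
    have h3 := Real.rpow_le_rpow_of_nonpos (by positivity)
      (show (k ^ 2) ^ 3 ≤ t by linarith [ht.1]) (show (1 / 3 - 1 - 1 : ℝ) ≤ 0 by norm_num)
    rw [v3_cube (by positivity)] at h2 h3
    refine ⟨le_of_eq_of_le ?_ (mul_le_mul_of_nonneg_left h2 (by positivity)),
      (mul_le_mul_of_nonneg_left h3 (by positivity)).trans_eq ?_⟩ <;> field_simp <;> norm_num
  have key := H (fun t => u * t ^ (1 / 3 : ℝ)) (fun t => u * (1 / 3 * t ^ (1 / 3 - 1 : ℝ)))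
    (fun t => u * (1 / 3 * ((1 / 3 - 1) * t ^ (1 / 3 - 1 - 1 : ℝ)))) a b ((s / (12 * k ^ 5)) ^ 2) 32
    hab (by positivity) (by norm_num)
    (fun t ht => (Real.hasDerivAt_rpow_const (.inl (h0 t ht).ne')).const_mul u)
    (fun t ht => ((Real.hasDerivAt_rpow_const (.inl (h0 t ht).ne')).const_mul _).const_mul u) (by
      rcases abs_choice u with h | h <;> rw [h] at s2
      · exact .inr fun t ht => by constructor <;> rw [← s2] <;> linarith [(h1 t ht).1, (h1 t ht).2]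
      · refine .inl fun t ht => ?_
        rw [← neg_eq_iff_eq_neg.2 s2]
        constructor <;> linarith [(h1 t ht).1, (h1 t ht).2])
  rw [Real.sqrt_sq (by positivity)] at key
  refine key.trans ?_
  rw [mul_comm 19 C, mul_assoc C]
  refine mul_le_mul_of_nonneg_left ?_ hC.le
  have h2 : ((b : ℝ) - a) * (s / (12 * k ^ 5)) ≤ 7 * k ^ 6 * (s / (12 * k ^ 5)) :=
    mul_le_mul_of_nonneg_right (by linarith) (by positivity)
  rw [show 7 * k ^ 6 * (s / (12 * k ^ 5)) = 7 / 12 * (s * k) by field_simp] at h2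
  rw [show 1 / (s / (12 * k ^ 5)) = 12 * (k ^ 5 / s) by field_simp]
  linarith [mul_pos s0 k0, show 0 < k ^ 5 / s by positivity]

end Pool.Agent.Lib.MP_2a1a00_nt
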