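import Pool.Agent.Lib.MP_2a1a00_nt.C.Defs
import Pool.Agent.Lib.MP_2a1a00_nt.V.Av

/-! Weighted third moments of averages. -/

namespace Pool.Agent.Lib.MP_2a1a00_nt

open Complex MeasureTheory Set

variable {v : ℝ → ℝ} {T W lam V₁ V₄ : ℝ}

/-- The weighted integral of the average of G. -/
noncomputable def Jv (W : ℝ) (v G : ℝ → ℝ) (T : ℝ) : ℝ :=
  ∫ x in T..2 * T, (∫ u in (-1 / 5 : ℝ)..(1 / 5), ph W u * G (x * Real.exp u)) * v x

theorem wta_bm {ι : Type} (s : Finset ι) {f : ι → ℝ → ℂ} (hf : ∀ i ∈ s, Bm (f i) T) :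
    Bm (fun x => ∑ i ∈ s, f i x) T := by
  classical
  induction s using Finset.induction_on with
  | empty => exact Bm.of_cont continuousOn_const
  | insert a s ha ih =>
    simp only [Finset.sum_insert ha]
    exact (hf a (Finset.mem_insert_self _ _)).add (ih fun i hi => hf i (Finset.mem_insert_of_mem hi))

/- ‖∑ f i‖ ^ 3 ≤ card ^ 2 * ∑ ‖f i‖ ^ 3 (pow_sum_le_card_mul_sum_pow), Bm.int_pow. -/
theorem mo3_sum {ι : Type} (s : Finset ι) {f : ι → ℝ → ℂ} (hT : 0 ≤ T) (hv : Continuous v)
    (h0 : ∀ x, 0 ≤ v x) (hf : ∀ i ∈ s, Bm (f i) T) :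
    mo 3 (fun x => ∑ i ∈ s, f i x) v T ≤ (s.card : ℝ) ^ 2 * ∑ i ∈ s, mo 3 (f i) v T := by
  have hi := fun i hi => (hf i hi).int_pow hT 3 hv.continuousOn
  simp only [mo]
  rw [← intervalIntegral.integral_finsetSum hi, ← intervalIntegral.integral_const_mul]
  refine intervalIntegral.integral_mono_on (by linarith)
    ((wta_bm s hf).int_pow hT 3 hv.continuousOn) (IntervalIntegrable.const_mul ?_ _) fun x _ => ?_
  · simpa only [Finset.sum_fn] using IntervalIntegrable.sum s hi
  · rw [← Finset.sum_mul, ← mul_assoc]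
    exact mul_le_mul_of_nonneg_right ((pow_le_pow_left₀ (norm_nonneg _) (norm_sum_le _ _) 3).trans
      (pow_sum_le_card_mul_sum_pow (fun _ _ => norm_nonneg _) 2)) (h0 x)

theorem mo3_tri {f g k : ℝ → ℂ} (hT : 0 ≤ T) (hv : Continuous v) (h0 : ∀ x, 0 ≤ v x) (hf : Bm f T)
    (hg : Bm g T) (hk : Bm k T) : mo 3 (fun x => f x - k x) v T ≤
      4 * mo 3 (fun x => f x - g x) v T + 4 * mo 3 (fun x => g x - k x) v T := by
  have := mo3_sum (Finset.univ : Finset Bool) (f := fun b x => if b then f x - g x else g x - k x)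
    hT hv h0 fun b _ => by cases b; exacts [hg.sub hk, hf.sub hg]
  simp only [Fintype.sum_bool, if_true, Bool.false_eq_true, if_false, sub_add_sub_cancel,
    Finset.card_univ, Fintype.card_bool, Nat.cast_ofNat] at this
  linarith

theorem mo3_sup {f : ℝ → ℂ} {ρ : ℝ} (hT : 0 ≤ T) (h : Wg v T W lam V₁ V₄) (hf : Bm f T) (hρ : 0 ≤ ρ)
    (hb : ∀ x ∈ Icc T (2 * T), ‖f x‖ ≤ ρ) : mo 3 f v T ≤ ρ ^ 3 * V₁ := by
  refine le_trans ?_ (mul_le_mul_of_nonneg_left h.one (pow_nonneg hρ 3))
  rw [← intervalIntegral.integral_const_mul]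
  exact intervalIntegral.integral_mono_on (by linarith) (hf.int_pow hT 3 h.cont.continuousOn)
    ((h.cont.intervalIntegrable _ _).const_mul _) fun x hx =>
      mul_le_mul_of_nonneg_right (pow_le_pow_left₀ (norm_nonneg _) (hb x hx) 3) (h.pos x)

theorem wta_young {a b t : ℝ} (ha : 0 ≤ a) (hb : 0 ≤ b) (ht : 0 < t) :
    a ^ 3 * b ≤ t * a ^ 4 + b ^ 4 / t ^ 3 := by
  rcases le_total b (t * a) with c | c
  · calc a ^ 3 * b ≤ a ^ 3 * (t * a) := by gcongr
      _ = t * a ^ 4 := by ring
      _ ≤ _ := le_add_of_nonneg_right (by positivity)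
  · refine le_add_of_nonneg_of_le (by positivity) ((le_div_iff₀ (pow_pos ht 3)).2 ?_)
    calc a ^ 3 * b * t ^ 3 = (t * a) ^ 3 * b := by ring
      _ ≤ b ^ 3 * b := by gcongr
      _ = b ^ 4 := by ring

/- Young: a ^ 3 * b ≤ t * a ^ 4 + b ^ 4 / t ^ 3 for a, b ≥ 0 (cases b ≤ t a or not). -/
theorem mo3_four {f : ℝ → ℂ} {t : ℝ} (hT : 0 ≤ T) (h : Wg v T W lam V₁ V₄) (hf : Bm f T)
    (ht : 0 < t) : mo 3 f v T ≤ t * mu0 4 f T + V₄ / t ^ 3 := by
  have i1 := (hf.int_pow0 hT 4).const_mul t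
  have i2 := ((h.cont.pow 4).intervalIntegrable (μ := volume) T (2 * T)).div_const (t ^ 3)
  refine (intervalIntegral.integral_mono_on (by linarith) (hf.int_pow hT 3 h.cont.continuousOn)
    (i1.add i2) fun x _ => wta_young (norm_nonneg _) (h.pos x) ht).trans ?_
  rw [intervalIntegral.integral_add i1 i2, intervalIntegral.integral_const_mul,
    intervalIntegral.integral_div]
  exact add_le_add le_rfl (div_le_div_of_nonneg_right h.four (pow_pos ht 3).le)

theorem wta_c1 {G : ℝ → ℝ} (hG : ContinuousOn G (Ioi 0)) {x : ℝ} (hx : 0 < x) :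
    Continuous fun u : ℝ => ph W u * G (x * Real.exp u) :=
  (continuous_ph W).mul (hG.comp_continuous (by fun_prop) fun u => mul_pos hx (Real.exp_pos u))

theorem wta_int {G : ℝ → ℝ} (hT : 0 < T) (hv : Continuous v) (hG : ContinuousOn G (Ioi 0)) :
    IntervalIntegrable (fun x => (∫ u in (-1 / 5 : ℝ)..(1 / 5), ph W u * G (x * Real.exp u)) * v x)
      volume T (2 * T) := by
  have hk : Continuous fun u : ℝ => G (Real.exp u) :=
    hG.comp_continuous Real.continuous_exp fun u => Real.exp_pos u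
  have hF := intervalIntegral.continuous_parametric_intervalIntegral_of_continuous'
    (f := fun u w : ℝ => ph W w * G (Real.exp (u + w))) (μ := volume)
    (((continuous_ph W).comp continuous_snd).mul (hk.comp (continuous_fst.add continuous_snd)))
    (-1 / 5) (1 / 5)
  refine ContinuousOn.intervalIntegrable (ContinuousOn.mul ?_ hv.continuousOn)
  rw [uIcc_of_le (by linarith)]
  refine (hF.comp_continuousOn (Real.continuousOn_log.mono fun x hx =>
    (hT.trans_le hx.1).ne')).congr fun x hx => ?_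
  simp only [Function.comp_apply, Real.exp_add, Real.exp_log (hT.trans_le hx.1)]

theorem wta_cube (hW : 0 < W) {f : ℝ → ℝ} (hf : Continuous f) (h0 : ∀ u, 0 ≤ f u) :
    (∫ u in (-1 / 5 : ℝ)..(1 / 5), ph W u * f u) ^ 3 ≤
      ∫ u in (-1 / 5 : ℝ)..(1 / 5), ph W u * f u ^ 3 := by
  obtain ⟨t, ht⟩ : ∃ t, t = ∫ u in (-1 / 5 : ℝ)..(1 / 5), ph W u * f u := ⟨_, rfl⟩
  have t0 : 0 ≤ t := ht ▸ intervalIntegral.integral_nonneg (by norm_num) fun u _ =>
    mul_nonneg (ph_pos hW u).le (h0 u)
  have c := continuous_ph W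
  have i1 := (c.intervalIntegrable (μ := volume) (-1 / 5) (1 / 5)).const_mul (2 * t ^ 3)
  have i2 := (c.mul (hf.pow 3)).intervalIntegrable (μ := volume) (-1 / 5) (1 / 5)
  have h1 := intervalIntegral.integral_mono_on (f := fun u => 3 * t ^ 2 * (ph W u * f u))
    (g := fun u => 2 * t ^ 3 * ph W u + ph W u * f u ^ 3) (by norm_num)
    (((c.mul hf).intervalIntegrable _ _).const_mul _) (i1.add i2) fun u _ => by
      have := mul_nonneg (ph_pos hW u).le
        (mul_nonneg (sq_nonneg (f u - t)) (add_nonneg (h0 u) (add_nonneg t0 t0)))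
      linarith
  rw [intervalIntegral.integral_add (g := fun u => ph W u * f u ^ 3) i1 i2,
    intervalIntegral.integral_const_mul, intervalIntegral.integral_const_mul, ← ht] at h1
  rw [← ht]
  have h2 := mul_le_mul_of_nonneg_left (av_mass hW) (pow_nonneg t0 3)
  linarith

/- Jensen: vav_norm, then a ^ 3 ≤ ∫ ph * f ^ 3 for a = ∫ ph * f (tangent line
3 a² f - 2 a³ ≤ f³, av_mass). -/
theorem wt_jen {h : ℝ → ℂ} (hT : 0 < T) (hW : 0 < W) (hv : Continuous v) (h0 : ∀ x, 0 ≤ v x)
    (hh : ContinuousOn h (Ioi 0)) : mo 3 (av W h) v T ≤ Jv W v (fun y => ‖h y‖ ^ 3) T := by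
  refine intervalIntegral.integral_mono_on (by linarith)
    ((bm_pos hT (av_cont hh)).int_pow hT.le 3 hv.continuousOn) (wta_int hT hv (hh.norm.pow 3))
    fun x hx => mul_le_mul_of_nonneg_right ?_ (h0 x)
  exact (pow_le_pow_left₀ (norm_nonneg _) (vav_norm hW h x) 3).trans
    (wta_cube hW (vav_cont hh (hT.trans_le hx.1)).norm fun _ => norm_nonneg _)

/- As in av_sq, replace G by the continuous function G (max y (T / 2)). -/
theorem wt_mono {G G₁ G₂ : ℝ → ℝ} {a b : ℝ} (hT : 0 < T) (hW : 0 < W) (hv : Continuous v)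
    (h0 : ∀ x, 0 ≤ v x) (hG : ContinuousOn G (Ioi 0)) (h1 : ContinuousOn G₁ (Ioi 0))
    (h2 : ContinuousOn G₂ (Ioi 0)) (h : ∀ y ∈ Icc (T / 2) (4 * T), G y ≤ a * G₁ y + b * G₂ y) :
    Jv W v G T ≤ a * Jv W v G₁ T + b * Jv W v G₂ T := by
  have i1 := (wta_int (W := W) hT hv h1).const_mul a
  have i2 := (wta_int (W := W) hT hv h2).const_mul b
  simp only [Jv]
  rw [← intervalIntegral.integral_const_mul, ← intervalIntegral.integral_const_mul,
    ← intervalIntegral.integral_add i1 i2]
  refine intervalIntegral.integral_mono_on (by linarith) (wta_int hT hv hG) (i1.add i2)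
    fun x hx => ?_
  have hx0 := hT.trans_le hx.1
  have j1 := ((wta_c1 (W := W) h1 hx0).intervalIntegrable (μ := volume) (-1 / 5) (1 / 5)).const_mul a
  have j2 := ((wta_c1 (W := W) h2 hx0).intervalIntegrable (μ := volume) (-1 / 5) (1 / 5)).const_mul b
  rw [← mul_assoc, ← mul_assoc, ← add_mul, ← intervalIntegral.integral_const_mul,
    ← intervalIntegral.integral_const_mul, ← intervalIntegral.integral_add j1 j2]
  refine mul_le_mul_of_nonneg_right (intervalIntegral.integral_mono_on (by norm_num)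
    ((wta_c1 hG hx0).intervalIntegrable _ _) (j1.add j2) fun u hu => ?_) (h0 x)
  have := mul_le_mul_of_nonneg_left (h _ (vav_mem hT hx (av_mem hu))) (ph_pos hW u).le
  linarith

theorem wtb_in {G L : ℝ → ℝ} (hT : 0 < T) (hW : 0 < W) (cG : Continuous G) (G0 : ∀ y, 0 ≤ G y)
    (cL : Continuous L) (eL : ∀ y, T / 2 ≤ y → L y = Real.log y) {x : ℝ} (hx : x ∈ Icc T (2 * T)) :
    ∫ u in (-1 / 5 : ℝ)..(1 / 5), ph W u * G (x * Real.exp u) ≤
      ∫ y in T / 2..4 * T, 2 / T * G y * ph W (L y - L x) := by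
  have hx0 := hT.trans_le hx.1
  have cp : Continuous fun y => ph W (L y - L x) := (continuous_ph W).comp (cL.sub continuous_const)
  have cg : Continuous fun y => 2 / T * G y * ph W (L y - L x) := (continuous_const.mul cG).mul cp
  have m1 := vav_mem hT hx (av_mem (v := -1 / 5) ⟨le_rfl, by norm_num⟩)
  have m2 := vav_mem hT hx (av_mem (v := 1 / 5) ⟨by norm_num, le_rfl⟩)
  have e := intervalIntegral.integral_comp_mul_deriv (a := -1 / 5) (b := 1 / 5)
    (f := fun u => x * Real.exp u) (f' := fun u => x * Real.exp u)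
    (fun u _ => (Real.hasDerivAt_exp u).const_mul x) (by fun_prop) cg
  refine le_trans ?_ (e.le.trans (intervalIntegral.integral_mono_interval m1.1
    (mul_le_mul_of_nonneg_left (Real.exp_le_exp.2 (by norm_num)) hx0.le) m2.2
    (Filter.Eventually.of_forall fun y =>
      mul_nonneg (mul_nonneg (by positivity) (G0 y)) (ph_pos hW _).le) (cg.intervalIntegrable _ _)))
  have ce : Continuous fun u => x * Real.exp u := by fun_prop
  refine intervalIntegral.integral_mono_on (by norm_num)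
    (((continuous_ph W).mul (cG.comp ce)).intervalIntegrable _ _)
    (((cg.comp ce).mul ce).intervalIntegrable _ _) fun u hu => ?_
  have m := (vav_mem hT hx (av_mem hu)).1
  have k : 1 ≤ 2 / T * (x * Real.exp u) := by
    rw [div_mul_eq_mul_div, one_le_div hT]
    linarith
  simp only [Function.comp_apply]
  rw [eL _ m, eL x (by linarith [hx.1]), Real.log_mul hx0.ne' (Real.exp_pos u).ne', Real.log_exp,
    add_sub_cancel_left]
  nlinarith [mul_le_mul_of_nonneg_left k (mul_nonneg (ph_pos hW u).le (G0 (x * Real.exp u)))]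

/- For fixed x substitute y = x exp u (x_sub-like, du = dy / y ≤ 2 dy / T), enlarge the range
to [T / 2, 4 T], swap (vav_swap, with log (max x (T / 2)) to have continuity), use Wg.loc. -/
theorem wt_loc {G : ℝ → ℝ} (hT : 0 < T) (hW : 0 < W) (h : Wg v T W lam V₁ V₄)
    (hG : ContinuousOn G (Ioi 0)) (G0 : ∀ y, 0 ≤ G y) :
    Jv W v G T ≤ 2 * lam * ∫ y in T / 2..4 * T, G y := by
  have cm : Continuous fun y : ℝ => max y (T / 2) := continuous_id.max continuous_const
  have pm : ∀ y, 0 < max y (T / 2) := fun y => lt_max_of_lt_right (half_pos hT)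
  obtain ⟨H, cH, H0, eH⟩ : ∃ H : ℝ → ℝ, Continuous H ∧ (∀ y, 0 ≤ H y) ∧ ∀ y, T / 2 ≤ y → G y = H y :=
    ⟨_, hG.comp_continuous cm pm, fun _ => G0 _, fun y hy => congrArg G (max_eq_left hy).symm⟩
  obtain ⟨L, cL, eL⟩ : ∃ L : ℝ → ℝ, Continuous L ∧ ∀ y, T / 2 ≤ y → L y = Real.log y :=
    ⟨_, cm.log fun y => (pm y).ne', fun y hy => congrArg Real.log (max_eq_left hy)⟩
  have hT2 : T ≤ 2 * T := by linarith
  have hT4 : T / 2 ≤ 4 * T := by linarith
  have cp := continuous_ph W
  have cv := h.cont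
  have cK : Continuous fun y => ∫ x in T..2 * T, ph W (L y - L x) * v x :=
    intervalIntegral.continuous_parametric_intervalIntegral_of_continuous'
      (f := fun y x => ph W (L y - L x) * v x) (by fun_prop) _ _
  calc Jv W v G T
      = ∫ x in T..2 * T, (∫ u in (-1 / 5 : ℝ)..(1 / 5), ph W u * H (x * Real.exp u)) * v x := by
        refine intervalIntegral.integral_congr fun x hx => congrArg (· * v x)
          (intervalIntegral.integral_congr fun u hu => ?_)
        rw [uIcc_of_le hT2] at hx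
        rw [uIcc_of_le (by norm_num)] at hu
        simp only [eH _ (vav_mem hT hx (av_mem hu)).1]
    _ ≤ ∫ x in T..2 * T, (∫ y in T / 2..4 * T, 2 / T * H y * ph W (L y - L x)) * v x :=
        intervalIntegral.integral_mono_on hT2
          (((intervalIntegral.continuous_parametric_intervalIntegral_of_continuous'
            (f := fun x u => ph W u * H (x * Real.exp u)) (by fun_prop) _ _).mul
            cv).intervalIntegrable _ _)
          (((intervalIntegral.continuous_parametric_intervalIntegral_of_continuous'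
            (f := fun x y => 2 / T * H y * ph W (L y - L x)) (by fun_prop) _ _).mul
            cv).intervalIntegrable _ _) fun x hx =>
          mul_le_mul_of_nonneg_right (wtb_in hT hW cH H0 cL eL hx) (h.pos x)
    _ = ∫ y in T / 2..4 * T, 2 / T * H y * ∫ x in T..2 * T, ph W (L y - L x) * v x := by
        simp only [← intervalIntegral.integral_mul_const, ← intervalIntegral.integral_const_mul,
          mul_assoc]
        exact vav_swap (f := fun x y => 2 / T * (H y * (ph W (L y - L x) * v x))) (by fun_prop) hT4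
    _ ≤ ∫ y in T / 2..4 * T, 2 * lam * H y := by
        refine intervalIntegral.integral_mono_on hT4
          (((continuous_const.mul cH).mul cK).intervalIntegrable _ _)
          ((continuous_const.mul cH).intervalIntegrable _ _) fun y hy => ?_
        have e : ∫ x in T..2 * T, ph W (L y - L x) * v x =
            ∫ x in T..2 * T, ph W (Real.log y - Real.log x) * v x :=
          intervalIntegral.integral_congr fun x hx => by
            rw [uIcc_of_le hT2] at hx
            simp only [eL y hy.1, eL x (by linarith [hx.1])]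
        rw [e]
        refine (mul_le_mul_of_nonneg_left (h.loc y hy)
          (mul_nonneg (by positivity) (H0 y))).trans_eq ?_
        field_simp
    _ = _ := by
        rw [intervalIntegral.integral_const_mul]
        refine congrArg _ (intervalIntegral.integral_congr fun y hy => ?_)
        rw [uIcc_of_le hT4] at hy
        exact (eH y hy.1).symm

theorem wta_swap {G : ℝ → ℝ} (hT : 0 < T) (hW : 0 < W) (hG : ContinuousOn G (Ioi 0))
    (h0 : ∀ y, 0 ≤ G y) :
    ∫ x in T..2 * T, ∫ u in (-1 / 5 : ℝ)..(1 / 5), ph W u * G (x * Real.exp u) ≤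
      2 * ∫ y in T / 2..4 * T, G y := by
  obtain ⟨F, hF⟩ : ∃ F : ℝ → ℝ, F = fun y => G (max y (T / 2)) := ⟨_, rfl⟩
  have cF : Continuous F := hF ▸ hG.comp_continuous (continuous_id.max continuous_const) fun y =>
    lt_max_of_lt_right (half_pos hT)
  have eF : ∀ y, T / 2 ≤ y → G y = F y := fun y hy => by rw [hF]; simp only [max_eq_left hy]
  have F0 : ∀ y, 0 ≤ F y := fun y => hF ▸ h0 _
  rw [intervalIntegral.integral_congr (f := G) (g := F) fun y hy => by
      rw [uIcc_of_le (by linarith)] at hy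
      exact eF y hy.1,
    intervalIntegral.integral_congr
      (g := fun x => ∫ u in (-1 / 5 : ℝ)..(1 / 5), ph W u * F (x * Real.exp u)) fun x hx => by
      rw [uIcc_of_le (by linarith)] at hx
      refine intervalIntegral.integral_congr fun u hu => ?_
      rw [uIcc_of_le (by norm_num)] at hu
      simp only [eF _ (vav_mem hT hx (av_mem hu)).1],
    vav_swap (f := fun x u : ℝ => ph W u * F (x * Real.exp u))
      (((continuous_ph W).comp continuous_snd).mul
        (cF.comp (continuous_fst.mul (Real.continuous_exp.comp continuous_snd)))) (by norm_num)]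
  simp only [intervalIntegral.integral_const_mul]
  refine vav_avg hW (intervalIntegral.continuous_parametric_intervalIntegral_of_continuous'
    (f := fun v x : ℝ => F (x * Real.exp v))
    (cF.comp (continuous_snd.mul (Real.continuous_exp.comp continuous_fst))) _ _)
    (mul_nonneg two_pos.le (intervalIntegral.integral_nonneg (by linarith) fun y _ => F0 y))
    fun v hv => ?_
  obtain ⟨h1, h2⟩ := av_mem hv
  have he := Real.exp_pos v
  rw [intervalIntegral.integral_comp_mul_right F he.ne', smul_eq_mul]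
  refine mul_le_mul ?_ ?_ (intervalIntegral.integral_nonneg (by nlinarith) fun y _ => F0 y)
    (by norm_num)
  · rw [inv_le_comm₀ he (by norm_num)]
    linarith
  · exact intervalIntegral.integral_mono_interval (by nlinarith) (by nlinarith)
      (by nlinarith) (Filter.Eventually.of_forall F0) (cF.intervalIntegrable _ _)

/- Young as in mo3_four under both integrals, then as in av_sq. -/
theorem wt_four {f : ℝ → ℂ} {t : ℝ} (hT : 0 < T) (hW : 0 < W) (h : Wg v T W lam V₁ V₄)
    (hf : ContinuousOn f (Ioi 0)) (ht : 0 < t) :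
    Jv W v (fun y => ‖f y‖ ^ 3) T ≤ 2 * t * wd 4 f T + V₄ / t ^ 3 := by
  have i1 := (wta_int (W := W) hT continuous_one (hf.norm.pow 4)).const_mul t
  have i2 := ((h.cont.pow 4).intervalIntegrable (μ := volume) T (2 * T)).div_const (t ^ 3)
  refine (intervalIntegral.integral_mono_on (by linarith) (wta_int hT h.cont (hf.norm.pow 3))
    (i1.add i2) fun x hx => ?_).trans ?_
  · have hx0 := hT.trans_le hx.1
    have j1 := ((wta_c1 (W := W) (hf.norm.pow 4) hx0).intervalIntegrable (μ := volume)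
      (-1 / 5) (1 / 5)).const_mul t
    have j2 := ((continuous_ph W).intervalIntegrable (μ := volume) (-1 / 5) (1 / 5)).mul_const
      (v x ^ 4 / t ^ 3)
    have h1 := intervalIntegral.integral_mono_on (by norm_num)
      (((wta_c1 (hf.norm.pow 3) hx0).intervalIntegrable _ _).mul_const (v x)) (j1.add j2)
      fun u _ => (mul_assoc _ _ _).trans_le ((mul_le_mul_of_nonneg_left
        (wta_young (norm_nonneg (f (x * Real.exp u))) (h.pos x) ht) (ph_pos hW u).le).trans_eq
          ((mul_add _ _ _).trans (congrArg (· + _) (mul_left_comm _ _ _))))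
    rw [intervalIntegral.integral_add j1 j2, intervalIntegral.integral_const_mul,
      intervalIntegral.integral_mul_const, intervalIntegral.integral_mul_const] at h1
    refine h1.trans (add_le_add (le_of_eq ?_) (mul_le_of_le_one_left ?_ (av_mass hW)))
    · rw [Pi.one_apply, mul_one]
    · exact div_nonneg (pow_nonneg (h.pos x) 4) (pow_pos ht 3).le
  · rw [intervalIntegral.integral_add i1 i2, intervalIntegral.integral_const_mul,
      intervalIntegral.integral_div, mul_comm 2 t, mul_assoc]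
    refine add_le_add (mul_le_mul_of_nonneg_left ?_ ht.le)
      (div_le_div_of_nonneg_right h.four (pow_pos ht 3).le)
    simp only [Pi.one_apply, mul_one]
    exact wta_swap hT hW (hf.norm.pow 4) fun _ => pow_nonneg (norm_nonneg _) 4

/- If L₄ = 0 the first case holds; there take t = Z / L₄, or t = 1 + V₄ / Z if L₄ = 0.  Second
case: min ^ 3 ≤ S ‖f‖².  Third case: ‖f‖³ ≤ β ‖f‖² + ‖f‖⁴ / β with β = lam * L₄ / Z (if lam = 0
use wt_loc directly). -/
theorem wt_one {f : ℝ → ℂ} {S Z L₂ L₄ : ℝ} (hT : 0 < T) (hW : 0 < W) (h : Wg v T W lam V₁ V₄)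
    (hf : ContinuousOn f (Ioi 0)) (hS : 0 ≤ S) (hZ : 0 < Z) (h2 : wd 2 f T ≤ L₂)
    (h4 : wd 4 f T ≤ L₄) (ho : Ok lam S V₄ Z L₂ L₄) :
    Jv W v (fun y => min ‖f y‖ S ^ 3) T ≤ 4 * Z := by
  have hT2 : T ≤ 2 * T := by linarith
  have l0 : 0 ≤ lam := nonneg_of_mul_nonneg_left ((intervalIntegral.integral_nonneg hT2 fun x _ =>
    mul_nonneg (ph_pos hW _).le (h.pos x)).trans (h.loc T ⟨by linarith, by linarith⟩)) hT
  have v0 : 0 ≤ V₄ := (intervalIntegral.integral_nonneg hT2 fun x _ =>
    pow_nonneg (h.pos x) 4).trans h.four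
  have p4 : 0 ≤ L₄ := (wd_nonneg 4 f hT.le).trans h4
  have cn (p : ℕ) : ContinuousOn (fun y => ‖f y‖ ^ p) (Ioi 0) := hf.norm.pow p
  have cm : ContinuousOn (fun y => min ‖f y‖ S ^ 3) (Ioi 0) :=
    (continuous_min.comp_continuousOn (hf.norm.prodMk continuousOn_const)).pow 3
  have m0 (y : ℝ) : 0 ≤ min ‖f y‖ S := le_min (norm_nonneg _) hS
  have m3 (y : ℝ) : min ‖f y‖ S ^ 3 ≤ ‖f y‖ ^ 3 := pow_le_pow_left₀ (m0 y) (min_le_left _ _) 3
  have k (p : ℕ) {L : ℝ} (hL : wd p f T ≤ L) : Jv W v (fun y => ‖f y‖ ^ p) T ≤ 2 * lam * L :=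
    (wt_loc hT hW h (cn p) fun y => by positivity).trans
      (mul_le_mul_of_nonneg_left hL (by positivity))
  have c1 : V₄ * L₄ ^ 3 ≤ Z ^ 4 → Jv W v (fun y => min ‖f y‖ S ^ 3) T ≤ 4 * Z := fun ho => by
    have a := wt_mono (a := 1) (b := 0) hT hW h.cont h.pos cm (cn 3) (cn 3) fun y _ => by
      linarith [m3 y]
    have b (t : ℝ) (ht : 0 < t) : Jv W v (fun y => min ‖f y‖ S ^ 3) T ≤ 2 * t * L₄ + V₄ / t ^ 3 := by
      linarith [wt_four hT hW h hf ht, mul_le_mul_of_nonneg_left h4 (by positivity : 0 ≤ 2 * t)]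
    rcases p4.eq_or_lt with rfl | p
    · have q : 0 ≤ V₄ / Z := div_nonneg v0 hZ.le
      have t1 : 1 ≤ 1 + V₄ / Z := by linarith
      refine (b _ (one_pos.trans_le t1)).trans ?_
      rw [mul_zero, zero_add, div_le_iff₀ (by positivity)]
      have e : Z * (1 + V₄ / Z) = Z + V₄ := by field_simp
      linarith [mul_le_mul_of_nonneg_left (le_self_pow₀ t1 three_ne_zero) hZ.le]
    · refine (b (Z / L₄) (div_pos hZ p)).trans ?_
      have e1 : 2 * (Z / L₄) * L₄ = 2 * Z := by field_simp
      have e2 : V₄ / (Z / L₄) ^ 3 ≤ Z := by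
        rw [div_pow, div_div_eq_mul_div, div_le_iff₀ (by positivity)]
        linarith
      linarith
  rcases ho with ho | ho | ho
  · exact c1 ho
  · have a := wt_mono (a := S) (b := 0) hT hW h.cont h.pos cm (cn 2) (cn 2) fun y _ => by
      have := mul_le_mul (min_le_right ‖f y‖ S) (pow_le_pow_left₀ (m0 y) (min_le_left _ _) 2)
        (pow_nonneg (m0 y) 2) hS
      linarith
    linarith [mul_le_mul_of_nonneg_left (k 2 h2) hS]
  · rcases p4.eq_or_lt with rfl | p
    · exact c1 (by simpa using pow_nonneg hZ.le 4)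
    rcases l0.eq_or_lt with rfl | l
    · linarith [wt_loc hT hW h cm fun y => pow_nonneg (m0 y) 3]
    have b0 : 0 < lam * L₄ / Z := by positivity
    obtain ⟨β, hβ⟩ : ∃ β, β = lam * L₄ / Z := ⟨_, rfl⟩
    rw [← hβ] at b0
    have a := wt_mono (a := β) (b := β⁻¹) hT hW h.cont h.pos cm (cn 2) (cn 4) fun y _ => by
      refine (m3 y).trans (le_of_mul_le_mul_left ?_ b0)
      rw [mul_add, mul_inv_cancel_left₀ b0.ne']
      nlinarith [mul_nonneg (sq_nonneg ‖f y‖) (sq_nonneg (β - ‖f y‖)),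
        mul_nonneg b0.le (pow_nonneg (norm_nonneg (f y)) 3)]
    have e1 : β * (2 * lam * L₂) ≤ 2 * Z := by
      rw [hβ, div_mul_eq_mul_div, div_le_iff₀ hZ]
      linarith
    have e2 : β⁻¹ * (2 * lam * L₄) = 2 * Z := by
      rw [hβ]
      field_simp
    linarith [mul_le_mul_of_nonneg_left (k 2 h2) b0.le,
      mul_le_mul_of_nonneg_left (k 4 h4) (inv_pos.2 b0).le]

theorem wtb_sum {ι : Type} (s : Finset ι) {G : ι → ℝ → ℝ} {Z : ℝ} (hT : 0 < T) (hW : 0 < W)
    (hv : Continuous v) (h0 : ∀ x, 0 ≤ v x) (hG : ∀ i ∈ s, ContinuousOn (G i) (Ioi 0))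
    (hZ : ∀ i ∈ s, Jv W v (G i) T ≤ Z) : Jv W v (fun y => ∑ i ∈ s, G i y) T ≤ s.card * Z := by
  classical
  induction s using Finset.induction_on with
  | empty => simp [Jv]
  | insert i s hi ih =>
    have c := continuousOn_finsetSum s fun j hj => hG j (Finset.mem_insert_of_mem hj)
    have := wt_mono (a := 1) (b := 1) hT hW hv h0 (continuousOn_finsetSum _ hG)
      (hG i (Finset.mem_insert_self _ _)) c fun y _ => by
        rw [Finset.sum_insert hi, one_mul, one_mul]
    rw [Finset.card_insert_of_notMem hi, Nat.cast_succ]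
    linarith [hZ i (Finset.mem_insert_self _ _), ih (fun j hj => hG j (Finset.mem_insert_of_mem hj))
      fun j hj => hZ j (Finset.mem_insert_of_mem hj)]

/- On [T / 2, 4 T]: ‖h‖ ≤ ρ + ∑ min ‖f i‖ S, so ‖h‖³ ≤ 4 ρ³ + 4 card² ∑ min³. -/
theorem wt_main {ι : Type} (s : Finset ι) {h : ℝ → ℂ} {f : ι → ℝ → ℂ} {S ρ Z : ℝ} (hT : 0 < T)
    (hW : 0 < W) (hv : Wg v T W lam V₁ V₄) (hh : ContinuousOn h (Ioi 0))
    (hf : ∀ i ∈ s, ContinuousOn (f i) (Ioi 0)) (hZ : 0 < Z)
    (hb : ∀ y ∈ Icc (T / 2) (4 * T), ‖h y‖ ≤ S ∧ ‖h y - ∑ i ∈ s, f i y‖ ≤ ρ)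
    (ho : ∀ i ∈ s, ∃ L₂ L₄ : ℝ, wd 2 (f i) T ≤ L₂ ∧ wd 4 (f i) T ≤ L₄ ∧ Ok lam S V₄ Z L₂ L₄) :
    mo 3 (av W h) v T ≤ 4 * (ρ ^ 3 * V₁) + 16 * (s.card : ℝ) ^ 3 * Z := by
  obtain ⟨b1, b2⟩ := hb T ⟨by linarith, by linarith⟩
  have hS := (norm_nonneg _).trans b1
  have hρ := (norm_nonneg _).trans b2
  have cm : ∀ i ∈ s, ContinuousOn (fun y => min ‖f i y‖ S ^ 3) (Ioi 0) := fun i hi =>
    (continuous_min.comp_continuousOn ((hf i hi).norm.prodMk continuousOn_const)).pow 3
  have k1 := wtb_sum s hT hW hv.cont hv.pos cm fun i hi =>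
    let ⟨_, _, h2, h4, h⟩ := ho i hi
    wt_one hT hW hv (hf i hi) hS hZ h2 h4 h
  have k2 : Jv W v (fun _ => 1) T ≤ V₁ := by
    refine le_trans ?_ hv.one
    simp only [Jv, mul_one, intervalIntegral.integral_const_mul]
    exact mul_le_of_le_one_left
      (intervalIntegral.integral_nonneg (by linarith) fun x _ => hv.pos x) (av_mass hW)
  have k3 := wt_mono (a := 4 * ρ ^ 3) (b := 4 * (s.card : ℝ) ^ 2) (G := fun y => ‖h y‖ ^ 3)
    (G₁ := fun _ => 1) hT hW hv.cont hv.pos (hh.norm.pow 3) continuousOn_const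
    (continuousOn_finsetSum _ cm) fun y hy => by
      have m0 : ∀ i ∈ s, 0 ≤ min ‖f i y‖ S := fun i _ => le_min (norm_nonneg _) hS
      have a1 : ‖h y‖ ≤ ρ + ∑ i ∈ s, min ‖f i y‖ S := by
        by_cases e : ∀ i ∈ s, ‖f i y‖ ≤ S
        · rw [Finset.sum_congr rfl fun i hi => min_eq_left (e i hi)]
          linarith [norm_sub_norm_le (h y) (∑ i ∈ s, f i y), (hb y hy).2,
            norm_sum_le s fun i => f i y]
        · simp only [not_forall, not_le] at e
          obtain ⟨i, hi, e⟩ := e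
          have := Finset.single_le_sum m0 hi
          simp only [min_eq_right e.le] at this
          linarith [(hb y hy).1]
      have a2 := pow_sum_le_card_mul_sum_pow m0 2
      have a3 := add_pow_le hρ (Finset.sum_nonneg m0) 3
      have a4 := pow_le_pow_left₀ (norm_nonneg _) a1 3
      norm_num at a2 a3 ⊢
      linarith
  linarith [wt_jen hT hW hv.cont hv.pos hh,
    mul_le_mul_of_nonneg_left k1 (by positivity : 0 ≤ 4 * (s.card : ℝ) ^ 2),
    mul_le_mul_of_nonneg_left k2 (by positivity : 0 ≤ 4 * ρ ^ 3)]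

end Pool.Agent.Lib.MP_2a1a00_nt
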